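import Mathlib

/-!
# Expanding cubic bipartite graphs from permutations

`bd A` is the number of blocks (of three elements) partially covered by `A`.  We show by counting
that some permutation `π` of `Fin N × Fin 3` satisfies `N / 20 ≤ bd A + bd (π A)` for every set `A`
of between `N` and `2 N` elements.
-/

namespace Pool.Agent.LocalSym

open Finset

/-- number of partially covered blocks -/
def bd {N : ℕ} (A : Finset (Fin N × Fin 3)) : ℕ :=
  #{a : Fin N | (∃ i, (a, i) ∈ A) ∧ ∃ i, (a, i) ∉ A}

/-- finite sets of pairs as families of subsets of `Fin 3` -/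
def famEquiv (N : ℕ) : Finset (Fin N × Fin 3) ≃ (Fin N → Finset (Fin 3)) where
  toFun A := fun a => univ.filter fun i => (a, i) ∈ A
  invFun f := univ.filter fun p => p.2 ∈ f p.1
  left_inv A := by ext ⟨a, i⟩; simp
  right_inv f := by funext a; ext i; simp

lemma sum_pow_bd (N : ℕ) (x : ℚ) :
    ∑ A : Finset (Fin N × Fin 3), x ^ bd A = (2 + 6 * x) ^ N := by
  classical
  have key : ∀ f : Fin N → Finset (Fin 3),
      x ^ bd ((famEquiv N).symm f) =
        ∏ a : Fin N, (if (∃ i, i ∈ f a) ∧ ∃ i, i ∉ f a then x else 1) := by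
    intro f
    rw [Finset.prod_ite]
    simp only [prod_const, one_pow, mul_one]
    congr 1
    unfold bd
    congr 1
    ext a
    simp [famEquiv]
  rw [← Equiv.sum_comp (famEquiv N).symm]
  rw [Finset.sum_congr rfl (fun f _ => key f)]
  have h2 : (∑ S : Finset (Fin 3), (if (∃ i, i ∈ S) ∧ ∃ i, i ∉ S then x else 1)) = 2 + 6 * x := by
    rw [Finset.sum_ite]
    simp only [sum_const, nsmul_eq_mul, mul_one]
    have e1 : #{S : Finset (Fin 3) | (∃ i, i ∈ S) ∧ ∃ i, i ∉ S} = 6 := by decide
    have e2 : #{S : Finset (Fin 3) | ¬((∃ i, i ∈ S) ∧ ∃ i, i ∉ S)} = 2 := by decide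
    rw [e1, e2]
    push_cast
    ring
  have h3 := Finset.prod_univ_sum (t := fun _ : Fin N => (univ : Finset (Finset (Fin 3))))
    (f := fun _ S => (if (∃ i, i ∈ S) ∧ ∃ i, i ∉ S then x else (1 : ℚ)))
  simp only [h2, prod_const, card_univ, Fintype.card_fin, Fintype.piFinset_univ] at h3
  exact h3.symm

/-- number of pairs with few partially covered blocks -/
lemma card_bad (N s : ℕ) :
    ((#{P : Finset (Fin N × Fin 3) × Finset (Fin N × Fin 3) | bd P.1 + bd P.2 < s} : ℕ) : ℚ)
      ≤ 60 ^ s * (441 / 100) ^ N := by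
  classical
  have h1 : ∑ P : Finset (Fin N × Fin 3) × Finset (Fin N × Fin 3),
      ((1 : ℚ) / 60) ^ (bd P.1 + bd P.2) = (441 / 100) ^ N := by
    have := sum_pow_bd N (1 / 60)
    rw [Fintype.sum_prod_type]
    simp only [pow_add]
    simp_rw [← Finset.mul_sum, ← Finset.sum_mul, this]
    rw [← mul_pow]
    norm_num
  have h2 : ((#{P : Finset (Fin N × Fin 3) × Finset (Fin N × Fin 3) | bd P.1 + bd P.2 < s} : ℕ) : ℚ)
      * (1 / 60) ^ s ≤ (441 / 100) ^ N := by
    rw [← h1, ← nsmul_eq_mul, ← Finset.sum_const]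
    refine le_trans (Finset.sum_le_sum (g := fun P => ((1 : ℚ) / 60) ^ (bd P.1 + bd P.2)) ?_) ?_
    · intro P hP
      simp only [mem_filter, mem_univ, true_and] at hP
      exact pow_le_pow_of_le_one (by norm_num) (by norm_num) hP.le
    · exact Finset.sum_le_sum_of_subset_of_nonneg (Finset.subset_univ _)
        (fun _ _ _ => by positivity)
  have h3 : (0 : ℚ) < (1 / 60) ^ s := by positivity
  have h4 : ((1 : ℚ) / 60) ^ s * 60 ^ s = 1 := by rw [← mul_pow]; norm_num
  calc _ = ((#{P : Finset (Fin N × Fin 3) × Finset (Fin N × Fin 3) | bd P.1 + bd P.2 < s} : ℕ) : ℚ)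
      * (1 / 60) ^ s * 60 ^ s := by rw [mul_assoc, h4, mul_one]
    _ ≤ (441 / 100) ^ N * 60 ^ s := by gcongr
    _ = _ := by ring

/-- the number of permutations mapping `A` to `B` -/
lemma card_fiber {α : Type*} [Fintype α] [DecidableEq α] (A B : Finset α) (h : #A = #B) :
    #{π : Equiv.Perm α | A.map π.toEmbedding = B} * (Fintype.card α).choose (#A)
      = Fintype.card (Equiv.Perm α) := by
  classical
  have hconst : ∀ B' ∈ powersetCard (#A) (univ : Finset α),
      #{π : Equiv.Perm α | A.map π.toEmbedding = B'} =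
        #{π : Equiv.Perm α | A.map π.toEmbedding = B} := by
    intro B' hB'
    have hc : #B = #B' := by rw [← h]; exact (mem_powersetCard.1 hB').2.symm
    obtain ⟨σ, hσ⟩ : ∃ σ : Equiv.Perm α, B.map σ.toEmbedding = B' := by
      have e : {x // x ∈ B} ≃ {x // x ∈ B'} := Finset.equivOfCardEq hc
      have e' : {x // x ∉ B} ≃ {x // x ∉ B'} := by
        apply Fintype.equivOfCardEq
        rw [Fintype.card_subtype_compl, Fintype.card_subtype_compl]
        simp [hc]
      refine ⟨(Equiv.sumCompl (· ∈ B)).symm.trans ((Equiv.sumCongr e e').trans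
        (Equiv.sumCompl (· ∈ B'))), ?_⟩
      apply Finset.eq_of_subset_of_card_le
      · intro y hy
        simp only [mem_map, Equiv.coe_toEmbedding] at hy
        obtain ⟨x, hx, rfl⟩ := hy
        simp [Equiv.sumCompl, hx]
      · simp [hc]
    refine Finset.card_bij' (fun π _ => π.trans σ.symm) (fun π _ => π.trans σ) ?_ ?_ ?_ ?_
    · intro π hπ
      simp only [mem_filter, mem_univ, true_and] at hπ ⊢
      subst hσ
      ext x
      have : x ∈ B ↔ σ x ∈ B.map σ.toEmbedding := by simp
      rw [this, ← hπ]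
      simp only [mem_map_equiv, Equiv.symm_trans_apply, Equiv.symm_symm]
    · intro π hπ
      simp only [mem_filter, mem_univ, true_and] at hπ ⊢
      subst hσ
      subst hπ
      ext x
      simp only [mem_map_equiv, Equiv.symm_trans_apply]
    · intro π _; ext x; simp
    · intro π _; ext x; simp
  have hsum := Finset.card_eq_sum_card_fiberwise
    (f := fun π : Equiv.Perm α => A.map π.toEmbedding) (s := univ)
    (t := powersetCard (#A) (univ : Finset α)) (by
      intro π _
      simp)
  rw [Finset.sum_congr rfl hconst] at hsum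
  rw [Finset.card_univ] at hsum
  rw [hsum, Finset.sum_const, smul_eq_mul, card_powersetCard, card_univ, mul_comm]

lemma choose_mid {N t : ℕ} (h1 : N ≤ t) (h2 : t ≤ 2 * N) :
    (3 * N).choose N ≤ (3 * N).choose t := by
  have aux : ∀ t, N ≤ t → 2 * t ≤ 3 * N + 1 → (3 * N).choose N ≤ (3 * N).choose t := by
    intro t ht
    induction t, ht using Nat.le_induction with
    | base => intro _; exact le_rfl
    | succ t ht ih =>
      intro h
      refine (ih (by omega)).trans ?_
      rcases Nat.lt_or_ge t (3 * N / 2) with h' | h'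
      · exact Nat.choose_le_succ_of_lt_half_left h'
      · have e : 3 * N - t = t + 1 := by omega
        rw [← Nat.choose_symm (show t ≤ 3 * N by omega), e]
  rcases Nat.lt_or_ge (3 * N + 1) (2 * t) with h | h
  · rw [← Nat.choose_symm (show t ≤ 3 * N by omega)]
    exact aux _ (by omega) (by omega)
  · exact aux t h1 h

lemma choose_step (N : ℕ) :
    (3 * (N + 1)).choose (N + 1) * ((N + 1) * (2 * N + 2) * (2 * N + 1)) =
      (3 * N).choose N * ((3 * N + 3) * (3 * N + 2) * (3 * N + 1)) := by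
  have h1 := Nat.choose_mul_factorial_mul_factorial (show N + 1 ≤ 3 * (N + 1) by omega)
  have h2 := Nat.choose_mul_factorial_mul_factorial (show N ≤ 3 * N by omega)
  have e1 : 3 * (N + 1) - (N + 1) = 2 * N + 1 + 1 := by omega
  have e2 : 3 * N - N = 2 * N := by omega
  have e3 : 3 * (N + 1) = 3 * N + 1 + 1 + 1 := by ring
  rw [e1, Nat.factorial_succ N, Nat.factorial_succ (2 * N + 1), Nat.factorial_succ (2 * N)] at h1
  rw [e3] at h1 ⊢
  rw [Nat.factorial_succ (3 * N + 1 + 1), Nat.factorial_succ (3 * N + 1),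
    Nat.factorial_succ (3 * N), ← h2, e2] at h1
  have hp : 0 < N.factorial * (2 * N).factorial := by positivity
  apply Nat.eq_of_mul_eq_mul_right hp
  nlinarith [h1]

lemma six_pow_le (N : ℕ) (hN : 20 ≤ N) : 6 ^ N ≤ (3 * N).choose N := by
  induction N, hN using Nat.le_induction with
  | base => decide +kernel
  | succ N hN ih =>
    have h := choose_step N
    have hp : 0 < (N + 1) * (2 * N + 2) * (2 * N + 1) := by positivity
    apply Nat.le_of_mul_le_mul_right _ hp
    rw [h]
    calc 6 ^ (N + 1) * ((N + 1) * (2 * N + 2) * (2 * N + 1))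
        = 6 ^ N * (6 * ((N + 1) * (2 * N + 2) * (2 * N + 1))) := by ring
      _ ≤ 6 ^ N * ((3 * N + 3) * (3 * N + 2) * (3 * N + 1)) := by
          apply Nat.mul_le_mul_left
          nlinarith [hN, sq_nonneg N, mul_le_mul hN hN (by norm_num) (by positivity)]
      _ ≤ _ := Nat.mul_le_mul_right _ ih

lemma numeric {N : ℕ} (hN : 20 ≤ N) :
    (60 : ℚ) ^ (N / 20) * (441 / 100) ^ N < 6 ^ N := by
  set q := N / 20 with hq
  have hq1 : 1 ≤ q := by omega
  have hle : 20 * q ≤ N := by omega
  have h1 : (60 : ℚ) < (600 / 441) ^ 20 := by norm_num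
  have h2 : (60 : ℚ) ^ q < (600 / 441) ^ N := by
    calc (60 : ℚ) ^ q < ((600 / 441) ^ 20) ^ q :=
          pow_lt_pow_left₀ h1 (by norm_num) (by omega)
      _ = (600 / 441) ^ (20 * q) := by rw [pow_mul]
      _ ≤ (600 / 441) ^ N := pow_le_pow_right₀ (by norm_num) hle
  calc (60 : ℚ) ^ q * (441 / 100) ^ N < (600 / 441) ^ N * (441 / 100) ^ N := by
        apply mul_lt_mul_of_pos_right h2; positivity
    _ = 6 ^ N := by rw [← mul_pow]; norm_num

theorem exists_expanding (N : ℕ) : ∃ π : Equiv.Perm (Fin N × Fin 3),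
    ∀ A : Finset (Fin N × Fin 3), N ≤ #A → #A ≤ 2 * N →
      N / 20 ≤ bd A + bd (A.map π.toEmbedding) := by
  classical
  by_contra hcon
  push Not at hcon
  have hN : 20 ≤ N := by
    by_contra h
    obtain ⟨A, _, _, h3⟩ := hcon 1
    have : N / 20 = 0 := by omega
    omega
  set Bad : Finset (Finset (Fin N × Fin 3) × Finset (Fin N × Fin 3)) :=
    {P | bd P.1 + bd P.2 < N / 20} with hBad
  set Bad' : Finset (Finset (Fin N × Fin 3) × Finset (Fin N × Fin 3)) :=
    {P | bd P.1 + bd P.2 < N / 20 ∧ N ≤ #P.1 ∧ #P.1 ≤ 2 * N ∧ #P.1 = #P.2} with hBad'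
  have hsub : (univ : Finset (Equiv.Perm (Fin N × Fin 3))) ⊆
      Bad'.biUnion fun P => {π : Equiv.Perm (Fin N × Fin 3) | P.1.map π.toEmbedding = P.2} := by
    intro π _
    obtain ⟨A, h1, h2, h3⟩ := hcon π
    simp only [mem_biUnion, mem_filter, mem_univ, true_and, hBad']
    exact ⟨(A, A.map π.toEmbedding), ⟨h3, h1, h2, by simp⟩, rfl⟩
  have hcard := (Finset.card_le_card hsub).trans Finset.card_biUnion_le
  rw [Finset.card_univ] at hcard
  have h1 : Fintype.card (Equiv.Perm (Fin N × Fin 3)) * (3 * N).choose N ≤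
      #Bad' * Fintype.card (Equiv.Perm (Fin N × Fin 3)) := by
    calc _ ≤ (∑ P ∈ Bad', #{π : Equiv.Perm (Fin N × Fin 3) | P.1.map π.toEmbedding = P.2}) *
          (3 * N).choose N := Nat.mul_le_mul_right _ hcard
      _ = ∑ P ∈ Bad', #{π : Equiv.Perm (Fin N × Fin 3) | P.1.map π.toEmbedding = P.2} *
          (3 * N).choose N := by rw [Finset.sum_mul]
      _ ≤ ∑ P ∈ Bad', Fintype.card (Equiv.Perm (Fin N × Fin 3)) := by
          apply Finset.sum_le_sum
          intro P hP
          simp only [hBad', mem_filter, mem_univ, true_and] at hP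
          obtain ⟨-, h1, h2, h3⟩ := hP
          rw [← card_fiber P.1 P.2 h3]
          apply Nat.mul_le_mul_left
          simp only [Fintype.card_prod, Fintype.card_fin]
          rw [mul_comm N 3]
          exact choose_mid h1 h2
      _ = _ := by rw [Finset.sum_const, smul_eq_mul]
  have hpos : 0 < Fintype.card (Equiv.Perm (Fin N × Fin 3)) := Fintype.card_pos
  have h2 : (3 * N).choose N ≤ #Bad' := by
    rw [mul_comm] at h1
    exact Nat.le_of_mul_le_mul_right h1 hpos
  have h3 : #Bad' ≤ #Bad := by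
    apply Finset.card_le_card
    intro P hP
    simp only [hBad', hBad, mem_filter, mem_univ, true_and] at hP ⊢
    exact hP.1
  have h4 : ((#Bad : ℕ) : ℚ) ≤ 60 ^ (N / 20) * (441 / 100) ^ N := card_bad N (N / 20)
  have h5 := numeric hN
  have h6 : ((6 ^ N : ℕ) : ℚ) ≤ ((#Bad : ℕ) : ℚ) := by
    exact_mod_cast (six_pow_le N hN).trans (h2.trans h3)
  push_cast at h6
  linarith

end Pool.Agent.LocalSym
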