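import Mathlib

/-!
# Subgroups of small index in `S₃ ^ ι`

A subgroup of index `< 2 ^ k` of `ι → Perm (Fin 3)` contains all but at most `2 (k - 1)` of the
coordinate rotations.
-/

namespace Pool.Agent.LocalSym

open Finset

/-- the rotation of `Fin 3` -/
def rot : Equiv.Perm (Fin 3) := finRotate 3

/-- coordinates at which the elements of `H` supported on lower coordinates do not take all values -/
def Low {ι : Type*} [LinearOrder ι] (H : Subgroup (ι → Equiv.Perm (Fin 3))) (j : ι) : Prop :=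
  ∃ u : Equiv.Perm (Fin 3), ∀ h ∈ H, (∀ i, j < i → h i = 1) → h j ≠ u

theorem two_pow_low_le_index {ι : Type*} [Fintype ι] [LinearOrder ι]
    (H : Subgroup (ι → Equiv.Perm (Fin 3))) [DecidablePred (Low H)] :
    2 ^ #{j : ι | Low H j} ≤ H.index := by
  classical
  have hu : ∀ j : ι, ∃ u : Equiv.Perm (Fin 3), Low H j →
      ∀ h ∈ H, (∀ i, j < i → h i = 1) → h j ≠ u := by
    intro j
    by_cases hj : Low H j
    · obtain ⟨u, hu⟩ := hj
      exact ⟨u, fun _ => hu⟩
    · exact ⟨1, fun h => absurd h hj⟩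
  choose u hu using hu
  set L : Finset ι := {j : ι | Low H j} with hL
  let G : Finset ι → (ι → Equiv.Perm (Fin 3)) := fun S j => if j ∈ S then u j else 1
  have hinj : ∀ S ∈ L.powerset, ∀ S' ∈ L.powerset,
      (QuotientGroup.mk (G S) : (ι → Equiv.Perm (Fin 3)) ⧸ H) = QuotientGroup.mk (G S') →
      S = S' := by
    intro S hS S' hS' hq
    by_contra hne
    rw [QuotientGroup.eq] at hq
    have hD : (symmDiff S S').Nonempty := by
      rw [Finset.nonempty_iff_ne_empty]
      intro h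
      exact hne (by simpa [Finset.symmDiff_eq_empty] using h)
    set j := (symmDiff S S').max' hD with hj
    have hjD : j ∈ symmDiff S S' := Finset.max'_mem _ _
    have hup : ∀ i, j < i → (i ∈ S ↔ i ∈ S') := by
      intro i hi
      by_contra hc
      have : i ∈ symmDiff S S' := by
        rw [Finset.mem_symmDiff]; tauto
      exact absurd (Finset.le_max' _ _ this) (not_le.2 hi)
    rw [Finset.mem_symmDiff] at hjD
    rcases hjD with ⟨h1, h2⟩ | ⟨h1, h2⟩
    · have hL1 : Low H j := by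
        have := Finset.mem_powerset.1 hS h1
        simpa [hL] using this
      refine hu j hL1 ((G S)⁻¹ * G S')⁻¹ (H.inv_mem hq) ?_ ?_
      · intro i hi
        by_cases hi' : i ∈ S' <;> simp [G, hup i hi, hi']
      · simp [G, h1, h2]
    · have hL1 : Low H j := by
        have := Finset.mem_powerset.1 hS' h1
        simpa [hL] using this
      refine hu j hL1 ((G S)⁻¹ * G S') hq ?_ ?_
      · intro i hi
        by_cases hi' : i ∈ S' <;> simp [G, hup i hi, hi']
      · simp [G, h1, h2]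
  have hfin : Finite ((ι → Equiv.Perm (Fin 3)) ⧸ H) := inferInstance
  rw [Subgroup.index, ← Finset.card_powerset]
  have := Fintype.ofFinite ((ι → Equiv.Perm (Fin 3)) ⧸ H)
  rw [Nat.card_eq_fintype_card, ← Finset.card_univ]
  exact Finset.card_le_card_of_injOn
    (fun S => (QuotientGroup.mk (G S) : (ι → Equiv.Perm (Fin 3)) ⧸ H))
    (fun _ _ => Finset.mem_coe.2 (Finset.mem_univ _))
    (fun S hS S' hS' h => hinj S hS S' hS' h)

lemma rot_mem_of_not_low {ι : Type*} [LinearOrder ι]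
    (H : Subgroup (ι → Equiv.Perm (Fin 3))) (j : ι) (h1 : ¬ Low H j)
    (h2 : ¬ Low (ι := ιᵒᵈ) H j) : Pi.mulSingle j rot ∈ H := by
  unfold Low at h1 h2
  push Not at h1 h2
  obtain ⟨h, hh, hup, hj⟩ := h1 (Equiv.swap 0 1)
  obtain ⟨z, hz, hlow, hzj⟩ : ∃ z : ι → Equiv.Perm (Fin 3), z ∈ H ∧ (∀ i, i < j → z i = 1) ∧
      z j = rot := by
    obtain ⟨z, hz, hlow, hzj⟩ := h2 rot
    exact ⟨z, hz, hlow, hzj⟩
  have hc : h * z * h⁻¹ * z⁻¹ ∈ H :=
    H.mul_mem (H.mul_mem (H.mul_mem hh hz) (H.inv_mem hh)) (H.inv_mem hz)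
  have he : h * z * h⁻¹ * z⁻¹ = Pi.mulSingle j rot := by
    funext i
    rcases lt_trichotomy i j with hi | hi | hi
    · have : z i = 1 := hlow i hi
      rw [Pi.mulSingle_eq_of_ne hi.ne]
      simp [this]
    · subst hi
      have hzj' : z i = rot := hzj
      rw [Pi.mulSingle_eq_same]
      simp only [Pi.mul_apply, Pi.inv_apply, hj, hzj']
      decide
    · have : h i = 1 := hup i hi
      rw [Pi.mulSingle_eq_of_ne hi.ne']
      simp [this]
  rwa [he] at hc

/-- all but `2 (k - 1)` coordinate rotations belong to a subgroup of index `< 2 ^ k` -/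
theorem card_rot_not_mem {N : ℕ} (H : Subgroup (Fin N → Equiv.Perm (Fin 3))) (k : ℕ)
    (hk : H.index < 2 ^ k) (T : Finset (Fin N))
    (hT : ∀ j ∈ T, Pi.mulSingle j rot ∉ H) : #T ≤ 2 * (k - 1) := by
  classical
  have hpos : 0 < H.index := Nat.pos_of_ne_zero Subgroup.index_ne_zero_of_finite
  have h1 := two_pow_low_le_index (ι := Fin N) H
  have h2 := two_pow_low_le_index (ι := (Fin N)ᵒᵈ) H
  have h1' : #{j : Fin N | Low H j} < k :=
    (Nat.pow_lt_pow_iff_right (by norm_num : 1 < 2)).1 (h1.trans_lt hk)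
  have h2' : #{j : (Fin N)ᵒᵈ | Low (ι := (Fin N)ᵒᵈ) H j} < k :=
    (Nat.pow_lt_pow_iff_right (by norm_num : 1 < 2)).1 (h2.trans_lt hk)
  have hsub : T ⊆ ({j : Fin N | Low H j} : Finset (Fin N)) ∪
      ({j : (Fin N)ᵒᵈ | Low (ι := (Fin N)ᵒᵈ) H j} : Finset (Fin N)ᵒᵈ) := by
    intro j hj
    by_contra hc
    apply hT j hj
    apply rot_mem_of_not_low
    · intro h
      exact hc (Finset.mem_union_left _ (by simpa using h))
    · intro h
      exact hc (Finset.mem_union_right _ (Finset.mem_filter.2 ⟨Finset.mem_univ _, h⟩))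
  have h3 := (Finset.card_le_card hsub).trans (Finset.card_union_le _ _)
  have h4 : #({j : (Fin N)ᵒᵈ | Low (ι := (Fin N)ᵒᵈ) H j} : Finset (Fin N)ᵒᵈ) < k := h2'
  have h5 : #T ≤ #{j : Fin N | Low H j} +
    #({j : (Fin N)ᵒᵈ | Low (ι := (Fin N)ᵒᵈ) H j} : Finset (Fin N)ᵒᵈ) := h3
  omega

end Pool.Agent.LocalSym
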