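import Pool.Agent.Work.MP_71c844_lc.RecMain

/-!
Choice of the parameters for the bound for CLIQUE with the better exponents.
-/

namespace Pool.Agent.LayCirc

open Pool.Agent.Rec82 (Uniq)

/-- choice of the size of the alphabet -/
lemma choose_kappa (b L v : ℕ) (hb1 : 1 ≤ b) (hL2 : 2 ≤ L) (hvL : v < 2 ^ L)
    (hv : 3072 * b * L ^ 2 ≤ v) :
    ∃ κ : ℕ, 4 ≤ κ ∧ κ + 2 ≤ L ∧ 8 * (24 * b * L ^ 2) * 2 ^ κ ≤ v ∧
      v < 16 * (24 * b * L ^ 2) * 2 ^ κ := by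
  obtain ⟨N, hN⟩ : ∃ N, N = 24 * b * L ^ 2 := ⟨_, rfl⟩
  rw [← hN]
  have hL4 : 4 ≤ L ^ 2 := by nlinarith
  have hN96 : 96 ≤ N := by
    rw [hN]
    calc 96 = 24 * 1 * 4 := by norm_num
      _ ≤ 24 * b * L ^ 2 := Nat.mul_le_mul (Nat.mul_le_mul_left _ hb1) hL4
  have hv' : 16 * (8 * N) ≤ v := by
    have : 16 * (8 * N) = 3072 * b * L ^ 2 := by rw [hN]; ring
    omega
  obtain ⟨X, hX⟩ : ∃ X, X = v / (8 * N) := ⟨_, rfl⟩
  have h8 : 0 < 8 * N := by omega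
  have hX16 : 16 ≤ X := by rw [hX, Nat.le_div_iff_mul_le h8]; exact hv'
  have h1 : 2 ^ (Nat.log 2 X) ≤ X := Nat.pow_log_le_self 2 (by omega)
  have h2 : X < 2 ^ (Nat.log 2 X + 1) := Nat.lt_pow_succ_log_self (by norm_num) X
  have h3 : X * (8 * N) ≤ v := by rw [hX]; exact Nat.div_mul_le_self v _
  have h4 : v < 8 * N * (X + 1) := by rw [hX]; exact Nat.lt_mul_div_succ v h8
  have h5 : 4 ≤ Nat.log 2 X := by
    have : 2 ^ 4 ≤ X := by norm_num; exact hX16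
    exact Nat.le_log_of_pow_le (by norm_num) this
  have h6 : 8 * N * 2 ^ (Nat.log 2 X) ≤ v := by
    refine le_trans ?_ h3
    rw [mul_comm X]
    exact Nat.mul_le_mul_left _ h1
  refine ⟨Nat.log 2 X, h5, ?_, h6, ?_⟩
  · have e1 : 2 ^ (Nat.log 2 X + 2) < 2 ^ L := by
      rw [pow_add]
      have e2 : 2 ^ 2 * 2 ^ Nat.log 2 X ≤ 8 * N * 2 ^ Nat.log 2 X :=
        Nat.mul_le_mul_right _ (by omega)
      have e3 : 2 ^ Nat.log 2 X * 2 ^ 2 = 2 ^ 2 * 2 ^ Nat.log 2 X := mul_comm _ _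
      omega
    exact ((Nat.pow_lt_pow_iff_right (by norm_num)).mp e1).le
  · have e1 : 8 * N * (X + 1) ≤ 8 * N * 2 ^ (Nat.log 2 X + 1) := Nat.mul_le_mul_left _ h2
    have e2 : 8 * N * 2 ^ (Nat.log 2 X + 1) = 16 * N * 2 ^ Nat.log 2 X := by
      rw [pow_succ]; ring
    omega

/-- the first regime -/
lemma rec_regime {v k b L s a P : ℕ} (hb1 : 1 ≤ b) (hL2 : 2 ≤ L) (hvL : v < 2 ^ L)
    (hk : 600 * b * L ^ 4 ≤ k) (hkv : 2 * k ≤ v) (hS : 2 * s < 2 ^ b)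
    (C : Circuit (Sym2 (Fin v) ⊕ (Fin a × Bool)) s) (o : Fin s)
    (hfree : ∀ j, Fed C j → ∀ (x : Sym2 (Fin v) → Bool) (y y' : Fin a → Bool),
      val C (withGuess x y) j = val C (withGuess x y') j)
    (hC : ∀ x : Sym2 (Fin v) → Bool, (∀ y, val C (withGuess x y) o = true) ↔
      ¬ (SimpleGraph.fromEdgeSet {e | x e = true}).CliqueFree k)
    (hP1 : 1 ≤ P)
    (hP : ∀ x : ℕ → (Sym2 (Fin v) → Bool), Monotone x →
      (Set.range (fun i => pattern C (withGuess (x i) fun _ => false))).ncard ≤ P) :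
    v ^ 2 < 2 ^ 33 * P * (a + b) * b ^ 2 * L ^ 7 := by
  by_contra hcon
  push Not at hcon
  have hL1 : 1 ≤ L := by omega
  have hbL : 1 ≤ b * L := Nat.one_le_iff_ne_zero.mpr (by positivity)
  -- the graph is large
  have hv1 : 3072 * b * L ^ 2 ≤ v := by
    have e1 : (3072 * b * L ^ 2) ^ 2 ≤ v ^ 2 := by
      refine le_trans ?_ hcon
      have f1 : (3072 * b * L ^ 2) ^ 2 = 9437184 * 1 * 1 * b ^ 2 * L ^ 4 := by ring
      rw [f1]
      apply Nat.mul_le_mul _ (Nat.pow_le_pow_right hL1 (by norm_num))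
      apply Nat.mul_le_mul_right
      apply Nat.mul_le_mul _ (by omega)
      exact Nat.mul_le_mul (by norm_num) hP1
    exact (Nat.pow_le_pow_iff_left two_ne_zero).mp e1
  obtain ⟨κ, hκ4, hκL, hκ1, hκ2⟩ := choose_kappa b L v hb1 hL2 hvL hv1
  obtain ⟨N, hN⟩ : ∃ N, N = 24 * b * L ^ 2 := ⟨_, rfl⟩
  rw [← hN] at hκ1 hκ2
  have hN1 : 1 ≤ N := by rw [hN]; exact Nat.one_le_iff_ne_zero.mpr (by positivity)
  have hNv : N ≤ v := by
    have e1 : 24 * b * L ^ 2 ≤ 3072 * b * L ^ 2 := by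
      apply Nat.mul_le_mul_right
      apply Nat.mul_le_mul_right
      norm_num
    omega
  obtain ⟨c, hc⟩ : ∃ c, c = L + 2 := ⟨_, rfl⟩
  obtain ⟨r, hr⟩ : ∃ r, r = 6 * c * (2 * b) := ⟨_, rfl⟩
  have hr1 : 1 ≤ r := by
    rw [hr]
    have : 0 < c := by omega
    exact Nat.one_le_iff_ne_zero.mpr (by positivity)
  have h4N : 4 * N ≤ 2 ^ c := by
    rw [hc, pow_add]; omega
  obtain ⟨g, hg⟩ := Rec82.exists_expander N c (2 * b) r (by omega) h4N hr.ge hr1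
  -- kappa (L+2) is at most L^2 - 4
  obtain ⟨e, he⟩ : ∃ e, L = κ + 2 + e := ⟨L - (κ + 2), by omega⟩
  have hcκ : c * κ + 4 ≤ L ^ 2 := by rw [hc, he]; nlinarith
  obtain ⟨K, hK⟩ : ∃ K, 2 * κ = 6 + K := ⟨2 * κ - 6, by omega⟩
  have hq : 64 * 2 ^ K = 2 ^ (2 * κ) := by rw [hK, pow_add]; norm_num
  have hparts : N * (4 * c * κ + 2) ≤ 96 * b * L ^ 4 := by
    have e1 : 4 * c * κ + 2 ≤ 4 * L ^ 2 := by
      have : 4 * c * κ = 4 * (c * κ) := by ring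
      omega
    calc N * (4 * c * κ + 2) ≤ N * (4 * L ^ 2) := Nat.mul_le_mul_left _ e1
      _ = 96 * b * L ^ 4 := by rw [hN]; ring
  have hbL4 : 96 * b * L ^ 4 ≤ 600 * b * L ^ 4 := by
    apply Nat.mul_le_mul_right
    apply Nat.mul_le_mul_right
    norm_num
  obtain ⟨d, hd⟩ : ∃ d, N * (4 * c * κ + 2) + d = k := ⟨k - N * (4 * c * κ + 2), by omega⟩
  have hvert : N * (16 * c * κ + 2 * 2 ^ κ) + d ≤ v := by
    have e1 : N * (16 * c * κ + 2 * 2 ^ κ) = N * (4 * c * κ + 2) + N * (12 * (c * κ)) +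
        2 * (N * 2 ^ κ) - 2 * N := by
      have : N * (16 * c * κ + 2 * 2 ^ κ) + 2 * N = N * (4 * c * κ + 2) + N * (12 * (c * κ)) +
        2 * (N * 2 ^ κ) := by ring
      omega
    have e2 : N * (12 * (c * κ)) ≤ 288 * b * L ^ 4 := by
      calc N * (12 * (c * κ)) ≤ N * (12 * L ^ 2) := by
            apply Nat.mul_le_mul_left
            apply Nat.mul_le_mul_left
            omega
        _ = 288 * b * L ^ 4 := by rw [hN]; ring
    have e3 : 8 * (N * 2 ^ κ) ≤ v := by rw [← mul_assoc]; exact hκ1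
    have e4 : 288 * b * L ^ 4 = 288 * (b * L ^ 4) := by ring
    have e5 : 600 * b * L ^ 4 = 600 * (b * L ^ 4) := by ring
    omega
  have hU : 2 * κ * r + 1 ≤ N := by
    have e1 : 2 * κ * r = 24 * (c * κ) * b := by rw [hr]; ring
    have e2 : 24 * (c * κ + 4) * b ≤ 24 * L ^ 2 * b :=
      Nat.mul_le_mul_right _ (Nat.mul_le_mul_left _ hcκ)
    have e3 : 24 * (c * κ + 4) * b = 24 * (c * κ) * b + 96 * b := by ring
    have e4 : N = 24 * L ^ 2 * b := by rw [hN]; ring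
    omega
  have hℓ : 2 * b < 2 ^ L := by
    have e1 : 3072 * b * 1 ≤ 3072 * b * L ^ 2 := Nat.mul_le_mul_left _ (Nat.one_le_pow _ _ hL1)
    omega
  have hKL : K ≤ 2 * L := by omega
  have hSR : 2 ^ K * (2 ^ a * ((2 * s + 1) * (N * 2 ^ (2 * κ) + 1) ^ (2 * b))) ≤
      2 ^ (a + 9 * b * L) := by
    have f1 : N * 2 ^ (2 * κ) + 1 ≤ 2 ^ (2 * L) := by
      have g1 : 8 * (N * 2 ^ κ) ≤ v := by rw [← mul_assoc]; exact hκ1
      have g2 : 2 ^ κ ≤ N * 2 ^ κ := Nat.le_mul_of_pos_left _ hN1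
      have g3 : N * 2 ^ (2 * κ) = (N * 2 ^ κ) * 2 ^ κ := by rw [two_mul, pow_add]; ring
      have g4 : (N * 2 ^ κ) * 2 ^ κ ≤ v * v := Nat.mul_le_mul (by omega) (by omega)
      have g5 : v * v < 2 ^ L * 2 ^ L := Nat.mul_lt_mul'' hvL hvL
      have g6 : 2 ^ (2 * L) = 2 ^ L * 2 ^ L := by rw [two_mul, pow_add]
      omega
    have f2 : 2 ^ K * (2 ^ a * ((2 * s + 1) * (N * 2 ^ (2 * κ) + 1) ^ (2 * b))) ≤
        2 ^ (2 * L) * (2 ^ a * (2 ^ b * (2 ^ (2 * L)) ^ (2 * b))) := by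
      apply Nat.mul_le_mul (Nat.pow_le_pow_right (by norm_num) hKL)
      apply Nat.mul_le_mul_left
      exact Nat.mul_le_mul (by omega) (Nat.pow_le_pow_left f1 _)
    refine f2.trans ?_
    rw [← pow_mul, ← pow_add, ← pow_add, ← pow_add]
    apply Nat.pow_le_pow_right (by norm_num)
    have g1 : 2 * L * (2 * b) = 4 * (b * L) := by ring
    have g2 : 9 * b * L = 9 * (b * L) := by ring
    have g3 : L ≤ b * L := Nat.le_mul_of_pos_left _ (by omega)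
    have g4 : b ≤ b * L := Nat.le_mul_of_pos_right _ (by omega)
    omega
  have hR : 1 ≤ a + 9 * b * L := by
    have g2 : 9 * b * L = 9 * (b * L) := by ring
    omega
  have key := rec_clique_bound g hg hb1 (by omega) hN1 hℓ hL1 (by omega) hq.le hd hvert hU C o
    hfree hP1 hP hS.le hSR hR hC
  -- the final comparison
  have e1 : 2 ^ K ≤ 792 * L ^ 3 * ((a + b) * P) := by
    refine key.trans ?_
    have f1 : a + 9 * b * L ≤ 9 * L * (a + b) := by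
      have g1 : 9 * L * (a + b) = 9 * L * a + 9 * b * L := by ring
      have g2 : a * 1 ≤ a * (9 * L) := Nat.mul_le_mul_left _ (by omega)
      have g3 : a * (9 * L) = 9 * L * a := by ring
      omega
    calc 44 * K * (L * (a + 9 * b * L) * P) ≤ 44 * (2 * L) * (L * (9 * L * (a + b)) * P) :=
          Nat.mul_le_mul (Nat.mul_le_mul_left _ hKL)
            (Nat.mul_le_mul_right _ (Nat.mul_le_mul_left _ f1))
      _ = 792 * L ^ 3 * ((a + b) * P) := by ring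
  have e2 : v ^ 2 < (16 * N * 2 ^ κ) ^ 2 := Nat.pow_lt_pow_left hκ2 (by norm_num)
  have e3 : (16 * N * 2 ^ κ) ^ 2 = 147456 * b ^ 2 * L ^ 4 * (64 * 2 ^ K) := by
    rw [hq, hN, two_mul, pow_add]; ring
  have e4 : 147456 * b ^ 2 * L ^ 4 * (64 * 2 ^ K) ≤
      147456 * b ^ 2 * L ^ 4 * (64 * (792 * L ^ 3 * ((a + b) * P))) :=
    Nat.mul_le_mul_left _ (Nat.mul_le_mul_left _ e1)
  have e5 : 147456 * b ^ 2 * L ^ 4 * (64 * (792 * L ^ 3 * ((a + b) * P))) =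
      7474249728 * (P * (a + b) * b ^ 2 * L ^ 7) := by ring
  have e6 : 7474249728 * (P * (a + b) * b ^ 2 * L ^ 7) ≤ 2 ^ 33 * (P * (a + b) * b ^ 2 * L ^ 7) :=
    Nat.mul_le_mul_right _ (by norm_num)
  have e7 : 2 ^ 33 * (P * (a + b) * b ^ 2 * L ^ 7) = 2 ^ 33 * P * (a + b) * b ^ 2 * L ^ 7 := by
    ring
  omega

/-- choice of the number of scales -/
lemma choose_K64 (p : ℕ) (hp : 4 ≤ p) :
    ∃ K : ℕ, 1 ≤ K ∧ 64 * 2 ^ K ≤ p ^ 4 ∧ p ^ 4 < 128 * 2 ^ K := by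
  obtain ⟨Q, hQ⟩ : ∃ Q, Q = p ^ 4 / 64 := ⟨_, rfl⟩
  have hQ2 : 2 ≤ Q := by
    rw [hQ, Nat.le_div_iff_mul_le (by norm_num)]
    calc 2 * 64 ≤ 4 ^ 4 := by norm_num
      _ ≤ p ^ 4 := Nat.pow_le_pow_left hp 4
  have hKQ : 2 ^ (Nat.log 2 Q) ≤ Q := Nat.pow_log_le_self 2 (by omega)
  have hKQ' : Q < 2 ^ (Nat.log 2 Q + 1) := Nat.lt_pow_succ_log_self (by norm_num) Q
  refine ⟨Nat.log 2 Q, Nat.log_pos (by norm_num) hQ2, ?_, ?_⟩
  · refine (Nat.mul_le_mul_left _ hKQ).trans ?_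
    rw [hQ]; exact Nat.mul_div_le _ _
  · rw [hQ] at hKQ'
    have h1 : p ^ 4 < 2 ^ (Nat.log 2 (p ^ 4 / 64) + 1) * 64 :=
      (Nat.div_lt_iff_lt_mul (by norm_num)).mp hKQ'
    rw [← hQ] at h1
    rw [pow_succ 2] at h1
    calc p ^ 4 < 2 ^ Nat.log 2 Q * 2 * 64 := h1
      _ = 128 * 2 ^ Nat.log 2 Q := by ring

/-- the second regime -/
lemma rec_regime_old {v k b L s a P : ℕ} (hb1 : 1 ≤ b) (hL2 : 2 ≤ L) (hvL : v < 2 ^ L)
    (hk : 90 * b ^ 2 * L ≤ k) (hkv : 2 * k ≤ v) (hS : 2 * s < 2 ^ b)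
    (C : Circuit (Sym2 (Fin v) ⊕ (Fin a × Bool)) s) (o : Fin s)
    (hfree : ∀ j, Fed C j → ∀ (x : Sym2 (Fin v) → Bool) (y y' : Fin a → Bool),
      val C (withGuess x y) j = val C (withGuess x y') j)
    (hC : ∀ x : Sym2 (Fin v) → Bool, (∀ y, val C (withGuess x y) o = true) ↔
      ¬ (SimpleGraph.fromEdgeSet {e | x e = true}).CliqueFree k)
    (hP1 : 1 ≤ P)
    (hP : ∀ x : ℕ → (Sym2 (Fin v) → Bool), Monotone x →
      (Set.range (fun i => pattern C (withGuess (x i) fun _ => false))).ncard ≤ P) :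
    v ^ 2 < 2 ^ 36 * P * (a + b) * b ^ 7 * L ^ 6 := by
  by_contra hcon
  push Not at hcon
  have hL1 : 1 ≤ L := by omega
  have hbL : 1 ≤ b * L := Nat.one_le_iff_ne_zero.mpr (by positivity)
  have hPab : b ≤ P * (a + b) := by
    calc b = 1 * b := (one_mul b).symm
      _ ≤ P * (a + b) := Nat.mul_le_mul hP1 (by omega)
  -- the graph is large
  have hv2 : 58320 * b ^ 4 * L ^ 3 ≤ v := by
    have e1 : (58320 * b ^ 4 * L ^ 3) ^ 2 ≤ v ^ 2 := by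
      refine le_trans ?_ hcon
      have f1 : (58320 * b ^ 4 * L ^ 3) ^ 2 = 3401222400 * (b * (b ^ 7 * L ^ 6)) := by ring
      have f2 : 2 ^ 36 * P * (a + b) * b ^ 7 * L ^ 6 = 2 ^ 36 * (P * (a + b) * (b ^ 7 * L ^ 6)) := by
        ring
      rw [f1, f2]
      exact Nat.mul_le_mul (by norm_num) (Nat.mul_le_mul_right _ hPab)
    exact (Nat.pow_le_pow_iff_left two_ne_zero).mp e1
  obtain ⟨p, hp, hNp, hp2v, hvp⟩ := choose_prime b L v hb1 hL2 hv2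
  have : Fact p.Prime := ⟨hp⟩
  have hpv : p ^ 2 ≤ v := by
    have e1 : 1 ≤ 180 * b ^ 2 * L := Nat.one_le_iff_ne_zero.mpr (by positivity)
    have e2 := Nat.mul_le_mul_left (p ^ 2) e1
    omega
  have hpL : p < 2 ^ L := by
    have e1 : p ^ 1 ≤ p ^ 2 := Nat.pow_le_pow_right hp.pos (by norm_num)
    rw [pow_one] at e1
    omega
  have h9bL : 9 * b * L = 9 * (b * L) := by ring
  obtain ⟨K, hK1, hq, hq'⟩ := choose_K64 p (by omega)
  have hKL : K ≤ 2 * L := by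
    have e1 : 2 ^ K < 2 ^ (2 * L) := by
      have f2 : p ^ 4 = (p ^ 2) ^ 2 := by ring
      have f3 : (p ^ 2) ^ 2 < (2 ^ L) ^ 2 := Nat.pow_lt_pow_left (by omega) (by norm_num)
      have f4 : (2 ^ L) ^ 2 = 2 ^ (2 * L) := by rw [← pow_mul, mul_comm]
      omega
    exact ((Nat.pow_lt_pow_iff_right (by norm_num)).mp e1).le
  obtain ⟨N, hN⟩ : ∃ N, N = 9 * b * L := ⟨_, rfl⟩
  rw [← hN] at hNp
  have hNbL : N = 9 * (b * L) := by rw [hN]; ring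
  have hpart : N * (8 * b + 2) ≤ 90 * b ^ 2 * L := by
    have e1 : N * (8 * b + 2) ≤ N * (10 * b) := Nat.mul_le_mul_left _ (by omega)
    have e2 : N * (10 * b) = 90 * b ^ 2 * L := by rw [hN]; ring
    omega
  obtain ⟨d, hd⟩ : ∃ d, N * (8 * b + 2) + d = k := ⟨k - N * (8 * b + 2), by omega⟩
  have hvert : N * (8 * b + 2) * p ^ 2 + d ≤ v := by
    have e1 := Nat.mul_le_mul_right (p ^ 2) hpart
    have e2 : p ^ 2 * (180 * b ^ 2 * L) = 2 * (90 * b ^ 2 * L * p ^ 2) := by ring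
    omega
  have hU : 2 * p ^ (8 * b) ≤ 2 ^ N := by
    have e1 : p ^ (8 * b) ≤ (2 ^ L) ^ (8 * b) := Nat.pow_le_pow_left hpL.le _
    have e2 : 2 * (2 ^ L) ^ (8 * b) = 2 ^ (8 * (b * L) + 1) := by
      rw [← pow_mul, pow_succ]; ring_nf
    have e3 : 2 ^ (8 * (b * L) + 1) ≤ 2 ^ N := Nat.pow_le_pow_right (by norm_num) (by omega)
    omega
  have hℓ : 2 * b < 2 ^ L := by
    have e1 : 58320 * b ^ 4 * L ^ 3 = 58320 * (b ^ 4 * L ^ 3) := by ring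
    have e2 : b * 1 ≤ b ^ 4 * L ^ 3 :=
      Nat.mul_le_mul (Nat.le_self_pow (by norm_num) b) (Nat.one_le_pow _ _ hL1)
    omega
  have hSR := size_bound' b L v p K (2 * s) N hb1 (by omega) hvL hp.two_le hNp hpv hKL hS
  have hSR' : 2 ^ K * (2 ^ a * ((2 * s + 1) * (N * p ^ 4 + 1) ^ (2 * b))) ≤
      2 ^ (a + 9 * b * L) := by
    have f1 : 2 ^ K * (2 ^ a * ((2 * s + 1) * (N * p ^ 4 + 1) ^ (2 * b))) =
        2 ^ a * (2 ^ K * (2 * s + 1) * (N * p ^ 4 + 1) ^ (2 * b)) := by ring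
    rw [f1, pow_add]
    exact Nat.mul_le_mul_left _ hSR
  have key := rec_clique_bound_old hb1 (by omega) hNp hℓ hL1 hK1 hq hd hvert hU C o hfree hP1 hP
    hS.le hSR' (by omega) hC
  have e1 : 2 ^ K ≤ 792 * L ^ 3 * ((a + b) * P) := by
    refine key.trans ?_
    have f1 : a + 9 * b * L ≤ 9 * L * (a + b) := by
      have g1 : 9 * L * (a + b) = 9 * L * a + 9 * b * L := by ring
      have g2 : a * 1 ≤ a * (9 * L) := Nat.mul_le_mul_left _ (by omega)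
      have g3 : a * (9 * L) = 9 * L * a := by ring
      omega
    calc 44 * K * (L * (a + 9 * b * L) * P) ≤ 44 * (2 * L) * (L * (9 * L * (a + b)) * P) :=
          Nat.mul_le_mul (Nat.mul_le_mul_left _ hKL)
            (Nat.mul_le_mul_right _ (Nat.mul_le_mul_left _ f1))
      _ = 792 * L ^ 3 * ((a + b) * P) := by ring
  have e2 : v ^ 2 < (720 * b ^ 2 * L * p ^ 2) ^ 2 := Nat.pow_lt_pow_left hvp (by norm_num)
  have e3 : (720 * b ^ 2 * L * p ^ 2) ^ 2 = 518400 * b ^ 4 * L ^ 2 * p ^ 4 := by ring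
  have e4 : 518400 * b ^ 4 * L ^ 2 * p ^ 4 ≤
      518400 * b ^ 4 * L ^ 2 * (128 * (792 * L ^ 3 * ((a + b) * P))) :=
    Nat.mul_le_mul_left _ (hq'.le.trans (Nat.mul_le_mul_left _ e1))
  have e5 : 518400 * b ^ 4 * L ^ 2 * (128 * (792 * L ^ 3 * ((a + b) * P))) =
      52553318400 * (P * (a + b) * (b ^ 4 * L ^ 5)) := by ring
  have e6 : 52553318400 * (P * (a + b) * (b ^ 4 * L ^ 5)) ≤
      2 ^ 36 * (P * (a + b) * (b ^ 7 * L ^ 6)) :=
    Nat.mul_le_mul (by norm_num) (Nat.mul_le_mul_left _ (Nat.mul_le_mul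
      (Nat.pow_le_pow_right hb1 (by norm_num)) (Nat.pow_le_pow_right hL1 (by norm_num))))
  have e7 : 2 ^ 36 * (P * (a + b) * (b ^ 7 * L ^ 6)) = 2 ^ 36 * P * (a + b) * b ^ 7 * L ^ 6 := by
    ring
  omega

end Pool.Agent.LayCirc
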