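import Pool.Agent.Work.MP_71c844_lc.NegApprox

namespace Pool.Agent.NegLim

set_option linter.unusedSectionVars false

open Finset

variable {E : Type*} [Fintype E] [DecidableEq E]

lemma shift_sum (Φ : ℕ → ℝ) (h0 : ∀ i, 0 ≤ Φ i) (h1 : ∀ i, Φ i ≤ 1) (m r : ℕ) :
    ∑ i ∈ range m, (Φ i - Φ (i + r)) ≤ r := by
  have e1 : ∑ i ∈ range m, Φ i ≤ ∑ i ∈ range (r + m), Φ i := by
    apply Finset.sum_le_sum_of_subset_of_nonneg
    · exact Finset.range_mono (by omega)
    · intro i _ _; exact h0 i
  rw [Finset.sum_range_add] at e1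
  have e2 : ∑ i ∈ range r, Φ i ≤ r := by
    calc ∑ i ∈ range r, Φ i ≤ ∑ i ∈ range r, (1 : ℝ) := Finset.sum_le_sum fun i _ => h1 i
      _ = r := by simp
  have e3 : ∑ i ∈ range m, Φ (r + i) = ∑ i ∈ range m, Φ (i + r) :=
    Finset.sum_congr rfl fun i _ => by rw [add_comm]
  rw [Finset.sum_sub_distrib]
  linarith

open Classical in
/-- The time that the chain spends in states from which `r` more steps suffice. -/
lemma chain_time {δ : ℝ} (h0 : 0 ≤ δ) (h1 : δ ≤ 1) (φ : Finset E → ℝ) (hφ : Anti φ)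
    (hφ0 : ∀ y, 0 ≤ φ y) (hφ1 : ∀ y, φ y ≤ 1) (r m : ℕ) (ε : ℝ) (hε : 0 ≤ ε) :
    ∑ i ∈ range m, Tn δ i (fun x => if Tn δ r φ x ≤ ε then φ x else 0) ∅ ≤ r + m * ε := by
  have hpt : ∀ x, (if Tn δ r φ x ≤ ε then φ x else 0) ≤ ε + (φ x - Tn δ r φ x) := by
    intro x
    have := Tn_le_self h0 h1 hφ r x
    split_ifs with h <;> linarith
  have h2 : ∀ i, Tn δ i (fun x => if Tn δ r φ x ≤ ε then φ x else 0) ∅ ≤
      ε + (Tn δ i φ ∅ - Tn δ (i + r) φ ∅) := by
    intro i
    calc Tn δ i (fun x => if Tn δ r φ x ≤ ε then φ x else 0) ∅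
        ≤ Tn δ i (fun x => ε + (φ x - Tn δ r φ x)) ∅ := Tn_mono h0 h1 hpt _ _
      _ = ε + (Tn δ i φ ∅ - Tn δ (i + r) φ ∅) := by
          rw [Tn_fadd, Tn_fsub, Tn_const, Tn_add]
  have h3 : ∀ i, 0 ≤ Tn δ i φ ∅ := fun i => by
    have := Tn_mono h0 h1 hφ0 i ∅
    rwa [Tn_const] at this
  have h4 : ∀ i, Tn δ i φ ∅ ≤ 1 := fun i => by
    have := Tn_mono h0 h1 hφ1 i ∅
    rwa [Tn_const] at this
  calc ∑ i ∈ range m, Tn δ i (fun x => if Tn δ r φ x ≤ ε then φ x else 0) ∅
      ≤ ∑ i ∈ range m, (ε + (Tn δ i φ ∅ - Tn δ (i + r) φ ∅)) := Finset.sum_le_sum fun i _ => h2 i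
    _ = m * ε + ∑ i ∈ range m, (Tn δ i φ ∅ - Tn δ (i + r) φ ∅) := by
        rw [Finset.sum_add_distrib, Finset.sum_const, card_range, nsmul_eq_mul]
    _ ≤ r + m * ε := by
        have := shift_sum (fun i => Tn δ i φ ∅) h3 h4 m r
        linarith

/-- number of low sets -/
lemma card_lowSets_le (b : ℕ) : (lowSets E b).card ≤ (Fintype.card E + 1) ^ (2 * b) := by
  classical
  have : (Fintype.card E + 1) ^ (2 * b) = Fintype.card (Fin (2 * b) → Option E) := by
    simp
  rw [this, ← Finset.card_univ]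
  apply Finset.card_le_card_of_surjOn
    (fun f : Fin (2 * b) → Option E => univ.filter (fun e => ∃ i, f i = some e))
  intro A hA
  rw [lowSets, Finset.coe_filter] at hA
  simp only [mem_univ, true_and, Set.mem_setOf_eq] at hA
  simp only [Finset.coe_univ, Set.image_univ, Set.mem_range]
  refine ⟨fun i => if h : i.1 < A.card then some ((A.equivFin.symm ⟨i.1, h⟩ : A) : E) else none, ?_⟩
  ext e
  simp only [mem_filter, mem_univ, true_and]
  constructor
  · rintro ⟨i, hi⟩
    split_ifs at hi with h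
    · simp only [Option.some.injEq] at hi
      rw [← hi]; exact (A.equivFin.symm ⟨i.1, h⟩).2
  · intro he
    refine ⟨⟨(A.equivFin ⟨e, he⟩).1, lt_of_lt_of_le (A.equivFin ⟨e, he⟩).2 hA⟩, ?_⟩
    simp

section main

variable {U : Type*} [Fintype U] [Nonempty U]

open Classical in
/-- Separation bound for one monotone candidate. -/
lemma separation {b K R m : ℕ} {q : ℝ} {Y : U → Finset E} (hb : 1 ≤ b) (hm : 2 ^ K = 2 * m)
    (hK : 1 ≤ K) (hR : 1 ≤ R)
    (hq : 16 * b * 2 ^ K ≤ q)
    (hY : ∀ A : Finset E, A.card ≤ 2 * b →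
      ((univ.filter (fun u => A ⊆ Y u)).card : ℝ) ≤ Fintype.card U * (1 / q) ^ A.card)
    (c : List (Gate E)) (hc : numNot c = 0) (j S : ℕ) (hcS : size c ≤ S) (hS : S ≤ 2 ^ b)
    (hSR : 2 ^ K * (S + 1) * (lowSets E b).card ≤ 2 ^ R) :
    ∑ i ∈ range m, Tn (1 / (2 : ℝ) ^ K) i (fun x =>
      (if gval c j x = true then (0 : ℝ) else 1) *
        (((univ.filter (fun u => gval c j (x ∪ Y u) = true)).card : ℝ) / Fintype.card U)) ∅ ≤
      11 * K * R := by
  set δ : ℝ := 1 / (2 : ℝ) ^ K with hδ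
  have hM : (0 : ℝ) < 2 ^ K := by positivity
  have h0 : 0 ≤ δ := by positivity
  have h1 : δ ≤ 1 := by
    rw [hδ, div_le_one hM]; exact one_le_pow₀ (by norm_num)
  have hb' : (1 : ℝ) ≤ b := by exact_mod_cast hb
  have hqpos : 0 < q := lt_of_lt_of_le (by positivity) hq
  have hUpos : (0 : ℝ) < Fintype.card U := by exact_mod_cast Fintype.card_pos
  set W : ℝ := ((lowSets E b).card : ℝ) with hW
  set ε : ℝ := (S + 1) * (W * (1 / 2) ^ R) with hε
  have hε0 : 0 ≤ ε := by positivity
  have hmε : (m : ℝ) * ε ≤ 1 := by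
    have e1 : ((2 : ℝ) ^ K * (S + 1) * W) ≤ 2 ^ R := by
      rw [hW]; exact_mod_cast hSR
    have e2 : (2 : ℝ) ^ K = 2 * m := by exact_mod_cast hm
    have e3 : (2 * m : ℝ) * ε ≤ 1 := by
      rw [← e2, hε]
      have e4 : (1 / 2 : ℝ) ^ R = 1 / 2 ^ R := by rw [div_pow, one_pow]
      rw [e4]
      have : (2 : ℝ) ^ K * ((S + 1) * (W * (1 / 2 ^ R))) = ((2 : ℝ) ^ K * (S + 1) * W) / 2 ^ R := by
        ring
      rw [this, div_le_one (by positivity)]
      exact e1
    have e5 : 0 ≤ (m : ℝ) * ε := by positivity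
    linarith
  let φ : Finset E → ℝ := fun x => if gval c j x = true then 0 else 1
  have hφ0 : ∀ x, 0 ≤ φ x := fun x => by simp only [φ]; split_ifs <;> norm_num
  have hφ1 : ∀ x, φ x ≤ 1 := fun x => by simp only [φ]; split_ifs <;> norm_num
  have hφa : Anti φ := by
    intro x y hxy
    simp only [φ]
    split_ifs with e1 e2 e2
    · exact le_rfl
    · exact zero_le_one
    · exact absurd (gval_mono c hc j hxy e2) e1
    · exact le_rfl
  let p : Finset E → ℝ := fun x =>
    ((univ.filter (fun u => gval c j (x ∪ Y u) = true)).card : ℝ) / Fintype.card U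
  have hp0 : ∀ x, 0 ≤ p x := fun x => by simp only [p]; positivity
  have hp1 : ∀ x, p x ≤ 1 := fun x => by
    simp only [p]; rw [div_le_one hUpos]
    exact_mod_cast Finset.card_filter_le _ _
  let B : ℕ → ℝ := fun k => 8 * b * 2 ^ K / 2 ^ k
  let η : ℕ → ℝ := fun k => 4 * (B k / q)
  have hB0 : ∀ k, 0 < B k := fun k => by simp only [B]; positivity
  have hη0 : ∀ k, 0 ≤ η k := fun k => by
    have := hB0 k
    simp only [η]; positivity
  have hBq : ∀ k, B k / q ≤ 1 / 2 := by
    intro k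
    rw [div_le_iff₀ hqpos]
    have : B k ≤ 8 * b * 2 ^ K := by
      simp only [B]
      apply div_le_self (by positivity)
      exact one_le_pow₀ (by norm_num)
    linarith
  -- scales
  have hscale : ∀ k, k ≤ K → Scale E U δ (2 ^ k) b R (B k) q Y := by
    intro k hk
    refine ⟨h0, h1, hB0 k, hqpos, hBq k, hb, ?_, fun A hA => by convert hY A hA⟩
    have hge := dens_ge (M := 2 ^ K) (n := 2 ^ k) (by positivity)
      (Nat.pow_le_pow_right (by norm_num) hk)
    push_cast at hge
    rw [← hδ] at hge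
    have e1 : B k * ((2 : ℝ) ^ k / (2 * 2 ^ K)) = 4 * b := by
      simp only [B]; field_simp; ring
    calc (4 : ℝ) * b = B k * ((2 : ℝ) ^ k / (2 * 2 ^ K)) := e1.symm
      _ ≤ B k * dens δ (2 ^ k) := mul_le_mul_of_nonneg_left hge (hB0 k).le
  -- dichotomy
  have hdich : ∀ k, k ≤ K → ∀ x, Tn δ (2 ^ k * R) φ x ≤ ε ∨ p x ≤ η k := by
    intro k hk x
    have hcS' : (size c : ℝ) ≤ S := by exact_mod_cast hcS
    rcases dichotomy (hscale k hk) x c hc j with h | h
    · left
      refine h.trans ?_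
      rw [hε]
      apply mul_le_mul_of_nonneg_right _ (by positivity)
      linarith
    · right
      simp only [p]
      rw [div_le_iff₀ hUpos]
      refine h.trans ?_
      rw [mul_comm]
      apply mul_le_mul_of_nonneg_right _ hUpos.le
      have hBk : 0 ≤ B k / q := div_nonneg (hB0 k).le hqpos.le
      have e1 : (B k / q) ^ (b + 1) ≤ (1 / 2) ^ b * (B k / q) := by
        rw [pow_succ]
        exact mul_le_mul_of_nonneg_right (pow_le_pow_left₀ hBk (hBq k) b) hBk
      have e2 : (size c : ℝ) * (1 / 2) ^ b ≤ 1 := by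
        have e3 : (S : ℝ) ≤ 2 ^ b := by exact_mod_cast hS
        have e4 : (1 / 2 : ℝ) ^ b = 1 / 2 ^ b := by rw [div_pow, one_pow]
        rw [e4, mul_one_div, div_le_one (by positivity)]
        linarith
      have e5 : (size c : ℝ) * (2 * (B k / q) ^ (b + 1)) ≤ 2 * (B k / q) := by
        calc (size c : ℝ) * (2 * (B k / q) ^ (b + 1))
            ≤ (size c : ℝ) * (2 * ((1 / 2) ^ b * (B k / q))) := by
              apply mul_le_mul_of_nonneg_left _ (by positivity)
              linarith
          _ = ((size c : ℝ) * (1 / 2) ^ b) * (2 * (B k / q)) := by ring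
          _ ≤ 1 * (2 * (B k / q)) := mul_le_mul_of_nonneg_right e2 (by positivity)
          _ = 2 * (B k / q) := one_mul _
      simp only [η]
      linarith
  -- the pointwise bound
  let D : ℕ → Finset E → ℝ := fun k x => if Tn δ (2 ^ k * R) φ x ≤ ε then φ x else 0
  have hD0 : ∀ k x, 0 ≤ D k x := fun k x => by
    simp only [D]; split_ifs
    · exact hφ0 x
    · exact le_rfl
  have hpt : ∀ x, φ x * p x ≤ D 0 x + ∑ k ∈ range K, η k * D (k + 1) x + η K := by
    intro x
    have hφ01 : φ x = 0 ∨ φ x = 1 := by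
      simp only [φ]; split_ifs <;> simp
    rcases hφ01 with hφx | hφx
    · rw [hφx, zero_mul]
      have : 0 ≤ ∑ k ∈ range K, η k * D (k + 1) x :=
        Finset.sum_nonneg fun k _ => mul_nonneg (hη0 k) (hD0 _ _)
      linarith [hD0 0 x, hη0 K]
    · rw [hφx, one_mul]
      have key : ∀ K', K' ≤ K → (p x ≤ D 0 x + ∑ k ∈ range K', η k * D (k + 1) x) ∨
          ¬ Tn δ (2 ^ K' * R) φ x ≤ ε := by
        intro K'
        induction K' with
        | zero =>
          intro _
          by_cases hh : Tn δ (2 ^ 0 * R) φ x ≤ ε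
          · left
            have : D 0 x = 1 := by simp only [D]; rw [if_pos hh, hφx]
            rw [this]; simpa using hp1 x
          · right; exact hh
        | succ K' ih =>
          intro hK'
          rcases ih (by omega) with hh | hh
          · left
            rw [Finset.sum_range_succ]
            have := mul_nonneg (hη0 K') (hD0 (K' + 1) x)
            linarith
          · by_cases h2 : Tn δ (2 ^ (K' + 1) * R) φ x ≤ ε
            · left
              have e1 : p x ≤ η K' := (hdich K' (by omega) x).resolve_left hh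
              have e2 : D (K' + 1) x = 1 := by simp only [D]; rw [if_pos h2, hφx]
              rw [Finset.sum_range_succ, e2, mul_one]
              have e3 : 0 ≤ ∑ k ∈ range K', η k * D (k + 1) x :=
                Finset.sum_nonneg fun k _ => mul_nonneg (hη0 k) (hD0 _ _)
              linarith [hD0 0 x]
            · right; exact h2
      rcases key K le_rfl with hh | hh
      · linarith [hη0 K]
      · have e1 : p x ≤ η K := (hdich K le_rfl x).resolve_left hh
        have e3 : 0 ≤ ∑ k ∈ range K, η k * D (k + 1) x :=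
          Finset.sum_nonneg fun k _ => mul_nonneg (hη0 k) (hD0 _ _)
        linarith [hD0 0 x]
  have hsum : ∑ i ∈ range m, Tn δ i (fun x => φ x * p x) ∅ ≤
      ∑ i ∈ range m, Tn δ i (D 0) ∅ + ∑ k ∈ range K, η k * ∑ i ∈ range m, Tn δ i (D (k + 1)) ∅ +
        m * η K := by
    have e1 : ∀ i ∈ range m, Tn δ i (fun x => φ x * p x) ∅ ≤
        Tn δ i (D 0) ∅ + ∑ k ∈ range K, η k * Tn δ i (D (k + 1)) ∅ + η K := by
      intro i _
      refine (Tn_mono h0 h1 hpt i ∅).trans (le_of_eq ?_)
      rw [Tn_fadd, Tn_const, Tn_fadd, Tn_sum]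
      congr 2
      refine Finset.sum_congr rfl fun k _ => ?_
      rw [Tn_smul]
    refine (Finset.sum_le_sum e1).trans (le_of_eq ?_)
    rw [Finset.sum_add_distrib, Finset.sum_add_distrib, Finset.sum_const, card_range,
      nsmul_eq_mul, Finset.sum_comm]
    congr 2
    refine Finset.sum_congr rfl fun k _ => ?_
    rw [Finset.mul_sum]
  refine hsum.trans ?_
  have hR' : (1 : ℝ) ≤ R := by exact_mod_cast hR
  have hK' : (1 : ℝ) ≤ K := by exact_mod_cast hK
  have t0 : ∑ i ∈ range m, Tn δ i (D 0) ∅ ≤ 2 * R := by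
    have := chain_time h0 h1 φ hφa hφ0 hφ1 (2 ^ 0 * R) m ε hε0
    have e1 : ∑ i ∈ range m, Tn δ i (D 0) ∅ ≤ ((2 ^ 0 * R : ℕ) : ℝ) + m * ε := this
    push_cast at e1
    linarith
  have t1 : ∀ k ∈ range K, η k * ∑ i ∈ range m, Tn δ i (D (k + 1)) ∅ ≤ 8 * R := by
    intro k _
    have := chain_time h0 h1 φ hφa hφ0 hφ1 (2 ^ (k + 1) * R) m ε hε0
    have e1 : ∑ i ∈ range m, Tn δ i (D (k + 1)) ∅ ≤ ((2 ^ (k + 1) * R : ℕ) : ℝ) + m * ε := this
    push_cast at e1
    have e2 : ∑ i ∈ range m, Tn δ i (D (k + 1)) ∅ ≤ 2 * 2 ^ (k + 1) * R := by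
      have : (1 : ℝ) ≤ 2 ^ (k + 1) := one_le_pow₀ (by norm_num)
      nlinarith
    calc η k * ∑ i ∈ range m, Tn δ i (D (k + 1)) ∅ ≤ η k * (2 * 2 ^ (k + 1) * R) :=
          mul_le_mul_of_nonneg_left e2 (hη0 k)
      _ = (16 * b * 2 ^ K / q) * (8 * R) := by
          simp only [η, B]; rw [pow_succ]; field_simp; ring
      _ ≤ 1 * (8 * R) := by
          apply mul_le_mul_of_nonneg_right _ (by positivity)
          rw [div_le_one hqpos]; exact hq
      _ = 8 * R := one_mul _
  have t2 : (m : ℝ) * η K ≤ 1 := by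
    have e1 : (2 : ℝ) ^ K = 2 * m := by exact_mod_cast hm
    have e2 : (m : ℝ) = 2 ^ K / 2 := by rw [e1]; ring
    have e3 : (m : ℝ) * η K = 16 * b * 2 ^ K / q := by
      simp only [η, B]
      rw [e2]; field_simp; ring
    rw [e3, div_le_one hqpos]; exact hq
  have t3 := Finset.sum_le_sum t1
  rw [Finset.sum_const, card_range, nsmul_eq_mul] at t3
  nlinarith

open Classical in
/-- The abstract lower bound. -/
theorem main_abstract {b K R N : ℕ} {q : ℝ} {Y : U → Finset E} (hb : 1 ≤ b)
    (hK : 1 ≤ K) (hq : 16 * b * 2 ^ K ≤ q)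
    (hY : ∀ A : Finset E, A.card ≤ 2 * b →
      ((univ.filter (fun u => A ⊆ Y u)).card : ℝ) ≤ Fintype.card U * (1 / q) ^ A.card)
    (hN : ∀ u, N ≤ (Y u).card) (hU : 2 * Fintype.card U ≤ 2 ^ N)
    (c : List (Gate E))
    (hc : ∀ x : Finset E, output c (fun e => decide (e ∈ x)) = true ↔ ∃ u, Y u ⊆ x)
    (hS : size c ≤ 2 ^ b)
    (hSR : 2 ^ K * (size c + 1) * (lowSets E b).card ≤ 2 ^ R) :
    2 ^ K ≤ 2 ^ numNot c * (88 * K * R) := by
  obtain ⟨K', rfl⟩ := Nat.exists_eq_add_of_le' hK
  set m : ℕ := 2 ^ K' with hmdef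
  have hm : 2 ^ (K' + 1) = 2 * m := by rw [pow_succ, mul_comm]
  have hR : 1 ≤ R := by
    by_contra hcon
    have hR0 : R = 0 := by omega
    rw [hR0, pow_zero] at hSR
    have e1 : 1 ≤ (lowSets E b).card := by
      rw [Nat.one_le_iff_ne_zero, Finset.card_ne_zero]
      exact ⟨∅, by simp [lowSets]⟩
    have e2 : 1 ≤ m := Nat.one_le_two_pow
    rw [hm] at hSR
    have e3 : 1 ≤ size c + 1 := by omega
    have : 2 * 1 * 1 * 1 ≤ 2 * m * (size c + 1) * (lowSets E b).card :=
      Nat.mul_le_mul (Nat.mul_le_mul (Nat.mul_le_mul le_rfl e2) e3) e1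
    omega
  set δ : ℝ := 1 / (2 : ℝ) ^ (K' + 1) with hδ
  have hM : (0 : ℝ) < 2 ^ (K' + 1) := by positivity
  have h0 : 0 ≤ δ := by positivity
  have h1 : δ ≤ 1 := by
    rw [hδ, div_le_one hM]; exact one_le_pow₀ (by norm_num)
  have hUpos : (0 : ℝ) < Fintype.card U := by exact_mod_cast Fintype.card_pos
  set L := allCands c with hL
  let ψ : Fin L.length → Finset E → ℝ := fun i x =>
    (if gval (L.get i).1 (L.get i).2 x = true then (0 : ℝ) else 1) *
        (((univ.filter (fun u => gval (L.get i).1 (L.get i).2 (x ∪ Y u) = true)).card : ℝ)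
          / Fintype.card U)
  let F : Finset E → ℝ := fun x => if ∃ u, Y u ⊆ x then 1 else 0
  -- covering
  have hcov : ∀ x, 1 ≤ F x + ∑ i, ψ i x := by
    intro x
    have hψ0 : ∀ i, 0 ≤ ψ i x := by
      intro i
      simp only [ψ]
      apply mul_nonneg
      · split_ifs <;> norm_num
      · positivity
    by_cases hx : ∃ u, Y u ⊆ x
    · have : F x = 1 := by simp only [F]; rw [if_pos hx]
      rw [this]
      have := Finset.sum_nonneg (fun i (_ : i ∈ (univ : Finset (Fin L.length))) => hψ0 i)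
      linarith
    · have hFx : F x = 0 := by simp only [F]; rw [if_neg hx]
      rw [hFx, zero_add]
      have hout : output c (fun e => decide (e ∈ x)) = false := by
        rw [← Bool.not_eq_true, hc x]; exact hx
      have hu : ∀ u : U, ∃ i : Fin L.length, gval (L.get i).1 (L.get i).2 x = false ∧
          gval (L.get i).1 (L.get i).2 (x ∪ Y u) = true := by
        intro u
        have hout' : output c (fun e => decide (e ∈ x ∪ Y u)) = true :=
          (hc _).mpr ⟨u, Finset.subset_union_right⟩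
        obtain ⟨p, hp, hp1, hp2⟩ := cover_output
          (a := fun e => decide (e ∈ x)) (b := fun e => decide (e ∈ x ∪ Y u))
          (fun e he => by
            simp only [decide_eq_true_eq] at he ⊢
            exact Finset.mem_union_left _ he) c hout hout'
        obtain ⟨i, hi⟩ := List.mem_iff_get.mp hp
        refine ⟨i, ?_, ?_⟩
        · rw [← hi] at hp1; exact hp1
        · rw [← hi] at hp2; exact hp2
      have hcount : (Fintype.card U : ℝ) ≤ ∑ i : Fin L.length,
          (if gval (L.get i).1 (L.get i).2 x = true then (0 : ℝ) else 1) *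
          ((univ.filter (fun u => gval (L.get i).1 (L.get i).2 (x ∪ Y u) = true)).card : ℝ) := by
        have e1 : ∀ u : U, (1 : ℝ) ≤ ∑ i : Fin L.length,
            (if gval (L.get i).1 (L.get i).2 x = true then (0 : ℝ) else 1) *
            (if gval (L.get i).1 (L.get i).2 (x ∪ Y u) = true then (1 : ℝ) else 0) := by
          intro u
          obtain ⟨i, hi1, hi2⟩ := hu u
          have := Finset.single_le_sum (f := fun i : Fin L.length =>
            (if gval (L.get i).1 (L.get i).2 x = true then (0 : ℝ) else 1) *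
            (if gval (L.get i).1 (L.get i).2 (x ∪ Y u) = true then (1 : ℝ) else 0))
            (fun i _ => by
              show (0 : ℝ) ≤ (if gval (L.get i).1 (L.get i).2 x = true then (0 : ℝ) else 1) *
                (if gval (L.get i).1 (L.get i).2 (x ∪ Y u) = true then (1 : ℝ) else 0)
              split_ifs <;> norm_num) (Finset.mem_univ i)
          refine le_trans (le_of_eq ?_) this
          simp only [hi1, hi2]
          norm_num
        have e2 := Finset.sum_le_sum (fun u (_ : u ∈ (univ : Finset U)) => e1 u)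
        rw [Finset.sum_const, Finset.card_univ, nsmul_eq_mul, mul_one, Finset.sum_comm] at e2
        refine e2.trans (le_of_eq ?_)
        refine Finset.sum_congr rfl fun i _ => ?_
        rw [← Finset.mul_sum]
        congr 1
        rw [Finset.sum_boole]
      have e3 : ∑ i, ψ i x = (∑ i : Fin L.length,
          (if gval (L.get i).1 (L.get i).2 x = true then (0 : ℝ) else 1) *
          ((univ.filter (fun u => gval (L.get i).1 (L.get i).2 (x ∪ Y u) = true)).card : ℝ))
            / Fintype.card U := by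
        rw [Finset.sum_div]
        refine Finset.sum_congr rfl fun i _ => ?_
        simp only [ψ]
        ring
      rw [e3, le_div_iff₀ hUpos, one_mul]
      exact hcount
  -- each candidate
  have hψ : ∀ i, ∑ s ∈ range m, Tn δ s (ψ i) ∅ ≤ 11 * ((K' + 1 : ℕ) : ℝ) * R := by
    intro i
    have hmem := mem_allCands (c := c) (p := L.get i) (List.get_mem L i)
    exact separation hb hm hK hR hq hY (L.get i).1 hmem.1 (L.get i).2 (size c) hmem.2 hS hSR
  -- the function itself is rarely 1
  have hF : ∀ s ∈ range m, Tn δ s F ∅ ≤ 1 / 2 := by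
    intro s hs
    rw [Finset.mem_range] at hs
    have hdens : dens δ s ≤ 1 / 2 := by
      refine (dens_le h0 h1 s).trans ?_
      rw [hδ, hmdef] at *
      have : (s : ℝ) ≤ 2 ^ K' := by exact_mod_cast hs.le
      rw [mul_one_div, div_le_div_iff₀ (by positivity) (by norm_num), pow_succ]
      linarith
    have hd0 := dens_nonneg h0 h1 s
    have e1 : Tn δ s F ∅ ≤ ∑ u : U, dens δ s ^ (Y u).card := by
      have hpt : ∀ x, F x ≤ ∑ u : U, (if Y u ⊆ x then (1 : ℝ) else 0) := by
        intro x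
        simp only [F]
        split_ifs with h
        · obtain ⟨u, hu⟩ := h
          have := Finset.single_le_sum (f := fun u : U => if Y u ⊆ x then (1 : ℝ) else 0)
            (fun u _ => by
              show (0 : ℝ) ≤ if Y u ⊆ x then (1 : ℝ) else 0
              split_ifs <;> norm_num) (Finset.mem_univ u)
          simpa [hu] using this
        · apply Finset.sum_nonneg; intro u _; split_ifs <;> norm_num
      refine (Tn_mono h0 h1 hpt s ∅).trans (le_of_eq ?_)
      rw [Tn_sum]
      refine Finset.sum_congr rfl fun u _ => ?_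
      rw [Tn_ind, Finset.sdiff_empty]
    refine e1.trans ?_
    have e2 : ∀ u ∈ (univ : Finset U), dens δ s ^ (Y u).card ≤ (1 / 2) ^ N := by
      intro u _
      calc dens δ s ^ (Y u).card ≤ (1 / 2) ^ (Y u).card := pow_le_pow_left₀ hd0 hdens _
        _ ≤ (1 / 2) ^ N := pow_le_pow_of_le_one (by norm_num) (by norm_num) (hN u)
    refine (Finset.sum_le_sum e2).trans ?_
    rw [Finset.sum_const, Finset.card_univ, nsmul_eq_mul]
    have e3 : (2 : ℝ) * Fintype.card U ≤ 2 ^ N := by exact_mod_cast hU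
    have e4 : (1 / 2 : ℝ) ^ N = 1 / 2 ^ N := by rw [div_pow, one_pow]
    rw [e4, mul_one_div, div_le_div_iff₀ (by positivity) (by norm_num)]
    linarith
  -- conclusion
  have htot : (m : ℝ) ≤ ∑ s ∈ range m, Tn δ s F ∅ + ∑ i, ∑ s ∈ range m, Tn δ s (ψ i) ∅ := by
    rw [Finset.sum_comm (s := univ), ← Finset.sum_add_distrib]
    have e1 : ∀ s ∈ range m, (1 : ℝ) ≤ Tn δ s F ∅ + ∑ i, Tn δ s (ψ i) ∅ := by
      intro s _
      have := Tn_mono h0 h1 hcov s ∅
      rw [Tn_const, Tn_fadd, Tn_sum] at this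
      exact this
    have := Finset.sum_le_sum e1
    simpa using this
  have e5 := Finset.sum_le_sum hF
  rw [Finset.sum_const, card_range, nsmul_eq_mul] at e5
  have e6 := Finset.sum_le_sum (fun i (_ : i ∈ (univ : Finset (Fin L.length))) => hψ i)
  rw [Finset.sum_const, Finset.card_univ, Fintype.card_fin, nsmul_eq_mul] at e6
  have e7 : (L.length : ℝ) ≤ 2 ^ (numNot c + 1) := by
    have := length_allCands c
    rw [← hL] at this
    have : L.length ≤ 2 ^ (numNot c + 1) := by omega
    exact_mod_cast this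
  have e8 : (m : ℝ) / 2 ≤ 2 ^ (numNot c + 1) * (11 * ((K' + 1 : ℕ) : ℝ) * R) := by
    have : (L.length : ℝ) * (11 * ((K' + 1 : ℕ) : ℝ) * R) ≤
        2 ^ (numNot c + 1) * (11 * ((K' + 1 : ℕ) : ℝ) * R) :=
      mul_le_mul_of_nonneg_right e7 (by positivity)
    linarith
  have e9 : ((2 ^ (K' + 1) : ℕ) : ℝ) ≤ ((2 ^ numNot c * (88 * (K' + 1) * R) : ℕ) : ℝ) := by
    rw [hm]
    push_cast at e8 ⊢
    rw [pow_succ] at e8
    linarith
  exact_mod_cast e9

end main

end Pool.Agent.NegLim
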