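import Pool.Agent.Work.MP_71c844_lc.LaySep

/-!
The abstract lower bound for adaptive families of monotone queries.
-/

namespace Pool.Agent.NegLim

set_option linter.unusedSectionVars false

open Finset

variable {E : Type*} [Fintype E] [DecidableEq E]

open Classical in
/-- Along an increasing sequence the information after `ℓ` rounds takes few values. -/
lemma card_states {H J : Type*} (st : ℕ → Finset E → H) (G : ℕ → H → J → Finset E → Bool)
    (A : ℕ → Finset J) (r : ℕ)
    (h0 : ∀ x y, st 0 x = st 0 y)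
    (hmono : ∀ ℓ < r, ∀ h, ∀ j ∈ A ℓ, ∀ x y, x ⊆ y → G ℓ h j x = true → G ℓ h j y = true)
    (hstep : ∀ ℓ < r, ∀ x y, st ℓ x = st ℓ y →
      (∀ j ∈ A ℓ, G ℓ (st ℓ x) j x = G ℓ (st ℓ x) j y) → st (ℓ + 1) x = st (ℓ + 1) y)
    (s : ℕ → Finset E) (hs : Monotone s) (m : ℕ) :
    ∀ ℓ ≤ r, ((range m).image (fun i => st ℓ (s i))).card ≤ ∏ i ∈ range ℓ, ((A i).card + 1) := by
  intro ℓ
  induction ℓ with
  | zero =>
    intro _
    rw [Finset.range_zero, Finset.prod_empty]
    apply Finset.card_le_one.mpr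
    intro a ha c hc
    rw [Finset.mem_image] at ha hc
    obtain ⟨i, _, rfl⟩ := ha
    obtain ⟨j, _, rfl⟩ := hc
    exact h0 _ _
  | succ ℓ ih =>
    intro hℓ
    have ih' := ih (by omega)
    let T : ℕ → Finset J := fun i => (A ℓ).filter (fun j => G ℓ (st ℓ (s i)) j (s i) = true)
    let key : ℕ → H × ℕ := fun i => (st ℓ (s i), (T i).card)
    -- the key determines the next state
    have hkey : ∀ i i', i ≤ i' → key i = key i' → st (ℓ + 1) (s i) = st (ℓ + 1) (s i') := by
      intro i i' hii hk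
      have hk1 : st ℓ (s i) = st ℓ (s i') := congrArg Prod.fst hk
      have hk2 : (T i).card = (T i').card := congrArg Prod.snd hk
      have hsub : T i ⊆ T i' := by
        intro j hj
        simp only [T, Finset.mem_filter] at hj ⊢
        refine ⟨hj.1, ?_⟩
        rw [← hk1]
        exact hmono ℓ (by omega) _ j hj.1 _ _ (hs hii) hj.2
      have hTT : T i = T i' := Finset.eq_of_subset_of_card_le hsub hk2.ge
      apply hstep ℓ (by omega) _ _ hk1
      intro j hj
      have h1 : j ∈ T i ↔ j ∈ T i' := by rw [hTT]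
      simp only [T, Finset.mem_filter, hj, true_and] at h1
      rw [← hk1] at h1
      exact Bool.eq_iff_iff.mpr h1
    have hkey' : ∀ i i', key i = key i' → st (ℓ + 1) (s i) = st (ℓ + 1) (s i') := by
      intro i i' hk
      rcases le_total i i' with h | h
      · exact hkey i i' h hk
      · exact (hkey i' i h hk.symm).symm
    -- count
    have hc1 : ((range m).image (fun i => st (ℓ + 1) (s i))).card ≤
        ((range m).image key).card := by
      have : (range m).image (fun i => st (ℓ + 1) (s i)) ⊆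
          ((range m).image key).image (fun κ => if h : ∃ i, key i = κ then
            st (ℓ + 1) (s h.choose) else st (ℓ + 1) (s 0)) := by
        intro a ha
        rw [Finset.mem_image] at ha
        obtain ⟨i, hi, rfl⟩ := ha
        rw [Finset.mem_image]
        refine ⟨key i, Finset.mem_image_of_mem _ hi, ?_⟩
        have hex : ∃ i', key i' = key i := ⟨i, rfl⟩
        simp only [dif_pos hex]
        exact hkey' _ _ hex.choose_spec
      exact (Finset.card_le_card this).trans Finset.card_image_le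
    have hc2 : ((range m).image key).card ≤
        ((range m).image (fun i => st ℓ (s i))).card * ((A ℓ).card + 1) := by
      have : (range m).image key ⊆
          ((range m).image (fun i => st ℓ (s i))) ×ˢ (range ((A ℓ).card + 1)) := by
        intro a ha
        rw [Finset.mem_image] at ha
        obtain ⟨i, hi, rfl⟩ := ha
        rw [Finset.mem_product, Finset.mem_range]
        refine ⟨Finset.mem_image_of_mem _ hi, ?_⟩
        exact Nat.lt_succ_of_le (Finset.card_le_card (Finset.filter_subset _ _))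
      have := Finset.card_le_card this
      rwa [Finset.card_product, Finset.card_range] at this
    rw [Finset.prod_range_succ]
    exact hc1.trans (hc2.trans (Nat.mul_le_mul_right _ ih'))

section main

variable {U : Type*} [Fintype U] [Nonempty U]

open Classical in
/-- **The abstract lower bound.** The planted function is not determined by few rounds of
monotone queries. -/
theorem main_rounds {H J : Type*} {b K N : ℕ} {q ε : ℝ} {Y : U → Finset E} (hb : 1 ≤ b)
    (hK : 1 ≤ K) (hq : 16 * b * 2 ^ K ≤ q) (hε0 : 0 ≤ ε) (hmε : 2 ^ K * ε ≤ 1)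
    (hN : ∀ u, N ≤ (Y u).card) (hU : 2 * Fintype.card U ≤ 2 ^ N)
    (R : ℕ → ℕ) (hR : ∀ ℓ, 1 ≤ R ℓ)
    (st : ℕ → Finset E → H) (G : ℕ → H → J → Finset E → Bool)
    (A : ℕ → Finset J) (r : ℕ)
    (h0 : ∀ x y, st 0 x = st 0 y)
    (hG : ∀ ℓ < r, ∀ h, ∀ j, Dich K (R ℓ) b q ε Y (G ℓ h j))
    (hstep : ∀ ℓ < r, ∀ x y, st ℓ x = st ℓ y →
      (∀ j ∈ A ℓ, G ℓ (st ℓ x) j x = G ℓ (st ℓ x) j y) → st (ℓ + 1) x = st (ℓ + 1) y)
    (hout : ∀ x y, st r x = st r y → ((∃ u, Y u ⊆ x) ↔ ∃ u, Y u ⊆ y)) :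
    2 ^ K ≤ 44 * K * ∑ ℓ ∈ range r, (A ℓ).card * (R ℓ * ∏ i ∈ range ℓ, ((A i).card + 1)) := by
  obtain ⟨K', rfl⟩ := Nat.exists_eq_add_of_le' hK
  set m : ℕ := 2 ^ K' with hmdef
  have hm : 2 ^ (K' + 1) = 2 * m := by rw [pow_succ, mul_comm]
  set δ : ℝ := 1 / (2 : ℝ) ^ (K' + 1) with hδ
  have hM : (0 : ℝ) < 2 ^ (K' + 1) := by positivity
  have h0' : 0 ≤ δ := by positivity
  have h1 : δ ≤ 1 := by
    rw [hδ, div_le_one hM]; exact one_le_pow₀ (by norm_num)
  have hUpos : (0 : ℝ) < Fintype.card U := by exact_mod_cast Fintype.card_pos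
  have hmε' : (m : ℝ) * ε ≤ 1 := by
    have e2 : (2 : ℝ) ^ (K' + 1) = 2 * m := by exact_mod_cast hm
    rw [e2] at hmε
    have e5 : 0 ≤ (m : ℝ) * ε := by positivity
    linarith
  let ψ : ℕ → J → Finset E → ℝ := fun ℓ j x =>
    (if G ℓ (st ℓ x) j x = true then (0 : ℝ) else 1) *
        (((univ.filter (fun u => G ℓ (st ℓ x) j (x ∪ Y u) = true)).card : ℝ) / Fintype.card U)
  let F : Finset E → ℝ := fun x => if ∃ u, Y u ⊆ x then 1 else 0
  have hψ0 : ∀ ℓ j x, 0 ≤ ψ ℓ j x := by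
    intro ℓ j x
    simp only [ψ]
    apply mul_nonneg
    · split_ifs <;> norm_num
    · positivity
  -- covering
  have hcov : ∀ x, 1 ≤ F x + ∑ ℓ ∈ range r, ∑ j ∈ A ℓ, ψ ℓ j x := by
    intro x
    by_cases hx : ∃ u, Y u ⊆ x
    · have : F x = 1 := by simp only [F]; rw [if_pos hx]
      rw [this]
      have : 0 ≤ ∑ ℓ ∈ range r, ∑ j ∈ A ℓ, ψ ℓ j x :=
        Finset.sum_nonneg fun ℓ _ => Finset.sum_nonneg fun j _ => hψ0 ℓ j x
      linarith
    · have hFx : F x = 0 := by simp only [F]; rw [if_neg hx]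
      rw [hFx, zero_add]
      have hu : ∀ u : U, ∃ ℓ ∈ range r, ∃ j ∈ A ℓ, G ℓ (st ℓ x) j x = false ∧
          G ℓ (st ℓ x) j (x ∪ Y u) = true := by
        intro u
        have hne : st r x ≠ st r (x ∪ Y u) := by
          intro h
          exact hx ((hout x (x ∪ Y u) h).mpr ⟨u, Finset.subset_union_right⟩)
        -- first differing round
        have hfirst : ∀ n, st n x ≠ st n (x ∪ Y u) → ∃ ℓ < n, st ℓ x = st ℓ (x ∪ Y u) ∧
            st (ℓ + 1) x ≠ st (ℓ + 1) (x ∪ Y u) := by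
          intro n
          induction n with
          | zero => intro h; exact absurd (h0 _ _) h
          | succ n ih =>
            intro h
            by_cases h2 : st n x = st n (x ∪ Y u)
            · exact ⟨n, Nat.lt_succ_self _, h2, h⟩
            · obtain ⟨ℓ, hℓ, h3⟩ := ih h2
              exact ⟨ℓ, by omega, h3⟩
        obtain ⟨ℓ, hℓ, he, hd⟩ := hfirst r hne
        refine ⟨ℓ, Finset.mem_range.mpr hℓ, ?_⟩
        by_contra hcon
        push Not at hcon
        apply hd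
        apply hstep ℓ hℓ x _ he
        intro j hj
        have h3 := hcon j hj
        rcases hgx : G ℓ (st ℓ x) j x with _ | _
        · have h4 := h3 hgx
          simp only [ne_eq, Bool.not_eq_true] at h4
          rw [h4]
        · exact ((hG ℓ hℓ (st ℓ x) j).mono x _ Finset.subset_union_left hgx).symm
      have hcount : (Fintype.card U : ℝ) ≤ ∑ ℓ ∈ range r, ∑ j ∈ A ℓ,
          (if G ℓ (st ℓ x) j x = true then (0 : ℝ) else 1) *
          ((univ.filter (fun u => G ℓ (st ℓ x) j (x ∪ Y u) = true)).card : ℝ) := by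
        have e1 : ∀ u : U, (1 : ℝ) ≤ ∑ ℓ ∈ range r, ∑ j ∈ A ℓ,
            (if G ℓ (st ℓ x) j x = true then (0 : ℝ) else 1) *
            (if G ℓ (st ℓ x) j (x ∪ Y u) = true then (1 : ℝ) else 0) := by
          intro u
          obtain ⟨ℓ, hℓ, j, hj, hi1, hi2⟩ := hu u
          have hnn : ∀ ℓ j, (0 : ℝ) ≤ (if G ℓ (st ℓ x) j x = true then (0 : ℝ) else 1) *
                (if G ℓ (st ℓ x) j (x ∪ Y u) = true then (1 : ℝ) else 0) := by
            intro ℓ j; split_ifs <;> norm_num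
          have s1 := Finset.single_le_sum (f := fun j =>
            (if G ℓ (st ℓ x) j x = true then (0 : ℝ) else 1) *
            (if G ℓ (st ℓ x) j (x ∪ Y u) = true then (1 : ℝ) else 0))
            (fun j _ => hnn ℓ j) hj
          have s2 := Finset.single_le_sum (f := fun ℓ => ∑ j ∈ A ℓ,
            (if G ℓ (st ℓ x) j x = true then (0 : ℝ) else 1) *
            (if G ℓ (st ℓ x) j (x ∪ Y u) = true then (1 : ℝ) else 0))
            (fun ℓ _ => Finset.sum_nonneg fun j _ => hnn ℓ j) hℓ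
          refine le_trans (le_of_eq ?_) (s1.trans s2)
          simp only [hi1, hi2]
          norm_num
        have e2 := Finset.sum_le_sum (fun u (_ : u ∈ (univ : Finset U)) => e1 u)
        rw [Finset.sum_const, Finset.card_univ, nsmul_eq_mul, mul_one, Finset.sum_comm] at e2
        refine e2.trans (le_of_eq ?_)
        refine Finset.sum_congr rfl fun ℓ _ => ?_
        rw [Finset.sum_comm]
        refine Finset.sum_congr rfl fun j _ => ?_
        rw [← Finset.mul_sum]
        congr 1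
        rw [Finset.sum_boole]
      have e3 : ∑ ℓ ∈ range r, ∑ j ∈ A ℓ, ψ ℓ j x = (∑ ℓ ∈ range r, ∑ j ∈ A ℓ,
          (if G ℓ (st ℓ x) j x = true then (0 : ℝ) else 1) *
          ((univ.filter (fun u => G ℓ (st ℓ x) j (x ∪ Y u) = true)).card : ℝ))
            / Fintype.card U := by
        rw [Finset.sum_div]
        refine Finset.sum_congr rfl fun ℓ _ => ?_
        rw [Finset.sum_div]
        refine Finset.sum_congr rfl fun j _ => ?_
        simp only [ψ]
        ring
      rw [e3, le_div_iff₀ hUpos, one_mul]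
      exact hcount
  -- each query
  have hψ : ∀ ℓ ∈ range r, ∀ j ∈ A ℓ, ∑ s ∈ range m, Tn δ s (ψ ℓ j) ∅ ≤
      11 * ((K' + 1 : ℕ) : ℝ) * R ℓ * (∏ i ∈ range ℓ, ((A i).card + 1) : ℕ) := by
    intro ℓ hℓ j hj
    rw [Finset.mem_range] at hℓ
    refine sep_adaptive (P := ∏ i ∈ range ℓ, ((A i).card + 1)) hb hm hK (hR ℓ) ?_ hq hε0 hmε'
      (st ℓ) (fun h => G ℓ h j) (fun h => hG ℓ hℓ h j) ?_
    · exact Nat.one_le_iff_ne_zero.mpr (Finset.prod_ne_zero_iff.mpr fun i _ => by omega)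
    · intro s hs
      refine le_trans (le_of_eq ?_) (card_states st G A r h0
        (fun ℓ hℓ h j _ => (hG ℓ hℓ h j).mono) hstep s hs m ℓ (by omega))
      congr!
  -- the function itself is rarely 1
  have hF : ∀ s ∈ range m, Tn δ s F ∅ ≤ 1 / 2 := by
    intro s hs
    rw [Finset.mem_range] at hs
    have hdens : dens δ s ≤ 1 / 2 := by
      refine (dens_le h0' h1 s).trans ?_
      rw [hδ, hmdef] at *
      have : (s : ℝ) ≤ 2 ^ K' := by exact_mod_cast hs.le
      rw [mul_one_div, div_le_div_iff₀ (by positivity) (by norm_num), pow_succ]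
      linarith
    have hd0 := dens_nonneg h0' h1 s
    have e1 : Tn δ s F ∅ ≤ ∑ u : U, dens δ s ^ (Y u).card := by
      have hpt : ∀ x, F x ≤ ∑ u : U, (if Y u ⊆ x then (1 : ℝ) else 0) := by
        intro x
        simp only [F]
        split_ifs with h
        · obtain ⟨u, hu⟩ := h
          have := Finset.single_le_sum (f := fun u : U => if Y u ⊆ x then (1 : ℝ) else 0)
            (fun u _ => by
              show (0 : ℝ) ≤ if Y u ⊆ x then (1 : ℝ) else 0
              split_ifs <;> norm_num) (Finset.mem_univ u)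
          simpa [hu] using this
        · apply Finset.sum_nonneg; intro u _; split_ifs <;> norm_num
      refine (Tn_mono h0' h1 hpt s ∅).trans (le_of_eq ?_)
      rw [Tn_sum]
      refine Finset.sum_congr rfl fun u _ => ?_
      rw [Tn_ind, Finset.sdiff_empty]
    refine e1.trans ?_
    have e2 : ∀ u ∈ (univ : Finset U), dens δ s ^ (Y u).card ≤ (1 / 2) ^ N := by
      intro u _
      calc dens δ s ^ (Y u).card ≤ (1 / 2) ^ (Y u).card := pow_le_pow_left₀ hd0 hdens _
        _ ≤ (1 / 2) ^ N := pow_le_pow_of_le_one (by norm_num) (by norm_num) (hN u)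
    refine (Finset.sum_le_sum e2).trans ?_
    rw [Finset.sum_const, Finset.card_univ, nsmul_eq_mul]
    have e3 : (2 : ℝ) * Fintype.card U ≤ 2 ^ N := by exact_mod_cast hU
    have e4 : (1 / 2 : ℝ) ^ N = 1 / 2 ^ N := by rw [div_pow, one_pow]
    rw [e4, mul_one_div, div_le_div_iff₀ (by positivity) (by norm_num)]
    linarith
  -- conclusion
  have htot : (m : ℝ) ≤ ∑ s ∈ range m, Tn δ s F ∅ +
      ∑ ℓ ∈ range r, ∑ j ∈ A ℓ, ∑ s ∈ range m, Tn δ s (ψ ℓ j) ∅ := by
    have e0 : ∑ ℓ ∈ range r, ∑ j ∈ A ℓ, ∑ s ∈ range m, Tn δ s (ψ ℓ j) ∅ =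
        ∑ s ∈ range m, ∑ ℓ ∈ range r, ∑ j ∈ A ℓ, Tn δ s (ψ ℓ j) ∅ := by
      rw [Finset.sum_comm (s := range m)]
      refine Finset.sum_congr rfl fun ℓ _ => ?_
      rw [Finset.sum_comm]
    rw [e0, ← Finset.sum_add_distrib]
    have e1 : ∀ s ∈ range m, (1 : ℝ) ≤ Tn δ s F ∅ + ∑ ℓ ∈ range r, ∑ j ∈ A ℓ, Tn δ s (ψ ℓ j) ∅ := by
      intro s _
      have := Tn_mono h0' h1 hcov s ∅
      rw [Tn_const, Tn_fadd, Tn_sum] at this
      refine this.trans (le_of_eq ?_)
      congr 1
      refine Finset.sum_congr rfl fun ℓ _ => ?_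
      rw [Tn_sum]
    have := Finset.sum_le_sum e1
    simpa using this
  have e5 := Finset.sum_le_sum hF
  rw [Finset.sum_const, card_range, nsmul_eq_mul] at e5
  have e6 : ∑ ℓ ∈ range r, ∑ j ∈ A ℓ, ∑ s ∈ range m, Tn δ s (ψ ℓ j) ∅ ≤
      ∑ ℓ ∈ range r, ((A ℓ).card : ℝ) *
        (11 * ((K' + 1 : ℕ) : ℝ) * R ℓ * (∏ i ∈ range ℓ, ((A i).card + 1) : ℕ)) := by
    refine Finset.sum_le_sum fun ℓ hℓ => ?_
    refine (Finset.sum_le_sum fun j hj => hψ ℓ hℓ j hj).trans (le_of_eq ?_)
    rw [Finset.sum_const, nsmul_eq_mul]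
  have e7 : ∑ ℓ ∈ range r, ((A ℓ).card : ℝ) *
        (11 * ((K' + 1 : ℕ) : ℝ) * R ℓ * (∏ i ∈ range ℓ, ((A i).card + 1) : ℕ)) =
      11 * ((K' + 1 : ℕ) : ℝ) *
        ((∑ ℓ ∈ range r, (A ℓ).card * (R ℓ * ∏ i ∈ range ℓ, ((A i).card + 1)) : ℕ) : ℝ) := by
    rw [Nat.cast_sum, Finset.mul_sum]
    refine Finset.sum_congr rfl fun ℓ _ => ?_
    push_cast
    ring
  rw [e7] at e6
  have e8 : (m : ℝ) / 2 ≤ 11 * ((K' + 1 : ℕ) : ℝ) *
        ((∑ ℓ ∈ range r, (A ℓ).card * (R ℓ * ∏ i ∈ range ℓ, ((A i).card + 1)) : ℕ) : ℝ) := by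
    linarith
  have e9 : ((2 ^ (K' + 1) : ℕ) : ℝ) ≤ ((44 * (K' + 1) *
      ∑ ℓ ∈ range r, (A ℓ).card * (R ℓ * ∏ i ∈ range ℓ, ((A i).card + 1)) : ℕ) : ℝ) := by
    rw [hm, Nat.cast_mul (44 * (K' + 1))]
    generalize ((∑ ℓ ∈ range r, (A ℓ).card * (R ℓ * ∏ i ∈ range ℓ, ((A i).card + 1)) : ℕ) : ℝ) =
      Z at e8 ⊢
    push_cast at e8 ⊢
    linarith
  exact_mod_cast e9

/-- summation of the widths -/
lemma sum_widths (a : ℕ → ℕ) (r : ℕ) :
    ∑ ℓ ∈ range r, a ℓ * ∏ i ∈ range ℓ, (a i + 1) + 1 = ∏ i ∈ range r, (a i + 1) := by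
  induction r with
  | zero => simp
  | succ r ih =>
    rw [Finset.sum_range_succ, Finset.prod_range_succ, ← ih]
    ring

end main

end Pool.Agent.NegLim
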