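import Pool.Agent.Work.MP_71c844_lc.NegChain

namespace Pool.Agent.NegLim

set_option linter.unusedSectionVars false

open Finset

section subst

variable {ι κ : Type*}

/-- the input obtained from `x` by a projection `π` -/
def pull (π : ι → Bool ⊕ κ) (x : κ → Bool) (i : ι) : Bool :=
  match π i with
  | .inl b => b
  | .inr t => x t

/-- substitute constants or variables for the variables -/
def mapVar (π : ι → Bool ⊕ κ) : List (Gate ι) → List (Gate κ)
  | [] => []
  | .var i :: gs => (match π i with
      | .inl b => Gate.const b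
      | .inr t => Gate.var t) :: mapVar π gs
  | .const b :: gs => .const b :: mapVar π gs
  | .and j k :: gs => .and j k :: mapVar π gs
  | .or j k :: gs => .or j k :: mapVar π gs
  | .not j :: gs => .not j :: mapVar π gs

lemma run_mapVar (π : ι → Bool ⊕ κ) (x : κ → Bool) (c : List (Gate ι)) :
    run x (mapVar π c) = run (pull π x) c := by
  induction c with
  | nil => rfl
  | cons g gs ih =>
    cases g with
    | var i =>
      simp only [mapVar, run, ih, Gate.value, pull]
      rcases π i with b | t <;> rfl
    | const b => simp only [mapVar, run, ih, Gate.value]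
    | and j k => simp only [mapVar, run, ih, Gate.value]
    | or j k => simp only [mapVar, run, ih, Gate.value]
    | not j => simp only [mapVar, run, ih, Gate.value]

lemma numNot_mapVar (π : ι → Bool ⊕ κ) (c : List (Gate ι)) : numNot (mapVar π c) = numNot c := by
  induction c with
  | nil => rfl
  | cons g gs ih =>
    cases g with
    | var i =>
      simp only [mapVar]
      rcases π i with b | t <;> simp only [numNot, ih]
    | const b => simp only [mapVar, numNot, ih]
    | and j k => simp only [mapVar, numNot, ih]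
    | or j k => simp only [mapVar, numNot, ih]
    | not j => simp only [mapVar, numNot, ih]

lemma size_mapVar (π : ι → Bool ⊕ κ) (c : List (Gate ι)) : size (mapVar π c) = size c := by
  induction c with
  | nil => rfl
  | cons g gs ih =>
    cases g with
    | var i =>
      simp only [mapVar]
      rcases π i with b | t <;> simp only [size, ih]
    | const b => simp only [mapVar, size, ih]
    | and j k => simp only [mapVar, size, ih]
    | or j k => simp only [mapVar, size, ih]
    | not j => simp only [mapVar, size, ih]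

lemma output_mapVar (π : ι → Bool ⊕ κ) (x : κ → Bool) (c : List (Gate ι)) :
    output (mapVar π c) x = output c (pull π x) := by
  unfold output; rw [run_mapVar]

end subst

section code

variable {p : ℕ} [Fact p.Prime] {b N : ℕ}

/-- partial sums of the evaluation of a polynomial of degree less than `2 b` at `α` -/
def ps (P : Fin (2 * b) → ZMod p) (α : ZMod p) (l : ℕ) : ZMod p :=
  ∑ i ∈ range l, (if h : i < 2 * b then P ⟨i, h⟩ else 0) * α ^ i

lemma ps_zero (P : Fin (2 * b) → ZMod p) (α : ZMod p) : ps P α 0 = 0 := by simp [ps]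

lemma ps_succ (P : Fin (2 * b) → ZMod p) (α : ZMod p) (l : ℕ) (h : l < 2 * b) :
    ps P α (l + 1) = ps P α l + P ⟨l, h⟩ * α ^ l := by
  unfold ps; rw [Finset.sum_range_succ, dif_pos h]

lemma ps_add (P Q : Fin (2 * b) → ZMod p) (α : ZMod p) (l : ℕ) :
    ps (P + Q) α l = ps P α l + ps Q α l := by
  unfold ps
  rw [← Finset.sum_add_distrib]
  refine Finset.sum_congr rfl fun i _ => ?_
  split_ifs
  · simp only [Pi.add_apply]; ring
  · ring

lemma exists_ps (hb : 1 ≤ b) (hN : N ≤ p) (I : Finset (Fin N)) (hI : I.card ≤ 2 * b)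
    (v : Fin N → ZMod p) :
    ∃ P : Fin (2 * b) → ZMod p, ∀ i ∈ I, ps P ((i.1 : ℕ) : ZMod p) (2 * b) = v i := by
  classical
  let node : Fin N → ZMod p := fun i => ((i.1 : ℕ) : ZMod p)
  have hinj : Set.InjOn node I := by
    intro i _ j _ hij
    have hi : i.1 < p := lt_of_lt_of_le i.2 hN
    have hj : j.1 < p := lt_of_lt_of_le j.2 hN
    have : i.1 % p = j.1 % p := (ZMod.natCast_eq_natCast_iff' _ _ _).mp hij
    rw [Nat.mod_eq_of_lt hi, Nat.mod_eq_of_lt hj] at this
    exact Fin.ext this
  let f := Lagrange.interpolate I node v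
  have hdeg : f.degree < I.card := Lagrange.degree_interpolate_lt v hinj
  have hnat : f.natDegree < 2 * b := by
    by_cases hf : f = 0
    · rw [hf, Polynomial.natDegree_zero]; omega
    · have := (Polynomial.natDegree_lt_iff_degree_lt hf).mpr hdeg
      omega
  refine ⟨fun l => f.coeff l.1, fun i hi => ?_⟩
  have h1 : ps (fun l : Fin (2 * b) => f.coeff l.1) (node i) (2 * b) = f.eval (node i) := by
    rw [Polynomial.eval_eq_sum_range' hnat]
    unfold ps
    refine Finset.sum_congr rfl fun l hl => ?_
    rw [Finset.mem_range] at hl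
    rw [dif_pos hl]
  show ps (fun l : Fin (2 * b) => f.coeff l.1) (node i) (2 * b) = v i
  rw [h1]
  exact Lagrange.eval_interpolate_at_node v hinj hi

/-- ground set of the hard function -/
abbrev Gr (p N : ℕ) : Type := Fin N × (ZMod p × ZMod p) × (ZMod p × ZMod p)

/-- seeds: four polynomials -/
abbrev Seed (p b : ℕ) : Type := Fin 2 → Fin 2 → Fin (2 * b) → ZMod p

/-- the four values at the `i`-th point -/
def code (u : Seed p b) (i : ℕ) : (ZMod p × ZMod p) × (ZMod p × ZMod p) :=
  ((ps (u 0 0) (i : ZMod p) (2 * b), ps (u 0 1) (i : ZMod p) (2 * b)),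
    (ps (u 1 0) (i : ZMod p) (2 * b), ps (u 1 1) (i : ZMod p) (2 * b)))

lemma code_add (u v : Seed p b) (i : ℕ) : code (u + v) i = code u i + code v i := by
  simp only [code, Pi.add_apply, ps_add, Prod.mk_add_mk]

lemma exists_code (hb : 1 ≤ b) (hN : N ≤ p) (I : Finset (Fin N)) (hI : I.card ≤ 2 * b)
    (v : Fin N → (ZMod p × ZMod p) × (ZMod p × ZMod p)) :
    ∃ u : Seed p b, ∀ i ∈ I, code u i.1 = v i := by
  obtain ⟨P00, h00⟩ := exists_ps hb hN I hI (fun i => (v i).1.1)
  obtain ⟨P01, h01⟩ := exists_ps hb hN I hI (fun i => (v i).1.2)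
  obtain ⟨P10, h10⟩ := exists_ps hb hN I hI (fun i => (v i).2.1)
  obtain ⟨P11, h11⟩ := exists_ps hb hN I hI (fun i => (v i).2.2)
  refine ⟨![![P00, P01], ![P10, P11]], fun i hi => ?_⟩
  have e : code (![![P00, P01], ![P10, P11]] : Seed p b) i.1 =
      ((ps P00 ((i.1 : ℕ) : ZMod p) (2 * b), ps P01 ((i.1 : ℕ) : ZMod p) (2 * b)),
        (ps P10 ((i.1 : ℕ) : ZMod p) (2 * b), ps P11 ((i.1 : ℕ) : ZMod p) (2 * b))) := rfl
  rw [e, h00 i hi, h01 i hi, h10 i hi, h11 i hi]

/-- the planted sets -/
def planted (N : ℕ) (u : Seed p b) : Finset (Gr p N) := univ.image (fun i : Fin N => (i, code u i.1))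

lemma mem_planted (u : Seed p b) (a : Gr p N) : a ∈ planted N u ↔ code u a.1.1 = a.2 := by
  unfold planted
  rw [Finset.mem_image]
  constructor
  · rintro ⟨i, _, rfl⟩; rfl
  · intro h; exact ⟨a.1, mem_univ _, by rw [h]⟩

lemma card_planted (u : Seed p b) : (planted N u).card = N := by
  unfold planted
  rw [Finset.card_image_of_injective, Finset.card_univ, Fintype.card_fin]
  intro i j hij
  exact (Prod.mk.inj hij).1

lemma card_seed : Fintype.card (Seed p b) = p ^ (8 * b) := by
  simp only [Seed, Fintype.card_pi, Finset.prod_const, Finset.card_univ, Fintype.card_fin,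
    ZMod.card]
  rw [← pow_mul, ← pow_mul]
  congr 1; ring

open Classical in
lemma planted_spread (hb : 1 ≤ b) (hN : N ≤ p) (A : Finset (Gr p N)) (hA : A.card ≤ 2 * b) :
    ((univ.filter (fun u : Seed p b => A ⊆ planted N u)).card : ℝ) ≤
      Fintype.card (Seed p b) * (1 / (p : ℝ) ^ 4) ^ A.card := by
  have hp : (0 : ℝ) < p := by exact_mod_cast (Fact.out : p.Prime).pos
  by_cases hex : ∃ u0 : Seed p b, A ⊆ planted N u0
  · obtain ⟨u0, hu0⟩ := hex
    set I := A.image Prod.fst with hI
    have hIcard : I.card = A.card := by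
      rw [hI]
      apply Finset.card_image_of_injOn
      intro a ha c hc hac
      have h1 := (mem_planted u0 a).mp (hu0 ha)
      have h2 := (mem_planted u0 c).mp (hu0 hc)
      have hac' : a.1 = c.1 := hac
      rw [hac'] at h1
      exact Prod.ext hac' (h1.symm.trans h2)
    set S := univ.filter (fun u : Seed p b => A ⊆ planted N u) with hS
    have hSval : ∀ u ∈ S, ∀ i ∈ I, code u i.1 = code u0 i.1 := by
      intro u hu i hi
      rw [hS, Finset.mem_filter] at hu
      rw [hI, Finset.mem_image] at hi
      obtain ⟨a, ha, rfl⟩ := hi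
      rw [(mem_planted u a).mp (hu.2 ha), (mem_planted u0 a).mp (hu0 ha)]
    have hlag : ∀ v : (↥I → (ZMod p × ZMod p) × (ZMod p × ZMod p)), ∃ u : Seed p b,
        ∀ i : ↥I, code u i.1.1 = v i := by
      intro v
      obtain ⟨u, hu⟩ := exists_code (p := p) (b := b) hb hN I (by omega)
        (fun i => if h : i ∈ I then v ⟨i, h⟩ else 0)
      refine ⟨u, fun i => ?_⟩
      have := hu i.1 i.2
      rw [dif_pos i.2] at this
      exact this
    choose lag hlag using hlag
    let Φ : ↥S × (↥I → (ZMod p × ZMod p) × (ZMod p × ZMod p)) → Seed p b :=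
      fun z => z.1.1 + lag z.2
    have hΦ : Function.Injective Φ := by
      rintro ⟨u, v⟩ ⟨u', v'⟩ h
      have hv : v = v' := by
        funext i
        have h1 : code (u.1 + lag v) i.1.1 = code (u'.1 + lag v') i.1.1 := by
          have : u.1 + lag v = u'.1 + lag v' := h
          rw [this]
        rw [code_add, code_add, hlag, hlag, hSval u.1 u.2 i.1 i.2, hSval u'.1 u'.2 i.1 i.2] at h1
        exact add_left_cancel h1
      subst hv
      have : u.1 + lag v = u'.1 + lag v := h
      have := add_right_cancel this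
      exact Prod.ext (Subtype.ext this) rfl
    have hcard := Fintype.card_le_of_injective Φ hΦ
    rw [Fintype.card_prod, Fintype.card_coe, Fintype.card_fun, Fintype.card_coe,
      Fintype.card_prod, Fintype.card_prod, ZMod.card, hIcard] at hcard
    have e1 : (S.card : ℝ) * ((p : ℝ) ^ 4) ^ A.card ≤ Fintype.card (Seed p b) := by
      have e2 : p * p * (p * p) = p ^ 4 := by ring
      rw [e2] at hcard
      exact_mod_cast hcard
    rw [one_div, inv_pow, ← div_eq_mul_inv, le_div_iff₀ (by positivity)]
    exact e1
  · have : univ.filter (fun u : Seed p b => A ⊆ planted N u) = ∅ := by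
      apply Finset.filter_false_of_mem
      intro u _ hu
      exact hex ⟨u, hu⟩
    rw [this, Finset.card_empty, Nat.cast_zero]
    positivity

end code

end Pool.Agent.NegLim
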