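import Pool.Agent.Work.MP_71c844_lc.LayDef
import Pool.Agent.Work.MP_71c844_lc.NegCode
import Pool.Agent.Work.MP_71c844_lc.LayMain

/-!
Circuits with arbitrary gates as adaptive families of circuits without NOT gates.
-/

namespace Pool.Agent.LayCirc

open Finset

variable {ι : Type} {s : ℕ}

section unfold

variable (c : Circuit ι s) (x : ι → Bool) (i : Fin s)

lemma val_var {e : ι} (h : c i = .var e) : val c x i = x e := by
  rw [val, h]

lemma val_const {b : Bool} (h : c i = .const b) : val c x i = b := by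
  rw [val, h]

lemma val_and {j k : Fin i.1} (h : c i = .and j k) :
    val c x i = (val c x ⟨j.1, j.2.trans i.2⟩ && val c x ⟨k.1, k.2.trans i.2⟩) := by
  rw [val, h]

lemma val_or {j k : Fin i.1} (h : c i = .or j k) :
    val c x i = (val c x ⟨j.1, j.2.trans i.2⟩ || val c x ⟨k.1, k.2.trans i.2⟩) := by
  rw [val, h]

lemma val_arb {m : ℕ} {a : Fin m → Fin i.1} {f : (Fin m → Bool) → Bool} (h : c i = .arb m a f) :
    val c x i = f fun l => val c x ⟨(a l).1, (a l).2.trans i.2⟩ := by
  rw [val, h]

lemma level_and {j k : Fin i.1} (h : c i = .and j k) :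
    level c i = max (level c ⟨j.1, j.2.trans i.2⟩) (level c ⟨k.1, k.2.trans i.2⟩) := by
  rw [level, h]

lemma level_or {j k : Fin i.1} (h : c i = .or j k) :
    level c i = max (level c ⟨j.1, j.2.trans i.2⟩) (level c ⟨k.1, k.2.trans i.2⟩) := by
  rw [level, h]

lemma level_arb {m : ℕ} {a : Fin m → Fin i.1} {f : (Fin m → Bool) → Bool}
    (h : c i = .arb m a f) :
    level c i = (Finset.univ.sup fun l => level c ⟨(a l).1, (a l).2.trans i.2⟩) + 1 := by
  rw [level, h]

lemma level_arb_lt {m : ℕ} {a : Fin m → Fin i.1} {f : (Fin m → Bool) → Bool}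
    (h : c i = .arb m a f) (l : Fin m) :
    level c ⟨(a l).1, (a l).2.trans i.2⟩ < level c i := by
  rw [level_arb c i h]
  apply Nat.lt_succ_of_le
  exact Finset.le_sup (f := fun l => level c ⟨(a l).1, (a l).2.trans i.2⟩) (Finset.mem_univ l)

end unfold

lemma level_le (c : Circuit ι s) : ∀ (n : ℕ) (hn : n < s), level c ⟨n, hn⟩ ≤ n + 1 := by
  intro n
  induction n using Nat.strong_induction_on with
  | _ n ih =>
    intro hn
    rcases hc : c ⟨n, hn⟩ with e | b | ⟨j, k⟩ | ⟨j, k⟩ | ⟨m, a, f⟩
    · rw [level, hc]; exact Nat.zero_le _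
    · rw [level, hc]; exact Nat.zero_le _
    · rw [level_and c _ hc]
      have h1 : j.1 < n := j.2
      have h2 : k.1 < n := k.2
      have h3 := ih j.1 j.2 (j.2.trans hn)
      have h4 := ih k.1 k.2 (k.2.trans hn)
      exact max_le (by omega) (by omega)
    · rw [level_or c _ hc]
      have h1 : j.1 < n := j.2
      have h2 : k.1 < n := k.2
      have h3 := ih j.1 j.2 (j.2.trans hn)
      have h4 := ih k.1 k.2 (k.2.trans hn)
      exact max_le (by omega) (by omega)
    · rw [level_arb c _ hc]
      apply Nat.succ_le_succ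
      apply Finset.sup_le
      intro l _
      have h3 := ih (a l).1 (a l).2 ((a l).2.trans hn)
      have h2 : (a l).1 < n := (a l).2
      omega

/-- conversion of one gate; the arbitrary gates are replaced by constants -/
def conv (n : ℕ) : Gate ι n → Bool → NegLim.Gate ι
  | .var e, _ => .var e
  | .const b, _ => .const b
  | .and j k, _ => .and (n - 1 - j.1) (n - 1 - k.1)
  | .or j k, _ => .or (n - 1 - j.1) (n - 1 - k.1)
  | .arb _ _ _, b => .const b

/-- the first `n` gates as a list, the arbitrary gates being replaced by the constants `σ` -/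
def toList (c : Circuit ι s) (σ : Fin s → Bool) : (n : ℕ) → n ≤ s → List (NegLim.Gate ι)
  | 0, _ => []
  | n + 1, h => conv n (c ⟨n, h⟩) (σ ⟨n, h⟩) :: toList c σ n (Nat.le_of_succ_le h)

lemma length_toList (c : Circuit ι s) (σ : Fin s → Bool) (n : ℕ) (h : n ≤ s) :
    (toList c σ n h).length = n := by
  induction n with
  | zero => rfl
  | succ n ih => rw [toList, List.length_cons, ih]

lemma numNot_toList (c : Circuit ι s) (σ : Fin s → Bool) (n : ℕ) (h : n ≤ s) :
    NegLim.numNot (toList c σ n h) = 0 := by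
  induction n with
  | zero => rfl
  | succ n ih =>
    rw [toList]
    rcases c ⟨n, h⟩ with e | b | ⟨j, k⟩ | ⟨j, k⟩ | ⟨m, a, f⟩ <;>
      simp only [conv, NegLim.numNot] <;> exact ih _

open Classical in
lemma size_toList (c : Circuit ι s) (σ : Fin s → Bool) (n : ℕ) (h : n ≤ s) :
    NegLim.size (toList c σ n h) = (univ.filter (fun i : Fin s => i.1 < n ∧
      ((∃ j k, c i = .and j k) ∨ ∃ j k, c i = .or j k))).card := by
  induction n with
  | zero => simp [toList, NegLim.size]
  | succ n ih =>
    have ih' := ih (Nat.le_of_succ_le h)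
    by_cases hg : (∃ j k, c ⟨n, h⟩ = .and j k) ∨ ∃ j k, c ⟨n, h⟩ = .or j k
    · have e1 : univ.filter (fun i : Fin s => i.1 < n + 1 ∧
          ((∃ j k, c i = .and j k) ∨ ∃ j k, c i = .or j k)) =
          insert ⟨n, h⟩ (univ.filter (fun i : Fin s => i.1 < n ∧
          ((∃ j k, c i = .and j k) ∨ ∃ j k, c i = .or j k))) := by
        ext i
        simp only [mem_filter, mem_univ, true_and, mem_insert]
        constructor
        · rintro ⟨h1, h2⟩
          rcases Nat.lt_succ_iff_lt_or_eq.mp h1 with h3 | h3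
          · right; exact ⟨h3, h2⟩
          · left; exact Fin.ext h3
        · rintro (rfl | ⟨h1, h2⟩)
          · exact ⟨Nat.lt_succ_self n, hg⟩
          · exact ⟨h1.trans (Nat.lt_succ_self n), h2⟩
      rw [e1, Finset.card_insert_of_notMem (by simp), ← ih', toList]
      rcases hg with ⟨j, k, hjk⟩ | ⟨j, k, hjk⟩ <;> rw [hjk] <;> simp only [conv, NegLim.size]
    · have e1 : univ.filter (fun i : Fin s => i.1 < n + 1 ∧
          ((∃ j k, c i = .and j k) ∨ ∃ j k, c i = .or j k)) =
          (univ.filter (fun i : Fin s => i.1 < n ∧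
          ((∃ j k, c i = .and j k) ∨ ∃ j k, c i = .or j k))) := by
        ext i
        simp only [mem_filter, mem_univ, true_and]
        constructor
        · rintro ⟨h1, h2⟩
          rcases Nat.lt_succ_iff_lt_or_eq.mp h1 with h3 | h3
          · exact ⟨h3, h2⟩
          · exfalso
            apply hg
            have : i = ⟨n, h⟩ := Fin.ext h3
            rw [this] at h2
            exact h2
        · rintro ⟨h1, h2⟩
          exact ⟨h1.trans (Nat.lt_succ_self n), h2⟩
      rw [e1, ← ih', toList]
      rcases hc : c ⟨n, h⟩ with e | b | ⟨j, k⟩ | ⟨j, k⟩ | ⟨m, a, f⟩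
      · simp only [conv, NegLim.size]
      · simp only [conv, NegLim.size]
      · exact absurd (Or.inl ⟨j, k, hc⟩) hg
      · exact absurd (Or.inr ⟨j, k, hc⟩) hg
      · simp only [conv, NegLim.size]

lemma size_toList_le (c : Circuit ι s) (σ : Fin s → Bool) (n : ℕ) (h : n ≤ s) :
    NegLim.size (toList c σ n h) ≤ size c := by
  classical
  rw [size_toList, size, Nat.card_eq_fintype_card, Fintype.card_subtype]
  apply Finset.card_le_card
  intro i hi
  rw [mem_filter] at hi ⊢
  exact ⟨mem_univ _, hi.2.2⟩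

/-- The converted list computes the right values, on the gates of level at most `ℓ`. -/
lemma run_toList (c : Circuit ι s) (σ : Fin s → Bool) (x : ι → Bool) (ℓ : ℕ)
    (hσ : ∀ i : Fin s, (∃ m a f, c i = .arb m a f) → level c i ≤ ℓ → σ i = val c x i) :
    ∀ (n : ℕ) (h : n ≤ s) (j : ℕ) (hj : j < n), level c ⟨j, hj.trans_le h⟩ ≤ ℓ →
      (NegLim.run x (toList c σ n h)).getD (n - 1 - j) false = val c x ⟨j, hj.trans_le h⟩ := by
  intro n
  induction n with
  | zero => intro h j hj; omega
  | succ n ih =>
    intro h j hj hl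
    have hn : n ≤ s := Nat.le_of_succ_le h
    rcases Nat.lt_succ_iff_lt_or_eq.mp hj with hjn | hjn
    · have e1 : n + 1 - 1 - j = (n - 1 - j) + 1 := by omega
      rw [e1, toList, NegLim.run, List.getD_cons_succ]
      exact ih hn j hjn hl
    · subst hjn
      have e1 : j + 1 - 1 - j = 0 := by omega
      rw [e1, toList, NegLim.run, List.getD_cons_zero]
      rcases hc : c ⟨j, h⟩ with e | b | ⟨k, k'⟩ | ⟨k, k'⟩ | ⟨m, a, f⟩
      · rw [val_var c x _ hc]; rfl
      · rw [val_const c x _ hc]; rfl
      · rw [val_and c x _ hc]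
        rw [level_and c _ hc, max_le_iff] at hl
        simp only [conv, NegLim.Gate.value]
        rw [ih hn k.1 k.2 hl.1, ih hn k'.1 k'.2 hl.2]
      · rw [val_or c x _ hc]
        rw [level_or c _ hc, max_le_iff] at hl
        simp only [conv, NegLim.Gate.value]
        rw [ih hn k.1 k.2 hl.1, ih hn k'.1 k'.2 hl.2]
      · simp only [conv, NegLim.Gate.value]
        exact hσ ⟨j, h⟩ ⟨m, a, f, hc⟩ hl

end Pool.Agent.LayCirc
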