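import Pool.Agent.Work.MP_71c844_lc.FormDef
import Pool.Agent.Work.MP_71c844_lc.LayConv

/-!
Circuits with few mixing gates are decided by few monotone functions.
-/

namespace Pool.Agent.LayCirc

open Finset

variable {ι : Type} {s : ℕ}

/-- the cut gates -/
def Cut (c : Circuit ι s) (i : Fin s) : Prop := Arb c i ∨ Mixing c i

open Classical in
/-- the circuit in which all cut gates are replaced by the constant `b` -/
noncomputable def fz (c : Circuit ι s) (b : Bool) : Circuit ι s :=
  fun i => if Cut c i then .const b else c i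

lemma fz_cut (c : Circuit ι s) (b : Bool) {i : Fin s} (h : Cut c i) : fz c b i = .const b := by
  unfold fz; rw [if_pos h]

lemma fz_not (c : Circuit ι s) (b : Bool) {i : Fin s} (h : ¬ Cut c i) : fz c b i = c i := by
  unfold fz; rw [if_neg h]

lemma fz_noarb (c : Circuit ι s) (b : Bool) (i : Fin s) : ¬ Arb (fz c b) i := by
  rintro ⟨m, a, f, h⟩
  by_cases hi : Cut c i
  · rw [fz_cut c b hi] at h; cases h
  · rw [fz_not c b hi] at h
    exact hi (Or.inl ⟨m, a, f, h⟩)

lemma level_fz (c : Circuit ι s) (b : Bool) : ∀ (n : ℕ) (hn : n < s),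
    level (fz c b) ⟨n, hn⟩ = 0 := by
  intro n
  induction n using Nat.strong_induction_on with
  | _ n ih =>
    intro hn
    rcases hc : fz c b ⟨n, hn⟩ with e | b' | ⟨j, k⟩ | ⟨j, k⟩ | ⟨m, a, f⟩
    · rw [level, hc]
    · rw [level, hc]
    · rw [level_and _ _ hc, ih j.1 j.2, ih k.1 k.2]; rfl
    · rw [level_or _ _ hc, ih j.1 j.2, ih k.1 k.2]; rfl
    · exact absurd ⟨m, a, f, hc⟩ (fz_noarb c b ⟨n, hn⟩)

lemma size_fz_le (c : Circuit ι s) (b : Bool) : size (fz c b) ≤ size c := by
  classical
  rw [size, size, Nat.card_eq_fintype_card, Nat.card_eq_fintype_card, Fintype.card_subtype,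
    Fintype.card_subtype]
  apply Finset.card_le_card
  intro i hi
  rw [mem_filter] at hi ⊢
  refine ⟨mem_univ _, ?_⟩
  by_cases h : Cut c i
  · rw [fz_cut c b h] at hi
    rcases hi.2 with ⟨j, k, h'⟩ | ⟨j, k, h'⟩ <;> cases h'
  · rw [fz_not c b h] at hi
    exact hi.2

/-- the circuit without NOT gates that computes gate `i` of `fz c b` -/
noncomputable def mono (c : Circuit ι s) (i : Fin s) (b : Bool) : List (NegLim.Gate ι) :=
  toList (fz c b) (fun _ => false) (i.1 + 1) i.2

lemma numNot_mono (c : Circuit ι s) (i : Fin s) (b : Bool) : NegLim.numNot (mono c i b) = 0 :=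
  numNot_toList _ _ _ _

lemma size_mono (c : Circuit ι s) (i : Fin s) (b : Bool) : NegLim.size (mono c i b) ≤ size c :=
  (size_toList_le _ _ _ _).trans (size_fz_le c b)

lemma output_mono (c : Circuit ι s) (i : Fin s) (b : Bool) (x : ι → Bool) :
    NegLim.output (mono c i b) x = val (fz c b) x i := by
  have h := run_toList (fz c b) (fun _ => false) x 0
    (fun j hj _ => absurd hj (fz_noarb c b j)) (i.1 + 1) i.2 i.1 (Nat.lt_succ_self _)
    (by rw [level_fz c b i.1 i.2])
  have e1 : i.1 + 1 - 1 - i.1 = 0 := by omega
  rw [e1] at h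
  exact h

/-- gates of level zero are not affected -/
lemma val_fz_level0 (c : Circuit ι s) (b : Bool) (x : ι → Bool) : ∀ (n : ℕ) (hn : n < s),
    level c ⟨n, hn⟩ = 0 → val (fz c b) x ⟨n, hn⟩ = val c x ⟨n, hn⟩ := by
  intro n
  induction n using Nat.strong_induction_on with
  | _ n ih =>
    intro hn hl
    have hcut : ¬ Cut c ⟨n, hn⟩ := by
      rintro (⟨m, a, f, h⟩ | ⟨j, k, h | h, h1, h2⟩)
      · rw [level_arb c _ h] at hl
        omega
      · rw [level_and c _ h] at hl
        unfold Dep at h1
        have := le_max_left (level c ⟨j.1, j.2.trans hn⟩) (level c ⟨k.1, k.2.trans hn⟩)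
        rw [hl] at this
        exact absurd (h1.trans this) (by norm_num)
      · rw [level_or c _ h] at hl
        unfold Dep at h1
        have := le_max_left (level c ⟨j.1, j.2.trans hn⟩) (level c ⟨k.1, k.2.trans hn⟩)
        rw [hl] at this
        exact absurd (h1.trans this) (by norm_num)
    rcases hc : c ⟨n, hn⟩ with e | b' | ⟨j, k⟩ | ⟨j, k⟩ | ⟨m, a, f⟩
    · rw [val_var c x _ hc, val_var (fz c b) x _ (by rw [fz_not c b hcut, hc])]
    · rw [val_const c x _ hc, val_const (fz c b) x _ (by rw [fz_not c b hcut, hc])]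
    · rw [val_and c x _ hc, val_and (fz c b) x _ (by rw [fz_not c b hcut, hc])]
      rw [level_and c _ hc] at hl
      have h1 : level c ⟨j.1, j.2.trans hn⟩ = 0 := by
        have := le_max_left (level c ⟨j.1, j.2.trans hn⟩) (level c ⟨k.1, k.2.trans hn⟩)
        exact Nat.le_zero.1 (this.trans hl.le)
      have h2 : level c ⟨k.1, k.2.trans hn⟩ = 0 := by
        have := le_max_right (level c ⟨j.1, j.2.trans hn⟩) (level c ⟨k.1, k.2.trans hn⟩)
        exact Nat.le_zero.1 (this.trans hl.le)
      rw [ih j.1 j.2 _ h1, ih k.1 k.2 _ h2]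
    · rw [val_or c x _ hc, val_or (fz c b) x _ (by rw [fz_not c b hcut, hc])]
      rw [level_or c _ hc] at hl
      have h1 : level c ⟨j.1, j.2.trans hn⟩ = 0 := by
        have := le_max_left (level c ⟨j.1, j.2.trans hn⟩) (level c ⟨k.1, k.2.trans hn⟩)
        exact Nat.le_zero.1 (this.trans hl.le)
      have h2 : level c ⟨k.1, k.2.trans hn⟩ = 0 := by
        have := le_max_right (level c ⟨j.1, j.2.trans hn⟩) (level c ⟨k.1, k.2.trans hn⟩)
        exact Nat.le_zero.1 (this.trans hl.le)
      rw [ih j.1 j.2 _ h1, ih k.1 k.2 _ h2]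
    · exact absurd (Or.inl ⟨m, a, f, hc⟩) hcut

/-- the value of a gate depends on at most one of the cut gates -/
lemma one_cut (c : Circuit ι s) : ∀ (n : ℕ) (hn : n < s),
    (∀ b x, val (fz c b) x ⟨n, hn⟩ = val c x ⟨n, hn⟩) ∨
      ∃ a : Fin s, a.1 ≤ n ∧ Cut c a ∧ ∀ x, val c x ⟨n, hn⟩ = val (fz c (val c x a)) x ⟨n, hn⟩ := by
  intro n
  induction n using Nat.strong_induction_on with
  | _ n ih =>
    intro hn
    by_cases hcut : Cut c ⟨n, hn⟩
    · right
      refine ⟨⟨n, hn⟩, le_rfl, hcut, fun x => ?_⟩
      rw [val_const (fz c _) x _ (fz_cut c _ hcut)]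
    · rcases hc : c ⟨n, hn⟩ with e | b' | ⟨j, k⟩ | ⟨j, k⟩ | ⟨m, a, f⟩
      · left
        intro b x
        rw [val_var c x _ hc, val_var (fz c b) x _ (by rw [fz_not c b hcut, hc])]
      · left
        intro b x
        rw [val_const c x _ hc, val_const (fz c b) x _ (by rw [fz_not c b hcut, hc])]
      · have hu : ∀ b x, val (fz c b) x ⟨n, hn⟩ = (val (fz c b) x ⟨j.1, j.2.trans hn⟩ &&
            val (fz c b) x ⟨k.1, k.2.trans hn⟩) := fun b x =>
          val_and (fz c b) x _ (by rw [fz_not c b hcut, hc])
        have h01 : level c ⟨j.1, j.2.trans hn⟩ = 0 ∨ level c ⟨k.1, k.2.trans hn⟩ = 0 := by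
          by_contra hcon
          push Not at hcon
          exact hcut (Or.inr ⟨j, k, Or.inl hc, Nat.one_le_iff_ne_zero.2 hcon.1,
            Nat.one_le_iff_ne_zero.2 hcon.2⟩)
        rcases h01 with h0 | h0
        · rcases ih k.1 k.2 (k.2.trans hn) with h1 | ⟨a, ha, hca, h1⟩
          · left
            intro b x
            rw [hu, val_and c x _ hc, val_fz_level0 c b x j.1 _ h0, h1]
          · right
            refine ⟨a, ha.trans k.2.le, hca, fun x => ?_⟩
            rw [hu, val_and c x _ hc, val_fz_level0 c _ x j.1 _ h0, ← h1]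
        · rcases ih j.1 j.2 (j.2.trans hn) with h1 | ⟨a, ha, hca, h1⟩
          · left
            intro b x
            rw [hu, val_and c x _ hc, val_fz_level0 c b x k.1 _ h0, h1]
          · right
            refine ⟨a, ha.trans j.2.le, hca, fun x => ?_⟩
            rw [hu, val_and c x _ hc, val_fz_level0 c _ x k.1 _ h0, ← h1]
      · have hu : ∀ b x, val (fz c b) x ⟨n, hn⟩ = (val (fz c b) x ⟨j.1, j.2.trans hn⟩ ||
            val (fz c b) x ⟨k.1, k.2.trans hn⟩) := fun b x =>
          val_or (fz c b) x _ (by rw [fz_not c b hcut, hc])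
        have h01 : level c ⟨j.1, j.2.trans hn⟩ = 0 ∨ level c ⟨k.1, k.2.trans hn⟩ = 0 := by
          by_contra hcon
          push Not at hcon
          exact hcut (Or.inr ⟨j, k, Or.inr hc, Nat.one_le_iff_ne_zero.2 hcon.1,
            Nat.one_le_iff_ne_zero.2 hcon.2⟩)
        rcases h01 with h0 | h0
        · rcases ih k.1 k.2 (k.2.trans hn) with h1 | ⟨a, ha, hca, h1⟩
          · left
            intro b x
            rw [hu, val_or c x _ hc, val_fz_level0 c b x j.1 _ h0, h1]
          · right
            refine ⟨a, ha.trans k.2.le, hca, fun x => ?_⟩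
            rw [hu, val_or c x _ hc, val_fz_level0 c _ x j.1 _ h0, ← h1]
        · rcases ih j.1 j.2 (j.2.trans hn) with h1 | ⟨a, ha, hca, h1⟩
          · left
            intro b x
            rw [hu, val_or c x _ hc, val_fz_level0 c b x k.1 _ h0, h1]
          · right
            refine ⟨a, ha.trans j.2.le, hca, fun x => ?_⟩
            rw [hu, val_or c x _ hc, val_fz_level0 c _ x k.1 _ h0, ← h1]
      · exact absurd (Or.inl ⟨m, a, f, hc⟩) hcut

open Classical in
/-- the gates whose values matter: the output and the gates read by cut gates -/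
noncomputable def tgt (c : Circuit ι s) (o : Fin s) : Finset (Fin s) :=
  insert o ((univ.filter fun i => Cut c i).biUnion fun i => (inputs c i).toFinset)

/-- equal values of the frozen functions give equal values of the circuit -/
lemma det (c : Circuit ι s) (o : Fin s) (x y : ι → Bool)
    (h : ∀ i ∈ tgt c o, ∀ b, val (fz c b) x i = val (fz c b) y i) :
    val c x o = val c y o := by
  classical
  have main : ∀ (n : ℕ) (hn : n < s), (⟨n, hn⟩ ∈ tgt c o ∨ Cut c ⟨n, hn⟩) →
      val c x ⟨n, hn⟩ = val c y ⟨n, hn⟩ := by
    intro n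
    induction n using Nat.strong_induction_on with
    | _ n ih =>
      intro hn hT
      by_cases hcut : Cut c ⟨n, hn⟩
      · have hin : ∀ j ∈ inputs c ⟨n, hn⟩, j ∈ tgt c o := by
          intro j hj
          unfold tgt
          rw [mem_insert, mem_biUnion]
          right
          refine ⟨⟨n, hn⟩, ?_, List.mem_toFinset.2 hj⟩
          rw [mem_filter]
          exact ⟨mem_univ _, hcut⟩
        rcases hcut with ⟨m, a, f, hc⟩ | ⟨j, k, hc | hc, _, _⟩
        · rw [val_arb c x _ hc, val_arb c y _ hc]
          congr 1
          funext l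
          refine ih (a l).1 (a l).2 _ (Or.inl (hin _ ?_))
          unfold inputs
          rw [hc]
          rw [List.mem_ofFn]
          exact ⟨l, rfl⟩
        · rw [val_and c x _ hc, val_and c y _ hc]
          rw [ih j.1 j.2 _ (Or.inl (hin _ (by unfold inputs; rw [hc]; simp))),
            ih k.1 k.2 _ (Or.inl (hin _ (by unfold inputs; rw [hc]; simp)))]
        · rw [val_or c x _ hc, val_or c y _ hc]
          rw [ih j.1 j.2 _ (Or.inl (hin _ (by unfold inputs; rw [hc]; simp))),
            ih k.1 k.2 _ (Or.inl (hin _ (by unfold inputs; rw [hc]; simp)))]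
      · have hT' : ⟨n, hn⟩ ∈ tgt c o := hT.resolve_right hcut
        rcases one_cut c n hn with h1 | ⟨a, ha, hca, h1⟩
        · rw [← h1 true x, ← h1 true y]
          exact h _ hT' true
        · have hlt : a.1 < n := by
            rcases Nat.lt_or_eq_of_le ha with h2 | h2
            · exact h2
            · exfalso
              apply hcut
              have : (⟨n, hn⟩ : Fin s) = a := Fin.ext h2.symm
              rw [this]
              exact hca
          have h2 : val c x a = val c y a := ih a.1 hlt a.2 (Or.inr hca)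
          rw [h1 x, h1 y, ← h2]
          exact h _ hT' _
  exact main o.1 o.2 (Or.inl (by unfold tgt; exact mem_insert_self _ _))

/-- the number of relevant gates -/
lemma card_tgt (c : Circuit ι s) (o : Fin s) :
    (tgt c o).card ≤ wires c + 2 * numMixing c + 1 := by
  classical
  unfold tgt
  refine (card_insert_le _ _).trans (Nat.add_le_add_right ?_ 1)
  refine card_biUnion_le.trans ?_
  have h1 : ∀ i ∈ univ.filter (fun i => Cut c i), ((inputs c i).toFinset).card ≤
      (inputs c i).length := fun i _ => List.toFinset_card_le _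
  refine (sum_le_sum h1).trans ?_
  have h2 : univ.filter (fun i => Cut c i) ⊆
      univ.filter (fun i => Arb c i) ∪ univ.filter (fun i => Mixing c i) := by
    intro i hi
    rw [mem_filter] at hi
    rw [mem_union, mem_filter, mem_filter]
    rcases hi.2 with h | h
    · exact Or.inl ⟨mem_univ _, h⟩
    · exact Or.inr ⟨mem_univ _, h⟩
  refine (sum_le_sum_of_subset h2).trans ?_
  refine (Nat.le_add_right _ (∑ i ∈ univ.filter (fun i => Arb c i) ∩
    univ.filter (fun i => Mixing c i), (inputs c i).length)).trans ?_
  rw [sum_union_inter]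
  refine Nat.add_le_add le_rfl ?_
  unfold numMixing
  rw [mul_comm]
  refine sum_le_card_nsmul _ _ 2 ?_ |>.trans (by rw [smul_eq_mul])
  intro i hi
  rw [mem_filter] at hi
  obtain ⟨j, k, hc | hc, _, _⟩ := hi.2 <;>
  · unfold inputs
    rw [hc]
    simp

lemma arb_dep (c : Circuit ι s) (i : Fin s) (h : Arb c i) : Dep c i := by
  obtain ⟨m, a, f, hc⟩ := h
  unfold Dep
  rw [level_arb c i hc]
  exact Nat.le_add_left _ _

lemma mixing_dep (c : Circuit ι s) (i : Fin s) (h : Mixing c i) : Dep c i := by
  obtain ⟨j, k, hc | hc, h1, _⟩ := h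
  · unfold Dep
    rw [level_and c i hc]
    exact h1.trans (le_max_left _ _)
  · unfold Dep
    rw [level_or c i hc]
    exact h1.trans (le_max_left _ _)

open Classical in
/-- in a formula-like circuit there are at most as many mixing gates as arbitrary gates -/
lemma numMixing_le (c : Circuit ι s) (h : FormulaLike c) : numMixing c ≤ numArb c := by
  classical
  let V : Finset (Fin s) := univ.filter fun i => Dep c i
  -- double counting of the wires between dependent gates
  have h1 : ∑ i ∈ V, ((inputs c i).filter fun j => Dep c j).length ≤ V.card := by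
    have e1 : ∀ i, ((inputs c i).filter fun j => Dep c j).length =
        ∑ j ∈ V, (inputs c i).count j := by
      intro i
      rw [← List.countP_eq_length_filter]
      induction inputs c i with
      | nil => simp
      | cons a l ih =>
        rw [List.countP_cons, ih]
        have e2 : ∀ j, (a :: l).count j = l.count j + if a = j then 1 else 0 := by
          intro j
          rw [List.count_cons]
          simp
        rw [Finset.sum_congr rfl fun j _ => e2 j, sum_add_distrib, Finset.sum_ite_eq]
        congr 1
        by_cases ha : Dep c a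
        · simp [V, ha]
        · simp [V, ha]
    calc ∑ i ∈ V, ((inputs c i).filter fun j => Dep c j).length
        ≤ ∑ i, ((inputs c i).filter fun j => Dep c j).length :=
          sum_le_sum_of_subset (subset_univ _)
      _ = ∑ i, ∑ j ∈ V, (inputs c i).count j := Finset.sum_congr rfl fun i _ => e1 i
      _ = ∑ j ∈ V, ∑ i, (inputs c i).count j := sum_comm
      _ ≤ ∑ j ∈ V, 1 := sum_le_sum fun j hj => h j (mem_filter.1 hj).2
      _ = V.card := by simp
  have h2 : ∀ i ∈ V, 1 + (if Mixing c i then 1 else 0) ≤
      ((inputs c i).filter fun j => Dep c j).length + if Arb c i then 1 else 0 := by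
    intro i hi
    have hd : Dep c i := (mem_filter.1 hi).2
    rcases hc : c i with e | b' | ⟨j, k⟩ | ⟨j, k⟩ | ⟨m, a, f⟩
    · exfalso
      unfold Dep at hd
      rw [level, hc] at hd
      exact absurd hd (by norm_num)
    · exfalso
      unfold Dep at hd
      rw [level, hc] at hd
      exact absurd hd (by norm_num)
    · have hl : level c i = max (level c ⟨j.1, j.2.trans i.2⟩) (level c ⟨k.1, k.2.trans i.2⟩) :=
        level_and c i hc
      have hin : inputs c i = [⟨j.1, j.2.trans i.2⟩, ⟨k.1, k.2.trans i.2⟩] := by
        unfold inputs; rw [hc]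
      rw [hin]
      by_cases hj : Dep c ⟨j.1, j.2.trans i.2⟩ <;> by_cases hk : Dep c ⟨k.1, k.2.trans i.2⟩
      · rw [List.filter_cons_of_pos (by simpa using hj), List.filter_cons_of_pos (by simpa using hk)]
        split_ifs <;> simp
      · have hm : ¬ Mixing c i := by
          rintro ⟨j', k', h' | h', h3, h4⟩
          · rw [hc] at h'; cases h'; exact hk h4
          · rw [hc] at h'; cases h'
        rw [List.filter_cons_of_pos (by simpa using hj), if_neg hm, List.length_cons, Nat.add_zero]
        exact (Nat.le_add_left _ _).trans (Nat.le_add_right _ _)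
      · have hm : ¬ Mixing c i := by
          rintro ⟨j', k', h' | h', h3, h4⟩
          · rw [hc] at h'; cases h'; exact hj h3
          · rw [hc] at h'; cases h'
        rw [List.filter_cons_of_neg (by simpa using hj), List.filter_cons_of_pos (by simpa using hk),
          if_neg hm]
        simp
      · exfalso
        unfold Dep at hd hj hk
        rw [hl] at hd
        have := le_max_iff.1 hd
        rcases this with h' | h'
        · exact hj h'
        · exact hk h'
    · have hl : level c i = max (level c ⟨j.1, j.2.trans i.2⟩) (level c ⟨k.1, k.2.trans i.2⟩) :=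
        level_or c i hc
      have hin : inputs c i = [⟨j.1, j.2.trans i.2⟩, ⟨k.1, k.2.trans i.2⟩] := by
        unfold inputs; rw [hc]
      rw [hin]
      by_cases hj : Dep c ⟨j.1, j.2.trans i.2⟩ <;> by_cases hk : Dep c ⟨k.1, k.2.trans i.2⟩
      · rw [List.filter_cons_of_pos (by simpa using hj), List.filter_cons_of_pos (by simpa using hk)]
        split_ifs <;> simp
      · have hm : ¬ Mixing c i := by
          rintro ⟨j', k', h' | h', h3, h4⟩
          · rw [hc] at h'; cases h'
          · rw [hc] at h'; cases h'; exact hk h4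
        rw [List.filter_cons_of_pos (by simpa using hj), if_neg hm, List.length_cons, Nat.add_zero]
        exact (Nat.le_add_left _ _).trans (Nat.le_add_right _ _)
      · have hm : ¬ Mixing c i := by
          rintro ⟨j', k', h' | h', h3, h4⟩
          · rw [hc] at h'; cases h'
          · rw [hc] at h'; cases h'; exact hj h3
        rw [List.filter_cons_of_neg (by simpa using hj), List.filter_cons_of_pos (by simpa using hk),
          if_neg hm]
        simp
      · exfalso
        unfold Dep at hd hj hk
        rw [hl] at hd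
        have := le_max_iff.1 hd
        rcases this with h' | h'
        · exact hj h'
        · exact hk h'
    · have ha : Arb c i := ⟨m, a, f, hc⟩
      have hm : ¬ Mixing c i := by
        rintro ⟨j', k', h' | h', h3, h4⟩ <;>
        · rw [hc] at h'; cases h'
      rw [if_neg hm, if_pos ha]
      omega
  have h3 := sum_le_sum h2
  rw [sum_add_distrib, sum_add_distrib] at h3
  have e3 : ∑ i ∈ V, (if Mixing c i then 1 else 0) = numMixing c := by
    rw [← card_filter]
    unfold numMixing
    congr 1
    ext i
    simp only [V, mem_filter, mem_univ, true_and]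
    exact ⟨fun h => h.2, fun h => ⟨mixing_dep c i h, h⟩⟩
  have e4 : ∑ i ∈ V, (if Arb c i then 1 else 0) = numArb c := by
    rw [← card_filter]
    unfold numArb
    congr 1
    ext i
    simp only [V, mem_filter, mem_univ, true_and]
    exact ⟨fun h => h.2, fun h => ⟨arb_dep c i h, h⟩⟩
  rw [e3, e4] at h3
  have e5 : ∑ i ∈ V, 1 = V.card := by simp
  rw [e5] at h3
  omega

end Pool.Agent.LayCirc
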