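import Pool.Agent.Work.MP_71c844_lc.LayDef

/-!
Mixing gates, wires into arbitrary gates, and circuits whose non-monotone part is a formula.
-/

namespace Pool.Agent.LayCirc

variable {ι : Type} {s : ℕ}

/-- Gate number `i` is an arbitrary gate. -/
def Arb (c : Circuit ι s) (i : Fin s) : Prop :=
  ∃ (m : ℕ) (a : Fin m → Fin i.1) (f : (Fin m → Bool) → Bool), c i = .arb m a f

/-- Gate number `i` depends on arbitrary gates: some path of the circuit leads from an arbitrary
gate to gate number `i` (an arbitrary gate itself counts). -/
def Dep (c : Circuit ι s) (i : Fin s) : Prop := 1 ≤ level c i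

/-- Gate number `i` is mixing: it is an AND gate or an OR gate, and both of its inputs depend on
arbitrary gates. -/
def Mixing (c : Circuit ι s) (i : Fin s) : Prop :=
  ∃ j k : Fin i.1, (c i = .and j k ∨ c i = .or j k) ∧
    Dep c ⟨j.1, j.2.trans i.2⟩ ∧ Dep c ⟨k.1, k.2.trans i.2⟩

/-- The list of the gates that are read by gate number `i` (with repetitions). -/
def inputs (c : Circuit ι s) (i : Fin s) : List (Fin s) :=
  match c i with
  | .var _ => []
  | .const _ => []
  | .and j k => [⟨j.1, j.2.trans i.2⟩, ⟨k.1, k.2.trans i.2⟩]
  | .or j k => [⟨j.1, j.2.trans i.2⟩, ⟨k.1, k.2.trans i.2⟩]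
  | .arb _ a _ => List.ofFn fun l => ⟨(a l).1, (a l).2.trans i.2⟩

/-- Each gate which depends on arbitrary gates is read at most once. (The other gates may be read
arbitrarily often.) Every formula has this property. -/
def FormulaLike (c : Circuit ι s) : Prop :=
  ∀ j, Dep c j → ∑ i, (inputs c i).count j ≤ 1

open Classical in
/-- The number of arbitrary gates. -/
noncomputable def numArb (c : Circuit ι s) : ℕ := (Finset.univ.filter fun i => Arb c i).card

open Classical in
/-- The total number of inputs of the arbitrary gates. -/
noncomputable def wires (c : Circuit ι s) : ℕ :=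
  ∑ i ∈ Finset.univ.filter (fun i => Arb c i), (inputs c i).length

open Classical in
/-- The number of mixing gates. -/
noncomputable def numMixing (c : Circuit ι s) : ℕ :=
  (Finset.univ.filter fun i => Mixing c i).card

end Pool.Agent.LayCirc
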