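import Pool.Agent.Work.MP_71c844_lc.LayCoNondet

/-!
Co-nondeterministic circuits with arbitrary gates that do not depend on the guess.
-/

namespace Pool.Agent.LayCirc

open Finset
open Pool.Agent.NegLim (Dich Tn lowSets gval pull mapVar orTop)

set_option linter.unusedSectionVars false

variable {ι : Type} {s a : ℕ} {E : Type*} [Fintype E] [DecidableEq E]

/-- the projection belonging to the guess `y` -/
def gproj (π : ι → Bool ⊕ E) (y : Fin a → Bool) : ι ⊕ (Fin a × Bool) → Bool ⊕ E :=
  Sum.elim π (fun p => Sum.inl (y p.1 == p.2))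

lemma inp_gproj (π : ι → Bool ⊕ E) (y : Fin a → Bool) (X : Finset E) :
    inp (gproj π y) X = withGuess (inp π X) y := by
  funext e
  rcases e with e | p
  · rfl
  · rfl

lemma gval_qry_mono (π : ι → Bool ⊕ E) (c : Circuit ι s) (o : Fin s) (h : Fin s → Bool)
    {X Z : Finset E} (hXZ : X ⊆ Z) (hX : gval (qry π c o h) 0 X = true) :
    gval (qry π c o h) 0 Z = true :=
  NegLim.gval_mono _ (numNot_qry π c o h) 0 hXZ hX

/-- if the output is true, then so is the query of the pattern -/
lemma gval_qry_of_output (π : ι → Bool ⊕ E) (c : Circuit ι s) (o : Fin s) (X : Finset E)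
    (hX : val c (inp π X) o = true) : gval (qry π c o (pat π c X)) 0 X = true := by
  classical
  rw [gval_qry]
  refine ⟨o, by rw [idxs, mem_filter]; exact ⟨mem_univ _, Or.inr rfl⟩, ?_⟩
  rw [frozen_eq c (pat π c X) (inp π X) s le_rfl (fun i _ hi => ?_) o.1 o.2 o.2.le]
  · exact hX
  · unfold pat
    rw [if_pos hi]

variable {U : Type*} [Fintype U] [Nonempty U]

open Classical in
/-- The abstract lower bound. -/
theorem guess_bound {b K R N P : ℕ} {q : ℝ} {Y : U → Finset E} (hb : 1 ≤ b)
    (hK : 1 ≤ K) (hq : 16 * b * 2 ^ K ≤ q)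
    (hY : ∀ A : Finset E, A.card ≤ 2 * b →
      ((univ.filter (fun u => A ⊆ Y u)).card : ℝ) ≤ Fintype.card U * (1 / q) ^ A.card)
    (hN : ∀ u, N ≤ (Y u).card) (hU : 2 * Fintype.card U ≤ 2 ^ N)
    (π : ι → Bool ⊕ E) (c : Circuit (ι ⊕ (Fin a × Bool)) s) (o : Fin s)
    (hfree : ∀ j, Fed c j → ∀ (x : ι → Bool) (y y' : Fin a → Bool),
      val c (withGuess x y) j = val c (withGuess x y') j)
    (hc : ∀ X : Finset E, (∀ y, val c (withGuess (inp π X) y) o = true) ↔ ∃ u, Y u ⊆ X)
    (hP1 : 1 ≤ P)
    (hP : ∀ x : ℕ → (ι → Bool), Monotone x →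
      (Set.range (fun i => pattern c (withGuess (x i) fun _ => false))).ncard ≤ P)
    (hS : 2 * s ≤ 2 ^ b)
    (hSR : 2 ^ K * (2 ^ a * ((2 * s + 1) * (lowSets E b).card)) ≤ 2 ^ R) (hR : 1 ≤ R) :
    2 ^ K ≤ 44 * K * (R * P) := by
  set W : ℝ := ((lowSets E b).card : ℝ) with hW
  set ε : ℝ := (((2 * s : ℕ) : ℝ) + 1) * (W * (1 / 2) ^ R) with hε
  have hε0 : 0 ≤ ε := by positivity
  have hcardG : Fintype.card (Fin a → Bool) = 2 ^ a := by simp
  have hmε : (2 : ℝ) ^ K * (Fintype.card (Fin a → Bool) * ε) ≤ 1 := by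
    have e1 : ((2 : ℝ) ^ K * (2 ^ a * ((((2 * s : ℕ) : ℝ) + 1) * W))) ≤ 2 ^ R := by
      rw [hW]; exact_mod_cast hSR
    rw [hε, hcardG]
    have e4 : (1 / 2 : ℝ) ^ R = 1 / 2 ^ R := by rw [div_pow, one_pow]
    rw [e4]
    have : (2 : ℝ) ^ K * (((2 ^ a : ℕ) : ℝ) * ((((2 * s : ℕ) : ℝ) + 1) * (W * (1 / 2 ^ R)))) =
        ((2 : ℝ) ^ K * (2 ^ a * ((((2 * s : ℕ) : ℝ) + 1) * W))) / 2 ^ R := by
      push_cast
      ring
    rw [this, div_le_one (by positivity)]
    exact e1
  -- the pattern does not depend on the guess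
  have hpat : ∀ (X : Finset E) (y : Fin a → Bool),
      pat (gproj π y) c X = pat (gproj π fun _ => false) c X := by
    intro X y
    funext j
    unfold pat
    by_cases hj : Fed c j
    · rw [if_pos hj, if_pos hj, inp_gproj, inp_gproj]
      exact hfree j hj _ _ _
    · rw [if_neg hj, if_neg hj]
  refine NegLim.main_single (E := E) (U := U) (H := Fin s → Bool) (b := b)
    (K := K) (N := N) (R := R) (P := P) (q := q) (ε := Fintype.card (Fin a → Bool) * ε) (Y := Y)
    hb hK hq (by positivity) hmε hN hU hR hP1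
    (pat (gproj π fun _ => false) c)
    (fun h x => decide (∀ y : Fin a → Bool, gval (qry (gproj π y) c o h) 0 x = true)) ?_ ?_ ?_
  · intro x hx m
    have h1 := hP (fun i => inp π (x i)) (by
      intro i j hij e
      show inp π (x i) e ≤ inp π (x j) e
      unfold inp pull
      rcases π e with b' | t
      · exact le_rfl
      · have := hx hij
        by_cases h : t ∈ x i
        · simp only [h, this h, le_refl]
        · simp only [h, decide_false]
          exact Bool.false_le _)
    refine le_trans ?_ h1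
    rw [← Set.ncard_coe_finset]
    -- an injection from the patterns
    let ext : ({j : Fin s // Fed c j} → Bool) → (Fin s → Bool) :=
      fun f j => if h : Fed c j then f ⟨j, h⟩ else false
    refine le_trans (Set.ncard_le_ncard
      (t := ext '' (Set.range (fun i => pattern c (withGuess (inp π (x i)) fun _ => false))))
      ?_ (Set.toFinite _)) (Set.ncard_image_le (Set.toFinite _))
    intro f hf
    obtain ⟨i, _, rfl⟩ := (@Finset.mem_image _ _
      (fun a b => Classical.propDecidable (a = b)) _ _ _).mp (Finset.mem_coe.mp hf)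
    refine ⟨pattern c (withGuess (inp π (x i)) fun _ => false), ⟨i, rfl⟩, ?_⟩
    funext j
    simp only [ext, pattern, pat, inp_gproj]
    by_cases h : Fed c j
    · rw [dif_pos h, if_pos h]
    · rw [dif_neg h, if_neg h]
  · intro h
    apply Dich.all
    intro y
    have := NegLim.dich_circuit (E := E) (U := U) (b := b) (K := K) (R := R) (q := q) (Y := Y)
      hb hq hY (qry (gproj π y) c o h) (numNot_qry (gproj π y) c o h) 0 (2 * s)
      (size_qry (gproj π y) c o h) hS
    exact this
  · intro x hx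
    have hxo : ¬ ∀ y, val c (withGuess (inp π x) y) o = true := by rw [hc x]; exact hx
    refine ⟨?_, fun u => ?_⟩
    · push Not at hxo
      obtain ⟨y, hy⟩ := hxo
      rw [decide_eq_false_iff_not]
      intro hall
      have h1 := hall y
      have h2 := (pat_cover (gproj π y) c o x x (Finset.Subset.refl _)
        (by rw [inp_gproj]; exact Bool.eq_false_iff.mpr hy)).1
      rw [hpat x y] at h2
      rw [h2] at h1
      cases h1
    · rw [decide_eq_true_eq]
      intro y
      have hZ : val c (inp (gproj π y) (x ∪ Y u)) o = true := by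
        rw [inp_gproj]
        exact (hc (x ∪ Y u)).mpr ⟨u, Finset.subset_union_right⟩ y
      rcases hv : val c (inp (gproj π y) x) o with _ | _
      · have h2 := (pat_cover (gproj π y) c o x (x ∪ Y u) Finset.subset_union_left hv).2 hZ
        rw [hpat x y] at h2
        exact h2
      · have h2 := gval_qry_of_output (gproj π y) c o x hv
        rw [hpat x y] at h2
        exact gval_qry_mono _ c o _ Finset.subset_union_left h2

section clique

open Pool.Agent.NegLim (Part Vtx Gr Seed planted proj)

/-- The bound in terms of the parameters of the construction. -/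
lemma guess_clique_bound {p : ℕ} [Fact p.Prime] {b N K R d v k s a P : ℕ} (hb : 1 ≤ b) (hN1 : 1 ≤ N)
    (hNp : N ≤ p) (hK : 1 ≤ K) (hq : 16 * b * 2 ^ K ≤ p ^ 4)
    (hk : N * (8 * b + 2) + d = k) (hv : N * (8 * b + 2) * p ^ 2 + d ≤ v)
    (hU : 2 * p ^ (8 * b) ≤ 2 ^ N)
    (c : Circuit (Sym2 (Fin v) ⊕ (Fin a × Bool)) s) (o : Fin s)
    (hfree : ∀ j, Fed c j → ∀ (x : Sym2 (Fin v) → Bool) (y y' : Fin a → Bool),
      val c (withGuess x y) j = val c (withGuess x y') j)
    (hP1 : 1 ≤ P)
    (hP : ∀ x : ℕ → (Sym2 (Fin v) → Bool), Monotone x →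
      (Set.range (fun i => pattern c (withGuess (x i) fun _ => false))).ncard ≤ P)
    (hS : 2 * s ≤ 2 ^ b)
    (hSR : 2 ^ K * (2 ^ a * ((2 * s + 1) * (N * p ^ 4 + 1) ^ (2 * b))) ≤ 2 ^ R) (hR : 1 ≤ R)
    (hc : ∀ x : Sym2 (Fin v) → Bool, (∀ y, val c (withGuess x y) o = true) ↔
      ¬ (SimpleGraph.fromEdgeSet {e | x e = true}).CliqueFree k) :
    2 ^ K ≤ 44 * K * (R * P) := by
  classical
  have hcardPart : Fintype.card (Part b N) = N * (8 * b + 2) := by
    simp only [Fintype.card_sum, Fintype.card_prod, Fintype.card_fin]; ring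
  have hcardV : Fintype.card (Vtx p b N d) = N * (8 * b + 2) * p ^ 2 + d := by
    rw [Fintype.card_sum, Fintype.card_prod, hcardPart, Fintype.card_prod, ZMod.card,
      Fintype.card_fin]
    ring
  have hcardGr : Fintype.card (Gr p N) = N * p ^ 4 := by
    simp only [Fintype.card_prod, Fintype.card_fin, ZMod.card]; ring
  obtain ⟨ι⟩ : Nonempty (Vtx p b N d ↪ Fin v) :=
    Function.Embedding.nonempty_of_card_le (by rw [hcardV, Fintype.card_fin]; exact hv)
  have hkc : Fintype.card (Part b N ⊕ Fin d) = k := by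
    rw [Fintype.card_sum, hcardPart, Fintype.card_fin]; exact hk
  refine guess_bound (E := Gr p N) (U := Seed p b) (b := b) (K := K) (R := R) (N := N)
    (q := (p : ℝ) ^ 4) (Y := planted N) hb hK (by exact_mod_cast hq)
    (fun A hA => NegLim.planted_spread hb hNp A hA)
    (fun u => (NegLim.card_planted u).ge) (by rw [NegLim.card_seed]; exact hU)
    (proj ι) c o hfree ?_ hP1 hP hS ?_ hR
  · intro x
    rw [hc, ← hkc]
    constructor
    · intro h
      obtain ⟨u, hu⟩ := NegLim.planted_of_clique ι hb hN1 (fun e => decide (e ∈ x)) h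
      refine ⟨u, fun a ha => ?_⟩
      rw [NegLim.mem_planted] at ha
      have := hu a.1
      rw [ha] at this
      simpa using this
    · rintro ⟨u, hu⟩
      apply NegLim.clique_of_planted ι (fun e => decide (e ∈ x)) u
      intro i
      simp only [decide_eq_true_eq]
      apply hu
      rw [NegLim.mem_planted]
  · refine le_trans ?_ hSR
    apply Nat.mul_le_mul_left
    apply Nat.mul_le_mul_left
    apply Nat.mul_le_mul_left
    have := NegLim.card_lowSets_le (E := Gr p N) b
    rwa [hcardGr] at this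

end clique

end Pool.Agent.LayCirc
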