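import Pool.Agent.Work.MP_71c844_lc.RecApprox
import Pool.Agent.Work.MP_71c844_lc.LayGuess

/-!
The dichotomy at all scales with the better parameters, and the abstract lower bound.
-/

namespace Pool.Agent.Rec82

set_option linter.unusedSectionVars false

open Finset
open Pool.Agent.NegLim (Tn miss lowSets gval gval_mono Gate size numNot Dich dens_ge)

variable {E : Type*} [Fintype E] [DecidableEq E]
variable {U : Type*} [Fintype U] [Nonempty U]

open Classical in
/-- Every gate of a small circuit without NOT gates satisfies the dichotomy. -/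
lemma dich_circuit {b ℓ K R : ℕ} {q : ℝ} {Y : U → Finset E} (hb : 1 ≤ b) (hℓ : 2 * b < 2 ^ ℓ)
    (hq : 64 * 2 ^ K ≤ q)
    (hY : ∀ A : Finset E, A.card ≤ 2 * b →
      ((univ.filter (fun u => A ⊆ Y u)).card : ℝ) ≤ Fintype.card U * (1 / q) ^ A.card)
    (c : List (Gate E)) (hc : numNot c = 0) (j S : ℕ) (hcS : size c ≤ S) (hS : S ≤ 2 ^ b) :
    Dich K (ℓ * R) 4 q ((S + 1) * ((lowSets E b).card * (1 / 2) ^ R)) Y (gval c j) := by
  refine ⟨fun x y hxy h => gval_mono c hc j hxy h, ?_⟩
  set δ : ℝ := 1 / (2 : ℝ) ^ K with hδ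
  have hM : (0 : ℝ) < 2 ^ K := by positivity
  have h0 : 0 ≤ δ := by positivity
  have h1 : δ ≤ 1 := by
    rw [hδ, div_le_one hM]; exact one_le_pow₀ (by norm_num)
  have hqpos : 0 < q := lt_of_lt_of_le (by positivity) hq
  have hUpos : (0 : ℝ) < Fintype.card U := by exact_mod_cast Fintype.card_pos
  let B : ℕ → ℝ := fun k => 32 * 2 ^ K / 2 ^ k
  have hB0 : ∀ k, 0 < B k := fun k => by simp only [B]; positivity
  have hBq : ∀ k, B k / q ≤ 1 / 2 := by
    intro k
    rw [div_le_iff₀ hqpos]
    have : B k ≤ 32 * 2 ^ K := by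
      simp only [B]
      apply div_le_self (by positivity)
      exact one_le_pow₀ (by norm_num)
    linarith
  have hscale : ∀ k, k ≤ K → Scale E U δ (2 ^ k * (ℓ * R)) b (B k) q ((1 / 2) ^ R) Y := by
    intro k hk
    refine ⟨h0, h1, hB0 k, hqpos, hBq k, hb, by positivity, ?_, fun A hA => by convert hY A hA⟩
    intro j F hj hF hFc
    have hge := dens_ge (M := 2 ^ K) (n := 2 ^ k) (by positivity)
      (Nat.pow_le_pow_right (by norm_num) hk)
    push_cast at hge
    rw [← hδ] at hge
    have e1 : B k * ((2 : ℝ) ^ k / (2 * 2 ^ K)) = 16 := by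
      simp only [B]; field_simp; norm_num
    have e2 : 16 ≤ B k * NegLim.dens δ (2 ^ k) := by
      calc (16 : ℝ) = B k * ((2 : ℝ) ^ k / (2 * 2 ^ K)) := e1.symm
        _ ≤ B k * NegLim.dens δ (2 ^ k) := mul_le_mul_of_nonneg_left hge (hB0 k).le
    have := sunflower h0 h1 (2 ^ k) ℓ b j R (B k) (hB0 k) hj hℓ e2 F hF hFc
    rwa [mul_assoc] at this
  intro k hk x
  have hcS' : (size c : ℝ) ≤ S := by exact_mod_cast hcS
  have h4 : (8 : ℝ) * ((4 : ℕ) : ℝ) * 2 ^ K / 2 ^ k / q = B k / q := by
    simp only [B]; push_cast; ring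
  rw [h4]
  rcases dichotomy (hscale k hk) x c hc j with h | h
  · left
    refine h.trans ?_
    apply mul_le_mul_of_nonneg_right _ (by positivity)
    linarith
  · right
    rw [div_le_iff₀ hUpos]
    refine h.trans ?_
    rw [mul_comm]
    apply mul_le_mul_of_nonneg_right _ hUpos.le
    have hBk : 0 ≤ B k / q := div_nonneg (hB0 k).le hqpos.le
    have e1 : (B k / q) ^ (b + 1) ≤ (1 / 2) ^ b * (B k / q) := by
      rw [pow_succ]
      exact mul_le_mul_of_nonneg_right (pow_le_pow_left₀ hBk (hBq k) b) hBk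
    have e2 : (size c : ℝ) * (1 / 2) ^ b ≤ 1 := by
      have e3 : (S : ℝ) ≤ 2 ^ b := by exact_mod_cast hS
      have e4 : (1 / 2 : ℝ) ^ b = 1 / 2 ^ b := by rw [div_pow, one_pow]
      rw [e4, mul_one_div, div_le_one (by positivity)]
      linarith
    have e5 : (size c : ℝ) * (2 * (B k / q) ^ (b + 1)) ≤ 2 * (B k / q) := by
      calc (size c : ℝ) * (2 * (B k / q) ^ (b + 1))
          ≤ (size c : ℝ) * (2 * ((1 / 2) ^ b * (B k / q))) := by
            apply mul_le_mul_of_nonneg_left _ (by positivity)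
            linarith
        _ = ((size c : ℝ) * (1 / 2) ^ b) * (2 * (B k / q)) := by ring
        _ ≤ 1 * (2 * (B k / q)) := mul_le_mul_of_nonneg_right e2 (by positivity)
        _ = 2 * (B k / q) := one_mul _
    linarith

end Pool.Agent.Rec82

namespace Pool.Agent.LayCirc

open Finset
open Pool.Agent.NegLim (Dich Tn lowSets gval pull mapVar orTop)

set_option linter.unusedSectionVars false

variable {ι : Type} {s a : ℕ} {E : Type*} [Fintype E] [DecidableEq E]
variable {U : Type*} [Fintype U] [Nonempty U]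

open Classical in
/-- The abstract lower bound with the better parameters. -/
theorem guess_bound' {b ℓ K R N P : ℕ} {q : ℝ} {Y : U → Finset E} (hb : 1 ≤ b)
    (hℓ : 2 * b < 2 ^ ℓ) (hK : 1 ≤ K) (hq : 64 * 2 ^ K ≤ q)
    (hY : ∀ A : Finset E, A.card ≤ 2 * b →
      ((univ.filter (fun u => A ⊆ Y u)).card : ℝ) ≤ Fintype.card U * (1 / q) ^ A.card)
    (hN : ∀ u, N ≤ (Y u).card) (hU : 2 * Fintype.card U ≤ 2 ^ N)
    (π : ι → Bool ⊕ E) (c : Circuit (ι ⊕ (Fin a × Bool)) s) (o : Fin s)
    (hfree : ∀ j, Fed c j → ∀ (x : ι → Bool) (y y' : Fin a → Bool),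
      val c (withGuess x y) j = val c (withGuess x y') j)
    (hc : ∀ X : Finset E, (∀ y, val c (withGuess (inp π X) y) o = true) ↔ ∃ u, Y u ⊆ X)
    (hP1 : 1 ≤ P)
    (hP : ∀ x : ℕ → (ι → Bool), Monotone x →
      (Set.range (fun i => pattern c (withGuess (x i) fun _ => false))).ncard ≤ P)
    (hS : 2 * s ≤ 2 ^ b)
    (hSR : 2 ^ K * (2 ^ a * ((2 * s + 1) * (lowSets E b).card)) ≤ 2 ^ R) (hR : 1 ≤ R)
    (hℓ1 : 1 ≤ ℓ) :
    2 ^ K ≤ 44 * K * (ℓ * R * P) := by
  set W : ℝ := ((lowSets E b).card : ℝ) with hW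
  set ε : ℝ := (((2 * s : ℕ) : ℝ) + 1) * (W * (1 / 2) ^ R) with hε
  have hε0 : 0 ≤ ε := by positivity
  have hcardG : Fintype.card (Fin a → Bool) = 2 ^ a := by simp
  have hmε : (2 : ℝ) ^ K * (Fintype.card (Fin a → Bool) * ε) ≤ 1 := by
    have e1 : ((2 : ℝ) ^ K * (2 ^ a * ((((2 * s : ℕ) : ℝ) + 1) * W))) ≤ 2 ^ R := by
      rw [hW]; exact_mod_cast hSR
    rw [hε, hcardG]
    have e4 : (1 / 2 : ℝ) ^ R = 1 / 2 ^ R := by rw [div_pow, one_pow]
    rw [e4]
    have : (2 : ℝ) ^ K * (((2 ^ a : ℕ) : ℝ) * ((((2 * s : ℕ) : ℝ) + 1) * (W * (1 / 2 ^ R)))) =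
        ((2 : ℝ) ^ K * (2 ^ a * ((((2 * s : ℕ) : ℝ) + 1) * W))) / 2 ^ R := by
      push_cast
      ring
    rw [this, div_le_one (by positivity)]
    exact e1
  -- the pattern does not depend on the guess
  have hpat : ∀ (X : Finset E) (y : Fin a → Bool),
      pat (gproj π y) c X = pat (gproj π fun _ => false) c X := by
    intro X y
    funext j
    unfold pat
    by_cases hj : Fed c j
    · rw [if_pos hj, if_pos hj, inp_gproj, inp_gproj]
      exact hfree j hj _ _ _
    · rw [if_neg hj, if_neg hj]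
  refine NegLim.main_single (E := E) (U := U) (H := Fin s → Bool) (b := 4)
    (K := K) (N := N) (R := ℓ * R) (P := P) (q := q) (ε := Fintype.card (Fin a → Bool) * ε) (Y := Y)
    (by norm_num) hK (by push_cast; linarith) (by positivity) hmε hN hU
    (Nat.one_le_iff_ne_zero.mpr (by positivity)) hP1
    (pat (gproj π fun _ => false) c)
    (fun h x => decide (∀ y : Fin a → Bool, gval (qry (gproj π y) c o h) 0 x = true)) ?_ ?_ ?_
  · intro x hx m
    have h1 := hP (fun i => inp π (x i)) (by
      intro i j hij e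
      show inp π (x i) e ≤ inp π (x j) e
      unfold inp pull
      rcases π e with b' | t
      · exact le_rfl
      · have := hx hij
        by_cases h : t ∈ x i
        · simp only [h, this h, le_refl]
        · simp only [h, decide_false]
          exact Bool.false_le _)
    refine le_trans ?_ h1
    rw [← Set.ncard_coe_finset]
    -- an injection from the patterns
    let ext : ({j : Fin s // Fed c j} → Bool) → (Fin s → Bool) :=
      fun f j => if h : Fed c j then f ⟨j, h⟩ else false
    refine le_trans (Set.ncard_le_ncard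
      (t := ext '' (Set.range (fun i => pattern c (withGuess (inp π (x i)) fun _ => false))))
      ?_ (Set.toFinite _)) (Set.ncard_image_le (Set.toFinite _))
    intro f hf
    obtain ⟨i, _, rfl⟩ := (@Finset.mem_image _ _
      (fun a b => Classical.propDecidable (a = b)) _ _ _).mp (Finset.mem_coe.mp hf)
    refine ⟨pattern c (withGuess (inp π (x i)) fun _ => false), ⟨i, rfl⟩, ?_⟩
    funext j
    simp only [ext, pattern, pat, inp_gproj]
    by_cases h : Fed c j
    · rw [dif_pos h, if_pos h]
    · rw [dif_neg h, if_neg h]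
  · intro h
    apply Dich.all
    intro y
    have := Rec82.dich_circuit (E := E) (U := U) (b := b) (ℓ := ℓ) (K := K) (R := R) (q := q)
      (Y := Y) hb hℓ hq hY (qry (gproj π y) c o h) (numNot_qry (gproj π y) c o h) 0 (2 * s)
      (size_qry (gproj π y) c o h) hS
    exact this
  · intro x hx
    have hxo : ¬ ∀ y, val c (withGuess (inp π x) y) o = true := by rw [hc x]; exact hx
    refine ⟨?_, fun u => ?_⟩
    · push Not at hxo
      obtain ⟨y, hy⟩ := hxo
      rw [decide_eq_false_iff_not]
      intro hall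
      have h1 := hall y
      have h2 := (pat_cover (gproj π y) c o x x (Finset.Subset.refl _)
        (by rw [inp_gproj]; exact Bool.eq_false_iff.mpr hy)).1
      rw [hpat x y] at h2
      rw [h2] at h1
      cases h1
    · rw [decide_eq_true_eq]
      intro y
      have hZ : val c (inp (gproj π y) (x ∪ Y u)) o = true := by
        rw [inp_gproj]
        exact (hc (x ∪ Y u)).mpr ⟨u, Finset.subset_union_right⟩ y
      rcases hv : val c (inp (gproj π y) x) o with _ | _
      · have h2 := (pat_cover (gproj π y) c o x (x ∪ Y u) Finset.subset_union_left hv).2 hZ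
        rw [hpat x y] at h2
        exact h2
      · have h2 := gval_qry_of_output (gproj π y) c o x hv
        rw [hpat x y] at h2
        exact gval_qry_mono _ c o _ Finset.subset_union_left h2

end Pool.Agent.LayCirc
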