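import Pool.Agent.Work.MP_71c844_lc.GapSun
import Pool.Agent.Work.MP_71c844_lc.NegChain

/-!
Razborov approximation relative to a fixed coloured state.
-/

namespace Pool.Agent.GapLim

set_option linter.unusedSectionVars false

open Finset Pool.Agent.NegLim

variable {V C : Type*} [Fintype V] [DecidableEq V] [Fintype C] [DecidableEq C]

/-- `𝒱` contains every set of size at most `2 b` which is an `ε`-approximate implicant. -/
def ClosedC (ρ : ℝ) (b : ℕ) (ε : ℝ) (C : Type*) [Fintype C] (𝒱 : Finset (Finset V)) : Prop :=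
  ∀ K : Finset V, K.card ≤ 2 * b →
    Ex ρ (fun z : St V C => ind (Acc K z ∧ ¬ ∃ A ∈ 𝒱, Acc A z)) ≤ ε → K ∈ 𝒱

section

variable [Nonempty C]

lemma exists_closedC {ρ : ℝ} (h0 : 0 ≤ ρ) (h1 : ρ ≤ 1) (b : ℕ) (ε : ℝ) (hε : 0 ≤ ε)
    (𝒰 : Finset (Finset V)) (h𝒰 : 𝒰 ⊆ lowSets V b) :
    ∃ 𝒱 : Finset (Finset V), 𝒰 ⊆ 𝒱 ∧ 𝒱 ⊆ lowSets V b ∧ ClosedC ρ b ε C 𝒱 ∧
      Ex ρ (fun z : St V C => ind (¬ ∃ A ∈ 𝒰, Acc A z) - ind (¬ ∃ A ∈ 𝒱, Acc A z)) ≤
        (lowSets V b).card * ε := by
  classical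
  suffices H : ∀ (m : ℕ) (𝒰 : Finset (Finset V)), 𝒰 ⊆ lowSets V b →
      (lowSets V b).card - 𝒰.card = m →
      ∃ 𝒱 : Finset (Finset V), 𝒰 ⊆ 𝒱 ∧ 𝒱 ⊆ lowSets V b ∧ ClosedC ρ b ε C 𝒱 ∧
      Ex ρ (fun z : St V C => ind (¬ ∃ A ∈ 𝒰, Acc A z) - ind (¬ ∃ A ∈ 𝒱, Acc A z)) ≤ m * ε by
    obtain ⟨𝒱, h1', h2', h3', h4'⟩ := H _ 𝒰 h𝒰 rfl
    refine ⟨𝒱, h1', h2', h3', h4'.trans ?_⟩
    apply mul_le_mul_of_nonneg_right _ hε
    exact_mod_cast Nat.sub_le _ _
  intro m
  induction m with
  | zero =>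
    intro 𝒰 h𝒰 hm
    have heq : 𝒰 = lowSets V b :=
      Finset.eq_of_subset_of_card_le h𝒰 (by omega)
    refine ⟨𝒰, Finset.Subset.refl _, h𝒰, ?_, ?_⟩
    · intro K hK _
      rw [heq, lowSets, Finset.mem_filter]
      exact ⟨mem_univ _, hK⟩
    · simp [Ex_const]
  | succ m ih =>
    intro 𝒰 h𝒰 hm
    by_cases hc : ClosedC ρ b ε C 𝒰
    · refine ⟨𝒰, Finset.Subset.refl _, h𝒰, hc, ?_⟩
      simp only [sub_self, Ex_const]
      positivity
    · unfold ClosedC at hc
      simp only [not_forall] at hc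
      obtain ⟨K, hK1, hK2, hK3⟩ := hc
      have hins : insert K 𝒰 ⊆ lowSets V b := by
        apply Finset.insert_subset _ h𝒰
        rw [lowSets, Finset.mem_filter]
        exact ⟨mem_univ _, hK1⟩
      obtain ⟨𝒱, g1, g2, g3, g4⟩ := ih (insert K 𝒰) hins (by
        rw [Finset.card_insert_of_notMem hK3]; omega)
      refine ⟨𝒱, (Finset.subset_insert _ _).trans g1, g2, g3, ?_⟩
      have hstep : ∀ z : St V C, ind (¬ ∃ A ∈ 𝒰, Acc A z) - ind (¬ ∃ A ∈ 𝒱, Acc A z) ≤
          ind (Acc K z ∧ ¬ ∃ A ∈ 𝒰, Acc A z) +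
          (ind (¬ ∃ A ∈ insert K 𝒰, Acc A z) - ind (¬ ∃ A ∈ 𝒱, Acc A z)) := by
        intro z
        have : ind (¬ ∃ A ∈ 𝒰, Acc A z) ≤ ind (Acc K z ∧ ¬ ∃ A ∈ 𝒰, Acc A z) +
            ind (¬ ∃ A ∈ insert K 𝒰, Acc A z) := by
          by_cases hU : ∃ A ∈ 𝒰, Acc A z
          · rw [ind_false (not_not.mpr hU)]
            exact add_nonneg (ind_nonneg _) (ind_nonneg _)
          · rw [ind_true hU]
            by_cases hKz : Acc K z
            · rw [ind_true (p := Acc K z ∧ ¬ ∃ A ∈ 𝒰, Acc A z) ⟨hKz, hU⟩]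
              linarith [ind_nonneg (¬ ∃ A ∈ insert K 𝒰, Acc A z)]
            · have : ¬ ∃ A ∈ insert K 𝒰, Acc A z := by
                rintro ⟨A, hA, hacc⟩
                rw [Finset.mem_insert] at hA
                rcases hA with rfl | hA
                · exact hKz hacc
                · exact hU ⟨A, hA, hacc⟩
              rw [ind_true this]
              linarith [ind_nonneg (Acc K z ∧ ¬ ∃ A ∈ 𝒰, Acc A z)]
        linarith
      calc Ex ρ (fun z : St V C => ind (¬ ∃ A ∈ 𝒰, Acc A z) - ind (¬ ∃ A ∈ 𝒱, Acc A z))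
          ≤ Ex ρ (fun z : St V C => ind (Acc K z ∧ ¬ ∃ A ∈ 𝒰, Acc A z) +
          (ind (¬ ∃ A ∈ insert K 𝒰, Acc A z) - ind (¬ ∃ A ∈ 𝒱, Acc A z))) :=
            Ex_mono h0 h1 hstep
        _ = Ex ρ (fun z : St V C => ind (Acc K z ∧ ¬ ∃ A ∈ 𝒰, Acc A z)) +
            Ex ρ (fun z : St V C => ind (¬ ∃ A ∈ insert K 𝒰, Acc A z) -
              ind (¬ ∃ A ∈ 𝒱, Acc A z)) := Ex_add _ _ _
        _ ≤ ε + m * ε := add_le_add hK2 g4
        _ = (m + 1 : ℕ) * ε := by push_cast; ring

/-- error of one closure step -/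
noncomputable def epsC (C : Type*) [Fintype C] [DecidableEq C] (b R : ℕ) : ℝ :=
  (lowSets C b).card * (1 / 2) ^ R

lemma epsC_nonneg (b R : ℕ) : 0 ≤ epsC C b R := by unfold epsC; positivity

/-- A closed family has few minimal members of each size. -/
lemma card_minMembers_leC {a B : ℝ} (ha0 : 0 < a) (hB : 0 < B) {b j R : ℕ} (hb : 1 ≤ b)
    (hR : 1 ≤ R) (hRa : R * a ≤ 1)
    (hj : j ≤ 2 * b) (hBa : 8 * b ≤ B * a) (hκ : 64 * b ^ 2 ≤ Fintype.card C)
    (𝒱 : Finset (Finset V))
    (hc : ClosedC (R * a) b (epsC C b R) C 𝒱) : ((minMembers 𝒱 j).card : ℝ) ≤ B ^ j := by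
  by_contra hcon
  push Not at hcon
  obtain ⟨K, ⟨A, hA, hKA⟩, hK⟩ := sunflower (C := C) ha0 hB hb hR hRa hj hBa hκ (minMembers 𝒱 j)
    (fun A hA => (mem_minMembers.mp hA).2.1) hcon
  rw [mem_minMembers] at hA
  have hKcard : K.card < A.card := Finset.card_lt_card hKA
  have hK𝒱 : K ∈ 𝒱 := by
    apply hc K (by omega)
    refine le_trans (Ex_mono (by positivity) hRa (fun z => ?_)) (hK.trans_eq ?_)
    · apply ind_mono
      rintro ⟨h1, h2⟩
      refine ⟨h1, ?_⟩
      rintro ⟨A', hA', hacc⟩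
      exact h2 ⟨A', (mem_minMembers.mp hA').1, hacc⟩
    · rfl
  have := hA.2.2 K hK𝒱 hKA.1
  rw [this] at hKcard
  exact lt_irrefl _ hKcard

/-- The hypotheses on the parameters at one scale. -/
structure ScaleC (V C U : Type*) [Fintype V] [DecidableEq V] [Fintype C] [DecidableEq C]
    [Fintype U] (a B q : ℝ) (b R : ℕ) (Y : U → Finset V) : Prop where
  ha0 : 0 < a
  hR : 1 ≤ R
  hRa : R * a ≤ 1
  hB : 0 < B
  hq : 0 < q
  hBq : B / q ≤ 1 / 2
  hb : 2 ≤ b
  hBa : 8 * b ≤ B * a
  hκ : 64 * b ^ 2 ≤ Fintype.card C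
  hY : ∀ A : Finset V, A.card ≤ 2 * b → (by
    classical exact
      ((univ.filter (fun u => A ⊆ Y u)).card : ℝ) ≤ Fintype.card U * (1 / q) ^ A.card)

section planted

variable {U : Type*} [Fintype U]

open Classical in
/-- Number of planted sets containing a minimal member of size at least `j₀`. -/
lemma planted_countC {a B q : ℝ} {b R : ℕ} {Y : U → Finset V}
    (S : ScaleC V C U a B q b R Y) (𝒱 : Finset (Finset V))
    (hlow : 𝒱 ⊆ lowSets V b)
    (hc : ClosedC (R * a) b (epsC C b R) C 𝒱) (j₀ : ℕ) :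
    ((univ.filter (fun u => ∃ A ∈ minMembers 𝒱 A.card, j₀ ≤ A.card ∧ A ⊆ Y u)).card : ℝ) ≤
      Fintype.card U * (2 * (B / q) ^ j₀) := by
  have hq := S.hq
  have hB := S.hB
  have hY : ∀ A : Finset V, A.card ≤ 2 * b →
      ((univ.filter (fun u => A ⊆ Y u)).card : ℝ) ≤ Fintype.card U * (1 / q) ^ A.card :=
    fun A hA => by convert S.hY A hA
  have hsub : (univ.filter (fun u => ∃ A ∈ minMembers 𝒱 A.card, j₀ ≤ A.card ∧ A ⊆ Y u)) ⊆
      (Finset.Ico j₀ (2 * b + 1)).biUnion (fun j => (minMembers 𝒱 j).biUnion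
        (fun A => univ.filter (fun u => A ⊆ Y u))) := by
    intro u hu
    rw [Finset.mem_filter] at hu
    obtain ⟨-, A, hA, hj, hAu⟩ := hu
    simp only [Finset.mem_biUnion, Finset.mem_Ico, Finset.mem_filter, Finset.mem_univ, true_and]
    have : A.card ≤ 2 * b := by
      have := hlow (mem_minMembers.mp hA).1
      rw [lowSets, Finset.mem_filter] at this
      exact this.2
    exact ⟨A.card, ⟨hj, by omega⟩, A, hA, hAu⟩
  have h2 : ((univ.filter (fun u => ∃ A ∈ minMembers 𝒱 A.card, j₀ ≤ A.card ∧ A ⊆ Y u)).card : ℝ)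
      ≤ ∑ j ∈ Finset.Ico j₀ (2 * b + 1), ∑ A ∈ minMembers 𝒱 j,
        ((univ.filter (fun u => A ⊆ Y u)).card : ℝ) := by
    have e1 := (Finset.card_le_card hsub).trans Finset.card_biUnion_le
    have e2 : ∀ j ∈ Finset.Ico j₀ (2 * b + 1), ((minMembers 𝒱 j).biUnion
        (fun A => univ.filter (fun u => A ⊆ Y u))).card ≤
        ∑ A ∈ minMembers 𝒱 j, (univ.filter (fun u => A ⊆ Y u)).card :=
      fun j _ => Finset.card_biUnion_le
    have e3 := e1.trans (Finset.sum_le_sum e2)
    exact_mod_cast e3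
  refine h2.trans ?_
  have h3 : ∀ j ∈ Finset.Ico j₀ (2 * b + 1), ∑ A ∈ minMembers 𝒱 j,
        ((univ.filter (fun u => A ⊆ Y u)).card : ℝ) ≤ Fintype.card U * (B / q) ^ j := by
    intro j hj
    rw [Finset.mem_Ico] at hj
    calc ∑ A ∈ minMembers 𝒱 j, ((univ.filter (fun u => A ⊆ Y u)).card : ℝ)
        ≤ ∑ A ∈ minMembers 𝒱 j, Fintype.card U * (1 / q) ^ j := by
          apply Finset.sum_le_sum
          intro A hA
          have hAj := (mem_minMembers.mp hA).2.1
          have := hY A (by omega)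
          rwa [hAj] at this
      _ = (minMembers 𝒱 j).card * (Fintype.card U * (1 / q) ^ j) := by
          rw [Finset.sum_const, nsmul_eq_mul]
      _ ≤ B ^ j * (Fintype.card U * (1 / q) ^ j) := by
          apply mul_le_mul_of_nonneg_right _ (by positivity)
          exact card_minMembers_leC (C := C) S.ha0 S.hB (by have := S.hb; omega) S.hR S.hRa
            (by omega) S.hBa S.hκ 𝒱 hc
      _ = Fintype.card U * (B / q) ^ j := by
          have e : (B / q) ^ j = B ^ j * (1 / q) ^ j := by rw [← mul_pow]; congr 1; ring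
          rw [e]; ring
  refine (Finset.sum_le_sum h3).trans ?_
  rw [← Finset.mul_sum]
  apply mul_le_mul_of_nonneg_left _ (by positivity)
  have hρ0 : 0 ≤ B / q := by positivity
  -- geometric sum
  have hgeo : ∀ m : ℕ, ∑ j ∈ Finset.Ico j₀ (j₀ + m), (B / q) ^ j ≤
      2 * (B / q) ^ j₀ - 2 * (B / q) ^ (j₀ + m) := by
    intro m
    induction m with
    | zero => simp
    | succ m ih =>
      rw [← add_assoc, Finset.sum_Ico_succ_top (by omega)]
      have : (B / q) ^ (j₀ + m + 1) ≤ (1 / 2) * (B / q) ^ (j₀ + m) := by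
        rw [pow_succ, mul_comm]
        exact mul_le_mul_of_nonneg_right S.hBq (by positivity)
      linarith
  rcases le_total j₀ (2 * b + 1) with hle | hle
  · obtain ⟨m, hm⟩ := Nat.exists_eq_add_of_le hle
    rw [hm]
    have := hgeo m
    have h4 : 0 ≤ (B / q) ^ (j₀ + m) := by positivity
    linarith
  · rw [Finset.Ico_eq_empty_of_le hle]
    simp only [Finset.sum_empty]
    positivity

open Classical in
lemma trim_countC {a B q : ℝ} {b R : ℕ} {Y : U → Finset V}
    (S : ScaleC V C U a B q b R Y) (𝒱 : Finset (Finset V)) (hlow : 𝒱 ⊆ lowSets V b)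
    (hc : ClosedC (R * a) b (epsC C b R) C 𝒱) :
    ((univ.filter (fun u => (∃ A ∈ 𝒱, A ⊆ Y u) ∧ ¬ ∃ A ∈ trim b 𝒱, A ⊆ Y u)).card : ℝ) ≤
      Fintype.card U * (2 * (B / q) ^ (b + 1)) := by
  refine le_trans ?_ (planted_countC S 𝒱 hlow hc (b + 1))
  have : (univ.filter (fun u => (∃ A ∈ 𝒱, A ⊆ Y u) ∧ ¬ ∃ A ∈ trim b 𝒱, A ⊆ Y u)) ⊆
      (univ.filter (fun u => ∃ A ∈ minMembers 𝒱 A.card, b + 1 ≤ A.card ∧ A ⊆ Y u)) := by
    intro u hu
    rw [Finset.mem_filter] at hu ⊢
    obtain ⟨-, ⟨A, hA, hAu⟩, hno⟩ := hu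
    obtain ⟨A', hA', hmin⟩ := exists_minMember hA
    refine ⟨mem_univ _, A', hmin, ?_, hA'.trans hAu⟩
    by_contra hcon
    apply hno
    refine ⟨A', ?_, hA'.trans hAu⟩
    rw [trim, Finset.mem_filter]
    exact ⟨(mem_minMembers.mp hmin).1, by omega⟩
  exact_mod_cast Finset.card_le_card this

open Classical in
/-- One approximation step (the new family replacing `𝒰`). -/
lemma approx_stepC {a B q : ℝ} {b R : ℕ} {Y : U → Finset V}
    (S : ScaleC V C U a B q b R Y) (𝒰 : Finset (Finset V)) (hlow : 𝒰 ⊆ lowSets V b) :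
    ∃ (𝒢 : Finset (Finset V)) (P : Finset U) (Z : St V C → ℝ),
      (∀ A ∈ 𝒢, A.card ≤ b) ∧
      (P.card : ℝ) ≤ Fintype.card U * (2 * (B / q) ^ (b + 1)) ∧
      (∀ z, 0 ≤ Z z) ∧ Ex (R * a) Z ≤ (lowSets V b).card * epsC C b R ∧
      (∀ u ∉ P, (∃ A ∈ 𝒰, A ⊆ Y u) → ∃ A ∈ 𝒢, A ⊆ Y u) ∧
      (∀ z, (∃ A ∈ 𝒢, Acc A z) → (¬ ∃ A ∈ 𝒰, Acc A z) → 1 ≤ Z z) := by
  have ha0 := S.ha0
  obtain ⟨𝒱, h1, h2, h3, h4⟩ := exists_closedC (C := C) (ρ := R * a) (by positivity) S.hRa b
    (epsC C b R) (epsC_nonneg b R) 𝒰 hlow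
  refine ⟨trim b 𝒱, univ.filter (fun u => (∃ A ∈ 𝒱, A ⊆ Y u) ∧ ¬ ∃ A ∈ trim b 𝒱, A ⊆ Y u),
    fun z => ind (¬ ∃ A ∈ 𝒰, Acc A z) - ind (¬ ∃ A ∈ 𝒱, Acc A z), ?_, trim_countC S 𝒱 h2 h3, ?_,
    h4, ?_, ?_⟩
  · intro A hA
    rw [trim, Finset.mem_filter] at hA
    exact hA.2
  · intro z
    have : ind (¬ ∃ A ∈ 𝒱, Acc A z) ≤ ind (¬ ∃ A ∈ 𝒰, Acc A z) := by
      apply ind_mono
      rintro h ⟨A, hA, hacc⟩
      exact h ⟨A, h1 hA, hacc⟩
    linarith
  · intro u hu hex
    rw [Finset.mem_filter] at hu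
    push Not at hu
    obtain ⟨A, hA, hAu⟩ := hex
    exact hu (mem_univ _) ⟨A, h1 hA, hAu⟩
  · intro z ⟨A, hA, hAz⟩ hno
    show 1 ≤ ind (¬ ∃ A ∈ 𝒰, Acc A z) - ind (¬ ∃ A ∈ 𝒱, Acc A z)
    rw [ind_true hno, ind_false]
    · norm_num
    · rw [trim, Finset.mem_filter] at hA
      exact not_not.mpr ⟨A, hA.1, hAz⟩

end planted

end

open Classical in
/-- The graph of a state: two present vertices are adjacent iff their colours differ. -/
noncomputable def gr (x : St V C) : Finset (Sym2 V) :=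
  univ.filter (fun e => ∃ a b, e = s(a, b) ∧ x a ≠ none ∧ x b ≠ none ∧ x a ≠ x b)

open Classical in
/-- The edges of the complete graph on `S`. -/
noncomputable def cl (S : Finset V) : Finset (Sym2 V) :=
  univ.filter (fun e => ∃ a b, e = s(a, b) ∧ a ∈ S ∧ b ∈ S ∧ a ≠ b)

/-- the vertices of `Y` that are absent in `x` -/
def fresh (x : St V C) (Y : Finset V) : Finset V := Y.filter (fun a => x a = none)

lemma mem_gr {x : St V C} {e : Sym2 V} :
    e ∈ gr x ↔ ∃ a b, e = s(a, b) ∧ x a ≠ none ∧ x b ≠ none ∧ x a ≠ x b := by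
  classical
  unfold gr; rw [Finset.mem_filter]; simp

lemma mem_cl {S : Finset V} {e : Sym2 V} :
    e ∈ cl S ↔ ∃ a b, e = s(a, b) ∧ a ∈ S ∧ b ∈ S ∧ a ≠ b := by
  classical
  unfold cl; rw [Finset.mem_filter]; simp

lemma gr_mono {x y : St V C} (h : Le x y) : gr x ⊆ gr y := by
  intro e he
  rw [mem_gr] at he ⊢
  obtain ⟨a, b, rfl, ha, hb, hab⟩ := he
  have ha' := (h a).resolve_left ha
  have hb' := (h b).resolve_left hb
  exact ⟨a, b, rfl, by rw [ha']; exact ha, by rw [hb']; exact hb, by rw [ha', hb']; exact hab⟩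

section approx

variable [Nonempty C] {U : Type*} [Fintype U]

/-- Approximators for all gates of a circuit without NOT gates. -/
lemma approxC {a B q : ℝ} {b R : ℕ} {Y : U → Finset V}
    (S : ScaleC V C U a B q b R Y) (x : St V C) (c : List (Gate (Sym2 V))) (hc : numNot c = 0) :
    ∃ (G : ℕ → Finset (Finset V)) (P : Finset U) (Z : St V C → ℝ),
      (∀ j, ∀ A ∈ G j, A.card ≤ b) ∧
      (P.card : ℝ) ≤ size c * (Fintype.card U * (2 * (B / q) ^ (b + 1))) ∧
      (∀ z, 0 ≤ Z z) ∧ Ex (R * a) Z ≤ size c * ((lowSets V b).card * epsC C b R) ∧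
      (∀ u ∉ P, ∀ j, gval c j (gr x ∪ cl (fresh x (Y u))) = true → ∃ A ∈ G j, A ⊆ Y u) ∧
      (∀ z j, (∃ A ∈ G j, Acc A z) → gval c j (gr (ext x z)) = false → 1 ≤ Z z) := by
  classical
  induction c with
  | nil =>
    refine ⟨fun _ => ∅, ∅, fun _ => 0, by simp, by simp [size], by simp, ?_, ?_, by simp⟩
    · simp [size, Ex_const]
    · intro u _ j h
      simp [gval, run] at h
  | cons g gs ih =>
    obtain ⟨hgs, hg⟩ := numNot_eq_zero_cons hc
    obtain ⟨G, P, Z, h1, h2, h3, h4, h5, h6⟩ := ih hgs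
    -- simple gates
    have simple : ∀ 𝒢 : Finset (Finset V), (∀ A ∈ 𝒢, A.card ≤ b) → size (g :: gs) = size gs →
        (∀ u, gval (g :: gs) 0 (gr x ∪ cl (fresh x (Y u))) = true → ∃ A ∈ 𝒢, A ⊆ Y u) →
        (∀ z : St V C, (∃ A ∈ 𝒢, Acc A z) → gval (g :: gs) 0 (gr (ext x z)) = true) →
        ∃ (G : ℕ → Finset (Finset V)) (P : Finset U) (Z : St V C → ℝ),
          (∀ j, ∀ A ∈ G j, A.card ≤ b) ∧
          (P.card : ℝ) ≤ size (g :: gs) * (Fintype.card U * (2 * (B / q) ^ (b + 1))) ∧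
          (∀ z, 0 ≤ Z z) ∧
          Ex (R * a) Z ≤ size (g :: gs) * ((lowSets V b).card * epsC C b R) ∧
          (∀ u ∉ P, ∀ j, gval (g :: gs) j (gr x ∪ cl (fresh x (Y u))) = true →
            ∃ A ∈ G j, A ⊆ Y u) ∧
          (∀ z j, (∃ A ∈ G j, Acc A z) → gval (g :: gs) j (gr (ext x z)) = false → 1 ≤ Z z) := by
      intro 𝒢 e1 e2 e3 e4
      refine ⟨fun j => Nat.casesOn j 𝒢 G, P, Z, ?_, by rw [e2]; exact h2, h3,
        by rw [e2]; exact h4, ?_, ?_⟩
      · intro j
        cases j with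
        | zero => exact e1
        | succ j => exact h1 j
      · intro u hu j
        cases j with
        | zero => exact e3 u
        | succ j => rw [gval_succ]; exact h5 u hu j
      · intro z j
        cases j with
        | zero => intro hz hv; rw [e4 z hz] at hv; cases hv
        | succ j => rw [gval_succ]; exact h6 z j
    -- compound gates
    have compound : ∀ 𝒰 : Finset (Finset V), (𝒰 ⊆ lowSets V b) → size (g :: gs) = size gs + 1 →
        (∀ u ∉ P, gval (g :: gs) 0 (gr x ∪ cl (fresh x (Y u))) = true → ∃ A ∈ 𝒰, A ⊆ Y u) →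
        (∀ z, (∃ A ∈ 𝒰, Acc A z) → gval (g :: gs) 0 (gr (ext x z)) = false → 1 ≤ Z z) →
        ∃ (G : ℕ → Finset (Finset V)) (P : Finset U) (Z : St V C → ℝ),
          (∀ j, ∀ A ∈ G j, A.card ≤ b) ∧
          (P.card : ℝ) ≤ size (g :: gs) * (Fintype.card U * (2 * (B / q) ^ (b + 1))) ∧
          (∀ z, 0 ≤ Z z) ∧
          Ex (R * a) Z ≤ size (g :: gs) * ((lowSets V b).card * epsC C b R) ∧
          (∀ u ∉ P, ∀ j, gval (g :: gs) j (gr x ∪ cl (fresh x (Y u))) = true →
            ∃ A ∈ G j, A ⊆ Y u) ∧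
          (∀ z j, (∃ A ∈ G j, Acc A z) → gval (g :: gs) j (gr (ext x z)) = false → 1 ≤ Z z) := by
      intro 𝒰 e1 e2 e3 e4
      obtain ⟨𝒢, P', Z', f1, f2, f3, f4, f5, f6⟩ := approx_stepC S 𝒰 e1
      refine ⟨fun j => Nat.casesOn j 𝒢 G, P ∪ P', fun z => Z z + Z' z, ?_, ?_, ?_, ?_, ?_, ?_⟩
      · intro j
        cases j with
        | zero => exact f1
        | succ j => exact h1 j
      · have := Finset.card_union_le P P'
        have hcast : ((P ∪ P').card : ℝ) ≤ P.card + P'.card := by exact_mod_cast this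
        rw [e2]; push_cast
        linarith
      · intro z; exact add_nonneg (h3 z) (f3 z)
      · rw [Ex_add, e2]; push_cast
        linarith
      · intro u hu j
        rw [Finset.mem_union, not_or] at hu
        cases j with
        | zero => intro hv; exact f5 u hu.2 (e3 u hu.1 hv)
        | succ j => rw [gval_succ]; exact h5 u hu.1 j
      · intro z j
        have hz1 := h3 z
        have hz2 := f3 z
        cases j with
        | zero =>
          intro hz hv
          by_cases hU : ∃ A ∈ 𝒰, Acc A z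
          · have := e4 z hU hv; linarith
          · have := f6 z hz hU; linarith
        | succ j =>
          rw [gval_succ]; intro hz hv
          have := h6 z j hz hv; linarith
    have hb := S.hb
    cases g with
    | var e =>
      by_cases hex : e ∈ gr x
      · refine simple {∅} (by simp) rfl (fun u _ => ⟨∅, by simp, by simp⟩) (fun z _ => ?_)
        have : e ∈ gr (ext x z) := gr_mono (le_ext x z) hex
        simp [gval_zero, Gate.value, this]
      · by_cases hab : ∃ a b, e = s(a, b) ∧ x a = none ∧ x b = none ∧ a ≠ b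
        · obtain ⟨a', b', rfl, ha', hb', hne⟩ := hab
          refine simple {{a', b'}} ?_ rfl (fun u hu => ?_) (fun z hz => ?_)
          · intro A hA
            rw [Finset.mem_singleton] at hA
            rw [hA, Finset.card_pair hne]; exact hb
          · rw [gval_zero] at hu
            simp only [Gate.value, decide_eq_true_eq] at hu
            rw [Finset.mem_union] at hu
            rcases hu with hu | hu
            · exact absurd hu hex
            · rw [mem_cl] at hu
              obtain ⟨a'', b'', heq, ha'', hb'', -⟩ := hu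
              refine ⟨{a', b'}, by simp, ?_⟩
              rw [fresh, Finset.mem_filter] at ha'' hb''
              rw [Sym2.eq_iff] at heq
              intro y hy
              rw [Finset.mem_insert, Finset.mem_singleton] at hy
              rcases heq with ⟨rfl, rfl⟩ | ⟨rfl, rfl⟩ <;> rcases hy with rfl | rfl
              · exact ha''.1
              · exact hb''.1
              · exact hb''.1
              · exact ha''.1
          · obtain ⟨A, hA, hacc⟩ := hz
            rw [Finset.mem_singleton] at hA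
            subst hA
            rw [gval_zero]
            simp only [Gate.value, decide_eq_true_eq]
            rw [mem_gr]
            have e1 : ext x z a' = z a' := by simp [ext, ha']
            have e2 : ext x z b' = z b' := by simp [ext, hb']
            refine ⟨a', b', rfl, ?_, ?_, ?_⟩
            · rw [e1]; exact hacc.1 a' (by simp)
            · rw [e2]; exact hacc.1 b' (by simp)
            · rw [e1, e2]
              intro hz
              exact hne (hacc.2 a' (by simp) b' (by simp) hz)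
        · refine simple ∅ (by simp) rfl (fun u hu => ?_) (fun z hz => ?_)
          · exfalso
            rw [gval_zero] at hu
            simp only [Gate.value, decide_eq_true_eq] at hu
            rw [Finset.mem_union] at hu
            rcases hu with hu | hu
            · exact hex hu
            · rw [mem_cl] at hu
              obtain ⟨a'', b'', heq, ha'', hb'', hne⟩ := hu
              rw [fresh, Finset.mem_filter] at ha'' hb''
              exact hab ⟨a'', b'', heq, ha''.2, hb''.2, hne⟩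
          · simp at hz
    | const d =>
      cases d with
      | true =>
        refine simple {∅} (by simp) rfl (fun u _ => ⟨∅, by simp, by simp⟩) (fun z _ => ?_)
        simp [gval_zero, Gate.value]
      | false =>
        refine simple ∅ (by simp) rfl (fun u hu => ?_) (fun z hz => ?_)
        · simp [gval_zero, Gate.value] at hu
        · simp at hz
    | and j k =>
      refine compound (Finset.image₂ (· ∪ ·) (G j) (G k)) ?_ rfl ?_ ?_
      · intro A hA
        rw [Finset.mem_image₂] at hA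
        obtain ⟨A1, hA1, A2, hA2, rfl⟩ := hA
        rw [lowSets, Finset.mem_filter]
        refine ⟨mem_univ _, (Finset.card_union_le _ _).trans ?_⟩
        have := h1 j A1 hA1
        have := h1 k A2 hA2
        omega
      · intro u hu hv
        rw [gval_zero, Gate.value, Bool.and_eq_true] at hv
        obtain ⟨A1, hA1, hs1⟩ := h5 u hu j hv.1
        obtain ⟨A2, hA2, hs2⟩ := h5 u hu k hv.2
        exact ⟨A1 ∪ A2, Finset.mem_image₂.mpr ⟨A1, hA1, A2, hA2, rfl⟩,
          Finset.union_subset hs1 hs2⟩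
      · intro z ⟨A, hA, hAz⟩ hv
        rw [Finset.mem_image₂] at hA
        obtain ⟨A1, hA1, A2, hA2, rfl⟩ := hA
        rw [gval_zero, Gate.value, Bool.and_eq_false_iff] at hv
        rcases hv with hv | hv
        · exact h6 z j ⟨A1, hA1, hAz.mono Finset.subset_union_left⟩ hv
        · exact h6 z k ⟨A2, hA2, hAz.mono Finset.subset_union_right⟩ hv
    | or j k =>
      refine compound (G j ∪ G k) ?_ rfl ?_ ?_
      · intro A hA
        rw [lowSets, Finset.mem_filter]
        refine ⟨mem_univ _, ?_⟩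
        rw [Finset.mem_union] at hA
        rcases hA with hA | hA
        · have := h1 j A hA; omega
        · have := h1 k A hA; omega
      · intro u hu hv
        rw [gval_zero, Gate.value, Bool.or_eq_true] at hv
        rcases hv with hv | hv
        · obtain ⟨A, hA, hs⟩ := h5 u hu j hv
          exact ⟨A, Finset.mem_union_left _ hA, hs⟩
        · obtain ⟨A, hA, hs⟩ := h5 u hu k hv
          exact ⟨A, Finset.mem_union_right _ hA, hs⟩
      · intro z ⟨A, hA, hAz⟩ hv
        rw [gval_zero, Gate.value, Bool.or_eq_false_iff] at hv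
        rw [Finset.mem_union] at hA
        rcases hA with hA | hA
        · exact h6 z j ⟨A, hA, hAz⟩ hv.1
        · exact h6 z k ⟨A, hA, hAz⟩ hv.2
    | not j => exact absurd rfl (hg j)

open Classical in
/-- The dichotomy at one scale. -/
lemma dichotomyC {a B q : ℝ} {b R : ℕ} {Y : U → Finset V}
    (S : ScaleC V C U a B q b R Y) (x : St V C) (c : List (Gate (Sym2 V)))
    (hc : numNot c = 0) (j : ℕ) :
    Ex (R * a) (fun z : St V C => ind (¬ gval c j (gr (ext x z)) = true)) ≤
        (size c + 1) * ((lowSets V b).card * epsC C b R) ∨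
    ((univ.filter (fun u => gval c j (gr x ∪ cl (fresh x (Y u))) = true)).card : ℝ) ≤
        Fintype.card U * (2 * (B / q) + size c * (2 * (B / q) ^ (b + 1))) := by
  have ha0 := S.ha0
  have hRa0 : 0 ≤ (R : ℝ) * a := by positivity
  obtain ⟨G, P, Z, h1, h2, h3, h4, h5, h6⟩ := approxC S x c hc
  have hlow : G j ⊆ lowSets V b := by
    intro A hA
    rw [lowSets, Finset.mem_filter]
    exact ⟨mem_univ _, (h1 j A hA).trans (by omega)⟩
  obtain ⟨𝒱, g1, g2, g3, g4⟩ := exists_closedC (C := C) hRa0 S.hRa b (epsC C b R)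
    (epsC_nonneg b R) (G j) hlow
  by_cases he : ∅ ∈ 𝒱
  · left
    have hpt : ∀ z : St V C, ind (¬ gval c j (gr (ext x z)) = true) ≤
        (ind (¬ ∃ A ∈ G j, Acc A z) - ind (¬ ∃ A ∈ 𝒱, Acc A z)) + Z z := by
      intro z
      have hm𝒱 : ind (¬ ∃ A ∈ 𝒱, Acc A z) = 0 := ind_false (not_not.mpr ⟨∅, he, acc_empty z⟩)
      rw [hm𝒱]
      have hz := h3 z
      by_cases hv : gval c j (gr (ext x z)) = true
      · rw [ind_false (not_not.mpr hv)]
        linarith [ind_nonneg (¬ ∃ A ∈ G j, Acc A z)]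
      · rw [ind_true hv]
        by_cases hG : ∃ A ∈ G j, Acc A z
        · have := h6 z j hG (by simpa using hv)
          linarith [ind_nonneg (¬ ∃ A ∈ G j, Acc A z)]
        · rw [ind_true hG]; linarith
    calc Ex (R * a) (fun z : St V C => ind (¬ gval c j (gr (ext x z)) = true))
        ≤ Ex (R * a) (fun z : St V C =>
            (ind (¬ ∃ A ∈ G j, Acc A z) - ind (¬ ∃ A ∈ 𝒱, Acc A z)) + Z z) :=
          Ex_mono hRa0 S.hRa hpt
      _ = Ex (R * a) (fun z : St V C => ind (¬ ∃ A ∈ G j, Acc A z) - ind (¬ ∃ A ∈ 𝒱, Acc A z)) +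
            Ex (R * a) Z := Ex_add _ _ _
      _ ≤ (lowSets V b).card * epsC C b R + size c * ((lowSets V b).card * epsC C b R) :=
          add_le_add g4 h4
      _ = _ := by ring
  · right
    have hsub : univ.filter (fun u => gval c j (gr x ∪ cl (fresh x (Y u))) = true) ⊆
        P ∪ univ.filter (fun u => ∃ A ∈ minMembers 𝒱 A.card, 1 ≤ A.card ∧ A ⊆ Y u) := by
      intro u hu
      rw [Finset.mem_filter] at hu
      rw [Finset.mem_union]
      by_cases hP : u ∈ P
      · left; exact hP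
      · right
        obtain ⟨A, hA, hAu⟩ := h5 u hP j hu.2
        obtain ⟨A', hA', hmin⟩ := exists_minMember (g1 hA)
        rw [Finset.mem_filter]
        refine ⟨mem_univ _, A', hmin, ?_, hA'.trans hAu⟩
        by_contra hcon
        have : A' = ∅ := by
          rw [← Finset.card_eq_zero]; omega
        apply he
        rw [← this]
        exact (mem_minMembers.mp hmin).1
    have hcount := planted_countC S 𝒱 g2 g3 1
    have e1 : ((univ.filter (fun u => gval c j (gr x ∪ cl (fresh x (Y u))) = true)).card : ℝ) ≤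
        P.card + (univ.filter (fun u => ∃ A ∈ minMembers 𝒱 A.card, 1 ≤ A.card ∧
          A ⊆ Y u)).card := by
      exact_mod_cast (Finset.card_le_card hsub).trans (Finset.card_union_le _ _)
    rw [pow_one] at hcount
    calc _ ≤ _ := e1
      _ ≤ size c * (Fintype.card U * (2 * (B / q) ^ (b + 1))) +
          Fintype.card U * (2 * (B / q)) := add_le_add h2 hcount
      _ = _ := by ring

end approx

end Pool.Agent.GapLim
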