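import Pool.Agent.Work.MP_71c844_lc.GapApprox

/-!
The vertex exposure chain and the separation bound.
-/

namespace Pool.Agent.GapLim

set_option linter.unusedSectionVars false

open Finset Pool.Agent.NegLim

variable {V C : Type*} [Fintype V] [DecidableEq V] [Fintype C] [DecidableEq C] [Nonempty C]

/-- `r` steps of the chain from the state `x` -/
noncomputable def Tr (δ : ℝ) (r : ℕ) (φ : St V C → ℝ) (x : St V C) : ℝ :=
  Ex (dens δ r) (fun z => φ (ext x z))

lemma dens_add (δ : ℝ) (i r : ℕ) :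
    dens δ i + dens δ r - dens δ i * dens δ r = dens δ (i + r) := by
  simp only [Pool.Agent.NegLim.dens, pow_add]; ring

lemma Ex_Tr (δ : ℝ) (i r : ℕ) (φ : St V C → ℝ) :
    Ex (dens δ i) (Tr δ r φ) = Ex (dens δ (i + r)) φ := by
  rw [← dens_add]
  exact Ex_comp V _ _ φ

lemma Tr_le_self {δ : ℝ} (h0 : 0 ≤ δ) (h1 : δ ≤ 1) {φ : St V C → ℝ} (hφ : Anti φ) (r : ℕ)
    (x : St V C) : Tr δ r φ x ≤ φ x := by
  unfold Tr
  calc Ex (dens δ r) (fun z => φ (ext x z)) ≤ Ex (dens δ r) (fun _ : St V C => φ x) :=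
        Ex_mono (dens_nonneg h0 h1 r) (dens_le_one h0 h1 r) fun z => hφ _ _ (le_ext x z)
    _ = φ x := Ex_const _ _

open Classical in
/-- The time that the chain spends in states from which `r` more steps suffice. -/
lemma chain_timeC {δ : ℝ} (h0 : 0 ≤ δ) (h1 : δ ≤ 1) (φ : St V C → ℝ) (hφ : Anti φ)
    (hφ0 : ∀ y, 0 ≤ φ y) (hφ1 : ∀ y, φ y ≤ 1) (r m : ℕ) (ε : ℝ) (hε : 0 ≤ ε) :
    ∑ i ∈ range m, Ex (dens δ i) (fun x => if Tr δ r φ x ≤ ε then φ x else 0) ≤ r + m * ε := by
  have hd0 := dens_nonneg h0 h1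
  have hd1 := dens_le_one h0 h1
  have hpt : ∀ x, (if Tr δ r φ x ≤ ε then φ x else 0) ≤ ε + (φ x - Tr δ r φ x) := by
    intro x
    have := Tr_le_self h0 h1 hφ r x
    split_ifs with h <;> linarith
  have h2 : ∀ i, Ex (dens δ i) (fun x => if Tr δ r φ x ≤ ε then φ x else 0) ≤
      ε + (Ex (dens δ i) φ - Ex (dens δ (i + r)) φ) := by
    intro i
    calc Ex (dens δ i) (fun x => if Tr δ r φ x ≤ ε then φ x else 0)
        ≤ Ex (dens δ i) (fun x => ε + (φ x - Tr δ r φ x)) := Ex_mono (hd0 i) (hd1 i) hpt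
      _ = ε + (Ex (dens δ i) φ - Ex (dens δ (i + r)) φ) := by
          rw [Ex_add, Ex_sub, Ex_const, Ex_Tr]
  have h3 : ∀ i, 0 ≤ Ex (dens δ i) φ := fun i => Ex_nonneg (hd0 i) (hd1 i) hφ0
  have h4 : ∀ i, Ex (dens δ i) φ ≤ 1 := fun i => by
    have := Ex_mono (hd0 i) (hd1 i) hφ1
    rwa [Ex_const] at this
  calc ∑ i ∈ range m, Ex (dens δ i) (fun x => if Tr δ r φ x ≤ ε then φ x else 0)
      ≤ ∑ i ∈ range m, (ε + (Ex (dens δ i) φ - Ex (dens δ (i + r)) φ)) :=
        Finset.sum_le_sum fun i _ => h2 i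
    _ = m * ε + ∑ i ∈ range m, (Ex (dens δ i) φ - Ex (dens δ (i + r)) φ) := by
        rw [Finset.sum_add_distrib, Finset.sum_const, card_range, nsmul_eq_mul]
    _ ≤ r + m * ε := by
        have := shift_sum (fun i => Ex (dens δ i) φ) h3 h4 m r
        linarith

section main

variable {U : Type*} [Fintype U] [Nonempty U]

open Classical in
/-- Separation bound for one monotone candidate. -/
lemma separationC {b K R m : ℕ} {q : ℝ} {Y : U → Finset V} (hb : 2 ≤ b) (hm : 2 ^ K = 2 * m)
    (hK : 1 ≤ K) (hR : 1 ≤ R)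
    (hκ : 64 * b ^ 2 ≤ Fintype.card C)
    (hq : 32 * b * R * 2 ^ K ≤ q)
    (hY : ∀ A : Finset V, A.card ≤ 2 * b →
      ((univ.filter (fun u => A ⊆ Y u)).card : ℝ) ≤ Fintype.card U * (1 / q) ^ A.card)
    (c : List (Gate (Sym2 V))) (hc : numNot c = 0) (j S : ℕ) (hcS : size c ≤ S) (hS : S ≤ 2 ^ b)
    (hSR : 2 ^ K * (S + 1) * ((lowSets V b).card * (lowSets C b).card) ≤ 2 ^ R) :
    ∑ i ∈ range m, Ex (dens (1 / (2 : ℝ) ^ K) i) (fun x : St V C =>
      ind (¬ gval c j (gr x) = true) *
        (((univ.filter (fun u => gval c j (gr x ∪ cl (fresh x (Y u))) = true)).card : ℝ) /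
          Fintype.card U)) ≤ 11 * K := by
  set δ : ℝ := 1 / (2 : ℝ) ^ K with hδ
  have hM : (0 : ℝ) < 2 ^ K := by positivity
  have h0 : 0 ≤ δ := by positivity
  have h1 : δ ≤ 1 := by
    rw [hδ, div_le_one hM]; exact one_le_pow₀ (by norm_num)
  have hd0 := dens_nonneg h0 h1
  have hd1 := dens_le_one h0 h1
  have hb' : (2 : ℝ) ≤ b := by exact_mod_cast hb
  have hR' : (1 : ℝ) ≤ R := by exact_mod_cast hR
  have hqpos : 0 < q := lt_of_lt_of_le (by positivity) hq
  have hUpos : (0 : ℝ) < Fintype.card U := by exact_mod_cast Fintype.card_pos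
  set ε : ℝ := (S + 1) * ((lowSets V b).card * epsC C b R) with hε
  have heps0 := epsC_nonneg (C := C) b R
  have hε0 : 0 ≤ ε := by positivity
  have hmε : (m : ℝ) * ε ≤ 1 := by
    have e1 : ((2 : ℝ) ^ K * (S + 1) * ((lowSets V b).card * (lowSets C b).card)) ≤ 2 ^ R := by
      exact_mod_cast hSR
    have e2 : (2 : ℝ) ^ K = 2 * m := by exact_mod_cast hm
    have e3 : (2 * m : ℝ) * ε ≤ 1 := by
      rw [← e2, hε, epsC]
      have e4 : (1 / 2 : ℝ) ^ R = 1 / 2 ^ R := by rw [div_pow, one_pow]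
      rw [e4]
      have : (2 : ℝ) ^ K * ((S + 1) * ((lowSets V b).card * ((lowSets C b).card * (1 / 2 ^ R)))) =
          ((2 : ℝ) ^ K * (S + 1) * ((lowSets V b).card * (lowSets C b).card)) / 2 ^ R := by
        ring
      rw [this, div_le_one (by positivity)]
      exact e1
    have e5 : 0 ≤ (m : ℝ) * ε := by positivity
    linarith
  let φ : St V C → ℝ := fun x => ind (¬ gval c j (gr x) = true)
  have hφ0 : ∀ x, 0 ≤ φ x := fun x => ind_nonneg _
  have hφ1 : ∀ x, φ x ≤ 1 := fun x => ind_le_one _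
  have hφa : Anti φ := by
    intro x y hxy
    apply ind_mono
    intro h1 h2
    exact h1 (gval_mono c hc j (gr_mono hxy) h2)
  let p : St V C → ℝ := fun x =>
    ((univ.filter (fun u => gval c j (gr x ∪ cl (fresh x (Y u))) = true)).card : ℝ) /
      Fintype.card U
  have hp0 : ∀ x, 0 ≤ p x := fun x => by simp only [p]; positivity
  have hp1 : ∀ x, p x ≤ 1 := fun x => by
    simp only [p]; rw [div_le_one hUpos]
    exact_mod_cast Finset.card_filter_le _ _
  let B : ℕ → ℝ := fun k => 16 * b * R * 2 ^ K / 2 ^ k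
  let η : ℕ → ℝ := fun k => 4 * (B k / q)
  have hB0 : ∀ k, 0 < B k := fun k => by simp only [B]; positivity
  have hη0 : ∀ k, 0 ≤ η k := fun k => by
    have := hB0 k
    simp only [η]; positivity
  have hBq : ∀ k, B k / q ≤ 1 / 2 := by
    intro k
    rw [div_le_iff₀ hqpos]
    have : B k ≤ 16 * b * R * 2 ^ K := by
      simp only [B]
      apply div_le_self (by positivity)
      exact one_le_pow₀ (by norm_num)
    linarith
  -- scales
  let a : ℕ → ℝ := fun k => dens δ (2 ^ k) / R
  have hRa : ∀ k, (R : ℝ) * a k = dens δ (2 ^ k) := fun k => by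
    simp only [a]; field_simp
  have hscale : ∀ k, k ≤ K → ScaleC V C U (a k) (B k) q b R Y := by
    intro k hk
    have hge := dens_ge (M := 2 ^ K) (n := 2 ^ k) (by positivity)
      (Nat.pow_le_pow_right (by norm_num) hk)
    push_cast at hge
    rw [← hδ] at hge
    have hdpos : 0 < dens δ (2 ^ k) := lt_of_lt_of_le (by positivity) hge
    refine ⟨by simp only [a]; positivity, hR, by rw [hRa]; exact hd1 _, hB0 k, hqpos, hBq k, hb,
      ?_, hκ, fun A hA => by convert hY A hA⟩
    have e1 : B k * (((2 : ℝ) ^ k / (2 * 2 ^ K)) / R) = 8 * b := by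
      simp only [B]; field_simp; ring
    calc (8 : ℝ) * b = B k * (((2 : ℝ) ^ k / (2 * 2 ^ K)) / R) := e1.symm
      _ ≤ B k * a k := by
          apply mul_le_mul_of_nonneg_left _ (hB0 k).le
          simp only [a]
          exact div_le_div_of_nonneg_right hge (by positivity)
  -- dichotomy
  have hdich : ∀ k, k ≤ K → ∀ x, Tr δ (2 ^ k) φ x ≤ ε ∨ p x ≤ η k := by
    intro k hk x
    have hcS' : (size c : ℝ) ≤ S := by exact_mod_cast hcS
    rcases dichotomyC (hscale k hk) x c hc j with h | h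
    · left
      rw [hRa] at h
      unfold Tr
      refine h.trans ?_
      rw [hε]
      apply mul_le_mul_of_nonneg_right _ (by positivity)
      linarith
    · right
      simp only [p]
      rw [div_le_iff₀ hUpos]
      refine h.trans ?_
      rw [mul_comm]
      apply mul_le_mul_of_nonneg_right _ hUpos.le
      have hBk : 0 ≤ B k / q := div_nonneg (hB0 k).le hqpos.le
      have e1 : (B k / q) ^ (b + 1) ≤ (1 / 2) ^ b * (B k / q) := by
        rw [pow_succ]
        exact mul_le_mul_of_nonneg_right (pow_le_pow_left₀ hBk (hBq k) b) hBk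
      have e2 : (size c : ℝ) * (1 / 2) ^ b ≤ 1 := by
        have e3 : (S : ℝ) ≤ 2 ^ b := by exact_mod_cast hS
        have e4 : (1 / 2 : ℝ) ^ b = 1 / 2 ^ b := by rw [div_pow, one_pow]
        rw [e4, mul_one_div, div_le_one (by positivity)]
        linarith
      have e5 : (size c : ℝ) * (2 * (B k / q) ^ (b + 1)) ≤ 2 * (B k / q) := by
        calc (size c : ℝ) * (2 * (B k / q) ^ (b + 1))
            ≤ (size c : ℝ) * (2 * ((1 / 2) ^ b * (B k / q))) := by
              apply mul_le_mul_of_nonneg_left _ (by positivity)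
              linarith
          _ = ((size c : ℝ) * (1 / 2) ^ b) * (2 * (B k / q)) := by ring
          _ ≤ 1 * (2 * (B k / q)) := mul_le_mul_of_nonneg_right e2 (by positivity)
          _ = 2 * (B k / q) := one_mul _
      simp only [η]
      linarith
  -- the pointwise bound
  let D : ℕ → St V C → ℝ := fun k x => if Tr δ (2 ^ k) φ x ≤ ε then φ x else 0
  have hD0 : ∀ k x, 0 ≤ D k x := fun k x => by
    simp only [D]; split_ifs
    · exact hφ0 x
    · exact le_rfl
  have hpt : ∀ x, φ x * p x ≤ D 0 x + ∑ k ∈ range K, η k * D (k + 1) x + η K := by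
    intro x
    have hφ01 : φ x = 0 ∨ φ x = 1 := ind_cases _
    rcases hφ01 with hφx | hφx
    · rw [hφx, zero_mul]
      have : 0 ≤ ∑ k ∈ range K, η k * D (k + 1) x :=
        Finset.sum_nonneg fun k _ => mul_nonneg (hη0 k) (hD0 _ _)
      linarith [hD0 0 x, hη0 K]
    · rw [hφx, one_mul]
      have key : ∀ K', K' ≤ K → (p x ≤ D 0 x + ∑ k ∈ range K', η k * D (k + 1) x) ∨
          ¬ Tr δ (2 ^ K') φ x ≤ ε := by
        intro K'
        induction K' with
        | zero =>
          intro _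
          by_cases hh : Tr δ (2 ^ 0) φ x ≤ ε
          · left
            have : D 0 x = 1 := by simp only [D]; rw [if_pos hh, hφx]
            rw [this]; simpa using hp1 x
          · right; exact hh
        | succ K' ih =>
          intro hK'
          rcases ih (by omega) with hh | hh
          · left
            rw [Finset.sum_range_succ]
            have := mul_nonneg (hη0 K') (hD0 (K' + 1) x)
            linarith
          · by_cases h2 : Tr δ (2 ^ (K' + 1)) φ x ≤ ε
            · left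
              have e1 : p x ≤ η K' := (hdich K' (by omega) x).resolve_left hh
              have e2 : D (K' + 1) x = 1 := by simp only [D]; rw [if_pos h2, hφx]
              rw [Finset.sum_range_succ, e2, mul_one]
              have e3 : 0 ≤ ∑ k ∈ range K', η k * D (k + 1) x :=
                Finset.sum_nonneg fun k _ => mul_nonneg (hη0 k) (hD0 _ _)
              linarith [hD0 0 x]
            · right; exact h2
      rcases key K le_rfl with hh | hh
      · linarith [hη0 K]
      · have e1 : p x ≤ η K := (hdich K le_rfl x).resolve_left hh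
        have e3 : 0 ≤ ∑ k ∈ range K, η k * D (k + 1) x :=
          Finset.sum_nonneg fun k _ => mul_nonneg (hη0 k) (hD0 _ _)
        linarith [hD0 0 x]
  have hsum : ∑ i ∈ range m, Ex (dens δ i) (fun x => φ x * p x) ≤
      ∑ i ∈ range m, Ex (dens δ i) (D 0) +
        ∑ k ∈ range K, η k * ∑ i ∈ range m, Ex (dens δ i) (D (k + 1)) + m * η K := by
    have e1 : ∀ i ∈ range m, Ex (dens δ i) (fun x => φ x * p x) ≤
        Ex (dens δ i) (D 0) + ∑ k ∈ range K, η k * Ex (dens δ i) (D (k + 1)) + η K := by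
      intro i _
      refine (Ex_mono (hd0 i) (hd1 i) hpt).trans (le_of_eq ?_)
      rw [Ex_add, Ex_const, Ex_add, Ex_sum]
      congr 2
      refine Finset.sum_congr rfl fun k _ => ?_
      rw [Ex_smul]
    refine (Finset.sum_le_sum e1).trans (le_of_eq ?_)
    rw [Finset.sum_add_distrib, Finset.sum_add_distrib, Finset.sum_const, card_range,
      nsmul_eq_mul, Finset.sum_comm]
    congr 2
    refine Finset.sum_congr rfl fun k _ => ?_
    rw [Finset.mul_sum]
  refine hsum.trans ?_
  have hK' : (1 : ℝ) ≤ K := by exact_mod_cast hK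
  have t0 : ∑ i ∈ range m, Ex (dens δ i) (D 0) ≤ 2 := by
    have := chain_timeC h0 h1 φ hφa hφ0 hφ1 (2 ^ 0) m ε hε0
    have e1 : ∑ i ∈ range m, Ex (dens δ i) (D 0) ≤ ((2 ^ 0 : ℕ) : ℝ) + m * ε := this
    push_cast at e1
    linarith
  have t1 : ∀ k ∈ range K, η k * ∑ i ∈ range m, Ex (dens δ i) (D (k + 1)) ≤ 8 := by
    intro k _
    have := chain_timeC h0 h1 φ hφa hφ0 hφ1 (2 ^ (k + 1)) m ε hε0
    have e1 : ∑ i ∈ range m, Ex (dens δ i) (D (k + 1)) ≤ ((2 ^ (k + 1) : ℕ) : ℝ) + m * ε := this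
    push_cast at e1
    have e2 : ∑ i ∈ range m, Ex (dens δ i) (D (k + 1)) ≤ 2 * 2 ^ (k + 1) := by
      have : (1 : ℝ) ≤ 2 ^ (k + 1) := one_le_pow₀ (by norm_num)
      linarith
    calc η k * ∑ i ∈ range m, Ex (dens δ i) (D (k + 1)) ≤ η k * (2 * 2 ^ (k + 1)) :=
          mul_le_mul_of_nonneg_left e2 (hη0 k)
      _ = (32 * b * R * 2 ^ K / q) * 8 := by
          simp only [η, B]; rw [pow_succ]; field_simp; ring
      _ ≤ 1 * 8 := by
          apply mul_le_mul_of_nonneg_right _ (by positivity)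
          rw [div_le_one hqpos]; exact hq
      _ = 8 := one_mul _
  have t2 : (m : ℝ) * η K ≤ 1 := by
    have e1 : (2 : ℝ) ^ K = 2 * m := by exact_mod_cast hm
    have e2 : (m : ℝ) = 2 ^ K / 2 := by rw [e1]; ring
    have e3 : (m : ℝ) * η K = 32 * b * R * 2 ^ K / q := by
      simp only [η, B]
      rw [e2]; field_simp; ring
    rw [e3, div_le_one hqpos]; exact hq
  have t3 := Finset.sum_le_sum t1
  rw [Finset.sum_const, card_range, nsmul_eq_mul] at t3
  linarith

/-- The planted vertices are mostly absent. -/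
lemma fresh_prob {δ : ℝ} (h0 : 0 ≤ δ) (h1 : δ ≤ 1) (i s : ℕ) (hs : 1 ≤ s)
    (hd : dens δ i ≤ 1 / 2) (Y : Finset V) (hY : Y.card = 4 * s) :
    Ex (dens δ i) (fun x : St V C => ind ((fresh x Y).card < s)) ≤ 2 / 3 := by
  have hd0 := dens_nonneg h0 h1 i
  have hd1 := dens_le_one h0 h1 i
  have hs' : (1 : ℝ) ≤ s := by exact_mod_cast hs
  have hpt : ∀ x : St V C, ind ((fresh x Y).card < s) ≤
      (1 / (3 * s : ℝ)) * ∑ y ∈ Y, ind (∀ a ∈ ({y} : Finset V), x a ≠ none) := by
    intro x
    have hcount : (∑ y ∈ Y, ind (∀ a ∈ ({y} : Finset V), x a ≠ none)) =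
        ((Y.filter (fun a => ¬ x a = none)).card : ℝ) := by
      rw [Finset.card_filter]
      push_cast
      refine Finset.sum_congr rfl fun y _ => ?_
      by_cases h : x y = none
      · rw [ind_false (by simp [h])]; simp [h]
      · rw [ind_true (by simpa using h)]; simp [h]
    rw [hcount]
    by_cases h : (fresh x Y).card < s
    · rw [ind_true h]
      have h2 : (fresh x Y).card + (Y.filter (fun a => ¬ x a = none)).card = 4 * s := by
        rw [← hY]; exact Finset.card_filter_add_card_filter_not (s := Y) (fun a => x a = none)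
      have h3 : 3 * s ≤ (Y.filter (fun a => ¬ x a = none)).card := by omega
      have h4 : (3 * s : ℝ) ≤ ((Y.filter (fun a => ¬ x a = none)).card : ℝ) := by
        exact_mod_cast h3
      rw [one_div, inv_mul_eq_div, le_div_iff₀ (by positivity)]
      linarith
    · rw [ind_false h]; positivity
  refine (Ex_mono hd0 hd1 hpt).trans ?_
  rw [Ex_smul, Ex_sum]
  simp_rw [Ex_dom]
  simp only [Finset.card_singleton, pow_one, Finset.sum_const, nsmul_eq_mul]
  rw [hY]
  push_cast
  have e : 1 / (3 * (s : ℝ)) * (4 * s * dens δ i) = 4 / 3 * dens δ i := by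
    field_simp
  rw [e]
  linarith

open Classical in
/-- Number of monotone functions needed to separate all pairs. -/
theorem main_gap_sep {b K R S s : ℕ} {q : ℝ} {Y : U → Finset V} (hb : 2 ≤ b)
    (hK : 1 ≤ K) (hR : 1 ≤ R) (hs : 1 ≤ s)
    (hκ : 64 * b ^ 2 ≤ Fintype.card C)
    (hq : 32 * b * R * 2 ^ K ≤ q)
    (hY : ∀ A : Finset V, A.card ≤ 2 * b →
      ((univ.filter (fun u => A ⊆ Y u)).card : ℝ) ≤ Fintype.card U * (1 / q) ^ A.card)
    (hN : ∀ u, (Y u).card = 4 * s)
    (L : List (List (Gate (Sym2 V)) × ℕ))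
    (hL : ∀ p ∈ L, numNot p.1 = 0 ∧ size p.1 ≤ S)
    (hsep : ∀ (x : St V C) (u : U), s ≤ (fresh x (Y u)).card →
      ∃ p ∈ L, gval p.1 p.2 (gr x) = false ∧
        gval p.1 p.2 (gr x ∪ cl (fresh x (Y u))) = true)
    (hS : S ≤ 2 ^ b)
    (hSR : 2 ^ K * (S + 1) * ((lowSets V b).card * (lowSets C b).card) ≤ 2 ^ R) :
    2 ^ K ≤ L.length * (66 * K) := by
  obtain ⟨K', rfl⟩ := Nat.exists_eq_add_of_le' hK
  set m : ℕ := 2 ^ K' with hmdef
  have hm : 2 ^ (K' + 1) = 2 * m := by rw [pow_succ, mul_comm]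
  set δ : ℝ := 1 / (2 : ℝ) ^ (K' + 1) with hδ
  have hM : (0 : ℝ) < 2 ^ (K' + 1) := by positivity
  have h0 : 0 ≤ δ := by positivity
  have h1 : δ ≤ 1 := by
    rw [hδ, div_le_one hM]; exact one_le_pow₀ (by norm_num)
  have hUpos : (0 : ℝ) < Fintype.card U := by exact_mod_cast Fintype.card_pos
  let ψ : Fin L.length → St V C → ℝ := fun i x =>
    ind (¬ gval (L.get i).1 (L.get i).2 (gr x) = true) *
        (((univ.filter (fun u => gval (L.get i).1 (L.get i).2
          (gr x ∪ cl (fresh x (Y u))) = true)).card : ℝ) / Fintype.card U)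
  let F : St V C → ℝ := fun x => ∑ u : U, (1 / (Fintype.card U : ℝ)) * ind ((fresh x (Y u)).card < s)
  -- covering
  have hcov : ∀ x, 1 ≤ F x + ∑ i, ψ i x := by
    intro x
    have e1 : ∀ u : U, (1 : ℝ) ≤ ind ((fresh x (Y u)).card < s) + ∑ i : Fin L.length,
        ind (¬ gval (L.get i).1 (L.get i).2 (gr x) = true) *
        (if gval (L.get i).1 (L.get i).2 (gr x ∪ cl (fresh x (Y u))) = true then (1 : ℝ) else 0) := by
      intro u
      have hnn : ∀ i ∈ (univ : Finset (Fin L.length)), (0 : ℝ) ≤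
          ind (¬ gval (L.get i).1 (L.get i).2 (gr x) = true) *
        (if gval (L.get i).1 (L.get i).2 (gr x ∪ cl (fresh x (Y u))) = true
          then (1 : ℝ) else 0) := by
        intro i _
        apply mul_nonneg (ind_nonneg _)
        split_ifs <;> norm_num
      by_cases hlt : (fresh x (Y u)).card < s
      · rw [ind_true hlt]
        have := Finset.sum_nonneg hnn
        linarith
      · rw [ind_false hlt, zero_add]
        push Not at hlt
        obtain ⟨p, hp, hp1, hp2⟩ := hsep x u hlt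
        obtain ⟨i, hi⟩ := List.mem_iff_get.mp hp
        rw [← hi] at hp1 hp2
        have := Finset.single_le_sum hnn (Finset.mem_univ i)
        refine le_trans (le_of_eq ?_) this
        rw [if_pos hp2, mul_one, ind_true]
        rw [hp1]; simp
    have e2 := Finset.sum_le_sum (fun u (_ : u ∈ (univ : Finset U)) => e1 u)
    rw [Finset.sum_const, Finset.card_univ, nsmul_eq_mul, mul_one, Finset.sum_add_distrib,
      Finset.sum_comm] at e2
    have e3 : ∑ i, ψ i x = (∑ i : Fin L.length,
        ind (¬ gval (L.get i).1 (L.get i).2 (gr x) = true) *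
        ((univ.filter (fun u => gval (L.get i).1 (L.get i).2
          (gr x ∪ cl (fresh x (Y u))) = true)).card : ℝ)) / Fintype.card U := by
      rw [Finset.sum_div]
      refine Finset.sum_congr rfl fun i _ => ?_
      simp only [ψ]
      ring
    have e4 : F x = (∑ u : U, ind ((fresh x (Y u)).card < s)) / Fintype.card U := by
      simp only [F]
      rw [← Finset.mul_sum]
      ring
    rw [e3, e4, ← add_div, le_div_iff₀ hUpos, one_mul]
    refine e2.trans (le_of_eq ?_)
    congr 1
    refine Finset.sum_congr rfl fun i _ => ?_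
    rw [← Finset.mul_sum]
    congr 1
    rw [Finset.sum_boole]
  -- each candidate
  have hψ : ∀ i, ∑ r ∈ range m, Ex (dens δ r) (ψ i) ≤ 11 * ((K' + 1 : ℕ) : ℝ) := by
    intro i
    have hmem := hL (L.get i) (List.get_mem L i)
    exact separationC hb hm hK hR hκ hq hY (L.get i).1 hmem.1 (L.get i).2 S hmem.2 hS hSR
  -- planted vertices are mostly absent
  have hF : ∀ r ∈ range m, Ex (dens δ r) F ≤ 2 / 3 := by
    intro r hr
    rw [Finset.mem_range] at hr
    have hdens : dens δ r ≤ 1 / 2 := by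
      refine (dens_le h0 h1 r).trans ?_
      rw [hδ, hmdef] at *
      have : (r : ℝ) ≤ 2 ^ K' := by exact_mod_cast hr.le
      rw [mul_one_div, div_le_div_iff₀ (by positivity) (by norm_num), pow_succ]
      linarith
    have e1 : Ex (dens δ r) F = ∑ u : U, (1 / (Fintype.card U : ℝ)) *
        Ex (dens δ r) (fun x : St V C => ind ((fresh x (Y u)).card < s)) := by
      rw [show F = fun x => ∑ u : U, (1 / (Fintype.card U : ℝ)) *
        ind ((fresh x (Y u)).card < s) from rfl, Ex_sum]
      refine Finset.sum_congr rfl fun u _ => ?_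
      rw [Ex_smul]
    rw [e1]
    have e2 : ∀ u ∈ (univ : Finset U), (1 / (Fintype.card U : ℝ)) *
        Ex (dens δ r) (fun x : St V C => ind ((fresh x (Y u)).card < s)) ≤
        (1 / (Fintype.card U : ℝ)) * (2 / 3) := by
      intro u _
      exact mul_le_mul_of_nonneg_left (fresh_prob h0 h1 r s hs hdens (Y u) (hN u))
        (by positivity)
    refine (Finset.sum_le_sum e2).trans (le_of_eq ?_)
    rw [Finset.sum_const, Finset.card_univ, nsmul_eq_mul]
    field_simp
  -- conclusion
  have htot : (m : ℝ) ≤ ∑ r ∈ range m, Ex (dens δ r) F +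
      ∑ i, ∑ r ∈ range m, Ex (dens δ r) (ψ i) := by
    rw [Finset.sum_comm (s := univ), ← Finset.sum_add_distrib]
    have e1 : ∀ r ∈ range m, (1 : ℝ) ≤ Ex (dens δ r) F + ∑ i, Ex (dens δ r) (ψ i) := by
      intro r _
      have := Ex_mono (dens_nonneg h0 h1 r) (dens_le_one h0 h1 r) hcov
      have h' : Ex (dens δ r) (fun z => ∑ i, ψ i z) = ∑ i, Ex (dens δ r) (ψ i) := Ex_sum _ _ _
      rw [Ex_const, Ex_add, h'] at this
      exact this
    have := Finset.sum_le_sum e1
    simpa using this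
  have e5 := Finset.sum_le_sum hF
  rw [Finset.sum_const, card_range, nsmul_eq_mul] at e5
  have e6 := Finset.sum_le_sum (fun i (_ : i ∈ (univ : Finset (Fin L.length))) => hψ i)
  rw [Finset.sum_const, Finset.card_univ, Fintype.card_fin, nsmul_eq_mul] at e6
  have e9 : ((2 ^ (K' + 1) : ℕ) : ℝ) ≤ ((L.length * (66 * (K' + 1)) : ℕ) : ℝ) := by
    rw [hm]
    push_cast at e6 ⊢
    linarith
  exact_mod_cast e9

open Classical in
/-- The bound for circuits with NOT gates. -/
theorem main_gap {b K R s : ℕ} {q : ℝ} {Y : U → Finset V} (hb : 2 ≤ b)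
    (hK : 1 ≤ K) (hR : 1 ≤ R) (hs : 1 ≤ s)
    (hκ : 64 * b ^ 2 ≤ Fintype.card C)
    (hq : 32 * b * R * 2 ^ K ≤ q)
    (hY : ∀ A : Finset V, A.card ≤ 2 * b →
      ((univ.filter (fun u => A ⊆ Y u)).card : ℝ) ≤ Fintype.card U * (1 / q) ^ A.card)
    (hN : ∀ u, (Y u).card = 4 * s)
    (c : List (Gate (Sym2 V)))
    (hno : ∀ x : St V C, output c (fun e => decide (e ∈ gr x)) = false)
    (hyes : ∀ (x : St V C) (u : U), s ≤ (fresh x (Y u)).card →
      output c (fun e => decide (e ∈ gr x ∪ cl (fresh x (Y u)))) = true)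
    (hS : size c ≤ 2 ^ b)
    (hSR : 2 ^ K * (size c + 1) * ((lowSets V b).card * (lowSets C b).card) ≤ 2 ^ R) :
    2 ^ K ≤ 2 ^ numNot c * (132 * K) := by
  have key := main_gap_sep (C := C) hb hK hR hs hκ hq hY hN (allCands c)
    (fun p hp => mem_allCands hp) ?_ hS hSR
  · have h1 := length_allCands c
    have h2 : (allCands c).length ≤ 2 ^ numNot c * 2 := by
      rw [pow_succ] at h1; omega
    calc 2 ^ K ≤ (allCands c).length * (66 * K) := key
      _ ≤ (2 ^ numNot c * 2) * (66 * K) := Nat.mul_le_mul_right _ h2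
      _ = 2 ^ numNot c * (132 * K) := by ring
  · intro x u hu
    exact cover_output
      (a := fun e => decide (e ∈ gr x)) (b := fun e => decide (e ∈ gr x ∪ cl (fresh x (Y u))))
      (fun e he => by
        simp only [decide_eq_true_eq] at he ⊢
        exact Finset.mem_union_left _ he) c (hno x) (hyes x u hu)

end main

end Pool.Agent.GapLim
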