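import Mathlib

/-!
The product measure on states `V → Option C` (absent, or present with a colour), the sprinkling
operator, and the submultiplicativity of the probability of decreasing events.
-/

namespace Pool.Agent.GapLim

set_option linter.unusedSectionVars false

open Finset

open Classical in
/-- indicator of a proposition -/
noncomputable def ind (p : Prop) : ℝ := if p then 1 else 0

lemma ind_true {p : Prop} (h : p) : ind p = 1 := by unfold ind; rw [if_pos h]

lemma ind_false {p : Prop} (h : ¬ p) : ind p = 0 := by unfold ind; rw [if_neg h]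

lemma ind_nonneg (p : Prop) : 0 ≤ ind p := by unfold ind; split_ifs <;> norm_num

lemma ind_le_one (p : Prop) : ind p ≤ 1 := by unfold ind; split_ifs <;> norm_num

lemma ind_cases (p : Prop) : ind p = 0 ∨ ind p = 1 := by unfold ind; split_ifs <;> simp

lemma ind_mono {p q : Prop} (h : p → q) : ind p ≤ ind q := by
  by_cases hp : p
  · rw [ind_true hp, ind_true (h hp)]
  · rw [ind_false hp]; exact ind_nonneg q

/-- A state: every vertex is absent or carries a colour. -/
abbrev St (V C : Type*) := V → Option C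

/-- weight of the state of one vertex -/
noncomputable def pw (C : Type*) [Fintype C] (ρ : ℝ) : Option C → ℝ
  | none => 1 - ρ
  | some _ => ρ / Fintype.card C

section pw

variable {C : Type*} [Fintype C]

lemma pw_nonneg {ρ : ℝ} (h0 : 0 ≤ ρ) (h1 : ρ ≤ 1) (o : Option C) : 0 ≤ pw C ρ o := by
  cases o with
  | none => simp only [pw]; linarith
  | some c => simp only [pw]; positivity

lemma sum_pw [Nonempty C] (ρ : ℝ) : ∑ o, pw C ρ o = 1 := by
  rw [Fintype.sum_option]
  simp only [pw, Finset.sum_const, Finset.card_univ, nsmul_eq_mul]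
  have : (Fintype.card C : ℝ) ≠ 0 := by exact_mod_cast Fintype.card_ne_zero
  field_simp
  ring

lemma sum_pw_mul (ρ : ℝ) (φ : Option C → ℝ) :
    ∑ o, pw C ρ o * φ o = (1 - ρ) * φ none + ρ * ((∑ c, φ (some c)) / Fintype.card C) := by
  rw [Fintype.sum_option]
  simp only [pw]
  rw [← Finset.mul_sum]
  ring

end pw

/-- `ext x z`: the state `x`, extended by `z` on the vertices which are absent in `x`. -/
def ext {V C : Type*} (x z : St V C) : St V C := fun a => (x a).or (z a)

/-- `Le x y`: `y` extends `x`. -/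
def Le {V C : Type*} (x y : St V C) : Prop := ∀ a, x a = none ∨ y a = x a

lemma le_ext {V C : Type*} (x z : St V C) : Le x (ext x z) := by
  intro a
  unfold ext
  cases h : x a with
  | none => left; rfl
  | some c => right; rfl

lemma ext_assoc {V C : Type*} (x y z : St V C) : ext (ext x y) z = ext x (ext y z) := by
  funext a
  simp [ext, Option.or_assoc]

lemma ext_empty {V C : Type*} (z : St V C) : ext (fun _ => none) z = z := by
  funext a; simp [ext]

/-- decreasing functions -/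
def Anti {V C : Type*} (φ : St V C → ℝ) : Prop := ∀ x y, Le x y → φ y ≤ φ x

section Ex

variable {V C : Type*} [Fintype V] [DecidableEq V] [Fintype C]

/-- expectation with respect to the product measure of density `ρ` -/
noncomputable def Ex (ρ : ℝ) (f : St V C → ℝ) : ℝ := ∑ z : St V C, (∏ a, pw C ρ (z a)) * f z

lemma weight_nonneg {ρ : ℝ} (h0 : 0 ≤ ρ) (h1 : ρ ≤ 1) (z : St V C) :
    0 ≤ ∏ a, pw C ρ (z a) := Finset.prod_nonneg fun a _ => pw_nonneg h0 h1 (z a)

lemma Ex_mono {ρ : ℝ} (h0 : 0 ≤ ρ) (h1 : ρ ≤ 1) {f g : St V C → ℝ} (h : ∀ z, f z ≤ g z) :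
    Ex ρ f ≤ Ex ρ g :=
  Finset.sum_le_sum fun z _ => mul_le_mul_of_nonneg_left (h z) (weight_nonneg h0 h1 z)

/-- product functions -/
lemma Ex_prod (ρ : ℝ) (h : V → Option C → ℝ) :
    Ex ρ (fun z => ∏ a, h a (z a)) = ∏ a, ∑ o, pw C ρ o * h a o := by
  rw [Finset.prod_univ_sum, Fintype.piFinset_univ]
  unfold Ex
  refine Finset.sum_congr rfl fun z _ => ?_
  rw [Finset.prod_mul_distrib]

lemma Ex_const [Nonempty C] (ρ c : ℝ) : Ex (V := V) (C := C) ρ (fun _ => c) = c := by
  have h := Ex_prod (V := V) (C := C) ρ (fun _ _ => 1)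
  simp only [Finset.prod_const_one, mul_one, sum_pw] at h
  have : Ex (V := V) (C := C) ρ (fun _ => c) = Ex (V := V) (C := C) ρ (fun _ => (1 : ℝ)) * c := by
    unfold Ex
    rw [Finset.sum_mul]
    simp
  rw [this, h, one_mul]

lemma Ex_add (ρ : ℝ) (f g : St V C → ℝ) : Ex ρ (fun z => f z + g z) = Ex ρ f + Ex ρ g := by
  simp only [Ex, mul_add, Finset.sum_add_distrib]

lemma Ex_sub (ρ : ℝ) (f g : St V C → ℝ) : Ex ρ (fun z => f z - g z) = Ex ρ f - Ex ρ g := by
  simp only [Ex, mul_sub, Finset.sum_sub_distrib]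

lemma Ex_smul (ρ c : ℝ) (f : St V C → ℝ) : Ex ρ (fun z => c * f z) = c * Ex ρ f := by
  simp only [Ex, Finset.mul_sum]
  refine Finset.sum_congr rfl fun z _ => by ring

lemma Ex_sum {ι : Type*} (s : Finset ι) (ρ : ℝ) (f : ι → St V C → ℝ) :
    Ex ρ (fun z => ∑ i ∈ s, f i z) = ∑ i ∈ s, Ex ρ (f i) := by
  simp only [Ex, Finset.mul_sum]
  rw [Finset.sum_comm]

lemma Ex_nonneg {ρ : ℝ} (h0 : 0 ≤ ρ) (h1 : ρ ≤ 1) {f : St V C → ℝ} (h : ∀ z, 0 ≤ f z) :
    0 ≤ Ex ρ f :=
  Finset.sum_nonneg fun z _ => mul_nonneg (weight_nonneg h0 h1 z) (h z)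

end Ex

/-- transport along a bijection of the vertices -/
lemma Ex_equiv {V W C : Type*} [Fintype V] [DecidableEq V] [Fintype W] [DecidableEq W] [Fintype C]
    (e : V ≃ W) (ρ : ℝ) (f : St W C → ℝ) :
    Ex ρ f = Ex ρ (fun z : St V C => f (fun w => z (e.symm w))) := by
  unfold Ex
  refine (Fintype.sum_equiv (Equiv.arrowCongr e (Equiv.refl (Option C))) _ _ fun z => ?_).symm
  congr 1
  exact Fintype.prod_equiv e _ _ fun a => by simp [Equiv.arrowCongr]

/-- glue -/
def cons {V C : Type*} (o : Option C) (z : St V C) : St (Option V) C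
  | none => o
  | some a => z a

lemma Ex_option {V C : Type*} [Fintype V] [DecidableEq V] [d : DecidableEq (Option V)] [Fintype C]
    (ρ : ℝ) (f : St (Option V) C → ℝ) :
    Ex ρ f = ∑ o, pw C ρ o * Ex ρ (fun z : St V C => f (cons o z)) := by
  unfold Ex
  simp_rw [Finset.mul_sum]
  rw [← Fintype.sum_prod_type']
  refine Fintype.sum_equiv
    (Equiv.piOptionEquivProd (β := fun _ : Option V => Option C)) _ _ fun z => ?_
  rw [Fintype.prod_option]
  have : cons (z none) (fun a => z (some a)) = z := by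
    funext x; cases x <;> rfl
  simp only [Equiv.piOptionEquivProd, Equiv.coe_fn_mk]
  rw [this, mul_assoc]

section induction

variable {C : Type*} [Fintype C]

/-- Submultiplicativity: if `f`, `g` are decreasing and `h` is at most the product of `f` and `g`
over the two parts of any splitting, then the expectations are submultiplicative. -/
theorem Ex_mul_le (V : Type*) [Fintype V] : ∀ [DecidableEq V] (ρ₁ ρ₂ : ℝ), 0 ≤ ρ₁ → 0 ≤ ρ₂ →
    ρ₁ + ρ₂ ≤ 1 → ∀ (f g h : St V C → ℝ), (∀ z, 0 ≤ f z) → (∀ z, 0 ≤ g z) → Anti f → Anti g →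
    (∀ z₁ z₂ : St V C, (∀ a, z₁ a = none ∨ z₂ a = none) → h (ext z₁ z₂) ≤ f z₁ * g z₂) →
    Ex (ρ₁ + ρ₂) h ≤ Ex ρ₁ f * Ex ρ₂ g := by
  refine Fintype.induction_empty_option (P := fun V _ => ∀ [DecidableEq V] (ρ₁ ρ₂ : ℝ), 0 ≤ ρ₁ →
    0 ≤ ρ₂ → ρ₁ + ρ₂ ≤ 1 → ∀ (f g h : St V C → ℝ), (∀ z, 0 ≤ f z) → (∀ z, 0 ≤ g z) → Anti f →
    Anti g → (∀ z₁ z₂ : St V C, (∀ a, z₁ a = none ∨ z₂ a = none) → h (ext z₁ z₂) ≤ f z₁ * g z₂) →
    Ex (ρ₁ + ρ₂) h ≤ Ex ρ₁ f * Ex ρ₂ g) ?_ ?_ ?_ V
  · intro V W _ e ih _ ρ₁ ρ₂ h1 h2 h3 f g h hf hg hfa hga hh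
    let _ : Fintype V := Fintype.ofEquiv W e.symm
    classical
    rw [Ex_equiv e, Ex_equiv e, Ex_equiv e]
    apply ih ρ₁ ρ₂ h1 h2 h3
    · intro z; exact hf _
    · intro z; exact hg _
    · intro x y hxy; exact hfa _ _ fun a => hxy _
    · intro x y hxy; exact hga _ _ fun a => hxy _
    · intro z₁ z₂ hz
      exact hh (fun w => z₁ (e.symm w)) (fun w => z₂ (e.symm w)) fun a => hz _
  · intro _ ρ₁ ρ₂ h1 h2 h3 f g h hf hg hfa hga hh
    unfold Ex
    simp only [univ_unique, univ_eq_empty, prod_empty, one_mul, sum_singleton]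
    have key : ∀ z : St PEmpty C, h z ≤ f z * g z := by
      intro z
      have := hh z z (fun a => a.elim)
      have e1 : ext z z = z := Subsingleton.elim _ _
      rwa [e1] at this
    exact key _
  · intro V _ ih _ ρ₁ ρ₂ h1 h2 h3 f g h hf hg hfa hga hh
    classical
    rw [Ex_option (V := V), Ex_option (V := V), Ex_option (V := V)]
    rw [sum_pw_mul, sum_pw_mul, sum_pw_mul]
    set F : Option C → ℝ := fun o => Ex ρ₁ (fun z : St V C => f (cons o z)) with hF
    set G : Option C → ℝ := fun o => Ex ρ₂ (fun z : St V C => g (cons o z)) with hG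
    set H : Option C → ℝ := fun o => Ex (ρ₁ + ρ₂) (fun z : St V C => h (cons o z)) with hH
    have hρ₁ : ρ₁ ≤ 1 := by linarith
    have hρ₂ : ρ₂ ≤ 1 := by linarith
    have hF0 : ∀ o, 0 ≤ F o := fun o => Ex_nonneg h1 hρ₁ fun z => hf _
    have hG0 : ∀ o, 0 ≤ G o := fun o => Ex_nonneg h2 hρ₂ fun z => hg _
    have hFle : ∀ o, F o ≤ F none := fun o => Ex_mono h1 hρ₁ fun z => hfa _ _ (by
      intro a; cases a with
      | none => left; rfl
      | some a => right; rfl)
    have hGle : ∀ o, G o ≤ G none := fun o => Ex_mono h2 hρ₂ fun z => hga _ _ (by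
      intro a; cases a with
      | none => left; rfl
      | some a => right; rfl)
    have hanti : ∀ (φ : St (Option V) C → ℝ) (o : Option C), Anti φ →
        Anti (fun z : St V C => φ (cons o z)) := by
      intro φ o hφ x y hxy
      apply hφ
      intro a
      cases a with
      | none => right; rfl
      | some a => exact hxy a
    -- the three inequalities
    have hH1 : ∀ o, H o ≤ F o * G none := by
      intro o
      apply ih ρ₁ ρ₂ h1 h2 h3 _ _ _ (fun z => hf _) (fun z => hg _) (hanti f o hfa)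
        (hanti g none hga)
      intro z₁ z₂ hz
      have := hh (cons o z₁) (cons none z₂) (by
        intro a; cases a with
        | none => right; rfl
        | some a => exact hz a)
      have e : ext (cons o z₁) (cons none z₂) = cons o (ext z₁ z₂) := by
        funext a; cases a with
        | none => simp [ext, cons]
        | some a => rfl
      rwa [e] at this
    have hH2 : ∀ o, H o ≤ F none * G o := by
      intro o
      apply ih ρ₁ ρ₂ h1 h2 h3 _ _ _ (fun z => hf _) (fun z => hg _) (hanti f none hfa)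
        (hanti g o hga)
      intro z₁ z₂ hz
      have := hh (cons none z₁) (cons o z₂) (by
        intro a; cases a with
        | none => left; rfl
        | some a => exact hz a)
      have e : ext (cons none z₁) (cons o z₂) = cons o (ext z₁ z₂) := by
        funext a; cases a with
        | none => simp [ext, cons]
        | some a => rfl
      rwa [e] at this
    set n : ℝ := (Fintype.card C : ℝ) with hn
    have hn0 : 0 ≤ n := by rw [hn]; positivity
    set SF : ℝ := (∑ c, F (some c)) / n with hSF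
    set SG : ℝ := (∑ c, G (some c)) / n with hSG
    set SH : ℝ := (∑ c, H (some c)) / n with hSH
    have hSF1 : SF ≤ F none := by
      rw [hSF]
      apply div_le_of_le_mul₀ hn0 (hF0 none)
      calc ∑ c, F (some c) ≤ ∑ _c : C, F none := Finset.sum_le_sum fun c _ => hFle _
        _ = F none * n := by rw [Finset.sum_const, Finset.card_univ, nsmul_eq_mul, mul_comm]
    have hSG1 : SG ≤ G none := by
      rw [hSG]
      apply div_le_of_le_mul₀ hn0 (hG0 none)
      calc ∑ c, G (some c) ≤ ∑ _c : C, G none := Finset.sum_le_sum fun c _ => hGle _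
        _ = G none * n := by rw [Finset.sum_const, Finset.card_univ, nsmul_eq_mul, mul_comm]
    have hSH1 : SH ≤ SF * G none := by
      rw [hSH, hSF, div_mul_eq_mul_div, Finset.sum_mul]
      apply div_le_div_of_nonneg_right _ hn0
      exact Finset.sum_le_sum fun c _ => hH1 _
    have hSH2 : SH ≤ F none * SG := by
      rw [hSH, hSG, mul_div_assoc', Finset.mul_sum]
      apply div_le_div_of_nonneg_right _ hn0
      exact Finset.sum_le_sum fun c _ => hH2 _
    have hHn := hH1 none
    have k1 : ρ₁ * SH ≤ ρ₁ * (SF * G none) := mul_le_mul_of_nonneg_left hSH1 h1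
    have k2 : ρ₂ * SH ≤ ρ₂ * (F none * SG) := mul_le_mul_of_nonneg_left hSH2 h2
    have k3 : (1 - (ρ₁ + ρ₂)) * H none ≤ (1 - (ρ₁ + ρ₂)) * (F none * G none) :=
      mul_le_mul_of_nonneg_left hHn (by linarith)
    have k4 : 0 ≤ ρ₁ * ρ₂ * ((F none - SF) * (G none - SG)) := by
      apply mul_nonneg (mul_nonneg h1 h2)
      apply mul_nonneg <;> linarith
    have k5 : ((1 - ρ₁) * F none + ρ₁ * SF) * ((1 - ρ₂) * G none + ρ₂ * SG) =
        (1 - (ρ₁ + ρ₂)) * (F none * G none) + ρ₁ * (SF * G none) + ρ₂ * (F none * SG) +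
        ρ₁ * ρ₂ * ((F none - SF) * (G none - SG)) := by ring
    show (1 - (ρ₁ + ρ₂)) * H none + (ρ₁ + ρ₂) * SH ≤
      ((1 - ρ₁) * F none + ρ₁ * SF) * ((1 - ρ₂) * G none + ρ₂ * SG)
    rw [k5]
    linarith

/-- Composition of two sprinklings. -/
theorem Ex_comp [Nonempty C] (V : Type*) [Fintype V] : ∀ [DecidableEq V] (ρ₁ ρ₂ : ℝ)
    (f : St V C → ℝ),
    Ex ρ₁ (fun z₁ => Ex ρ₂ (fun z₂ => f (ext z₁ z₂))) = Ex (ρ₁ + ρ₂ - ρ₁ * ρ₂) f := by
  refine Fintype.induction_empty_option (P := fun V _ => ∀ [DecidableEq V] (ρ₁ ρ₂ : ℝ)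
    (f : St V C → ℝ),
    Ex ρ₁ (fun z₁ => Ex ρ₂ (fun z₂ => f (ext z₁ z₂))) = Ex (ρ₁ + ρ₂ - ρ₁ * ρ₂) f) ?_ ?_ ?_ V
  · intro V W _ e ih _ ρ₁ ρ₂ f
    let _ : Fintype V := Fintype.ofEquiv W e.symm
    classical
    rw [Ex_equiv e, Ex_equiv e]
    rw [← ih ρ₁ ρ₂]
    congr 1
    funext z₁
    rw [Ex_equiv e]
    rfl
  · intro _ ρ₁ ρ₂ f
    unfold Ex
    simp only [univ_unique, univ_eq_empty, prod_empty, one_mul, sum_singleton]
    congr 1
    exact Subsingleton.elim _ _
  · intro V _ ih _ ρ₁ ρ₂ f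
    classical
    rw [Ex_option (V := V), Ex_option (V := V)]
    have key : ∀ o₁ : Option C,
        Ex ρ₁ (fun z₁ : St V C => Ex ρ₂ (fun z₂ => f (ext (cons o₁ z₁) z₂))) =
        ∑ o₂, pw C ρ₂ o₂ * Ex (ρ₁ + ρ₂ - ρ₁ * ρ₂) (fun z : St V C => f (cons (o₁.or o₂) z)) := by
      intro o₁
      have : ∀ z₁ : St V C, Ex ρ₂ (fun z₂ => f (ext (cons o₁ z₁) z₂)) =
          ∑ o₂, pw C ρ₂ o₂ * Ex ρ₂ (fun z₂ : St V C => f (cons (o₁.or o₂) (ext z₁ z₂))) := by
        intro z₁
        rw [Ex_option (V := V)]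
        refine Finset.sum_congr rfl fun o₂ _ => ?_
        congr 1
        congr 1
        funext z₂
        congr 1
        funext a
        cases a <;> rfl
      simp_rw [this]
      rw [Ex_sum]
      refine Finset.sum_congr rfl fun o₂ _ => ?_
      rw [Ex_smul, ← ih ρ₁ ρ₂]
    simp_rw [key]
    simp_rw [sum_pw_mul]
    simp only [Option.none_or, Option.some_or, Option.or_none]
    have hC : (Fintype.card C : ℝ) ≠ 0 := by exact_mod_cast Fintype.card_ne_zero
    simp only [Finset.sum_const, Finset.card_univ, nsmul_eq_mul]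
    have : ∀ y : ℝ, (Fintype.card C : ℝ) * y / Fintype.card C = y := fun y => by
      rw [mul_comm, mul_div_assoc, div_self hC, mul_one]
    simp_rw [this]
    simp only [← Finset.mul_sum, Finset.sum_add_distrib]
    ring

end induction

end Pool.Agent.GapLim
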