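import Pool.Agent.Work.MP_71c844_lc.GapMeas

/-!
A robust sunflower lemma for coloured states: acceptance of a vertex set means that its vertices
are present with pairwise different colours.
-/

namespace Pool.Agent.GapLim

set_option linter.unusedSectionVars false

open Finset

variable {V C : Type*} [Fintype V] [DecidableEq V] [Fintype C] [DecidableEq C]

/-- All vertices of `A` are present in `z`, with pairwise different colours. -/
def Acc (A : Finset V) (z : St V C) : Prop :=
  (∀ a ∈ A, z a ≠ none) ∧ ∀ a ∈ A, ∀ b ∈ A, z a = z b → a = b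

/-- ... and the colours avoid `D`. -/
def AccD (D : Finset C) (A : Finset V) (z : St V C) : Prop :=
  Acc A z ∧ ∀ a ∈ A, ∀ c ∈ D, z a ≠ some c

lemma Acc.mono {A A' : Finset V} {z : St V C} (h : Acc A z) (hs : A' ⊆ A) : Acc A' z :=
  ⟨fun a ha => h.1 a (hs ha), fun a ha b hb => h.2 a (hs ha) b (hs hb)⟩

lemma acc_empty (z : St V C) : Acc ∅ z := ⟨by simp, by simp⟩

lemma Acc.of_le {A : Finset V} {z z' : St V C} (h : Acc A z) (hle : Le z z') : Acc A z' := by
  have e : ∀ a ∈ A, z' a = z a := fun a ha => (hle a).resolve_left (h.1 a ha)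
  refine ⟨fun a ha => by rw [e a ha]; exact h.1 a ha, fun a ha b hb hab => ?_⟩
  rw [e a ha, e b hb] at hab
  exact h.2 a ha b hb hab

lemma AccD.of_le {D : Finset C} {A : Finset V} {z z' : St V C} (h : AccD D A z) (hle : Le z z') :
    AccD D A z' := by
  have e : ∀ a ∈ A, z' a = z a := fun a ha => (hle a).resolve_left (h.1.1 a ha)
  exact ⟨h.1.of_le hle, fun a ha c hc => by rw [e a ha]; exact h.2 a ha c hc⟩

section prob

variable [Nonempty C]

lemma Ex_allowed (ρ : ℝ) (A : Finset V) (Q : V → Finset C) :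
    Ex ρ (fun z : St V C => ind (∀ a ∈ A, ∃ c ∈ Q a, z a = some c)) =
      ∏ a ∈ A, (ρ * ((Q a).card / Fintype.card C)) := by
  have h1 : (fun z : St V C => ind (∀ a ∈ A, ∃ c ∈ Q a, z a = some c)) =
      fun z => ∏ a, (fun (a : V) (o : Option C) =>
        if a ∈ A then ind (∃ c ∈ Q a, o = some c) else 1) a (z a) := by
    funext z
    by_cases h : ∀ a ∈ A, ∃ c ∈ Q a, z a = some c
    · rw [ind_true h]
      symm
      apply Finset.prod_eq_one
      intro a _
      show (if a ∈ A then ind (∃ c ∈ Q a, z a = some c) else 1) = 1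
      split_ifs with ha
      · exact ind_true (h a ha)
      · rfl
    · rw [ind_false h]
      push Not at h
      obtain ⟨a, ha, hc⟩ := h
      symm
      apply Finset.prod_eq_zero (Finset.mem_univ a)
      show (if a ∈ A then ind (∃ c ∈ Q a, z a = some c) else 1) = 0
      rw [if_pos ha]
      apply ind_false
      push Not
      exact hc
  rw [h1]
  refine (Ex_prod ρ (fun (a : V) (o : Option C) =>
    if a ∈ A then ind (∃ c ∈ Q a, o = some c) else 1)).trans ?_
  have h2 : ∀ a : V, (∑ o, pw C ρ o * (if a ∈ A then ind (∃ c ∈ Q a, o = some c) else 1)) =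
      if a ∈ A then ρ * ((Q a).card / Fintype.card C) else 1 := by
    intro a
    split_ifs with ha
    · rw [sum_pw_mul, ind_false (by simp), mul_zero, zero_add]
      congr 2
      have : ∀ c : C, ind (∃ c' ∈ Q a, some c = some c') = if c ∈ Q a then 1 else 0 := by
        intro c
        split_ifs with hc
        · exact ind_true ⟨c, hc, rfl⟩
        · apply ind_false
          rintro ⟨c', hc', h⟩
          rw [Option.some.injEq] at h
          exact hc (h ▸ hc')
      simp_rw [this]
      simp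
    · simp only [mul_one, sum_pw]
  simp_rw [h2]
  rw [Finset.prod_ite_mem, Finset.univ_inter]

/-- all vertices of `A` present, the ones in `T` with colour `c` -/
lemma Ex_fixed (ρ : ℝ) (A T : Finset V) (hT : T ⊆ A) (c : C) :
    Ex ρ (fun z : St V C => ind ((∀ a ∈ A, z a ≠ none) ∧ ∀ a ∈ T, z a = some c)) =
      ρ ^ A.card * (1 / (Fintype.card C : ℝ)) ^ T.card := by
  have hC : (Fintype.card C : ℝ) ≠ 0 := by exact_mod_cast Fintype.card_ne_zero
  have h1 : (fun z : St V C => ind ((∀ a ∈ A, z a ≠ none) ∧ ∀ a ∈ T, z a = some c)) =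
      fun z => ind (∀ a ∈ A, ∃ c' ∈ (if a ∈ T then {c} else univ : Finset C), z a = some c') := by
    funext z
    congr 1
    apply propext
    constructor
    · rintro ⟨h1, h2⟩ a ha
      split_ifs with haT
      · exact ⟨c, by simp, h2 a haT⟩
      · obtain ⟨c', hc'⟩ := Option.ne_none_iff_exists'.mp (h1 a ha)
        exact ⟨c', mem_univ _, hc'⟩
    · intro h
      refine ⟨fun a ha => ?_, fun a haT => ?_⟩
      · obtain ⟨c', -, hc'⟩ := h a ha
        rw [hc']; simp
      · obtain ⟨c', hc', hh⟩ := h a (hT haT)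
        rw [if_pos haT, Finset.mem_singleton] at hc'
        rw [hh, hc']
  rw [h1, Ex_allowed]
  have h2 : ∀ a ∈ A, ρ * (((if a ∈ T then {c} else univ : Finset C).card : ℝ) / Fintype.card C) =
      ρ * (if a ∈ T then 1 / (Fintype.card C : ℝ) else 1) := by
    intro a _
    split_ifs
    · simp
    · rw [Finset.card_univ, div_self hC]
  rw [Finset.prod_congr rfl h2, Finset.prod_mul_distrib, Finset.prod_const]
  congr 1
  rw [Finset.prod_ite_mem, Finset.inter_eq_right.mpr hT, Finset.prod_const]

lemma Ex_dom (ρ : ℝ) (A : Finset V) :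
    Ex ρ (fun z : St V C => ind (∀ a ∈ A, z a ≠ none)) = ρ ^ A.card := by
  obtain ⟨c⟩ := ‹Nonempty C›
  have := Ex_fixed ρ A ∅ (Finset.empty_subset _) c
  simpa using this

/-- Probability of acceptance. -/
lemma Ex_accD {ρ : ℝ} (h0 : 0 ≤ ρ) (h1 : ρ ≤ 1) {b : ℕ} (hκ : 64 * b ^ 2 ≤ Fintype.card C)
    (D : Finset C) (hD : D.card ≤ 2 * b) (A : Finset V) (hA : A.card ≤ 2 * b) :
    7 / 8 * ρ ^ A.card ≤ Ex ρ (fun z : St V C => ind (AccD D A z)) := by
  set κ : ℝ := (Fintype.card C : ℝ) with hκdef
  have hκpos : 0 < κ := by rw [hκdef]; exact_mod_cast Fintype.card_pos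
  have hpt : ∀ z : St V C,
      ind (∀ a ∈ A, z a ≠ none) -
        (∑ a ∈ A, ∑ c ∈ D, ind ((∀ a ∈ A, z a ≠ none) ∧ ∀ x ∈ ({a} : Finset V), z x = some c)) -
        (∑ p ∈ A.offDiag, ∑ c : C,
          ind ((∀ a ∈ A, z a ≠ none) ∧ ∀ x ∈ ({p.1, p.2} : Finset V), z x = some c)) ≤
      ind (AccD D A z) := by
    intro z
    have n1 : 0 ≤ ∑ a ∈ A, ∑ c ∈ D,
        ind ((∀ a ∈ A, z a ≠ none) ∧ ∀ x ∈ ({a} : Finset V), z x = some c) :=
      Finset.sum_nonneg fun a _ => Finset.sum_nonneg fun c _ => ind_nonneg _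
    have n2 : 0 ≤ ∑ p ∈ A.offDiag, ∑ c : C,
          ind ((∀ a ∈ A, z a ≠ none) ∧ ∀ x ∈ ({p.1, p.2} : Finset V), z x = some c) :=
      Finset.sum_nonneg fun a _ => Finset.sum_nonneg fun c _ => ind_nonneg _
    by_cases hdom : ∀ a ∈ A, z a ≠ none
    · rw [ind_true hdom]
      by_cases hacc : AccD D A z
      · rw [ind_true hacc]; linarith
      · rw [ind_false hacc]
        have : (∃ a ∈ A, ∃ c ∈ D, z a = some c) ∨ (∃ a ∈ A, ∃ b ∈ A, z a = z b ∧ a ≠ b) := by
          by_contra hcon
          push Not at hcon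
          exact hacc ⟨⟨hdom, fun a ha b hb hab => hcon.2 a ha b hb hab⟩,
            fun a ha c hc => hcon.1 a ha c hc⟩
        rcases this with ⟨a, ha, c, hc, hac⟩ | ⟨a, ha, a', ha', haa, hne⟩
        · have e1 : (1 : ℝ) ≤ ∑ a ∈ A, ∑ c ∈ D,
              ind ((∀ a ∈ A, z a ≠ none) ∧ ∀ x ∈ ({a} : Finset V), z x = some c) := by
            refine le_trans ?_ (Finset.single_le_sum (f := fun a => ∑ c ∈ D,
              ind ((∀ a ∈ A, z a ≠ none) ∧ ∀ x ∈ ({a} : Finset V), z x = some c))
              (fun a _ => Finset.sum_nonneg fun c _ => ind_nonneg _) ha)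
            refine le_trans ?_ (Finset.single_le_sum (f := fun c =>
              ind ((∀ a ∈ A, z a ≠ none) ∧ ∀ x ∈ ({a} : Finset V), z x = some c))
              (fun c _ => ind_nonneg _) hc)
            rw [ind_true ⟨hdom, by simpa using hac⟩]
          linarith
        · obtain ⟨c, hc⟩ := Option.ne_none_iff_exists'.mp (hdom a ha)
          have e1 : (1 : ℝ) ≤ ∑ p ∈ A.offDiag, ∑ c : C,
              ind ((∀ a ∈ A, z a ≠ none) ∧ ∀ x ∈ ({p.1, p.2} : Finset V), z x = some c) := by
            have hmem : (a, a') ∈ A.offDiag := by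
              rw [Finset.mem_offDiag]; exact ⟨ha, ha', hne⟩
            refine le_trans ?_ (Finset.single_le_sum (f := fun p : V × V => ∑ c : C,
              ind ((∀ a ∈ A, z a ≠ none) ∧ ∀ x ∈ ({p.1, p.2} : Finset V), z x = some c))
              (fun a _ => Finset.sum_nonneg fun c _ => ind_nonneg _) hmem)
            refine le_trans ?_ (Finset.single_le_sum (f := fun c =>
              ind ((∀ a ∈ A, z a ≠ none) ∧ ∀ x ∈ ({a, a'} : Finset V), z x = some c))
              (fun c _ => ind_nonneg _) (Finset.mem_univ c))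
            rw [ind_true]
            refine ⟨hdom, ?_⟩
            intro x hx
            rw [Finset.mem_insert, Finset.mem_singleton] at hx
            rcases hx with rfl | rfl
            · exact hc
            · rw [← haa]; exact hc
          linarith
    · rw [ind_false hdom]
      have := ind_nonneg (AccD D A z)
      linarith
  refine le_trans ?_ (Ex_mono h0 h1 hpt)
  rw [Ex_sub, Ex_sub, Ex_dom, Ex_sum, Ex_sum]
  have e1 : ∀ a ∈ A, Ex ρ (fun z : St V C => ∑ c ∈ D,
      ind ((∀ a ∈ A, z a ≠ none) ∧ ∀ x ∈ ({a} : Finset V), z x = some c)) =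
      D.card * (ρ ^ A.card * (1 / κ)) := by
    intro a ha
    rw [Ex_sum]
    rw [Finset.sum_congr rfl fun c _ => Ex_fixed ρ A {a} (by simpa using ha) c]
    rw [Finset.sum_const, nsmul_eq_mul, Finset.card_singleton, pow_one]
  have e2 : ∀ p ∈ A.offDiag, Ex ρ (fun z : St V C => ∑ c : C,
      ind ((∀ a ∈ A, z a ≠ none) ∧ ∀ x ∈ ({p.1, p.2} : Finset V), z x = some c)) =
      ρ ^ A.card * (1 / κ) := by
    intro p hp
    rw [Finset.mem_offDiag] at hp
    rw [Ex_sum]
    rw [Finset.sum_congr rfl fun c _ => Ex_fixed ρ A {p.1, p.2} (by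
      intro x hx
      rw [Finset.mem_insert, Finset.mem_singleton] at hx
      rcases hx with rfl | rfl
      · exact hp.1
      · exact hp.2.1) c]
    rw [Finset.sum_const, nsmul_eq_mul, Finset.card_pair hp.2.2, Finset.card_univ]
    rw [← hκdef]
    field_simp
  rw [Finset.sum_congr rfl e1, Finset.sum_congr rfl e2, Finset.sum_const, Finset.sum_const,
    nsmul_eq_mul, nsmul_eq_mul]
  have hA' : (A.card : ℝ) ≤ 2 * b := by exact_mod_cast hA
  have hD' : (D.card : ℝ) ≤ 2 * b := by exact_mod_cast hD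
  have hoff : (A.offDiag.card : ℝ) ≤ 4 * b ^ 2 := by
    have : A.offDiag.card ≤ A.card * A.card := by
      rw [Finset.offDiag_card]; exact Nat.sub_le _ _
    have h3 : (A.offDiag.card : ℝ) ≤ A.card * A.card := by exact_mod_cast this
    nlinarith [Nat.cast_nonneg (α := ℝ) A.card]
  have hAD : (A.card : ℝ) * D.card ≤ 4 * b ^ 2 := by
    nlinarith [Nat.cast_nonneg (α := ℝ) A.card, Nat.cast_nonneg (α := ℝ) D.card]
  have hκ' : (64 : ℝ) * b ^ 2 ≤ κ := by rw [hκdef]; exact_mod_cast hκ
  have hρ : 0 ≤ ρ ^ A.card := pow_nonneg h0 _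
  have h3 : ((A.card : ℝ) * D.card + A.offDiag.card) * (1 / κ) ≤ 1 / 8 := by
    rw [mul_one_div, div_le_iff₀ hκpos]
    linarith
  have h4 : ρ ^ A.card - A.card * (D.card * (ρ ^ A.card * (1 / κ))) -
      A.offDiag.card * (ρ ^ A.card * (1 / κ)) =
      ρ ^ A.card * (1 - ((A.card : ℝ) * D.card + A.offDiag.card) * (1 / κ)) := by ring
  rw [h4, mul_comm]
  apply mul_le_mul_of_nonneg_left _ hρ
  linarith

end prob

lemma three_half_bound {b d : ℕ} (hb : 1 ≤ b) (hd : d ≤ 2 * b) {ρ : ℝ} (hρ0 : 0 ≤ ρ)
    (hρ : ρ ≤ 1 / (8 * b)) : (1 + ρ) ^ d ≤ 3 / 2 := by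
  have hb' : (1 : ℝ) ≤ b := by exact_mod_cast hb
  have hd' : (d : ℝ) ≤ 2 * b := by exact_mod_cast hd
  have h1 : (1 + ρ) ^ d ≤ Real.exp (ρ) ^ d := by
    apply pow_le_pow_left₀ (by linarith)
    have := Real.add_one_le_exp ρ
    linarith
  have h2 : Real.exp ρ ^ d = Real.exp (d * ρ) := by
    rw [← Real.exp_nat_mul]
  have h3 : (d : ℝ) * ρ ≤ 1 / 4 := by
    calc (d : ℝ) * ρ ≤ (2 * b) * (1 / (8 * b)) := by
          apply mul_le_mul hd' hρ hρ0 (by positivity)
      _ = 1 / 4 := by field_simp; norm_num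
  have h4 : Real.exp (1 / 4) ≤ 3 / 2 := by
    have h5 : Real.exp (1 / 4) ^ 4 = Real.exp 1 := by
      rw [← Real.exp_nat_mul]; norm_num
    have h6 := Real.exp_one_lt_d9
    by_contra hcon
    push Not at hcon
    have h7 : (3 / 2 : ℝ) ^ 4 ≤ Real.exp (1 / 4) ^ 4 := pow_le_pow_left₀ (by norm_num) hcon.le 4
    rw [h5] at h7
    norm_num at h7
    linarith
  calc (1 + ρ) ^ d ≤ Real.exp (d * ρ) := by rw [← h2]; exact h1
    _ ≤ Real.exp (1 / 4) := Real.exp_le_exp.mpr h3
    _ ≤ 3 / 2 := h4

section spread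

variable [Nonempty C]

/-- One round for a spread family. -/
lemma spread_half {a B : ℝ} (ha0 : 0 < a) (ha1 : a ≤ 1) (hB : 0 < B) {b d : ℕ} (hb : 1 ≤ b)
    (hd : d ≤ 2 * b) (hBa : 8 * b ≤ B * a) (hκ : 64 * b ^ 2 ≤ Fintype.card C)
    (F : Finset (Finset V)) (hne : F.Nonempty) (hF : ∀ A ∈ F, A.card = d)
    (hlink : ∀ D : Finset V, D.Nonempty → D.card ≤ d →
      ((F.filter (fun A => D ⊆ A)).card : ℝ) ≤ F.card * (1 / B) ^ D.card)
    (D : Finset C) (hD : D.card ≤ 2 * b) :
    Ex a (fun z : St V C => ind (¬ ∃ A ∈ F, AccD D A z)) ≤ 1 / 2 := by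
  have hFpos : (0 : ℝ) < F.card := by exact_mod_cast Finset.card_pos.mpr hne
  have hb' : (1 : ℝ) ≤ b := by exact_mod_cast hb
  let X : St V C → ℝ := fun z => ∑ A ∈ F, ind (AccD D A z)
  set μ : ℝ := F.card * a ^ d with hμ
  have hμpos : 0 < μ := by positivity
  have hX1 : 7 / 8 * μ ≤ Ex a X := by
    rw [show X = fun z => ∑ A ∈ F, ind (AccD D A z) from rfl, Ex_sum]
    have e : ∀ A ∈ F, 7 / 8 * a ^ d ≤ Ex a (fun z : St V C => ind (AccD D A z)) := by
      intro A hA
      have := Ex_accD (V := V) ha0.le ha1 hκ D hD A (by rw [hF A hA]; exact hd)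
      rwa [hF A hA] at this
    have := Finset.sum_le_sum e
    rw [Finset.sum_const, nsmul_eq_mul] at this
    calc 7 / 8 * μ = F.card * (7 / 8 * a ^ d) := by rw [hμ]; ring
      _ ≤ _ := this
  have hX2 : Ex a (fun z => X z ^ 2) ≤ 3 / 2 * μ ^ 2 := by
    have e1 : ∀ z : St V C, X z ^ 2 ≤ ∑ A ∈ F, ∑ A' ∈ F, ind (∀ x ∈ A ∪ A', z x ≠ none) := by
      intro z
      rw [sq, Finset.sum_mul_sum]
      refine Finset.sum_le_sum fun A _ => Finset.sum_le_sum fun A' _ => ?_
      rcases ind_cases (AccD D A z) with h | h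
      · rw [h, zero_mul]; exact ind_nonneg _
      · rw [h, one_mul]
        apply ind_mono
        have hA : AccD D A z := by
          by_contra hcon
          rw [ind_false hcon] at h; norm_num at h
        intro hA' x hx
        rw [Finset.mem_union] at hx
        rcases hx with hx | hx
        · exact hA.1.1 x hx
        · exact hA'.1.1 x hx
    refine (Ex_mono ha0.le ha1 e1).trans ?_
    rw [Ex_sum]
    have e2 : ∀ A ∈ F, Ex a (fun z : St V C => ∑ A' ∈ F, ind (∀ x ∈ A ∪ A', z x ≠ none)) ≤
        3 / 2 * (F.card * a ^ (2 * d)) := by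
      intro A hA
      rw [Ex_sum]
      simp_rw [Ex_dom]
      have e3 : ∀ A' ∈ F, a ^ (A ∪ A').card ≤
          a ^ (2 * d) * ∑ D ∈ A.powerset, (if D ⊆ A' then (1 / a) ^ D.card else 0) := by
        intro A' hA'
        set I := A ∩ A' with hI
        have hImem : I ∈ A.powerset := Finset.mem_powerset.mpr Finset.inter_subset_left
        have hle : (1 / a) ^ I.card ≤ ∑ D ∈ A.powerset,
            (if D ⊆ A' then (1 / a) ^ D.card else 0) := by
          have := Finset.single_le_sum (f := fun D => if D ⊆ A' then (1 / a) ^ D.card else 0)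
            (fun D _ => by
              show (0 : ℝ) ≤ if D ⊆ A' then (1 / a) ^ D.card else 0
              split_ifs <;> positivity) hImem
          simpa [hI, Finset.inter_subset_right] using this
        have hcard : (A ∪ A').card + I.card = 2 * d := by
          rw [hI, Finset.card_union_add_card_inter, hF A hA, hF A' hA']
          ring
        have : a ^ (A ∪ A').card = a ^ (2 * d) * (1 / a) ^ I.card := by
          rw [← hcard, pow_add, mul_assoc, ← mul_pow, mul_one_div_cancel ha0.ne', one_pow,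
            mul_one]
        rw [this]
        exact mul_le_mul_of_nonneg_left hle (by positivity)
      refine (Finset.sum_le_sum e3).trans ?_
      rw [← Finset.mul_sum, Finset.sum_comm]
      have e4 : ∀ D ∈ A.powerset, (∑ A' ∈ F, if D ⊆ A' then (1 / a) ^ D.card else 0) ≤
          F.card * (1 / (a * B)) ^ D.card := by
        intro D hD
        rw [Finset.mem_powerset] at hD
        rw [← Finset.sum_filter, Finset.sum_const, nsmul_eq_mul]
        have e5 : (F.card : ℝ) * (1 / (a * B)) ^ D.card =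
            (F.card * (1 / B) ^ D.card) * (1 / a) ^ D.card := by
          rw [mul_assoc, ← mul_pow]; congr 2; field_simp
        rw [e5]
        apply mul_le_mul_of_nonneg_right _ (by positivity)
        rcases D.eq_empty_or_nonempty with rfl | hne
        · simp
        · exact hlink D hne ((Finset.card_le_card hD).trans_eq (hF A hA))
      have e6 : ∑ D ∈ A.powerset, (∑ A' ∈ F, if D ⊆ A' then (1 / a) ^ D.card else 0) ≤
          3 / 2 * F.card := by
        refine (Finset.sum_le_sum e4).trans ?_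
        rw [← Finset.mul_sum]
        have e7 : ∑ D ∈ A.powerset, (1 / (a * B)) ^ D.card = (1 + 1 / (a * B)) ^ d := by
          have := Finset.sum_pow_mul_eq_add_pow (1 / (a * B)) 1 A
          simp only [one_pow, mul_one] at this
          rw [this, hF A hA, add_comm]
        rw [e7]
        have e8 : (1 + 1 / (a * B)) ^ d ≤ 3 / 2 := by
          apply three_half_bound hb hd (by positivity)
          apply one_div_le_one_div_of_le (by positivity)
          linarith
        nlinarith
      calc a ^ (2 * d) * ∑ D ∈ A.powerset,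
            (∑ A' ∈ F, if D ⊆ A' then (1 / a) ^ D.card else 0) ≤ a ^ (2 * d) * (3 / 2 * F.card) :=
            mul_le_mul_of_nonneg_left e6 (by positivity)
        _ = 3 / 2 * (F.card * a ^ (2 * d)) := by ring
    refine (Finset.sum_le_sum e2).trans ?_
    rw [Finset.sum_const, nsmul_eq_mul, hμ]
    apply le_of_eq
    ring
  -- pointwise inequality
  have key : ∀ z : St V C, 2 * (12 / 7 * μ) * X z - X z ^ 2 +
      (12 / 7 * μ) ^ 2 * ind (¬ ∃ A ∈ F, AccD D A z) ≤ (12 / 7 * μ) ^ 2 := by
    intro z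
    by_cases h : ∃ A ∈ F, AccD D A z
    · rw [ind_false (not_not.mpr h)]
      nlinarith [sq_nonneg (X z - 12 / 7 * μ)]
    · rw [ind_true h]
      have : X z = 0 := by
        apply Finset.sum_eq_zero
        intro A hA
        apply ind_false
        intro hacc
        exact h ⟨A, hA, hacc⟩
      rw [this]; nlinarith
  have h2 := Ex_mono ha0.le ha1 key
  rw [Ex_const, Ex_add, Ex_sub, Ex_smul, Ex_smul] at h2
  have h3 : (12 / 7 * μ) ^ 2 * Ex a (fun z : St V C => ind (¬ ∃ A ∈ F, AccD D A z)) ≤
      (12 / 7 * μ) ^ 2 * (1 / 2) := by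
    have e1 : 2 * (12 / 7 * μ) * (7 / 8 * μ) ≤ 2 * (12 / 7 * μ) * Ex a X :=
      mul_le_mul_of_nonneg_left hX1 (by positivity)
    nlinarith [sq_nonneg μ]
  exact le_of_mul_le_mul_left h3 (by positivity)

/-- decreasing -/
lemma anti_missD (D : Finset C) (F : Finset (Finset V)) :
    Anti (fun z : St V C => ind (¬ ∃ A ∈ F, AccD D A z)) := by
  intro x y hxy
  apply ind_mono
  rintro h ⟨A, hA, hacc⟩
  exact h ⟨A, hA, hacc.of_le hxy⟩

/-- `R` rounds. -/
lemma amplify {a : ℝ} (ha0 : 0 ≤ a) (D : Finset C) (F : Finset (Finset V))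
    (hhalf : Ex a (fun z : St V C => ind (¬ ∃ A ∈ F, AccD D A z)) ≤ 1 / 2) (R : ℕ)
    (hR : R * a ≤ 1) :
    Ex (R * a) (fun z : St V C => ind (¬ ∃ A ∈ F, AccD D A z)) ≤ (1 / 2) ^ R := by
  induction R with
  | zero =>
    simp only [Nat.cast_zero, zero_mul, pow_zero]
    calc Ex 0 (fun z : St V C => ind (¬ ∃ A ∈ F, AccD D A z)) ≤ Ex 0 (fun _ : St V C => 1) :=
          Ex_mono le_rfl zero_le_one fun z => ind_le_one _
      _ = 1 := Ex_const _ _
  | succ R ih =>
    have hR' : (R : ℝ) * a + a ≤ 1 := by push_cast at hR; linarith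
    have hRa : 0 ≤ (R : ℝ) * a := by positivity
    have h1 := ih (by linarith)
    have h2 := Ex_mul_le (C := C) V (R * a) a hRa ha0 hR'
      (fun z : St V C => ind (¬ ∃ A ∈ F, AccD D A z)) (fun z => ind (¬ ∃ A ∈ F, AccD D A z))
      (fun z => ind (¬ ∃ A ∈ F, AccD D A z)) (fun z => ind_nonneg _) (fun z => ind_nonneg _)
      (anti_missD D F) (anti_missD D F) ?_
    · have e : ((R + 1 : ℕ) : ℝ) * a = R * a + a := by push_cast; ring
      rw [e]
      refine h2.trans ?_
      rw [pow_succ]
      apply mul_le_mul h1 hhalf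
      · exact Ex_nonneg ha0 (by linarith) fun z => ind_nonneg _
      · positivity
    · intro z₁ z₂ hz
      by_cases h : ∃ A ∈ F, AccD D A (ext z₁ z₂)
      · rw [ind_false (not_not.mpr h)]
        exact mul_nonneg (ind_nonneg _) (ind_nonneg _)
      · rw [ind_true h, ind_true, ind_true, one_mul]
        · rintro ⟨A, hA, hacc⟩
          apply h
          refine ⟨A, hA, hacc.of_le ?_⟩
          intro x
          rcases hz x with h1 | h1
          · right; simp [ext, h1]
          · left; exact h1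
        · rintro ⟨A, hA, hacc⟩
          exact h ⟨A, hA, hacc.of_le (le_ext _ _)⟩

open Classical in
/-- Robust sunflower lemma for coloured states. -/
lemma sunflower {a B : ℝ} (ha0 : 0 < a) (hB : 0 < B) {b j R : ℕ} (hb : 1 ≤ b) (hR : 1 ≤ R)
    (hRa : R * a ≤ 1)
    (hj : j ≤ 2 * b) (hBa : 8 * b ≤ B * a) (hκ : 64 * b ^ 2 ≤ Fintype.card C)
    (F : Finset (Finset V)) (hF : ∀ A ∈ F, A.card = j) (hFc : B ^ j < F.card) :
    ∃ K : Finset V, (∃ A ∈ F, K ⊂ A) ∧
      Ex (R * a) (fun z : St V C => ind (Acc K z ∧ ¬ ∃ A ∈ F, Acc A z)) ≤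
        (univ.filter (fun D : Finset C => D.card ≤ 2 * b)).card * (1 / 2) ^ R := by
  have ha1 : a ≤ 1 := by
    have : (1 : ℝ) ≤ R := by exact_mod_cast hR
    nlinarith
  let P : Finset V → Prop := fun K => B ^ (j - K.card) < ((F.filter (fun A => K ⊆ A)).card : ℝ)
  have hP0 : P ∅ := by
    simp only [P, Finset.card_empty, Nat.sub_zero]
    have : F.filter (fun A => ∅ ⊆ A) = F := by
      apply Finset.filter_true_of_mem; intro A _; exact Finset.empty_subset A
    rw [this]; exact hFc
  obtain ⟨K, hK, hKmax⟩ := Finset.exists_max_image (univ.filter P) Finset.card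
    ⟨∅, by simp [hP0]⟩
  simp only [Finset.mem_filter, Finset.mem_univ, true_and] at hK hKmax
  set F' := F.filter (fun A => K ⊆ A) with hF'
  have hKj : K.card < j := by
    by_contra hcon
    push Not at hcon
    have h2 : F'.card ≤ 1 := by
      rw [Finset.card_le_one]
      intro A hA A' hA'
      rw [hF', Finset.mem_filter] at hA hA'
      have e1 : K = A := Finset.eq_of_subset_of_card_le hA.2 (by rw [hF A hA.1]; exact hcon)
      have e2 : K = A' := Finset.eq_of_subset_of_card_le hA'.2 (by rw [hF A' hA'.1]; exact hcon)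
      rw [← e1, ← e2]
    have h3 : P K := hK
    simp only [P, Nat.sub_eq_zero_of_le hcon, pow_zero] at h3
    rw [← hF'] at h3
    have : (F'.card : ℝ) ≤ 1 := by exact_mod_cast h2
    linarith
  set d := j - K.card with hd
  have hF'B : B ^ d < (F'.card : ℝ) := hK
  have hF'pos : (0 : ℝ) < F'.card := lt_trans (by positivity) hF'B
  have hmem : ∀ A ∈ F', A ∈ F ∧ K ⊆ A := fun A hA => by
    rw [hF', Finset.mem_filter] at hA; exact hA
  have hF'ne : F'.Nonempty := by
    rw [← Finset.card_pos]; exact_mod_cast hF'pos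
  -- the family of differences
  set F'' := F'.image (fun A => A \ K) with hF''
  have hinj : Set.InjOn (fun A : Finset V => A \ K) (F' : Set (Finset V)) := by
    intro A hA A' hA' h
    have h1 := (hmem A hA).2
    have h2 := (hmem A' hA').2
    have h3 : A \ K = A' \ K := h
    rw [← Finset.sdiff_union_of_subset h1, ← Finset.sdiff_union_of_subset h2, h3]
  have hcardF'' : F''.card = F'.card := Finset.card_image_of_injOn hinj
  have hcard'' : ∀ A ∈ F'', A.card = d := by
    intro A hA
    rw [hF'', Finset.mem_image] at hA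
    obtain ⟨A', hA', rfl⟩ := hA
    rw [Finset.card_sdiff_of_subset (hmem A' hA').2, hF A' (hmem A' hA').1]
  have hlink : ∀ D : Finset V, D.Nonempty → D.card ≤ d →
      ((F''.filter (fun A => D ⊆ A)).card : ℝ) ≤ F''.card * (1 / B) ^ D.card := by
    intro D hDne hDd
    rw [hcardF'']
    by_cases hDK : Disjoint D K
    · have hcard : (K ∪ D).card = K.card + D.card := Finset.card_union_of_disjoint hDK.symm
      have hDpos : 0 < D.card := Finset.card_pos.mpr hDne
      have hnot : ¬ P (K ∪ D) := by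
        intro hcon
        have := hKmax (K ∪ D) hcon
        omega
      have hle : (F''.filter (fun A => D ⊆ A)).card ≤ (F.filter (fun A => K ∪ D ⊆ A)).card := by
        have hsub : F''.filter (fun A => D ⊆ A) ⊆
            (F.filter (fun A => K ∪ D ⊆ A)).image (fun A => A \ K) := by
          intro A hA
          rw [Finset.mem_filter, hF'', Finset.mem_image] at hA
          obtain ⟨⟨A', hA', rfl⟩, hDA⟩ := hA
          rw [Finset.mem_image]
          refine ⟨A', ?_, rfl⟩
          rw [Finset.mem_filter]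
          exact ⟨(hmem A' hA').1, Finset.union_subset (hmem A' hA').2
            (hDA.trans Finset.sdiff_subset)⟩
        exact (Finset.card_le_card hsub).trans Finset.card_image_le
      simp only [P, not_lt] at hnot
      have hle' : ((F''.filter (fun A => D ⊆ A)).card : ℝ) ≤
          (F.filter (fun A => K ∪ D ⊆ A)).card := by exact_mod_cast hle
      refine (hle'.trans hnot).trans ?_
      have e : j - (K ∪ D).card = d - D.card := by omega
      rw [e]
      have e2 : B ^ (d - D.card) = B ^ d * (1 / B) ^ D.card := by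
        rw [one_div, inv_pow, pow_sub₀ _ hB.ne' hDd]
      rw [e2]
      exact mul_le_mul_of_nonneg_right hF'B.le (by positivity)
    · have : F''.filter (fun A => D ⊆ A) = ∅ := by
        rw [Finset.filter_eq_empty_iff]
        intro A hA hDA
        rw [hF'', Finset.mem_image] at hA
        obtain ⟨A', hA', rfl⟩ := hA
        exact hDK (Finset.disjoint_of_subset_left hDA Finset.sdiff_disjoint)
      rw [this, Finset.card_empty, Nat.cast_zero]
      positivity
  refine ⟨K, ?_, ?_⟩
  · obtain ⟨A, hA⟩ := hF'ne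
    refine ⟨A, (hmem A hA).1, (hmem A hA).2, fun hAK => ?_⟩
    have := Finset.card_le_card hAK
    rw [hF A (hmem A hA).1] at this
    omega
  -- union bound over the colours used on `K`
  have hRa0 : 0 ≤ (R : ℝ) * a := by positivity
  have hpt : ∀ z : St V C, ind (Acc K z ∧ ¬ ∃ A ∈ F, Acc A z) ≤
      ∑ D ∈ univ.filter (fun D : Finset C => D.card ≤ 2 * b),
        ind (¬ ∃ A ∈ F'', AccD D A z) := by
    intro z
    by_cases h : Acc K z ∧ ¬ ∃ A ∈ F, Acc A z
    · rw [ind_true h]
      obtain ⟨hKz, hno⟩ := h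
      set D := univ.filter (fun c : C => ∃ x ∈ K, z x = some c) with hDdef
      have hDcard : D.card ≤ K.card := by
        have hsub : D.image (fun c => (some c : Option C)) ⊆ K.image z := by
          intro o ho
          rw [Finset.mem_image] at ho
          obtain ⟨c, hc, rfl⟩ := ho
          rw [hDdef, Finset.mem_filter] at hc
          obtain ⟨-, x, hx, hxc⟩ := hc
          rw [Finset.mem_image]
          exact ⟨x, hx, hxc⟩
        have h1 := Finset.card_le_card hsub
        rw [Finset.card_image_of_injective _ (Option.some_injective C)] at h1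
        exact h1.trans Finset.card_image_le
      have hDmem : D ∈ univ.filter (fun D : Finset C => D.card ≤ 2 * b) := by
        rw [Finset.mem_filter]; exact ⟨mem_univ _, by omega⟩
      have hnone : ¬ ∃ A ∈ F'', AccD D A z := by
        rintro ⟨A, hA, hacc⟩
        rw [hF'', Finset.mem_image] at hA
        obtain ⟨A', hA', rfl⟩ := hA
        apply hno
        refine ⟨A', (hmem A' hA').1, ?_, ?_⟩
        · intro x hx
          by_cases hxK : x ∈ K
          · exact hKz.1 x hxK
          · exact hacc.1.1 x (Finset.mem_sdiff.mpr ⟨hx, hxK⟩)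
        · intro x hx y hy hxy
          by_cases hxK : x ∈ K <;> by_cases hyK : y ∈ K
          · exact hKz.2 x hxK y hyK hxy
          · exfalso
            obtain ⟨c, hc⟩ := Option.ne_none_iff_exists'.mp (hKz.1 x hxK)
            apply hacc.2 y (Finset.mem_sdiff.mpr ⟨hy, hyK⟩) c
            · rw [hDdef, Finset.mem_filter]; exact ⟨mem_univ _, x, hxK, hc⟩
            · rw [← hxy, hc]
          · exfalso
            obtain ⟨c, hc⟩ := Option.ne_none_iff_exists'.mp (hKz.1 y hyK)
            apply hacc.2 x (Finset.mem_sdiff.mpr ⟨hx, hxK⟩) c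
            · rw [hDdef, Finset.mem_filter]; exact ⟨mem_univ _, y, hyK, hc⟩
            · rw [hxy, hc]
          · exact hacc.1.2 x (Finset.mem_sdiff.mpr ⟨hx, hxK⟩) y
              (Finset.mem_sdiff.mpr ⟨hy, hyK⟩) hxy
      refine le_trans ?_ (Finset.single_le_sum
        (f := fun D : Finset C => ind (¬ ∃ A ∈ F'', AccD D A z))
        (fun D _ => ind_nonneg _) hDmem)
      rw [ind_true hnone]
    · rw [ind_false h]
      exact Finset.sum_nonneg fun D _ => ind_nonneg _
  refine (Ex_mono hRa0 hRa hpt).trans ?_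
  rw [Ex_sum]
  refine (Finset.sum_le_card_nsmul _ _ ((1 / 2) ^ R) ?_).trans_eq (nsmul_eq_mul _ _)
  intro D hD
  rw [Finset.mem_filter] at hD
  apply amplify ha0.le D F'' _ R hRa
  exact spread_half ha0 ha1 hB hb (by omega) hBa hκ F'' (by
    rw [← Finset.card_pos, hcardF'']; exact Finset.card_pos.mpr hF'ne) hcard'' hlink D hD.2

end spread

end Pool.Agent.GapLim
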