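import Pool.Agent.Work.MP_71c844_lc.H53Compress

/-!
Choice of the parameters (adapted from CliqueFewNegations by helper38).
-/

namespace Pool.Agent.NegLim.H53

open Pool.Agent.NegLim

/-- choice of the prime -/
lemma choose_prime (b L v : ℕ) (hb1 : 1 ≤ b) (hL2 : 2 ≤ L) (hv2 : 58320 * b ^ 4 * L ^ 3 ≤ v) :
    ∃ p : ℕ, p.Prime ∧ 9 * b * L ≤ p ∧ p ^ 2 * (180 * b ^ 2 * L) ≤ v ∧
      v < 720 * b ^ 2 * L * p ^ 2 := by
  have hbL : 1 ≤ b * L := Nat.one_le_iff_ne_zero.mpr (by positivity)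
  obtain ⟨D, hD⟩ : ∃ D, D = 180 * b ^ 2 * L := ⟨_, rfl⟩
  have hDpos : 0 < D := by rw [hD]; positivity
  obtain ⟨X, hX⟩ : ∃ X, X = v / D := ⟨_, rfl⟩
  obtain ⟨P, hP⟩ : ∃ P, P = Nat.sqrt X := ⟨_, rfl⟩
  have hXge : (18 * b * L) * (18 * b * L) ≤ X := by
    rw [hX, Nat.le_div_iff_mul_le hDpos]
    calc (18 * b * L) * (18 * b * L) * D = 58320 * b ^ 4 * L ^ 3 := by rw [hD]; ring
      _ ≤ v := hv2
  have hPge : 18 * b * L ≤ P := by rw [hP]; exact Nat.le_sqrt.mpr hXge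
  have hP2 : 9 * b * L ≤ P / 2 := by
    rw [Nat.le_div_iff_mul_le (by norm_num)]
    calc 9 * b * L * 2 = 18 * b * L := by ring
      _ ≤ P := hPge
  have hPne : P / 2 ≠ 0 := by
    have : 1 ≤ 9 * b * L := by nlinarith
    omega
  obtain ⟨p, hp, hp1, hp2⟩ := Nat.exists_prime_lt_and_le_two_mul (P / 2) hPne
  have hpP : p ≤ P := by omega
  have hp2P : P + 1 ≤ 2 * p := by omega
  have hPX : P * P ≤ X := by rw [hP]; exact Nat.sqrt_le X
  have hPX' : X < (P + 1) * (P + 1) := by rw [hP]; exact Nat.lt_succ_sqrt X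
  have hXD : X * D ≤ v := by rw [hX]; exact Nat.div_mul_le_self v D
  have hXD' : v < D * (X + 1) := by rw [hX]; exact Nat.lt_mul_div_succ v hDpos
  refine ⟨p, hp, by omega, ?_, ?_⟩
  · rw [← hD]
    have e1 : p ^ 2 ≤ X := by
      rw [sq]; exact (Nat.mul_le_mul hpP hpP).trans hPX
    exact (Nat.mul_le_mul_right D e1).trans hXD
  · have e1 : X + 1 ≤ (2 * p) * (2 * p) := by
      have := Nat.mul_le_mul hp2P hp2P
      omega
    have e2 : D * (X + 1) ≤ D * ((2 * p) * (2 * p)) := Nat.mul_le_mul_left _ e1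
    have e3 : D * ((2 * p) * (2 * p)) = 720 * b ^ 2 * L * p ^ 2 := by rw [hD]; ring
    omega

/-- choice of the number of scales -/
lemma choose_K (p b : ℕ) (hb1 : 1 ≤ b) (hp : 18 * b ≤ p) :
    ∃ K : ℕ, 1 ≤ K ∧ 16 * b * 2 ^ K ≤ p ^ 4 ∧ p ^ 4 < 32 * b * 2 ^ K := by
  obtain ⟨Q, hQ⟩ : ∃ Q, Q = p ^ 4 / (16 * b) := ⟨_, rfl⟩
  have h16b : 0 < 16 * b := by omega
  have hppos : 0 < p := by omega
  have hQ2 : 2 ≤ Q := by
    rw [hQ, Nat.le_div_iff_mul_le h16b]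
    calc 2 * (16 * b) ≤ 18 * b * 2 := by omega
      _ ≤ p * p := Nat.mul_le_mul hp (by omega)
      _ = p ^ 2 := (sq p).symm
      _ ≤ p ^ 4 := Nat.pow_le_pow_right hppos (by norm_num)
  have hKQ : 2 ^ (Nat.log 2 Q) ≤ Q := Nat.pow_log_le_self 2 (by omega)
  have hKQ' : Q < 2 ^ (Nat.log 2 Q + 1) := Nat.lt_pow_succ_log_self (by norm_num) Q
  refine ⟨Nat.log 2 Q, Nat.log_pos (by norm_num) hQ2, ?_, ?_⟩
  · refine (Nat.mul_le_mul_left _ hKQ).trans ?_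
    rw [hQ]; exact Nat.mul_div_le _ _
  · rw [hQ] at hKQ'
    have h1 : p ^ 4 < 2 ^ (Nat.log 2 (p ^ 4 / (16 * b)) + 1) * (16 * b) :=
      (Nat.div_lt_iff_lt_mul h16b).mp hKQ'
    rw [← hQ] at h1
    rw [pow_succ] at h1
    calc p ^ 4 < 2 ^ Nat.log 2 Q * 2 * (16 * b) := h1
      _ = 32 * b * 2 ^ Nat.log 2 Q := by ring

/-- the bound for the number of gates of the reduction -/
lemma size_bound (b L v p K S w N : ℕ) (hb : b = w + 1) (hL : 1 ≤ L) (hvL : v < 2 ^ L)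
    (hp : 2 ≤ p) (hNp : N ≤ p) (hpv : p ^ 2 ≤ v) (hKL : K ≤ 2 * L) (hS : S < 2 ^ w) :
    2 ^ K * (S + 1) * (N * p ^ 4 + 1) ^ (2 * b) ≤ 2 ^ (9 * b * L) := by
  have hppos : 0 < p := by omega
  have e1 : N * p ^ 4 + 1 ≤ 2 ^ (3 * L) := by
    have f1 : N * p ^ 4 ≤ p * p ^ 4 := Nat.mul_le_mul_right _ hNp
    have f2 : p * p ^ 4 + 1 ≤ p ^ 6 := by
      have g2 : 1 ≤ p ^ 5 := Nat.one_le_pow _ _ hppos
      have g3 : p ^ 5 * 2 ≤ p ^ 5 * p := Nat.mul_le_mul_left _ hp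
      have g4 : p * p ^ 4 = p ^ 5 := by ring
      have g5 : p ^ 5 * p = p ^ 6 := by ring
      omega
    have f3 : p ^ 6 ≤ 2 ^ (3 * L) := by
      have g1 : p ^ 6 = (p ^ 2) ^ 3 := by ring
      have g2 : (2 ^ L) ^ 3 = 2 ^ (3 * L) := by rw [← pow_mul, mul_comm]
      rw [g1, ← g2]
      exact Nat.pow_le_pow_left (hpv.trans hvL.le) 3
    omega
  have e2 : 2 ^ K * (S + 1) * (N * p ^ 4 + 1) ^ (2 * b) ≤
      2 ^ (2 * L) * 2 ^ w * (2 ^ (3 * L)) ^ (2 * b) := by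
    apply Nat.mul_le_mul
    · apply Nat.mul_le_mul
      · exact Nat.pow_le_pow_right (by norm_num) hKL
      · omega
    · exact Nat.pow_le_pow_left e1 _
  refine e2.trans ?_
  have e3 : 2 ^ (2 * L) * 2 ^ w * (2 ^ (3 * L)) ^ (2 * b) = 2 ^ (2 * L + w + 6 * (b * L)) := by
    rw [← pow_mul, ← pow_add, ← pow_add]; congr 1; ring
  rw [e3]
  apply Nat.pow_le_pow_right (by norm_num)
  have f1 : 9 * b * L = 9 * (b * L) := by ring
  have f2 : L ≤ b * L := Nat.le_mul_of_pos_left _ (by omega)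
  have f3 : b ≤ b * L := Nat.le_mul_of_pos_right _ (by omega)
  omega

/-- the final comparison -/
lemma final_compare (b L v p K M : ℕ)
    (hvp : v < 720 * b ^ 2 * L * p ^ 2) (hq' : p ^ 4 < 32 * b * 2 ^ K)
    (e1 : 2 ^ K ≤ M * (792 * b * L ^ 2)) : v ^ 2 < 13138329600 * M * b ^ 6 * L ^ 4 := by
  have f1 : v ^ 2 < (720 * b ^ 2 * L * p ^ 2) ^ 2 := Nat.pow_lt_pow_left hvp (by norm_num)
  have f2 : (720 * b ^ 2 * L * p ^ 2) ^ 2 = 518400 * b ^ 4 * L ^ 2 * p ^ 4 := by ring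
  have f3 : 518400 * b ^ 4 * L ^ 2 * p ^ 4 ≤
      518400 * b ^ 4 * L ^ 2 * (32 * b * (M * (792 * b * L ^ 2))) := by
    apply Nat.mul_le_mul_left
    exact hq'.le.trans (Nat.mul_le_mul_left _ e1)
  have f4 : 518400 * b ^ 4 * L ^ 2 * (32 * b * (M * (792 * b * L ^ 2))) =
      13138329600 * M * b ^ 6 * L ^ 4 := by ring
  omega

/-- The bound for a family of NOT-free circuits that separates each graph without `k`-clique from
each of its supergraphs with a `k`-clique. -/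
theorem clique_separating (v k M w : ℕ) (hv : 2 ≤ v)
    (hk : 90 * (w + 1) ^ 2 * (Nat.log 2 v + 1) ≤ k) (hkv : 2 * k ≤ v)
    (hw : 58320 * (w + 1) ^ 4 * (Nat.log 2 v + 1) ^ 3 ≤ v)
    (h : 13138329600 * M * (w + 1) ^ 6 * (Nat.log 2 v + 1) ^ 4 ≤ v ^ 2)
    (c : Fin M → List (Gate (Sym2 (Fin v)))) (hmon : ∀ i, numNot (c i) = 0)
    (hsep : ∀ x y : Sym2 (Fin v) → Bool, (∀ e, x e = true → y e = true) →
      (gph x).CliqueFree k → ¬ (gph y).CliqueFree k → ∃ i, output (c i) x ≠ output (c i) y) :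
    ∃ i, 2 ^ w ≤ size (c i) := by
  by_contra hcon
  push Not at hcon
  obtain ⟨L, hL⟩ : ∃ L, L = Nat.log 2 v + 1 := ⟨_, rfl⟩
  obtain ⟨b, hb⟩ : ∃ b, b = w + 1 := ⟨_, rfl⟩
  rw [← hL, ← hb] at hk h hw
  have hb1 : 1 ≤ b := by omega
  have hL2 : 2 ≤ L := by
    have : 1 ≤ Nat.log 2 v := Nat.log_pos (by norm_num) hv
    omega
  have hvL : v < 2 ^ L := by rw [hL]; exact Nat.lt_pow_succ_log_self (by norm_num) v
  obtain ⟨p, hp, hNp, hp2v, hvp⟩ := choose_prime b L v hb1 hL2 hw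
  have : Fact p.Prime := ⟨hp⟩
  have hbL : 1 ≤ b * L := Nat.one_le_iff_ne_zero.mpr (by positivity)
  have hpv : p ^ 2 ≤ v := by
    have e1 : 1 ≤ 180 * b ^ 2 * L := Nat.one_le_iff_ne_zero.mpr (by positivity)
    have e2 := Nat.mul_le_mul_left (p ^ 2) e1
    omega
  have hpL : p < 2 ^ L := by
    have e1 : p ^ 1 ≤ p ^ 2 := Nat.pow_le_pow_right hp.pos (by norm_num)
    rw [pow_one] at e1
    omega
  obtain ⟨K, hK1, hq, hq'⟩ := choose_K p b hb1 (by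
    have e1 : 9 * b * 2 ≤ 9 * b * L := Nat.mul_le_mul_left _ hL2
    omega)
  have hKL : K ≤ 2 * L := by
    have e1 : 2 ^ K < 2 ^ (2 * L) := by
      have f1 : 2 ^ K ≤ 16 * b * 2 ^ K := Nat.le_mul_of_pos_left _ (by omega)
      have f2 : p ^ 4 = (p ^ 2) ^ 2 := by ring
      have f3 : (p ^ 2) ^ 2 < (2 ^ L) ^ 2 := Nat.pow_lt_pow_left (by omega) (by norm_num)
      have f4 : (2 ^ L) ^ 2 = 2 ^ (2 * L) := by rw [← pow_mul, mul_comm]
      omega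
    exact ((Nat.pow_lt_pow_iff_right (by norm_num)).mp e1).le
  obtain ⟨N, hN⟩ : ∃ N, N = 9 * b * L := ⟨_, rfl⟩
  rw [← hN] at hNp
  have hNbL : N = 9 * (b * L) := by rw [hN]; ring
  have hpart : N * (8 * b + 2) ≤ 90 * b ^ 2 * L := by
    have e1 : N * (8 * b + 2) ≤ N * (10 * b) := Nat.mul_le_mul_left _ (by omega)
    have e2 : N * (10 * b) = 90 * b ^ 2 * L := by rw [hN]; ring
    omega
  obtain ⟨d, hd⟩ : ∃ d, N * (8 * b + 2) + d = k := ⟨k - N * (8 * b + 2), by omega⟩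
  have hvert : N * (8 * b + 2) * p ^ 2 + d ≤ v := by
    have e1 := Nat.mul_le_mul_right (p ^ 2) hpart
    have e2 : p ^ 2 * (180 * b ^ 2 * L) = 2 * (90 * b ^ 2 * L * p ^ 2) := by ring
    omega
  have hU : 2 * p ^ (8 * b) ≤ 2 ^ N := by
    have e1 : p ^ (8 * b) ≤ (2 ^ L) ^ (8 * b) := Nat.pow_le_pow_left hpL.le _
    have e2 : 2 * (2 ^ L) ^ (8 * b) = 2 ^ (8 * (b * L) + 1) := by
      rw [← pow_mul, pow_succ]; ring_nf
    have e3 : 2 ^ (8 * (b * L) + 1) ≤ 2 ^ N := Nat.pow_le_pow_right (by norm_num) (by omega)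
    omega
  obtain ⟨S, hS⟩ : ∃ S, S = 2 ^ w - 1 := ⟨_, rfl⟩
  have hS1 : S < 2 ^ w := by
    have : 0 < 2 ^ w := by positivity
    omega
  have hcS : ∀ i, size (c i) ≤ S := fun i => by
    have := hcon i
    omega
  have hSb : S ≤ 2 ^ b := hS1.le.trans (Nat.pow_le_pow_right (by norm_num) (by omega))
  have hSR := size_bound b L v p K S w N hb (by omega) hvL hp.two_le hNp hpv hKL hS1
  have key := clique_family hb1 (by omega) hNp hK1 hq hd hvert hU c hmon hcS hSb hSR hsep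
  have e1 : 2 ^ K ≤ M * (792 * b * L ^ 2) := by
    refine key.trans (Nat.mul_le_mul_left _ ?_)
    have f2 : 44 * K * (9 * b * L) ≤ 44 * (2 * L) * (9 * b * L) :=
      Nat.mul_le_mul_right _ (Nat.mul_le_mul_left _ hKL)
    have f3 : 44 * (2 * L) * (9 * b * L) = 792 * b * L ^ 2 := by ring
    rw [← f3]
    exact f2
  have e2 := final_compare b L v p K M hvp hq' e1
  omega

end Pool.Agent.NegLim.H53
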