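import Pool.Agent.Work.MP_71c844_lc.RecParams

/-!
Families of small circuits without NOT gates whose values determine CLIQUE (better exponents).
-/

namespace Pool.Agent.LayCirc

open Finset
open Pool.Agent.NegLim (Dich Tn lowSets gval pull mapVar)

set_option linter.unusedSectionVars false

section abs

variable {E : Type*} [Fintype E] [DecidableEq E]
variable {U : Type*} [Fintype U] [Nonempty U]

open Classical in
/-- The abstract lower bound for families. -/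
theorem family_bound {T : Type} [Fintype T] {b ℓ K R N S : ℕ} {q : ℝ} {Y : U → Finset E}
    (hb : 1 ≤ b) (hℓ : 2 * b < 2 ^ ℓ) (hK : 1 ≤ K) (hq : 64 * 2 ^ K ≤ q)
    (hY : ∀ A : Finset E, A.card ≤ 2 * b →
      ((univ.filter (fun u => A ⊆ Y u)).card : ℝ) ≤ Fintype.card U * (1 / q) ^ A.card)
    (hN : ∀ u, N ≤ (Y u).card) (hU : 2 * Fintype.card U ≤ 2 ^ N)
    (g : T → List (NegLim.Gate E)) (hg : ∀ t, NegLim.numNot (g t) = 0)
    (hgS : ∀ t, NegLim.size (g t) ≤ S)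
    (hout : ∀ x y : Finset E, (∀ t, gval (g t) 0 x = gval (g t) 0 y) →
      ((∃ u, Y u ⊆ x) ↔ ∃ u, Y u ⊆ y))
    (hS : S ≤ 2 ^ b) (hSR : 2 ^ K * ((S + 1) * (lowSets E b).card) ≤ 2 ^ R) (hR : 1 ≤ R)
    (hℓ1 : 1 ≤ ℓ) :
    2 ^ K ≤ 44 * K * (Fintype.card T * (ℓ * R)) := by
  set W : ℝ := ((lowSets E b).card : ℝ) with hW
  set ε : ℝ := ((S : ℝ) + 1) * (W * (1 / 2) ^ R) with hε
  have hε0 : 0 ≤ ε := by positivity
  have hmε : (2 : ℝ) ^ K * ε ≤ 1 := by
    have e1 : ((2 : ℝ) ^ K * (((S : ℝ) + 1) * W)) ≤ 2 ^ R := by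
      rw [hW]; exact_mod_cast hSR
    rw [hε]
    have e4 : (1 / 2 : ℝ) ^ R = 1 / 2 ^ R := by rw [div_pow, one_pow]
    rw [e4]
    have : (2 : ℝ) ^ K * (((S : ℝ) + 1) * (W * (1 / 2 ^ R))) =
        ((2 : ℝ) ^ K * (((S : ℝ) + 1) * W)) / 2 ^ R := by
      ring
    rw [this, div_le_one (by positivity)]
    exact e1
  let st : ℕ → Finset E → (T → Bool) := fun l x =>
    if l = 0 then fun _ => false else fun t => gval (g t) 0 x
  have key := NegLim.main_rounds (E := E) (U := U) (H := T → Bool) (J := T) (b := 4)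
    (K := K) (N := N) (q := q) (ε := ε) (Y := Y) (by norm_num) hK (by push_cast; linarith) hε0 hmε
    hN hU (fun _ => ℓ * R) (fun _ => Nat.mul_pos hℓ1 hR) st
    (fun _ _ t x => gval (g t) 0 x) (fun _ => univ) 1 (fun _ _ => rfl) ?_ ?_ ?_
  · simpa using key
  · intro _ _ _ t
    exact Rec82.dich_circuit (E := E) (U := U) (b := b) (ℓ := ℓ) (K := K) (R := R) (q := q)
      (Y := Y) hb hℓ hq (fun A hA => by convert hY A hA) (g t) (hg t) 0 S (hgS t) hS
  · intro l hl x y _ h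
    have hl0 : l = 0 := by omega
    subst hl0
    show (fun t => gval (g t) 0 x) = fun t => gval (g t) 0 y
    funext t
    exact h t (mem_univ t)
  · intro x y h
    apply hout
    intro t
    exact congrFun h t

end abs

open Pool.Agent.Rec82 (Part Vtx Gr Seed planted proj Uniq)

/-- The bound for families in terms of the parameters of the construction. -/
lemma rec_family_bound {T : Type} [Fintype T] {b c N K R ℓ κ r d v k S : ℕ}
    (g : Fin N → Fin (2 * c) → Fin r)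
    (hg : Uniq g (2 * b)) (hb : 1 ≤ b) (hc1 : 1 ≤ c) (hN1 : 1 ≤ N) (hℓ : 2 * b < 2 ^ ℓ)
    (hℓ1 : 1 ≤ ℓ) (hK : 1 ≤ K) (hq : 64 * 2 ^ K ≤ 2 ^ (2 * κ))
    (hk : N * (4 * c * κ + 2) + d = k) (hv : N * (16 * c * κ + 2 * 2 ^ κ) + d ≤ v)
    (hU : 2 * κ * r + 1 ≤ N)
    (G : T → List (NegLim.Gate (Sym2 (Fin v)))) (hG : ∀ t, NegLim.numNot (G t) = 0)
    (hGS : ∀ t, NegLim.size (G t) ≤ S)
    (hout : ∀ x y : Sym2 (Fin v) → Bool,
      (∀ t, NegLim.output (G t) x = NegLim.output (G t) y) →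
      (¬ (SimpleGraph.fromEdgeSet {e | x e = true}).CliqueFree k ↔
        ¬ (SimpleGraph.fromEdgeSet {e | y e = true}).CliqueFree k))
    (hS : S ≤ 2 ^ b)
    (hSR : 2 ^ K * ((S + 1) * (N * 2 ^ (2 * κ) + 1) ^ (2 * b)) ≤ 2 ^ R) (hR : 1 ≤ R) :
    2 ^ K ≤ 44 * K * (Fintype.card T * (ℓ * R)) := by
  classical
  have hcardPart : Fintype.card (Part κ N (2 * c) d) = N * (4 * c * κ + 2) + d := by
    simp only [Fintype.card_sum, Fintype.card_prod, Fintype.card_fin]; ring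
  have hcardV : Fintype.card (Vtx κ N (2 * c) d) = N * (16 * c * κ + 2 * 2 ^ κ) + d := by
    simp only [Fintype.card_sum, Fintype.card_prod, Fintype.card_fin, Fintype.card_pi,
      Finset.prod_const, Finset.card_univ, ZMod.card]
    ring
  obtain ⟨ι⟩ : Nonempty (Vtx κ N (2 * c) d ↪ Fin v) :=
    Function.Embedding.nonempty_of_card_le (by rw [hcardV, Fintype.card_fin]; exact hv)
  have hkc : Fintype.card (Part κ N (2 * c) d) = k := by rw [hcardPart]; exact hk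
  -- graphs and planted sets
  have hiff : ∀ x : Finset (Gr κ N),
      ¬ (SimpleGraph.fromEdgeSet {e | pull (proj ι g) (fun t => decide (t ∈ x)) e = true}).CliqueFree k ↔
        ∃ u : Seed κ r, planted g u ⊆ x := by
    intro x
    rw [← hkc]
    constructor
    · intro h
      obtain ⟨u, hu⟩ := Rec82.planted_of_clique ι g (by omega) hN1 (fun e => decide (e ∈ x)) h
      refine ⟨u, fun a ha => ?_⟩
      rw [Rec82.mem_planted] at ha
      have := hu a.1
      rw [ha] at this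
      simpa using this
    · rintro ⟨u, hu⟩
      apply Rec82.clique_of_planted ι g (fun e => decide (e ∈ x)) u
      intro i
      simp only [decide_eq_true_eq]
      apply hu
      rw [Rec82.mem_planted]
  refine family_bound (E := Gr κ N) (U := Seed κ r) (T := T) (b := b) (ℓ := ℓ) (K := K) (R := R)
    (N := N) (S := S)
    (q := (2 : ℝ) ^ (2 * κ)) (Y := planted g) hb hℓ hK (by exact_mod_cast hq)
    (fun A hA => Rec82.planted_spread g hg A hA)
    (fun u => (Rec82.card_planted g u).ge) ?_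
    (fun t => mapVar (proj ι g) (G t)) (fun t => by rw [NegLim.numNot_mapVar]; exact hG t)
    (fun t => by rw [NegLim.size_mapVar]; exact hGS t) ?_ hS ?_ hR hℓ1
  · rw [Rec82.card_seed, ← pow_succ']
    exact Nat.pow_le_pow_right (by norm_num) hU
  · intro x y h
    rw [← hiff x, ← hiff y]
    apply hout
    intro t
    have h1 : ∀ z : Finset (Gr κ N), gval (mapVar (proj ι g) (G t)) 0 z =
        NegLim.output (G t) (pull (proj ι g) (fun e => decide (e ∈ z))) := fun z =>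
      NegLim.output_mapVar (proj ι g) (fun e => decide (e ∈ z)) (G t)
    rw [← h1, ← h1]
    exact h t
  · refine le_trans ?_ hSR
    apply Nat.mul_le_mul_left
    apply Nat.mul_le_mul_left
    have := NegLim.card_lowSets_le (E := Gr κ N) b
    rwa [Rec82.card_Gr] at this

/-- A family of circuits without NOT gates of size less than `2 ^ w` whose values determine
whether a graph has a clique on `k` vertices is large. -/
theorem rec_family {T : Type} [Fintype T] {v k w : ℕ} (hv2 : 2 ≤ v)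
    (hk : 600 * (w + 1) * (Nat.log 2 v + 1) ^ 4 ≤ k) (hkv : 2 * k ≤ v)
    (G : T → List (NegLim.Gate (Sym2 (Fin v)))) (hG : ∀ t, NegLim.numNot (G t) = 0)
    (hGS : ∀ t, NegLim.size (G t) < 2 ^ w)
    (hout : ∀ x y : Sym2 (Fin v) → Bool,
      (∀ t, NegLim.output (G t) x = NegLim.output (G t) y) →
      (¬ (SimpleGraph.fromEdgeSet {e | x e = true}).CliqueFree k ↔
        ¬ (SimpleGraph.fromEdgeSet {e | y e = true}).CliqueFree k)) :
    v ^ 2 < 2 ^ 33 * (Fintype.card T + 1) * (w + 1) ^ 3 * (Nat.log 2 v + 1) ^ 7 := by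
  by_contra hcon
  push Not at hcon
  obtain ⟨L, hL⟩ : ∃ L, L = Nat.log 2 v + 1 := ⟨_, rfl⟩
  obtain ⟨b, hbdef⟩ : ∃ b, b = w + 1 := ⟨_, rfl⟩
  obtain ⟨P, hPdef⟩ : ∃ P, P = Fintype.card T + 1 := ⟨_, rfl⟩
  have hP1 : 1 ≤ P := by omega
  have hb1 : 1 ≤ b := by omega
  have hL2 : 2 ≤ L := by
    have : 1 ≤ Nat.log 2 v := Nat.log_pos (by norm_num) hv2
    omega
  have hvL : v < 2 ^ L := by
    rw [hL]
    exact Nat.lt_pow_succ_log_self (by norm_num) v
  rw [← hL, ← hbdef] at hk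
  rw [← hL, ← hbdef, ← hPdef] at hcon
  have hL1 : 1 ≤ L := by omega
  have hbL : 1 ≤ b * L := Nat.one_le_iff_ne_zero.mpr (by positivity)
  -- the graph is large
  have hv1 : 3072 * b * L ^ 2 ≤ v := by
    have e1 : (3072 * b * L ^ 2) ^ 2 ≤ v ^ 2 := by
      refine le_trans ?_ hcon
      have f1 : (3072 * b * L ^ 2) ^ 2 = 9437184 * 1 * (1 * b ^ 2) * L ^ 4 := by ring
      rw [f1]
      apply Nat.mul_le_mul _ (Nat.pow_le_pow_right hL1 (by norm_num))
      have f2 : b ^ 3 = b * b ^ 2 := by ring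
      rw [f2]
      apply Nat.mul_le_mul _ (Nat.mul_le_mul_right _ hb1)
      exact Nat.mul_le_mul (by norm_num) hP1
    exact (Nat.pow_le_pow_iff_left two_ne_zero).mp e1
  obtain ⟨κ, hκ4, hκL, hκ1, hκ2⟩ := choose_kappa b L v hb1 hL2 hvL hv1
  obtain ⟨N, hN⟩ : ∃ N, N = 24 * b * L ^ 2 := ⟨_, rfl⟩
  rw [← hN] at hκ1 hκ2
  have hN1 : 1 ≤ N := by rw [hN]; exact Nat.one_le_iff_ne_zero.mpr (by positivity)
  have hNv : N ≤ v := by
    have e1 : 24 * b * L ^ 2 ≤ 3072 * b * L ^ 2 := by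
      apply Nat.mul_le_mul_right
      apply Nat.mul_le_mul_right
      norm_num
    omega
  obtain ⟨c, hc⟩ : ∃ c, c = L + 2 := ⟨_, rfl⟩
  obtain ⟨r, hr⟩ : ∃ r, r = 6 * c * (2 * b) := ⟨_, rfl⟩
  have hr1 : 1 ≤ r := by
    rw [hr]
    have : 0 < c := by omega
    exact Nat.one_le_iff_ne_zero.mpr (by positivity)
  have h4N : 4 * N ≤ 2 ^ c := by
    rw [hc, pow_add]; omega
  obtain ⟨g, hg⟩ := Rec82.exists_expander N c (2 * b) r (by omega) h4N hr.ge hr1
  -- kappa (L+2) is at most L^2 - 4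
  obtain ⟨e, he⟩ : ∃ e, L = κ + 2 + e := ⟨L - (κ + 2), by omega⟩
  have hcκ : c * κ + 4 ≤ L ^ 2 := by rw [hc, he]; nlinarith
  obtain ⟨K, hK⟩ : ∃ K, 2 * κ = 6 + K := ⟨2 * κ - 6, by omega⟩
  have hq : 64 * 2 ^ K = 2 ^ (2 * κ) := by rw [hK, pow_add]; norm_num
  have hparts : N * (4 * c * κ + 2) ≤ 96 * b * L ^ 4 := by
    have e1 : 4 * c * κ + 2 ≤ 4 * L ^ 2 := by
      have : 4 * c * κ = 4 * (c * κ) := by ring
      omega
    calc N * (4 * c * κ + 2) ≤ N * (4 * L ^ 2) := Nat.mul_le_mul_left _ e1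
      _ = 96 * b * L ^ 4 := by rw [hN]; ring
  have hbL4 : 96 * b * L ^ 4 ≤ 600 * b * L ^ 4 := by
    apply Nat.mul_le_mul_right
    apply Nat.mul_le_mul_right
    norm_num
  obtain ⟨d, hd⟩ : ∃ d, N * (4 * c * κ + 2) + d = k := ⟨k - N * (4 * c * κ + 2), by omega⟩
  have hvert : N * (16 * c * κ + 2 * 2 ^ κ) + d ≤ v := by
    have e1 : N * (16 * c * κ + 2 * 2 ^ κ) = N * (4 * c * κ + 2) + N * (12 * (c * κ)) +
        2 * (N * 2 ^ κ) - 2 * N := by
      have : N * (16 * c * κ + 2 * 2 ^ κ) + 2 * N = N * (4 * c * κ + 2) + N * (12 * (c * κ)) +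
        2 * (N * 2 ^ κ) := by ring
      omega
    have e2 : N * (12 * (c * κ)) ≤ 288 * b * L ^ 4 := by
      calc N * (12 * (c * κ)) ≤ N * (12 * L ^ 2) := by
            apply Nat.mul_le_mul_left
            apply Nat.mul_le_mul_left
            omega
        _ = 288 * b * L ^ 4 := by rw [hN]; ring
    have e3 : 8 * (N * 2 ^ κ) ≤ v := by rw [← mul_assoc]; exact hκ1
    have e4 : 288 * b * L ^ 4 = 288 * (b * L ^ 4) := by ring
    have e5 : 600 * b * L ^ 4 = 600 * (b * L ^ 4) := by ring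
    omega
  have hU : 2 * κ * r + 1 ≤ N := by
    have e1 : 2 * κ * r = 24 * (c * κ) * b := by rw [hr]; ring
    have e2 : 24 * (c * κ + 4) * b ≤ 24 * L ^ 2 * b :=
      Nat.mul_le_mul_right _ (Nat.mul_le_mul_left _ hcκ)
    have e3 : 24 * (c * κ + 4) * b = 24 * (c * κ) * b + 96 * b := by ring
    have e4 : N = 24 * L ^ 2 * b := by rw [hN]; ring
    omega
  have hℓ : 2 * b < 2 ^ L := by
    have e1 : 3072 * b * 1 ≤ 3072 * b * L ^ 2 := Nat.mul_le_mul_left _ (Nat.one_le_pow _ _ hL1)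
    omega
  have hKL : K ≤ 2 * L := by omega
  obtain ⟨S, hSdef⟩ : ∃ S, S = 2 ^ w := ⟨_, rfl⟩
  have hSb : 2 * S = 2 ^ b := by rw [hSdef, hbdef, pow_succ]; ring
  have hS1 : 1 ≤ S := by rw [hSdef]; exact Nat.one_le_two_pow
  have hSR : 2 ^ K * ((S + 1) * (N * 2 ^ (2 * κ) + 1) ^ (2 * b)) ≤
      2 ^ (9 * b * L) := by
    have f1 : N * 2 ^ (2 * κ) + 1 ≤ 2 ^ (2 * L) := by
      have g1 : 8 * (N * 2 ^ κ) ≤ v := by rw [← mul_assoc]; exact hκ1
      have g2 : 2 ^ κ ≤ N * 2 ^ κ := Nat.le_mul_of_pos_left _ hN1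
      have g3 : N * 2 ^ (2 * κ) = (N * 2 ^ κ) * 2 ^ κ := by rw [two_mul, pow_add]; ring
      have g4 : (N * 2 ^ κ) * 2 ^ κ ≤ v * v := Nat.mul_le_mul (by omega) (by omega)
      have g5 : v * v < 2 ^ L * 2 ^ L := Nat.mul_lt_mul'' hvL hvL
      have g6 : 2 ^ (2 * L) = 2 ^ L * 2 ^ L := by rw [two_mul, pow_add]
      omega
    have f2 : 2 ^ K * ((S + 1) * (N * 2 ^ (2 * κ) + 1) ^ (2 * b)) ≤
        2 ^ (2 * L) * (2 ^ b * (2 ^ (2 * L)) ^ (2 * b)) := by
      apply Nat.mul_le_mul (Nat.pow_le_pow_right (by norm_num) hKL)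
      exact Nat.mul_le_mul (by omega) (Nat.pow_le_pow_left f1 _)
    refine f2.trans ?_
    rw [← pow_mul, ← pow_add, ← pow_add]
    apply Nat.pow_le_pow_right (by norm_num)
    have g1 : 2 * L * (2 * b) = 4 * (b * L) := by ring
    have g2 : 9 * b * L = 9 * (b * L) := by ring
    have g3 : L ≤ b * L := Nat.le_mul_of_pos_left _ (by omega)
    have g4 : b ≤ b * L := Nat.le_mul_of_pos_right _ (by omega)
    omega
  have hR : 1 ≤ 9 * b * L := by
    have g2 : 9 * b * L = 9 * (b * L) := by ring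
    omega
  have key := rec_family_bound (S := S) g hg hb1 (by omega) hN1 hℓ hL1 (by omega) hq.le hd hvert
    hU G hG (fun t => by rw [hSdef]; exact (hGS t).le) hout (by omega) hSR hR
  -- the final comparison
  have e1 : 2 ^ K ≤ 792 * L ^ 3 * (b * P) := by
    refine key.trans ?_
    calc 44 * K * (Fintype.card T * (L * (9 * b * L)))
        ≤ 44 * (2 * L) * (P * (L * (9 * b * L))) :=
          Nat.mul_le_mul (Nat.mul_le_mul_left _ hKL) (Nat.mul_le_mul_right _ (by omega))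
      _ = 792 * L ^ 3 * (b * P) := by ring
  have e2 : v ^ 2 < (16 * N * 2 ^ κ) ^ 2 := Nat.pow_lt_pow_left hκ2 (by norm_num)
  have e3 : (16 * N * 2 ^ κ) ^ 2 = 147456 * b ^ 2 * L ^ 4 * (64 * 2 ^ K) := by
    rw [hq, hN, two_mul, pow_add]; ring
  have e4 : 147456 * b ^ 2 * L ^ 4 * (64 * 2 ^ K) ≤
      147456 * b ^ 2 * L ^ 4 * (64 * (792 * L ^ 3 * (b * P))) :=
    Nat.mul_le_mul_left _ (Nat.mul_le_mul_left _ e1)
  have e5 : 147456 * b ^ 2 * L ^ 4 * (64 * (792 * L ^ 3 * (b * P))) =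
      7474249728 * (P * b ^ 3 * L ^ 7) := by ring
  have e6 : 7474249728 * (P * b ^ 3 * L ^ 7) ≤ 2 ^ 33 * (P * b ^ 3 * L ^ 7) :=
    Nat.mul_le_mul_right _ (by norm_num)
  have e7 : 2 ^ 33 * (P * b ^ 3 * L ^ 7) = 2 ^ 33 * P * b ^ 3 * L ^ 7 := by
    ring
  omega

end Pool.Agent.LayCirc
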