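import Pool.Agent.Work.MP_71c844_lc.LSDefs

/-!
# Symmetric Boolean circuits with arbitrary counting gates
-/

namespace Pool.Agent.LocalSym

/-- A Boolean circuit with input bits indexed by `I` and with `s` gates, over an arbitrary basis and
with unbounded fan-in.  The nodes of the circuit are the input bits and the gates.
* `wire g h` is the label of the wire from the node `h` into the gate `g`; the label `0` means that
  there is no wire.
* There are no cycles: wires between gates increase `depth`.
* The gate `g` computes an arbitrary Boolean function `fn g` of the numbers of true wires of each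
  label: its argument `c` gives for every `k` the number `c k` of wires of label `k + 1` into `g`
  that carry the value true.  (If all wires have the same label this is an arbitrary symmetric
  gate such as AND, OR, NOT, MAJORITY or MOD; if all wires have different labels it is an arbitrary
  gate.)
* `out` is the output gate. -/
structure Circuit (I : Type) (s : ℕ) where
  wire : Fin s → I ⊕ Fin s → ℕ
  depth : Fin s → ℕ
  acyclic : ∀ g h, wire g (Sum.inr h) ≠ 0 → depth h < depth g
  fn : Fin s → (ℕ → ℕ) → Bool
  out : Fin s

namespace Circuit

variable {I : Type} {s : ℕ}

/-- `v` gives the values of all nodes of the circuit on the input `x` -/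
def IsRun (C : Circuit I s) (x : I → Bool) (v : I ⊕ Fin s → Bool) : Prop :=
  (∀ i, v (Sum.inl i) = x i) ∧
    ∀ g, v (Sum.inr g) = C.fn g (fun k => Set.ncard {h | C.wire g h = k + 1 ∧ v h = true})

/-- the circuit decides the property `P` of inputs: its output is true exactly on `P` -/
def Decides (C : Circuit I s) (P : (I → Bool) → Prop) : Prop :=
  ∀ x v, C.IsRun x v → (v (Sum.inr C.out) = true ↔ P x)

/-- the permutation `a` of the gates is an automorphism of the circuit acting on the input bits as
the permutation `p`: it preserves the labelled wires, the gate functions and the output -/
def IsAut (C : Circuit I s) (p : Equiv.Perm I) (a : Equiv.Perm (Fin s)) : Prop :=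
  (∀ g h, C.wire (a g) (Sum.map p a h) = C.wire g h) ∧ (∀ g, C.fn (a g) = C.fn g) ∧
    a C.out = C.out

end Circuit

/-- The circuit is symmetric under the local permutations of the variables: each of them extends
to an automorphism of the circuit. -/
def LocallySymmetric {N : ℕ} {W : Type} {s : ℕ}
    (C : Circuit (Fin 3 → ((Fin N × Fin 3) ⊕ W) × Bool) s) : Prop :=
  ∀ σ : Fin N → Equiv.Perm (Fin 3), ∃ a, C.IsAut (renameVars (localPerm W σ)) a

end Pool.Agent.LocalSym
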