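import Pool.Agent.Work.MP_71c844_lc.LSExpander

/-!
# The giant component of an expanding cubic bipartite graph after deleting few edges

Rows are the elements of `Fin M`, edges the elements of `Fin M × Fin 3`; the edge `e` joins the
row `e.1` and the column `(π e).1`.  Two rows are related when some `Z/3`-flow avoiding the deleted
edges goes from one to the other.
-/

namespace Pool.Agent.LocalSym

open Finset

variable {M : ℕ}

/-- a flow vanishing on `T` from row `a` to row `a'` -/
def Flow (π : Equiv.Perm (Fin M × Fin 3)) (T : Finset (Fin M × Fin 3)) (a a' : Fin M) : Prop :=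
  ∃ t : Fin M × Fin 3 → Fin 3, (∀ e ∈ T, t e = 0) ∧
    (∀ r, ∑ i, t (r, i) = (if r = a then 1 else 0) - (if r = a' then 1 else 0)) ∧
    (∀ c, ∑ i, t (π.symm (c, i)) = 0)

variable {π : Equiv.Perm (Fin M × Fin 3)} {T T' : Finset (Fin M × Fin 3)} {a a' a'' : Fin M}

lemma Flow.refl : Flow π T a a := ⟨0, by simp, by simp, by simp⟩

lemma Flow.symm (h : Flow π T a a') : Flow π T a' a := by
  obtain ⟨t, h1, h2, h3⟩ := h
  refine ⟨fun e => - t e, fun e he => by simp [h1 e he], fun r => ?_, fun c => ?_⟩
  · rw [Finset.sum_neg_distrib, h2]; abel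
  · rw [Finset.sum_neg_distrib, h3]; simp

lemma Flow.trans (h : Flow π T a a') (h' : Flow π T a' a'') : Flow π T a a'' := by
  obtain ⟨t, h1, h2, h3⟩ := h
  obtain ⟨t', h1', h2', h3'⟩ := h'
  refine ⟨fun e => t e + t' e, fun e he => by simp [h1 e he, h1' e he], fun r => ?_, fun c => ?_⟩
  · rw [Finset.sum_add_distrib, h2, h2']; abel
  · rw [Finset.sum_add_distrib, h3, h3']; simp

lemma Flow.mono (hT : T ⊆ T') (h : Flow π T' a a') : Flow π T a a' := by
  obtain ⟨t, h1, h2, h3⟩ := h
  exact ⟨t, fun e he => h1 e (hT he), h2, h3⟩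

lemma sum_indicator (r : Fin M) (e : Fin M × Fin 3) :
    ∑ i : Fin 3, (if (r, i) = e then (1 : Fin 3) else 0) = if r = e.1 then 1 else 0 := by
  obtain ⟨b, j⟩ := e
  by_cases h : r = b
  · subst h
    simp
  · simp [h]

lemma flow_of_edges {e₁ e₂ : Fin M × Fin 3} (h₁ : e₁ ∉ T) (h₂ : e₂ ∉ T)
    (h : (π e₁).1 = (π e₂).1) : Flow π T e₁.1 e₂.1 := by
  classical
  refine ⟨fun e => (if e = e₁ then 1 else 0) - (if e = e₂ then 1 else 0), ?_, ?_, ?_⟩
  · intro e he
    have h1 : e ≠ e₁ := fun h => h₁ (h ▸ he)
    have h2 : e ≠ e₂ := fun h => h₂ (h ▸ he)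
    simp [h1, h2]
  · intro r
    rw [Finset.sum_sub_distrib, sum_indicator, sum_indicator]
  · intro c
    have key : ∀ e : Fin M × Fin 3, ∑ i : Fin 3, (if π.symm (c, i) = e then (1 : Fin 3) else 0) =
        if c = (π e).1 then 1 else 0 := by
      intro e
      rw [← sum_indicator c (π e)]
      refine Finset.sum_congr rfl fun i _ => ?_
      simp only [Equiv.symm_apply_eq]
    rw [Finset.sum_sub_distrib, key, key, h, sub_self]

/-- sets of rows closed under flows -/
def Closed (π : Equiv.Perm (Fin M × Fin 3)) (T : Finset (Fin M × Fin 3)) (R : Finset (Fin M)) :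
    Prop := ∀ a ∈ R, ∀ a', Flow π T a a' → a' ∈ R

lemma Closed.gap {R : Finset (Fin M)} (hR : Closed π T R)
    (hπ : ∀ A : Finset (Fin M × Fin 3), M ≤ #A → #A ≤ 2 * M →
      M / 20 ≤ bd A + bd (A.map π.toEmbedding)) (hT : #T < M / 20) :
    3 * #R < M ∨ 2 * M < 3 * #R := by
  classical
  by_contra hc
  push Not at hc
  set A : Finset (Fin M × Fin 3) := R ×ˢ univ with hA
  have hAc : #A = 3 * #R := by simp [hA, mul_comm]
  have h1 : bd A = 0 := by
    unfold bd
    rw [Finset.card_eq_zero, Finset.filter_eq_empty_iff]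
    rintro a - ⟨⟨i, hi⟩, j, hj⟩
    simp [hA] at hi hj
    exact hj hi
  have h2 : bd (A.map π.toEmbedding) ≤ #T := by
    unfold bd
    have : ∀ c : Fin M, ((∃ i, (c, i) ∈ A.map π.toEmbedding) ∧ ∃ i, (c, i) ∉ A.map π.toEmbedding) →
        ∃ e ∈ T, (π e).1 = c := by
      rintro c ⟨⟨i, hi⟩, j, hj⟩
      simp only [mem_map_equiv] at hi hj
      by_contra hne
      push Not at hne
      have n1 : π.symm (c, i) ∉ T := fun h => hne _ h (by simp)
      have n2 : π.symm (c, j) ∉ T := fun h => hne _ h (by simp)
      have hf : Flow π T (π.symm (c, i)).1 (π.symm (c, j)).1 := flow_of_edges n1 n2 (by simp)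
      have hi' : (π.symm (c, i)).1 ∈ R := by simpa [hA] using hi
      have hj' : (π.symm (c, j)).1 ∉ R := by simpa [hA] using hj
      exact hj' (hR _ hi' _ hf)
    calc _ ≤ #(T.image fun e => (π e).1) := by
          apply Finset.card_le_card
          intro c hc
          simp only [mem_filter, mem_univ, true_and] at hc
          obtain ⟨e, he, hec⟩ := this c hc
          exact Finset.mem_image.2 ⟨e, he, hec⟩
      _ ≤ #T := Finset.card_image_le
  have h3 := hπ A (by omega) (by omega)
  omega

open Classical in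
/-- the component of a row -/
noncomputable def comp (π : Equiv.Perm (Fin M × Fin 3)) (T : Finset (Fin M × Fin 3)) (a : Fin M) :
    Finset (Fin M) := univ.filter fun a' => Flow π T a a'

lemma mem_comp : a' ∈ comp π T a ↔ Flow π T a a' := by simp [comp]

lemma comp_closed (a : Fin M) : Closed π T (comp π T a) := by
  intro b hb c hc
  rw [mem_comp] at hb ⊢
  exact hb.trans hc

/-- the rows of the giant component -/
def Big (π : Equiv.Perm (Fin M × Fin 3)) (T : Finset (Fin M × Fin 3)) (a : Fin M) : Prop :=
  2 * M < 3 * #(comp π T a)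

lemma exists_big (hπ : ∀ A : Finset (Fin M × Fin 3), M ≤ #A → #A ≤ 2 * M →
      M / 20 ≤ bd A + bd (A.map π.toEmbedding)) (hT : #T < M / 20) : ∃ a, Big π T a := by
  classical
  by_contra hcon
  push Not at hcon
  unfold Big at hcon
  have hM : 0 < M := by omega
  -- a maximal closed set of rows with fewer than a third of the rows
  obtain ⟨R, hR, hmax⟩ := Finset.exists_max_image
    ((univ : Finset (Finset (Fin M))).filter fun R => Closed π T R ∧ 3 * #R < M) (fun R => #R)
    ⟨∅, by simp [Closed, hM]⟩
  simp only [mem_filter, mem_univ, true_and] at hR hmax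
  obtain ⟨a, ha⟩ : ∃ a, a ∉ R := by
    by_contra h
    push Not at h
    have : R = univ := by ext x; simp [h x]
    rw [this] at hR
    simp at hR
    omega
  have hcl : Closed π T (R ∪ comp π T a) := by
    intro b hb c hc
    rcases Finset.mem_union.1 hb with h | h
    · exact Finset.mem_union_left _ (hR.1 b h c hc)
    · exact Finset.mem_union_right _ (comp_closed a b h c hc)
  have hc1 : 3 * #(comp π T a) < M := by
    rcases (comp_closed (π := π) (T := T) a).gap hπ hT with h | h
    · exact h
    · exact absurd h (hcon a)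
  have hcard : #(R ∪ comp π T a) ≤ #R + #(comp π T a) := Finset.card_union_le _ _
  have hlt : #R < #(R ∪ comp π T a) := by
    apply Finset.card_lt_card
    rw [Finset.ssubset_iff_subset_ne]
    refine ⟨Finset.subset_union_left, ?_⟩
    intro h
    apply ha
    rw [h]
    exact Finset.mem_union_right _ (mem_comp.2 Flow.refl)
  have hg := hcl.gap hπ hT
  have := hmax (R ∪ comp π T a) ⟨hcl, by omega⟩
  omega

lemma Big.mono (hT : T ⊆ T') (h : Big π T' a) : Big π T a := by
  unfold Big at *
  have : comp π T' a ⊆ comp π T a := by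
    intro b hb
    rw [mem_comp] at hb ⊢
    exact hb.mono hT
  have := Finset.card_le_card this
  omega

lemma Big.flow (h : Big π T a) (h' : Big π T a') : Flow π T a a' := by
  classical
  unfold Big at *
  have hne : (comp π T a ∩ comp π T a').Nonempty := by
    rw [Finset.nonempty_iff_ne_empty]
    intro he
    have h1 := Finset.card_union_add_card_inter (comp π T a) (comp π T a')
    rw [he] at h1
    have h2 : #(comp π T a ∪ comp π T a') ≤ M := by
      simpa using Finset.card_le_univ (comp π T a ∪ comp π T a')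
    simp at h1
    omega
  obtain ⟨b, hb⟩ := hne
  rw [Finset.mem_inter, mem_comp, mem_comp] at hb
  exact hb.1.trans hb.2.symm

/-- a row all of whose edges are deleted is not in the giant component -/
lemma Big.exists_not_mem (hM : 2 ≤ M) (h : Big π T a) : ∃ i, (a, i) ∉ T := by
  classical
  by_contra hc
  push Not at hc
  have : comp π T a ⊆ {a} := by
    intro b hb
    rw [mem_comp] at hb
    obtain ⟨t, h1, h2, -⟩ := hb
    by_contra hne
    have hab : a ≠ b := fun h => hne (by simp [h])
    have := h2 a
    rw [Finset.sum_eq_zero (fun i _ => h1 _ (hc i))] at this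
    simp [hab] at this
  have := Finset.card_le_card this
  unfold Big at h
  simp at this
  omega

end Pool.Agent.LocalSym
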