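import Pool.Agent.Work.MP_71c844_lc.LSDefs
import Pool.Agent.Work.MP_71c844_lc.LSGroup
import Pool.Agent.Work.MP_71c844_lc.LSGraph

/-!
# The hard instances: linear equations modulo 3 on a cubic bipartite graph
-/

namespace Pool.Agent.LocalSym

open Finset

variable {N : ℕ} {W : Type}

/-- the clauses over `N` triples of variables and further variables `W` -/
abbrev Cl (N : ℕ) (W : Type) : Type := Fin 3 → ((Fin N × Fin 3) ⊕ W) × Bool

/-- the permutation of the clauses given by local permutations of the variables -/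
def ren (W : Type) (σ : Fin N → Equiv.Perm (Fin 3)) : Equiv.Perm (Cl N W) :=
  renameVars (localPerm W σ)

lemma ren_apply (σ : Fin N → Equiv.Perm (Fin 3)) (c : Cl N W) (i : Fin 3) :
    ren W σ c i = (localPerm W σ (c i).1, (c i).2) := rfl

lemma localPerm_inl (σ : Fin N → Equiv.Perm (Fin 3)) (j : Fin N) (u : Fin 3) :
    localPerm W σ (Sum.inl (j, u)) = Sum.inl (j, σ j u) := rfl

lemma localPerm_inr (σ : Fin N → Equiv.Perm (Fin 3)) (w : W) :
    localPerm W σ (Sum.inr w) = Sum.inr w := rfl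

lemma localPerm_one : localPerm W (1 : Fin N → Equiv.Perm (Fin 3)) = 1 := by
  ext v
  rcases v with ⟨j, u⟩ | w <;> rfl

lemma localPerm_mul (σ τ : Fin N → Equiv.Perm (Fin 3)) :
    localPerm W (σ * τ) = localPerm W σ * localPerm W τ := by
  ext v
  rcases v with ⟨j, u⟩ | w <;> rfl

lemma ren_one : ren W (1 : Fin N → Equiv.Perm (Fin 3)) = 1 := by
  ext c i : 2
  rw [ren_apply, localPerm_one]; rfl

lemma ren_mul (σ τ : Fin N → Equiv.Perm (Fin 3)) : ren W (σ * τ) = ren W σ * ren W τ := by
  ext c i : 2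
  simp only [ren_apply, Equiv.Perm.mul_apply, localPerm_mul]

lemma ren_inv (σ : Fin N → Equiv.Perm (Fin 3)) : ren W σ⁻¹ = (ren W σ)⁻¹ := by
  rw [eq_inv_iff_mul_eq_one, ← ren_mul, inv_mul_cancel, ren_one]

/-- a literal on the `j`-th triple -/
def OnBlock (c : Cl N W) (j : Fin N) : Prop := ∃ i u, (c i).1 = Sum.inl (j, u)

lemma ren_mulSingle_of_not {c : Cl N W} {j : Fin N} (h : ¬ OnBlock c j)
    (q : Equiv.Perm (Fin 3)) : ren W (Pi.mulSingle j q) c = c := by
  funext i
  rw [ren_apply]
  refine Prod.ext ?_ rfl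
  simp only
  rcases hc : (c i).1 with ⟨j', u⟩ | w
  · have hj : j' ≠ j := by
      rintro rfl
      exact h ⟨i, u, hc⟩
    rw [localPerm_inl, Pi.mulSingle_eq_of_ne hj]
    rfl
  · rfl

lemma ren_mulSingle_rot_ne {c : Cl N W} {j : Fin N} (h : OnBlock c j) :
    ren W (Pi.mulSingle j rot) c ≠ c := by
  obtain ⟨i, u, hi⟩ := h
  intro hc
  have h1 := congrArg Prod.fst (congrFun hc i)
  rw [ren_apply, hi] at h1
  simp only [localPerm_inl, Pi.mulSingle_eq_same, Sum.inl.injEq, Prod.mk.injEq, true_and] at h1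
  clear hi hc
  revert h1
  revert u
  decide

/-- the local permutations given by shifts -/
def sh (t : Fin N → Fin 3) : Fin N → Equiv.Perm (Fin 3) := fun j => Equiv.addRight (t j)

lemma addRight_eq_pow (x : Fin 3) : (Equiv.addRight x : Equiv.Perm (Fin 3)) = rot ^ (x : ℕ) := by
  revert x
  decide

lemma sh_mem (H : Subgroup (Fin N → Equiv.Perm (Fin 3))) {t : Fin N → Fin 3}
    (ht : ∀ j, Pi.mulSingle j rot ∉ H → t j = 0) : sh t ∈ H := by
  classical
  apply Subgroup.pi_mem_of_mulSingle_mem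
  intro j
  have e : (Pi.mulSingle j (sh t j) : Fin N → Equiv.Perm (Fin 3)) =
      (Pi.mulSingle j rot) ^ ((t j : Fin 3) : ℕ) := by
    rw [sh, addRight_eq_pow, Pi.mulSingle_pow]
  rw [e]
  by_cases hj : Pi.mulSingle j rot ∈ H
  · exact H.pow_mem hj _
  · rw [ht j hj]
    simp

lemma sh_comm (t : Fin N → Fin 3) (j : Fin N) :
    sh t * Pi.mulSingle j rot * (sh t)⁻¹ = Pi.mulSingle j rot := by
  classical
  funext i
  by_cases h : i = j
  · subst h
    simp only [Pi.mul_apply, Pi.inv_apply, Pi.mulSingle_eq_same, sh, addRight_eq_pow]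
    rw [mul_inv_eq_iff_eq_mul, ← pow_succ, ← pow_succ']
  · simp [Pi.mulSingle_eq_of_ne h]

/-- the triple of variables belonging to an edge -/
def blk (e : Fin (N / 3) × Fin 3) : Fin N := ⟨3 * e.1 + e.2, by
  have h1 := e.1.2
  have h2 := e.2.2
  omega⟩

lemma blk_injective : Function.Injective (blk (N := N)) := by
  intro e e' h
  have h1 := congrArg Fin.val h
  simp only [blk] at h1
  have h2 := e.2.2
  have h3 := e'.2.2
  ext <;> omega

/-- the clauses of the instance: each edge has at least one value, the values of the edges at the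
row `a` sum to `b a`, and the values of the edges at each column sum to zero -/
def IsClause (π : Equiv.Perm (Fin (N / 3) × Fin 3)) (b : Fin (N / 3) → Fin 3)
    (c : Cl N W) : Prop :=
  (∃ e, ∃ u : Fin 3 → Fin 3, (∀ i, c i = (Sum.inl (blk e, u i), true)) ∧
    Function.Injective u) ∨
  (∃ a, ∃ u : Fin 3 → Fin 3, (∀ i, c i = (Sum.inl (blk (a, i), u i), false)) ∧
    ∑ i, u i ≠ b a) ∨
  (∃ a, ∃ u : Fin 3 → Fin 3, (∀ i, c i = (Sum.inl (blk (π.symm (a, i)), u i), false)) ∧
    ∑ i, u i ≠ 0)

open Classical in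
/-- the instance -/
noncomputable def inst (W : Type) (π : Equiv.Perm (Fin (N / 3) × Fin 3))
    (b : Fin (N / 3) → Fin 3) (c : Cl N W) : Bool := decide (IsClause π b c)

variable {π : Equiv.Perm (Fin (N / 3) × Fin 3)} {b : Fin (N / 3) → Fin 3}

lemma inst_eq_true {c : Cl N W} : inst W π b c = true ↔ IsClause π b c := by
  simp [inst]

lemma sat_zero : Sat3 (inst W π (0 : Fin (N / 3) → Fin 3)) := by
  refine ⟨fun v => Sum.elim (fun v => decide (v.2 = 0)) (fun _ => true) v, fun c hc => ?_⟩
  rw [inst_eq_true] at hc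
  have key : ∀ u : Fin 3 → Fin 3, ∑ i, u i ≠ 0 → ∃ i, u i ≠ 0 := by
    intro u h2
    by_contra hcon
    push Not at hcon
    exact h2 (Finset.sum_eq_zero fun i _ => hcon i)
  rcases hc with ⟨e, u, h2, h3⟩ | ⟨a, u, h2, h3⟩ | ⟨a, u, h2, h3⟩
  · obtain ⟨i, hi⟩ := (Finite.injective_iff_surjective.1 h3) 0
    refine ⟨i, ?_⟩
    rw [h2 i]
    simp [hi]
  · obtain ⟨i, hi⟩ := key u h3
    refine ⟨i, ?_⟩
    rw [h2 i]
    simpa using hi
  · obtain ⟨i, hi⟩ := key u h3
    refine ⟨i, ?_⟩
    rw [h2 i]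
    simpa using hi

lemma not_sat (hb : ∑ a, b a ≠ 0) : ¬ Sat3 (inst W π b) := by
  rintro ⟨β, hβ⟩
  have h1 : ∀ e, ∃ v : Fin 3, β (Sum.inl (blk e, v)) = true := by
    intro e
    obtain ⟨i, hi⟩ := hβ (fun i => (Sum.inl (blk e, i), true)) (by
      rw [inst_eq_true]
      exact Or.inl ⟨e, id, fun _ => rfl, fun i j h => h⟩)
    exact ⟨i, hi⟩
  choose v hv using h1
  have h2 : ∀ a, ∑ i, v (a, i) = b a := by
    intro a
    by_contra hne
    obtain ⟨i, hi⟩ := hβ (fun i => (Sum.inl (blk (a, i), v (a, i)), false)) (by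
      rw [inst_eq_true]
      exact Or.inr (Or.inl ⟨a, fun i => v (a, i), fun _ => rfl, hne⟩))
    simp only [hv] at hi
    exact absurd hi (by simp)
  have h3 : ∀ a, ∑ i, v (π.symm (a, i)) = 0 := by
    intro a
    by_contra hne
    obtain ⟨i, hi⟩ := hβ (fun i => (Sum.inl (blk (π.symm (a, i)), v (π.symm (a, i))), false)) (by
      rw [inst_eq_true]
      exact Or.inr (Or.inr ⟨a, fun i => v (π.symm (a, i)), fun _ => rfl, hne⟩))
    simp only [hv] at hi
    exact absurd hi (by simp)
  apply hb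
  calc ∑ a, b a = ∑ a, ∑ i, v (a, i) := Finset.sum_congr rfl fun a _ => (h2 a).symm
    _ = ∑ e : Fin (N / 3) × Fin 3, v e := (Fintype.sum_prod_type _).symm
    _ = ∑ e : Fin (N / 3) × Fin 3, v (π.symm e) := (Equiv.sum_comp π.symm v).symm
    _ = ∑ a, ∑ i, v (π.symm (a, i)) := Fintype.sum_prod_type _
    _ = 0 := Finset.sum_eq_zero fun a _ => h3 a

lemma isClause_shift {t : Fin N → Fin 3} (ht : ∀ a, ∑ i, t (blk (π.symm (a, i))) = 0)
    {b' : Fin (N / 3) → Fin 3} (hb' : ∀ a, b' a = b a + ∑ i, t (blk (a, i)))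
    (c : Cl N W) (hc : IsClause π b c) : IsClause π b' (ren W (sh t) c) := by
  have hsh : ∀ j u, sh t j u = u + t j := fun j u => rfl
  rcases hc with ⟨e, u, h2, h3⟩ | ⟨a, u, h2, h3⟩ | ⟨a, u, h2, h3⟩
  · refine Or.inl ⟨e, fun i => u i + t (blk e), fun i => ?_, fun i j hij => h3 ?_⟩
    · rw [ren_apply, h2 i, localPerm_inl, hsh]
    · simpa using hij
  · refine Or.inr (Or.inl ⟨a, fun i => u i + t (blk (a, i)), fun i => ?_, ?_⟩)
    · rw [ren_apply, h2 i, localPerm_inl, hsh]
    · rw [Finset.sum_add_distrib, hb' a]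
      simpa using h3
  · refine Or.inr (Or.inr ⟨a, fun i => u i + t (blk (π.symm (a, i))), fun i => ?_, ?_⟩)
    · rw [ren_apply, h2 i, localPerm_inl, hsh]
    · rw [Finset.sum_add_distrib, ht a]
      simpa using h3

lemma sh_neg (t : Fin N → Fin 3) : sh (fun j => - t j) = (sh t)⁻¹ := by
  rw [eq_inv_iff_mul_eq_one]
  funext j
  ext u : 1
  simp [sh]

lemma inst_shift {t : Fin N → Fin 3} (ht : ∀ a, ∑ i, t (blk (π.symm (a, i))) = 0)
    {b' : Fin (N / 3) → Fin 3} (hb' : ∀ a, b' a = b a + ∑ i, t (blk (a, i))) :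
    (fun c => inst W π b ((ren W (sh t)).symm c)) = inst W π b' := by
  funext c
  rw [Bool.eq_iff_iff, inst_eq_true, inst_eq_true]
  constructor
  · intro h
    have := isClause_shift ht hb' _ h
    rwa [Equiv.apply_symm_apply] at this
  · intro h
    have h1 := isClause_shift (W := W) (π := π) (t := fun j => - t j) (b := b') (b' := b)
      (fun a => by rw [Finset.sum_neg_distrib, ht a, neg_zero])
      (fun a => by rw [Finset.sum_neg_distrib, hb' a]; abel) c h
    rw [sh_neg, ren_inv] at h1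
    exact h1

/-- the extension of a function on the edges to all triples of variables -/
noncomputable def ext (t : Fin (N / 3) × Fin 3 → Fin 3) : Fin N → Fin 3 :=
  Function.extend blk t 0

lemma ext_blk (t : Fin (N / 3) × Fin 3 → Fin 3) (e : Fin (N / 3) × Fin 3) : ext t (blk e) = t e :=
  blk_injective.extend_apply _ _ _

lemma ext_eq_zero {t : Fin (N / 3) × Fin 3 → Fin 3} {j : Fin N}
    (h : ∀ e, blk e = j → t e = 0) : ext t j = 0 := by
  by_cases hj : ∃ e, blk e = j
  · obtain ⟨e, rfl⟩ := hj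
    rw [ext_blk, h e rfl]
  · rw [ext, Function.extend_apply' _ _ _ hj]
    rfl

open Classical in
/-- the edges whose variables are in a set -/
noncomputable def edges (T : Finset (Fin N)) : Finset (Fin (N / 3) × Fin 3) :=
  univ.filter fun e => blk e ∈ T

lemma mem_edges {T : Finset (Fin N)} {e : Fin (N / 3) × Fin 3} : e ∈ edges T ↔ blk e ∈ T := by
  simp [edges]

lemma card_edges_le (T : Finset (Fin N)) : #(edges T) ≤ #T := by
  classical
  have : (edges T).map ⟨blk, blk_injective⟩ ⊆ T := by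
    intro j hj
    obtain ⟨e, he, rfl⟩ := Finset.mem_map.1 hj
    exact mem_edges.1 he
  have := Finset.card_le_card this
  rwa [Finset.card_map] at this

/-- an input bit is the same for two instances if the row where they differ has an edge not in the
clause -/
lemma inst_eq_of_not_block {a : Fin (N / 3)} {c : Cl N W} {i₀ : Fin 3}
    (h : ¬ OnBlock c (blk (a, i₀))) :
    inst W π b c = inst W π (b + Pi.single a 1) c := by
  rw [Bool.eq_iff_iff, inst_eq_true, inst_eq_true]
  unfold IsClause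
  refine or_congr_right (or_congr_left (exists_congr fun r => exists_congr fun u =>
    and_congr_right fun h1 => ?_))
  have hr : r ≠ a := by
    rintro rfl
    exact h ⟨i₀, u i₀, by rw [h1 i₀]⟩
  simp [Pi.single_eq_of_ne hr]

open Classical in
/-- at most three blocks meet a clause -/
lemma card_block_le (c : Cl N W) : #(univ.filter fun j => OnBlock c j) ≤ 3 := by
  have : (univ.filter fun j => OnBlock c j) ⊆
      (univ.image fun i => ((c i).1.elim (fun v => some v.1) (fun _ => none) : Option (Fin N))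
        ).preimage some (Option.some_injective _).injOn := by
    intro j hj
    obtain ⟨i, u, hi⟩ := (mem_filter.1 hj).2
    rw [Finset.mem_preimage, Finset.mem_image]
    exact ⟨i, Finset.mem_univ _, by rw [hi]; rfl⟩
  refine (Finset.card_le_card this).trans ?_
  rw [Finset.card_preimage]
  exact (Finset.card_filter_le _ _).trans (Finset.card_image_le.trans (by simp))

end Pool.Agent.LocalSym
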