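import Pool.Agent.Work.MP_71c844_lc.LSCircDefs
import Pool.Agent.Work.MP_71c844_lc.LSInstance

/-!
# Runs, automorphisms and stabilisers of circuits
-/

namespace Pool.Agent.LocalSym

open Finset

namespace Circuit

variable {I : Type} {s : ℕ} (C : Circuit I s)

theorem exists_run (x : I → Bool) : ∃ v, C.IsRun x v := by
  classical
  let F : (g : Fin s) → ((g' : Fin s) → C.depth g' < C.depth g → Bool) → Bool :=
    fun g rec => C.fn g (fun k => Set.ncard {h : I ⊕ Fin s | C.wire g h = k + 1 ∧
      Sum.elim (fun i => x i = true) (fun g' => ∃ hlt : C.depth g' < C.depth g, rec g' hlt = true) h})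
  let w : Fin s → Bool := WellFounded.fix (measure C.depth).wf F
  have hw : ∀ g, w g = F g (fun g' _ => w g') := fun g => WellFounded.fix_eq _ _ _
  refine ⟨Sum.elim x w, fun i => rfl, fun g => ?_⟩
  rw [Sum.elim_inr, hw]
  simp only [F]
  congr 1
  funext k
  congr 1
  ext h
  simp only [Set.mem_ofPred_eq]
  refine and_congr_right fun hh => ?_
  rcases h with i | g'
  · simp
  · simp only [Sum.elim_inr]
    constructor
    · rintro ⟨_, h⟩; exact h
    · intro h
      exact ⟨C.acyclic g g' (by omega), h⟩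

theorem run_unique {x : I → Bool} {v v' : I ⊕ Fin s → Bool} (h : C.IsRun x v)
    (h' : C.IsRun x v') : v = v' := by
  have key : ∀ n, ∀ g, C.depth g = n → v (Sum.inr g) = v' (Sum.inr g) := by
    intro n
    induction n using Nat.strong_induction_on with
    | _ n ih =>
      intro g hg
      rw [h.2, h'.2]
      congr 1
      funext k
      congr 1
      ext u
      simp only [Set.mem_ofPred_eq]
      refine and_congr_right fun hu => ?_
      rcases u with i | g'
      · rw [h.1, h'.1]
      · rw [ih (C.depth g') (hg ▸ C.acyclic g g' (by omega)) g' rfl]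
  funext u
  rcases u with i | g
  · rw [h.1, h'.1]
  · exact key _ g rfl

/-- the values of the nodes -/
noncomputable def val (x : I → Bool) : I ⊕ Fin s → Bool := Classical.choose (C.exists_run x)

lemma val_run (x : I → Bool) : C.IsRun x (C.val x) := Classical.choose_spec (C.exists_run x)

lemma val_inl (x : I → Bool) (i : I) : C.val x (Sum.inl i) = x i := (C.val_run x).1 i

lemma val_inr (x : I → Bool) (g : Fin s) : C.val x (Sum.inr g) =
    C.fn g (fun k => Set.ncard {h | C.wire g h = k + 1 ∧ C.val x h = true}) := (C.val_run x).2 g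

variable {C}

lemma IsAut.one : C.IsAut 1 1 := by
  refine ⟨fun g h => ?_, fun g => rfl, rfl⟩
  rcases h with i | g' <;> rfl

lemma IsAut.mul {p q : Equiv.Perm I} {a b : Equiv.Perm (Fin s)} (h : C.IsAut p a)
    (h' : C.IsAut q b) : C.IsAut (p * q) (a * b) := by
  refine ⟨fun g u => ?_, fun g => ?_, ?_⟩
  · have h1 := h.1 (b g) (Sum.map q b u)
    rw [h'.1] at h1
    rw [← h1]
    rcases u with i | g' <;> rfl
  · rw [Equiv.Perm.mul_apply, h.2.1, h'.2.1]
  · rw [Equiv.Perm.mul_apply, h'.2.2, h.2.2]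

lemma IsAut.inv {p : Equiv.Perm I} {a : Equiv.Perm (Fin s)} (h : C.IsAut p a) :
    C.IsAut p⁻¹ a⁻¹ := by
  refine ⟨fun g u => ?_, fun g => ?_, ?_⟩
  · rw [← h.1]
    congr 1
    · simp
    · rcases u with i | g' <;> simp
  · rw [← h.2.1]; simp
  · rw [Equiv.Perm.inv_eq_iff_eq]; exact h.2.2.symm

lemma IsAut.val {p : Equiv.Perm I} {a : Equiv.Perm (Fin s)} (h : C.IsAut p a) (x : I → Bool)
    (u : I ⊕ Fin s) : C.val (fun i => x (p.symm i)) (Sum.map p a u) = C.val x u := by
  set P : Equiv.Perm (I ⊕ Fin s) := Equiv.sumCongr p a with hP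
  have hPu : ∀ u, P u = Sum.map p a u := fun u => rfl
  have hrun : C.IsRun (fun i => x (p.symm i)) (fun u => C.val x (P.symm u)) := by
    refine ⟨fun i => ?_, fun g => ?_⟩
    · simp [hP, C.val_inl]
    · have e1 : P.symm (Sum.inr g) = Sum.inr (a.symm g) := rfl
      show C.val x (P.symm (Sum.inr g)) = _
      rw [e1, C.val_inr]
      have e2 : C.fn g = C.fn (a.symm g) := by
        rw [← h.2.1 (a.symm g)]; simp
      rw [e2]
      congr 1
      funext k
      have e3 : {u | C.wire g u = k + 1 ∧ C.val x (P.symm u) = true} =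
          P '' {u | C.wire (a.symm g) u = k + 1 ∧ C.val x u = true} := by
        ext u
        rw [Equiv.image_eq_preimage_symm]
        simp only [Set.mem_ofPred_eq, Set.mem_preimage]
        have := h.1 (a.symm g) (P.symm u)
        rw [← hPu] at this
        simp only [Equiv.apply_symm_apply] at this
        rw [this]
      rw [e3, Set.ncard_image_of_injective _ P.injective]
  have := C.run_unique (C.val_run (fun i => x (p.symm i))) hrun
  rw [this, ← hPu]
  simp

end Circuit

variable {N s : ℕ} {W : Type} (C : Circuit (Cl N W) s)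

/-- the local permutations extending to automorphisms that fix a node -/
def stab (u : Cl N W ⊕ Fin s) : Subgroup (Fin N → Equiv.Perm (Fin 3)) where
  carrier := {σ | ∃ a, C.IsAut (ren W σ) a ∧ Sum.map (ren W σ) a u = u}
  one_mem' := ⟨1, by rw [ren_one]; exact Circuit.IsAut.one, by
    rw [ren_one]; rcases u with i | g <;> rfl⟩
  mul_mem' := by
    rintro σ τ ⟨a, ha, hu⟩ ⟨b, hb, hv⟩
    refine ⟨a * b, by rw [ren_mul]; exact ha.mul hb, ?_⟩
    rw [ren_mul]
    calc _ = Sum.map (ren W σ) a (Sum.map (ren W τ) b u) := by rcases u with i | g <;> rfl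
      _ = u := by rw [hv, hu]
  inv_mem' := by
    rintro σ ⟨a, ha, hu⟩
    refine ⟨a⁻¹, by rw [ren_inv]; exact ha.inv, ?_⟩
    rw [ren_inv]
    conv_lhs => rw [← hu]
    rcases u with i | g <;> simp

lemma mem_stab {u : Cl N W ⊕ Fin s} {σ : Fin N → Equiv.Perm (Fin 3)} :
    σ ∈ stab C u ↔ ∃ a, C.IsAut (ren W σ) a ∧ Sum.map (ren W σ) a u = u := Iff.rfl

variable {C}

lemma mem_stab_move {u : Cl N W ⊕ Fin s}
    {σ m : Fin N → Equiv.Perm (Fin 3)} {a : Equiv.Perm (Fin s)} (ha : C.IsAut (ren W σ) a)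
    (hc : σ * m * σ⁻¹ = m) (hm : m ∈ stab C u) : m ∈ stab C (Sum.map (ren W σ) a u) := by
  obtain ⟨b, hb, hu⟩ := hm
  refine ⟨a * b * a⁻¹, ?_, ?_⟩
  · have := (ha.mul hb).mul ha.inv
    rwa [← ren_inv, ← ren_mul, ← ren_mul, hc] at this
  · have e : ren W m = ren W σ * ren W m * (ren W σ)⁻¹ := by
      rw [← ren_inv, ← ren_mul, ← ren_mul, hc]
    calc Sum.map (ren W m) (a * b * a⁻¹) (Sum.map (ren W σ) a u)
        = Sum.map (ren W σ * ren W m * (ren W σ)⁻¹) (a * b * a⁻¹) (Sum.map (ren W σ) a u) := by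
          rw [← e]
      _ = Sum.map (ren W σ) a (Sum.map (ren W m) b u) := by rcases u with i | g <;> simp
      _ = _ := by rw [hu]

lemma mem_stab_move_iff {u : Cl N W ⊕ Fin s}
    {σ m : Fin N → Equiv.Perm (Fin 3)} {a : Equiv.Perm (Fin s)} (ha : C.IsAut (ren W σ) a)
    (hc : σ * m * σ⁻¹ = m) : m ∈ stab C (Sum.map (ren W σ) a u) ↔ m ∈ stab C u := by
  refine ⟨fun h => ?_, mem_stab_move ha hc⟩
  have hc' : σ⁻¹ * m * (σ⁻¹)⁻¹ = m := by
    nth_rewrite 1 [← hc]
    group
  have := mem_stab_move (a := a⁻¹) (by rw [ren_inv]; exact ha.inv) hc' h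
  have e : Sum.map (ren W σ⁻¹) ((a⁻¹ : Equiv.Perm (Fin s))) (Sum.map (ren W σ) a u) = u := by
    rw [ren_inv]
    rcases u with i | g <;> simp
  rwa [e] at this

theorem index_stab_le (hC : LocallySymmetric C) (g : Fin s) :
    (stab C (Sum.inr g)).index ≤ s := by
  classical
  choose a ha using hC
  have hinj : Function.Injective
      (fun q : (Fin N → Equiv.Perm (Fin 3)) ⧸ stab C (Sum.inr g) => a q.out g) := by
    intro q q' h
    have h1 : (q'.out)⁻¹ * q.out ∈ stab C (Sum.inr g) := by
      refine ⟨(a q'.out)⁻¹ * a q.out, ?_, ?_⟩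
      · rw [ren_mul, ren_inv]
        exact (Circuit.IsAut.inv (ha _)).mul (ha _)
      · simp only [Sum.map_inr, Equiv.Perm.mul_apply, Sum.inr.injEq]
        have h' : a q.out g = a q'.out g := h
        rw [h']
        simp
    have h2 : (QuotientGroup.mk q'.out : (Fin N → Equiv.Perm (Fin 3)) ⧸ stab C (Sum.inr g)) =
        QuotientGroup.mk q.out := QuotientGroup.eq.2 h1
    simpa using h2.symm
  have := Nat.card_le_card_of_injective _ hinj
  simpa [Subgroup.index] using this

open Classical in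
/-- the support of a node -/
noncomputable def supp (C : Circuit (Cl N W) s) (u : Cl N W ⊕ Fin s) : Finset (Fin N) :=
  univ.filter fun j => Pi.mulSingle j rot ∉ stab C u

lemma card_supp_le (hC : LocallySymmetric C) {k : ℕ} (hk : s < 2 ^ k) (g : Fin s) :
    #(supp C (Sum.inr g)) ≤ 2 * (k - 1) := by
  refine card_rot_not_mem _ k ((index_stab_le hC g).trans_lt hk) _ ?_
  intro j hj
  simpa [supp] using hj

lemma sh_mem_stab {u : Cl N W ⊕ Fin s} {t : Fin N → Fin 3}
    (ht : ∀ j ∈ supp C u, t j = 0) : sh t ∈ stab C u := by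
  classical
  apply sh_mem
  intro j hj
  exact ht j (by simpa [supp] using hj)

lemma supp_move {u : Cl N W ⊕ Fin s} {t : Fin N → Fin 3}
    {a : Equiv.Perm (Fin s)} (ha : C.IsAut (ren W (sh t)) a) :
    supp C (Sum.map (ren W (sh t)) a u) = supp C u := by
  classical
  ext j
  simp only [supp, mem_filter, mem_univ, true_and]
  rw [mem_stab_move_iff ha (sh_comm t j)]

/-- the support of an input bit -/
lemma mem_supp_inl (hC : LocallySymmetric C) {c : Cl N W} {j : Fin N} :
    j ∈ supp C (Sum.inl c) → OnBlock c j := by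
  classical
  intro h
  by_contra hcon
  simp only [supp, mem_filter, mem_univ, true_and] at h
  apply h
  obtain ⟨a, ha⟩ := hC (Pi.mulSingle j rot)
  exact ⟨a, ha, by rw [Sum.map_inl, ren_mulSingle_of_not hcon]⟩

/-- the blocks of a clause are in the support of the input bit -/
lemma mem_supp_of_block {c : Cl N W} {j : Fin N} (h : OnBlock c j) :
    j ∈ supp C (Sum.inl c) := by
  classical
  simp only [supp, mem_filter, mem_univ, true_and]
  rintro ⟨a, -, h'⟩
  rw [Sum.map_inl] at h'
  exact ren_mulSingle_rot_ne h (Sum.inl_injective h')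

end Pool.Agent.LocalSym
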