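import Mathlib

/-!
# Circuits for 3-SAT and local permutations of the variables

Definitions used in the statement of the lower bound.
-/

namespace Pool.Agent.LocalSym

/-! ## 3-SAT and local permutations -/

/-- Instances of 3-SAT over the variables `V` are given by one bit for each ordered triple of
literals (pairs of a variable and a sign), telling whether this clause is present.  The instance
`x` is satisfiable: some assignment makes a literal of each present clause true. -/
def Sat3 {V : Type} (x : (Fin 3 → V × Bool) → Bool) : Prop :=
  ∃ b : V → Bool, ∀ c, x c = true → ∃ i, b (c i).1 = (c i).2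

/-- the permutation of the clauses induced by a permutation of the variables -/
def renameVars {V : Type} (q : Equiv.Perm V) : Equiv.Perm (Fin 3 → V × Bool) :=
  Equiv.arrowCongr (Equiv.refl (Fin 3)) (Equiv.prodCongr q (Equiv.refl Bool))

/-- The variables are `N` disjoint triples of variables (the variable `Sum.inl (j, i)` is the
`i`-th variable of the `j`-th triple) and further variables `W`.  The local permutation `σ` of the
variables permutes the `j`-th triple by `σ j` for every `j` and fixes the variables of `W`. -/
def localPerm {N : ℕ} (W : Type) (σ : Fin N → Equiv.Perm (Fin 3)) :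
    Equiv.Perm ((Fin N × Fin 3) ⊕ W) :=
  Equiv.sumCongr (Equiv.prodCongrRight σ) (Equiv.refl W)

/-! ## Arbitrary circuits, given by the functions of their gates -/

/-- The Boolean function `f` is computed by one gate from functions of the set `prev`:
* by an arbitrary gate with at most `d` inputs, or
* by a threshold gate with any number of inputs and arbitrary real weights
  (for example AND, OR, NOT, MAJORITY), or
* by a parity gate with any number of inputs. -/
def IsGate {X : Type} (d : ℕ) (prev : Set (X → Bool)) (f : X → Bool) : Prop :=
  (∃ (h : Fin d → X → Bool) (G : (Fin d → Bool) → Bool),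
    (∀ i, h i ∈ prev) ∧ ∀ x, f x = G (fun i => h i x)) ∨
  (∃ (k : ℕ) (h : Fin k → X → Bool) (w : Fin k → ℝ) (θ : ℝ),
    (∀ i, h i ∈ prev) ∧ ∀ x, f x = true ↔ θ ≤ ∑ i, if h i x = true then w i else 0) ∨
  (∃ (k : ℕ) (h : Fin k → X → Bool),
    (∀ i, h i ∈ prev) ∧ ∀ x, f x = true ↔ Odd (Finset.card {i | h i x = true}))

/-- `F 0, …, F (s - 1)` are the functions computed by the gates of a circuit with input bits
indexed by `I`: each of them is computed by one gate from input bits and earlier functions. -/
def IsCircuit {I : Type} {s : ℕ} (d : ℕ) (F : Fin s → (I → Bool) → Bool) : Prop :=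
  ∀ g, IsGate d ({f | ∃ i, f = fun x => x i} ∪ {f | ∃ h < g, f = F h}) (F g)

/-- the images of a function of 3-SAT instances under the local permutations of the variables -/
def images {N : ℕ} {W : Type} (f : ((Fin 3 → ((Fin N × Fin 3) ⊕ W) × Bool) → Bool) → Bool) :
    Set (((Fin 3 → ((Fin N × Fin 3) ⊕ W) × Bool) → Bool) → Bool) :=
  Set.range fun σ : Fin N → Equiv.Perm (Fin 3) =>
    fun x => f (fun c => x (renameVars (localPerm W σ) c))

end Pool.Agent.LocalSym
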