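import Pool.Agent.Work.MP_71c844_lc.LSCircuit

/-!
# The lower bound for locally symmetric circuits
-/

namespace Pool.Agent.LocalSym

open Finset

variable {N s : ℕ} {W : Type} {C : Circuit (Cl N W) s}
  {π : Equiv.Perm (Fin (N / 3) × Fin 3)}

lemma card_supp_inl_le (hC : LocallySymmetric C) (c : Cl N W) :
    #(supp C (Sum.inl c)) ≤ 3 := by
  classical
  refine (Finset.card_le_card ?_).trans (card_block_le c)
  intro j hj
  exact mem_filter.2 ⟨mem_univ _, mem_supp_inl hC hj⟩

lemma supp_out (hC : LocallySymmetric C) : supp C (Sum.inr C.out) = ∅ := by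
  classical
  rw [Finset.eq_empty_iff_forall_notMem]
  intro j hj
  simp only [supp, mem_filter, mem_univ, true_and] at hj
  apply hj
  obtain ⟨a, ha⟩ := hC (Pi.mulSingle j rot)
  exact ⟨a, ha, by rw [Sum.map_inr, ha.2.2]⟩

/-- the key step: a gate does not see the inconsistency far from its support -/
theorem val_eq [Finite W] (hC : LocallySymmetric C) {k : ℕ} (hk0 : 0 < k)
    (hk : 4 * k ≤ N / 3 / 20) (hs : s < 2 ^ k)
    (hπ : ∀ A : Finset (Fin (N / 3) × Fin 3), N / 3 ≤ #A → #A ≤ 2 * (N / 3) →
      N / 3 / 20 ≤ bd A + bd (A.map π.toEmbedding)) :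
    ∀ (n : ℕ) (u : Cl N W ⊕ Fin s),
      (∀ g, u = Sum.inr g → C.depth g < n) → ∀ (b : Fin (N / 3) → Fin 3) (a : Fin (N / 3)),
      Big π (edges (supp C u)) a →
      C.val (inst W π b) u = C.val (inst W π (b + Pi.single a 1)) u := by
  classical
  have hcard : ∀ u : Cl N W ⊕ Fin s, #(supp C u) ≤ 2 * k + 1 := by
    rintro (c | g)
    · exact (card_supp_inl_le hC c).trans (by omega)
    · exact (card_supp_le hC hs g).trans (by omega)
  intro n
  induction n with
  | zero =>
    rintro (c | g) hu b a ha
    · rw [C.val_inl, C.val_inl]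
      obtain ⟨i₀, hi₀⟩ := ha.exists_not_mem (by omega)
      rw [mem_edges] at hi₀
      exact inst_eq_of_not_block (i₀ := i₀) fun h => hi₀ (mem_supp_of_block h)
    · exact absurd (hu g rfl) (by omega)
  | succ n ih =>
    rintro (c | g) hu b a ha
    · exact ih (Sum.inl c) (fun g hg => by simp at hg) b a ha
    · have hgn : C.depth g < n + 1 := hu g rfl
      have : Nonempty (Fin (N / 3)) := ⟨a⟩
      have hsg := card_supp_le hC hs g
      -- choose a flow for every support set
      have hch : ∀ T : Finset (Fin N), #T ≤ 2 * k + 1 → ∃ (t : Fin N → Fin 3)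
          (α : Equiv.Perm (Fin s)) (a' : Fin (N / 3)), C.IsAut (ren W (sh t)) α ∧ α g = g ∧
          Big π (edges T) a' ∧ (∀ c, ∑ i, t (blk (π.symm (c, i))) = 0) ∧
          (∀ r, ∑ i, t (blk (r, i)) = (if r = a then 1 else 0) - (if r = a' then 1 else 0)) := by
        intro T hT
        have hU : #(edges (supp C (Sum.inr g)) ∪ edges T) < N / 3 / 20 := by
          have h1 := card_edges_le (supp C (Sum.inr g))
          have h2 := card_edges_le T
          have h3 := Finset.card_union_le (edges (supp C (Sum.inr g))) (edges T)
          omega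
        obtain ⟨a', ha'⟩ := exists_big hπ hU
        obtain ⟨t, ht1, ht2, ht3⟩ := ha.flow (ha'.mono Finset.subset_union_left)
        have hst : sh (ext t) ∈ stab C (Sum.inr g) := by
          apply sh_mem_stab
          intro j hj
          apply ext_eq_zero
          rintro e rfl
          exact ht1 e (mem_edges.2 hj)
        obtain ⟨α, hα, hαg⟩ := hst
        refine ⟨ext t, α, a', hα, ?_, ha'.mono Finset.subset_union_right, ?_, ?_⟩
        · simpa using hαg
        · intro c
          simp only [ext_blk]
          exact ht3 c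
        · intro r
          simp only [ext_blk]
          exact ht2 r
      choose! t α a' h1 h2 h3 h4 h5 using hch
      -- the permutation of the nodes
      let Φ : Cl N W ⊕ Fin s → Cl N W ⊕ Fin s :=
        fun u => Sum.map (ren W (sh (t (supp C u)))) (α (supp C u)) u
      have hΦs : ∀ u, supp C (Φ u) = supp C u := fun u => supp_move (h1 _ (hcard u))
      have hΦw : ∀ u, C.wire g (Φ u) = C.wire g u := by
        intro u
        have := (h1 _ (hcard u)).1 g u
        rwa [h2 _ (hcard u)] at this
      have hΦi : Function.Injective Φ := by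
        intro u v huv
        have hsu : supp C u = supp C v := by rw [← hΦs u, ← hΦs v, huv]
        have huv' : Sum.map (ren W (sh (t (supp C u)))) (α (supp C u)) u =
            Sum.map (ren W (sh (t (supp C v)))) (α (supp C v)) v := huv
        rw [hsu] at huv'
        exact (Sum.map_injective.2 ⟨Equiv.injective _, Equiv.injective _⟩) huv'
      have hΦb : Function.Bijective Φ := Finite.injective_iff_bijective.1 hΦi
      have hval : ∀ u, C.wire g u ≠ 0 →
          C.val (inst W π (b + Pi.single a 1)) (Φ u) = C.val (inst W π b) u := by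
        intro u hwu
        set T := supp C u with hT
        have hcT : #T ≤ 2 * k + 1 := hcard u
        have e1 := Circuit.IsAut.val (h1 T hcT) (inst W π b) u
        rw [inst_shift (b' := b + Pi.single a 1 - Pi.single (a' T) 1) (h4 T hcT) ?_] at e1
        · rw [← e1]
          have hdep : ∀ g', Φ u = Sum.inr g' → C.depth g' < n := by
            intro g' hg'
            have : C.wire g (Sum.inr g') ≠ 0 := by rw [← hg', hΦw]; exact hwu
            have := C.acyclic g g' this
            omega
          have e2 := ih (Φ u) hdep (b + Pi.single a 1 - Pi.single (a' T) 1) (a' T)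
            (by rw [hΦs]; exact h3 T hcT)
          rw [sub_add_cancel] at e2
          exact e2.symm
        · intro r
          rw [h5 T hcT r]
          simp only [Pi.add_apply, Pi.sub_apply, Pi.single_apply]
          abel
      rw [C.val_inr, C.val_inr]
      congr 1
      funext j
      have hset : {u | C.wire g u = j + 1 ∧ C.val (inst W π (b + Pi.single a 1)) u = true} =
          Φ '' {u | C.wire g u = j + 1 ∧ C.val (inst W π b) u = true} := by
        ext v
        simp only [Set.mem_image, Set.mem_ofPred_eq]
        constructor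
        · rintro ⟨hv1, hv2⟩
          obtain ⟨u, rfl⟩ := hΦb.2 v
          rw [hΦw] at hv1
          refine ⟨u, ⟨hv1, ?_⟩, rfl⟩
          rw [← hv2, hval u (by omega)]
        · rintro ⟨u, ⟨hu1, hu2⟩, rfl⟩
          refine ⟨by rw [hΦw, hu1], ?_⟩
          rw [hval u (by omega), hu2]
      rw [hset, Set.ncard_image_of_injective _ hΦi]

/-- the lower bound -/
theorem two_pow_le_of_decides [Finite W] (hC : LocallySymmetric C) (hdec : C.Decides Sat3) :
    2 ^ (N / 240) ≤ s := by
  by_contra hlt
  push Not at hlt
  rcases Nat.eq_zero_or_pos (N / 240) with h0 | hpos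
  · rw [h0] at hlt
    have := C.out.2
    omega
  obtain ⟨π, hπ⟩ := exists_expanding (N / 3)
  have hk : 4 * (N / 240) ≤ N / 3 / 20 := by omega
  obtain ⟨a, ha⟩ := exists_big (T := ∅) hπ (by rw [Finset.card_empty]; omega)
  have he : edges (supp C (Sum.inr C.out)) = ∅ := by
    rw [supp_out hC, Finset.eq_empty_iff_forall_notMem]
    intro e he
    simp [mem_edges] at he
  have key := val_eq hC hpos hk hlt hπ (C.depth C.out + 1) (Sum.inr C.out)
    (fun g hg => by rw [← Sum.inr_injective hg]; omega) 0 a (by rw [he]; exact ha)
  have h1 := (hdec _ _ (C.val_run (inst W π 0))).2 sat_zero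
  have h2 := (hdec _ _ (C.val_run (inst W π (0 + Pi.single a 1)))).1 (by rw [← key]; exact h1)
  refine not_sat ?_ h2
  rw [zero_add, Finset.sum_pi_single']
  simp

end Pool.Agent.LocalSym
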