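import Pool.Agent.Work.MP_71c844_lc.LSInstance

/-!
# Every circuit for 3-SAT has a gate with exponentially many images
-/

namespace Pool.Agent.LocalSym

open Finset

variable {N : ℕ} {W : Type}

/-- Boolean functions of the instances -/
abbrev Fn (N : ℕ) (W : Type) : Type := (Cl N W → Bool) → Bool

/-- the local permutations fixing a function -/
def fstab (f : Fn N W) : Subgroup (Fin N → Equiv.Perm (Fin 3)) where
  carrier := {σ | ∀ x, f (fun c => x (ren W σ c)) = f x}
  one_mem' := by intro x; simp [ren_one]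
  mul_mem' := by
    intro σ τ hσ hτ x
    have h1 := hτ (fun c => x (ren W σ c))
    rw [hσ x] at h1
    rw [← h1]
    congr 1
    funext c
    rw [ren_mul]; rfl
  inv_mem' := by
    intro σ hσ x
    have h1 := hσ (fun c => x (ren W σ⁻¹ c))
    rw [← h1]
    congr 1
    funext c
    rw [ren_inv]
    simp

lemma mem_fstab {f : Fn N W} {σ : Fin N → Equiv.Perm (Fin 3)} :
    σ ∈ fstab f ↔ ∀ x, f (fun c => x (ren W σ c)) = f x := Iff.rfl

lemma images_finite (f : Fn N W) : (images f).Finite := Set.finite_range _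

lemma images_nonempty (f : Fn N W) : (images f).Nonempty := Set.range_nonempty _

theorem index_fstab_le (f : Fn N W) : (fstab f).index ≤ (images f).ncard := by
  classical
  have hfin : Finite (images f) := images_finite f
  have hinj : Function.Injective
      (fun q : (Fin N → Equiv.Perm (Fin 3)) ⧸ fstab f =>
        (⟨fun x => f (fun c => x (renameVars (localPerm W q.out) c)), q.out, rfl⟩ : images f)) := by
    intro q q' h
    have h0 : ∀ x : Cl N W → Bool,
        f (fun c => x (ren W q.out c)) = f (fun c => x (ren W q'.out c)) :=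
      fun x => congrFun (congrArg Subtype.val h) x
    have h1 : (q'.out)⁻¹ * q.out ∈ fstab f := by
      intro x
      have h2 := h0 (fun c => x (ren W (q'.out)⁻¹ c))
      have e1 : (fun c => x (ren W ((q'.out)⁻¹ * q.out) c)) =
          fun c => x (ren W (q'.out)⁻¹ (ren W q.out c)) := by
        funext c
        rw [ren_mul]; rfl
      rw [e1, h2]
      congr 1
      funext c
      rw [ren_inv]; simp
    have h2 : (QuotientGroup.mk q'.out : (Fin N → Equiv.Perm (Fin 3)) ⧸ fstab f) =
        QuotientGroup.mk q.out := QuotientGroup.eq.2 h1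
    simpa using h2.symm
  have := Nat.card_le_card_of_injective _ hinj
  simpa [Subgroup.index] using this

open Classical in
/-- the support of a function -/
noncomputable def fsupp (f : Fn N W) : Finset (Fin N) :=
  univ.filter fun j => Pi.mulSingle j rot ∉ fstab f

lemma card_fsupp_le {f : Fn N W} {k : ℕ} (hk : (images f).ncard < 2 ^ k) :
    #(fsupp f) ≤ 2 * (k - 1) := by
  refine card_rot_not_mem _ k ((index_fstab_le f).trans_lt hk) _ ?_
  intro j hj
  simpa [fsupp] using hj

variable {π : Equiv.Perm (Fin (N / 3) × Fin 3)}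

/-- a function does not see the inconsistency away from its support -/
def Loc (π : Equiv.Perm (Fin (N / 3) × Fin 3)) (f : Fn N W) : Prop :=
  ∀ (b : Fin (N / 3) → Fin 3) (a : Fin (N / 3)), Big π (edges (fsupp f)) a →
    f (inst W π b) = f (inst W π (b + Pi.single a 1))

lemma flow_inv {f : Fn N W} (b : Fin (N / 3) → Fin 3) {t : Fin (N / 3) × Fin 3 → Fin 3}
    (h1 : ∀ e ∈ edges (fsupp f), t e = 0) (h2 : ∀ c, ∑ i, t (π.symm (c, i)) = 0) :
    f (inst W π (fun r => b r + ∑ i, t (r, i))) = f (inst W π b) := by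
  classical
  have hst : sh (ext t) ∈ fstab f := by
    apply sh_mem
    intro j hj
    apply ext_eq_zero
    rintro e rfl
    exact h1 e (mem_edges.2 (by simpa [fsupp] using hj))
  rw [← hst (inst W π (fun r => b r + ∑ i, t (r, i)))]
  congr 1
  funext c
  have := inst_shift (W := W) (π := π) (t := ext t) (b := b)
    (b' := fun r => b r + ∑ i, t (r, i)) (fun a => by simp only [ext_blk]; exact h2 a)
    (fun a => by simp only [ext_blk])
  rw [← this]
  simp

lemma fsupp_input (c : Cl N W) (j : Fin N) : j ∈ fsupp (fun x : Cl N W → Bool => x c) ↔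
    OnBlock c j := by
  classical
  simp only [fsupp, mem_filter, mem_univ, true_and, mem_fstab]
  constructor
  · intro h
    by_contra hc
    exact h fun x => by rw [ren_mulSingle_of_not hc]
  · intro h h'
    have := h' (fun c' => decide (c' = c))
    simp only [decide_true, decide_eq_true_eq] at this
    exact ren_mulSingle_rot_ne h this

lemma card_fsupp_input (c : Cl N W) : #(fsupp (fun x : Cl N W → Bool => x c)) ≤ 3 := by
  classical
  refine (Finset.card_le_card ?_).trans (card_block_le c)
  intro j hj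
  exact mem_filter.2 ⟨mem_univ _, (fsupp_input c j).1 hj⟩

lemma loc_input (hM : 2 ≤ N / 3) (c : Cl N W) : Loc π (fun x : Cl N W → Bool => x c) := by
  intro b a ha
  obtain ⟨i₀, hi₀⟩ := ha.exists_not_mem hM
  rw [mem_edges, fsupp_input] at hi₀
  exact inst_eq_of_not_block hi₀

/-- the flows avoiding a set of edges -/
def flows (π : Equiv.Perm (Fin (N / 3) × Fin 3)) (T : Finset (Fin (N / 3) × Fin 3)) :
    AddSubgroup (Fin (N / 3) × Fin 3 → Fin 3) where
  carrier := {t | (∀ e ∈ T, t e = 0) ∧ ∀ c, ∑ i, t (π.symm (c, i)) = 0}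
  zero_mem' := ⟨fun _ _ => rfl, fun _ => by simp⟩
  add_mem' := by
    rintro s t ⟨h1, h2⟩ ⟨h3, h4⟩
    refine ⟨fun e he => by simp [h1 e he, h3 e he], fun c => ?_⟩
    simp only [Pi.add_apply, Finset.sum_add_distrib, h2 c, h4 c, add_zero]
  neg_mem' := by
    rintro t ⟨h1, h2⟩
    refine ⟨fun e he => by simp [h1 e he], fun c => ?_⟩
    simp only [Pi.neg_apply, Finset.sum_neg_distrib, h2 c, neg_zero]

lemma odd_card_flows (T : Finset (Fin (N / 3) × Fin 3)) : Odd (Nat.card (flows π T)) := by
  have h := AddSubgroup.card_addSubgroup_dvd_card (flows π T)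
  have h1 : Nat.card (Fin (N / 3) × Fin 3 → Fin 3) = 3 ^ (N / 3 * 3) := by
    rw [Nat.card_eq_fintype_card]; simp
  rw [h1] at h
  exact Odd.of_dvd_nat (Odd.pow (by decide)) h

/-- averaging over the flows -/
noncomputable def avg {A : Type} [AddCommMonoid A] (π : Equiv.Perm (Fin (N / 3) × Fin 3))
    (T : Finset (Fin (N / 3) × Fin 3)) (w : (Fin (N / 3) → Fin 3) → A)
    (b : Fin (N / 3) → Fin 3) : A :=
  ∑ᶠ t : flows π T, w (fun r => b r + ∑ i, (t : Fin (N / 3) × Fin 3 → Fin 3) (r, i))

lemma avg_eq {A : Type} [AddCommMonoid A] {T : Finset (Fin (N / 3) × Fin 3)}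
    {w : (Fin (N / 3) → Fin 3) → A} {a a' : Fin (N / 3)} (ha : Big π T a) (ha' : Big π T a')
    (hw : ∀ b, w b = w (b + Pi.single a' 1)) (b : Fin (N / 3) → Fin 3) :
    avg π T w b = avg π T w (b + Pi.single a 1) := by
  classical
  obtain ⟨t₀, h1, h2, h3⟩ := ha.flow ha'
  have ht₀ : t₀ ∈ flows π T := ⟨h1, h3⟩
  unfold avg
  rw [← finsum_comp_equiv (Equiv.addRight (⟨t₀, ht₀⟩ : flows π T))]
  refine finsum_congr fun t => ?_
  rw [hw]
  congr 1
  funext r
  simp only [Equiv.coe_addRight, AddSubgroup.coe_add, Pi.add_apply, Finset.sum_add_distrib, h2 r,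
    Pi.single_apply]
  abel

/-- one gate -/
theorem loc_gate {d k : ℕ} (hd : 0 < d) (hk0 : 0 < k) (hk : 3 * k * (d + 1) ≤ N / 3 / 20)
    (hπ : ∀ A : Finset (Fin (N / 3) × Fin 3), N / 3 ≤ #A → #A ≤ 2 * (N / 3) →
      N / 3 / 20 ≤ bd A + bd (A.map π.toEmbedding))
    {prev : Set (Fn N W)} (hprev : ∀ h ∈ prev, Loc π h ∧ #(fsupp h) ≤ 2 * k + 1)
    {f : Fn N W} (hf : #(fsupp f) ≤ 2 * (k - 1)) (hg : IsGate d prev f) : Loc π f := by
  classical
  intro b a ha
  have hdk : 3 * k * 2 ≤ 3 * k * (d + 1) := Nat.mul_le_mul_left _ (by omega)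
  have hcf := card_edges_le (fsupp f)
  -- for one child
  have hone : ∀ h ∈ prev, ∃ a', Big π (edges (fsupp f)) a' ∧ Big π (edges (fsupp h)) a' := by
    intro h hh
    have h2 := (hprev h hh).2
    have h3 := card_edges_le (fsupp h)
    have h4 := Finset.card_union_le (edges (fsupp f)) (edges (fsupp h))
    obtain ⟨a', ha'⟩ := exists_big (T := edges (fsupp f) ∪ edges (fsupp h)) hπ (by omega)
    exact ⟨a', ha'.mono Finset.subset_union_left, ha'.mono Finset.subset_union_right⟩
  rcases hg with ⟨h, G, hh, hG⟩ | ⟨m, h, w, θ, hh, hθ⟩ | ⟨m, h, hh, hpar⟩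
  · -- arbitrary gates of small fan-in
    have hU : #(edges (fsupp f) ∪ univ.biUnion fun i => edges (fsupp (h i))) < N / 3 / 20 := by
      have h1 := Finset.card_union_le (edges (fsupp f))
        (univ.biUnion fun i => edges (fsupp (h i)))
      have h2 : #(univ.biUnion fun i => edges (fsupp (h i))) ≤ d * (2 * k + 1) := by
        refine (Finset.card_biUnion_le).trans ?_
        refine (Finset.sum_le_card_nsmul _ _ (2 * k + 1) fun i _ => ?_).trans (by simp)
        exact (card_edges_le _).trans (hprev _ (hh i)).2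
      have h3 : d * (2 * k + 1) ≤ d * (3 * k) := Nat.mul_le_mul_left _ (by omega)
      have h4 : 3 * k * (d + 1) = d * (3 * k) + 3 * k := by ring
      omega
    obtain ⟨a', ha'⟩ := exists_big hπ hU
    obtain ⟨t, h1, h2, h3⟩ := ha.flow (ha'.mono Finset.subset_union_left)
    rw [← flow_inv b h1 h3, hG, hG]
    congr 1
    funext i
    have hi : Big π (edges (fsupp (h i))) a' :=
      ha'.mono ((Finset.subset_biUnion_of_mem (fun i => edges (fsupp (h i)))
        (Finset.mem_univ i)).trans Finset.subset_union_right)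
    rw [(hprev _ (hh i)).1 _ a' hi]
    congr 2
    funext r
    rw [Pi.add_apply, h2 r, Pi.add_apply, Pi.single_apply, Pi.single_apply]
    abel
  · -- threshold gates
    have hfin : Fintype (flows π (edges (fsupp f))) := Fintype.ofFinite _
    set w' : Fin m → (Fin (N / 3) → Fin 3) → ℝ :=
      fun i b => if h i (inst W π b) = true then w i else 0 with hw'
    have key : ∀ b, f (inst W π b) = true ↔ (Nat.card (flows π (edges (fsupp f))) : ℝ) * θ ≤
        ∑ i, avg π (edges (fsupp f)) (w' i) b := by
      intro b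
      have e1 : ∑ i, avg π (edges (fsupp f)) (w' i) b = ∑ t : flows π (edges (fsupp f)),
          ∑ i, w' i (fun r => b r + ∑ j, (t : Fin (N / 3) × Fin 3 → Fin 3) (r, j)) := by
        unfold avg
        simp only [finsum_eq_sum_of_fintype]
        exact Finset.sum_comm
      have e2 : ∀ t : flows π (edges (fsupp f)), f (inst W π b) = true ↔
          θ ≤ ∑ i, w' i (fun r => b r + ∑ j, (t : Fin (N / 3) × Fin 3 → Fin 3) (r, j)) := by
        intro t
        rw [← flow_inv b t.2.1 t.2.2, hθ]
      have e3 : (Nat.card (flows π (edges (fsupp f))) : ℝ) * θ =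
          ∑ t : flows π (edges (fsupp f)), θ := by
        simp [Nat.card_eq_fintype_card]
      rw [e1, e3]
      constructor
      · intro hft
        exact Finset.sum_le_sum fun t _ => (e2 t).1 hft
      · intro hle
        by_contra hft
        refine absurd hle (not_le.2 (Finset.sum_lt_sum_of_nonempty ⟨0, mem_univ _⟩ fun t _ => ?_))
        by_contra hlt
        exact hft ((e2 t).2 (not_lt.1 hlt))
    rw [Bool.eq_iff_iff, key, key]
    have : ∀ i, avg π (edges (fsupp f)) (w' i) b =
        avg π (edges (fsupp f)) (w' i) (b + Pi.single a 1) := by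
      intro i
      obtain ⟨a', h1, h2⟩ := hone _ (hh i)
      refine avg_eq ha h1 (fun b => ?_) b
      rw [hw']
      simp only
      rw [(hprev _ (hh i)).1 b a' h2]
    simp only [this]
  · -- parity gates
    have hfin : Fintype (flows π (edges (fsupp f))) := Fintype.ofFinite _
    set w' : Fin m → (Fin (N / 3) → Fin 3) → ℕ :=
      fun i b => if h i (inst W π b) = true then 1 else 0 with hw'
    have key : ∀ b, f (inst W π b) = true ↔ Odd (∑ i, avg π (edges (fsupp f)) (w' i) b) := by
      intro b
      have e1 : ∑ i, avg π (edges (fsupp f)) (w' i) b = ∑ t : flows π (edges (fsupp f)),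
          ∑ i, w' i (fun r => b r + ∑ j, (t : Fin (N / 3) × Fin 3 → Fin 3) (r, j)) := by
        unfold avg
        simp only [finsum_eq_sum_of_fintype]
        exact Finset.sum_comm
      have e2 : ∀ t : flows π (edges (fsupp f)), f (inst W π b) = true ↔
          Odd (∑ i, w' i (fun r => b r + ∑ j, (t : Fin (N / 3) × Fin 3 → Fin 3) (r, j))) := by
        intro t
        rw [← flow_inv b t.2.1 t.2.2, hpar, Finset.card_filter]
      rw [e1, Finset.odd_sum_iff_odd_card_odd]
      by_cases hft : f (inst W π b) = true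
      · have : (univ.filter fun t : flows π (edges (fsupp f)) => Odd (∑ i, w' i
            (fun r => b r + ∑ j, (t : Fin (N / 3) × Fin 3 → Fin 3) (r, j)))) = univ :=
          Finset.filter_true_of_mem fun t _ => (e2 t).1 hft
        rw [this, Finset.card_univ, ← Nat.card_eq_fintype_card]
        exact iff_of_true hft (odd_card_flows _)
      · have : (univ.filter fun t : flows π (edges (fsupp f)) => Odd (∑ i, w' i
            (fun r => b r + ∑ j, (t : Fin (N / 3) × Fin 3 → Fin 3) (r, j)))) = ∅ :=
          Finset.filter_false_of_mem fun t _ h' => hft ((e2 t).2 h')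
        rw [this]
        simp [hft]
    rw [Bool.eq_iff_iff, key, key]
    have : ∀ i, avg π (edges (fsupp f)) (w' i) b =
        avg π (edges (fsupp f)) (w' i) (b + Pi.single a 1) := by
      intro i
      obtain ⟨a', h1, h2⟩ := hone _ (hh i)
      refine avg_eq ha h1 (fun b => ?_) b
      rw [hw']
      simp only
      rw [(hprev _ (hh i)).1 b a' h2]
    simp only [this]

lemma sat3_rename {V : Type} (q : Equiv.Perm V) {x : (Fin 3 → V × Bool) → Bool} (h : Sat3 x) :
    Sat3 (fun c => x (renameVars q c)) := by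
  obtain ⟨b, hb⟩ := h
  refine ⟨fun v => b (q v), fun c hc => ?_⟩
  obtain ⟨i, hi⟩ := hb _ hc
  exact ⟨i, hi⟩

lemma fsupp_eq_empty {f : Fn N W} (hf : ∀ x, f x = true ↔ Sat3 x) : fsupp f = ∅ := by
  classical
  rw [Finset.eq_empty_iff_forall_notMem]
  intro j hj
  simp only [fsupp, mem_filter, mem_univ, true_and, mem_fstab] at hj
  apply hj
  intro x
  rw [Bool.eq_iff_iff, hf, hf]
  constructor
  · intro h
    have h1 := sat3_rename (localPerm W (Pi.mulSingle j rot)⁻¹) h
    have e : (fun c => x (ren W (Pi.mulSingle j rot)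
        (renameVars (localPerm W (Pi.mulSingle j rot)⁻¹) c))) = x := by
      funext c
      have : renameVars (localPerm W (Pi.mulSingle j rot)⁻¹) c =
          ren W (Pi.mulSingle j rot)⁻¹ c := rfl
      rw [this, ren_inv]
      simp
    rwa [e] at h1
  · exact sat3_rename _

/-- the lower bound -/
theorem exists_images {d s : ℕ} (hd : 0 < d) {F : Fin s → Fn N W} (hF : IsCircuit d F)
    (out : Fin s) (hout : ∀ x, F out x = true ↔ Sat3 x) :
    ∃ g, 2 ^ (N / (180 * (d + 1))) ≤ (images (F g)).ncard := by
  by_contra hcon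
  push Not at hcon
  set k := N / (180 * (d + 1)) with hkdef
  rcases Nat.eq_zero_or_pos k with h0 | hpos
  · have h1 := hcon out
    rw [h0, pow_zero, Nat.lt_one_iff, Set.ncard_eq_zero (images_finite _)] at h1
    exact (images_nonempty (F out)).ne_empty h1
  have hk : 3 * k * (d + 1) ≤ N / 3 / 20 := by
    rw [Nat.div_div_eq_div_mul, Nat.le_div_iff_mul_le (by norm_num)]
    calc 3 * k * (d + 1) * (3 * 20) = k * (180 * (d + 1)) := by ring
      _ ≤ N := Nat.div_mul_le_self _ _
  have h6 : 3 * k * 1 ≤ 3 * k * (d + 1) := Nat.mul_le_mul_left _ (by omega)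
  obtain ⟨π, hπ⟩ := exists_expanding (N / 3)
  have hloc : ∀ g, Loc π (F g) := by
    intro g
    induction g using WellFoundedLT.induction with
    | _ g ih =>
      refine loc_gate hd hpos hk hπ ?_ (card_fsupp_le (hcon g)) (hF g)
      rintro f (⟨c, rfl⟩ | ⟨h, hlt, rfl⟩)
      · exact ⟨loc_input (by omega) c, (card_fsupp_input c).trans (by omega)⟩
      · exact ⟨ih h hlt, (card_fsupp_le (hcon h)).trans (by omega)⟩
  obtain ⟨a, ha⟩ := exists_big (T := ∅) hπ (by rw [Finset.card_empty]; omega)
  have he : edges (fsupp (F out)) = ∅ := by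
    rw [fsupp_eq_empty hout, Finset.eq_empty_iff_forall_notMem]
    intro e he
    simp [mem_edges] at he
  have key := hloc out 0 a (by rw [he]; exact ha)
  have h1 := (hout _).2 (sat_zero (W := W) (π := π))
  rw [key, hout] at h1
  refine not_sat ?_ h1
  rw [zero_add, Finset.sum_pi_single']
  simp

end Pool.Agent.LocalSym
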