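import Pool.Agent.Work.MP_71c844_lc.LayClique

namespace Pool.Agent.LayCirc.ArbitraryGates

open Pool.Agent.LayCirc

/-- **Lower bound for CLIQUE on circuits with arbitrary gates.** Consider a circuit with
fan-in-two AND and OR gates and with arbitrary further gates (any fan-in, any Boolean function, for
example NOT), and let `m_ℓ = width c ℓ` be the number of gates of level `ℓ` that are read by
arbitrary gates. If the circuit decides whether a graph on `v` vertices has a clique on `k`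
vertices, where `2 ≤ v`, `90 (w+1)^2 (log₂ v + 1) ≤ k ≤ v / 2` and
`(∏_ℓ (m_ℓ + 1)) (w+1)^8 (log₂ v + 1)^40 ≤ v ^ 2`, then it has at least `2 ^ w` AND and OR
gates. -/
theorem profile_bound (v k w s : ℕ) (hv : 2 ≤ v)
    (hk : 90 * (w + 1) ^ 2 * (Nat.log 2 v + 1) ≤ k) (hkv : 2 * k ≤ v)
    (c : Circuit (Sym2 (Fin v)) s) (o : Fin s)
    (h : (∏ ℓ ∈ Finset.range s, (width c ℓ + 1)) * (w + 1) ^ 8 * (Nat.log 2 v + 1) ^ 40 ≤ v ^ 2)
    (hc : ∀ x : Sym2 (Fin v) → Bool, val c x o = true ↔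
      ¬ (SimpleGraph.fromEdgeSet {e | x e = true}).CliqueFree k) :
    2 ^ w ≤ size c := by
  by_contra hcon
  push Not at hcon
  obtain ⟨t, ht⟩ : ∃ t, t = ∏ ℓ ∈ Finset.range s, (width c ℓ + 1) := ⟨_, rfl⟩
  rw [← ht] at h
  have ht1 : 1 ≤ t := by
    rw [ht]
    exact Nat.one_le_iff_ne_zero.mpr (Finset.prod_ne_zero_iff.mpr fun i _ => by omega)
  obtain ⟨L, hL⟩ : ∃ L, L = Nat.log 2 v + 1 := ⟨_, rfl⟩
  obtain ⟨b, hb⟩ : ∃ b, b = w + 1 := ⟨_, rfl⟩
  rw [← hL, ← hb] at hk h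
  have hb1 : 1 ≤ b := by omega
  have hL2 : 2 ≤ L := by
    have : 1 ≤ Nat.log 2 v := Nat.log_pos (by norm_num) hv
    omega
  have hvL : v < 2 ^ L := by rw [hL]; exact Nat.lt_pow_succ_log_self (by norm_num) v
  -- v is large
  have hv1 : b ^ 4 * L ^ 20 ≤ v := by
    have e1 : (b ^ 4 * L ^ 20) ^ 2 ≤ v ^ 2 := by
      have e2 : (b ^ 4 * L ^ 20) ^ 2 = 1 * b ^ 8 * L ^ 40 := by ring
      rw [e2]
      refine le_trans ?_ h
      apply Nat.mul_le_mul_right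
      apply Nat.mul_le_mul_right
      exact ht1
    exact (Nat.pow_le_pow_iff_left two_ne_zero).mp e1
  have hv2 : 58320 * b ^ 4 * L ^ 3 ≤ v := by
    have e1 : 2 ^ 17 ≤ L ^ 17 := Nat.pow_le_pow_left hL2 17
    have e2 : 58320 ≤ L ^ 17 := le_trans (by norm_num) e1
    have e3 : 58320 * (b ^ 4 * L ^ 3) ≤ L ^ 17 * (b ^ 4 * L ^ 3) := Nat.mul_le_mul_right _ e2
    have e4 : L ^ 17 * (b ^ 4 * L ^ 3) = b ^ 4 * L ^ 20 := by ring
    have e5 : 58320 * b ^ 4 * L ^ 3 = 58320 * (b ^ 4 * L ^ 3) := by ring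
    omega
  obtain ⟨p, hp, hNp, hp2v, hvp⟩ := choose_prime b L v hb1 hL2 hv2
  have : Fact p.Prime := ⟨hp⟩
  have hbL : 1 ≤ b * L := Nat.one_le_iff_ne_zero.mpr (by positivity)
  have hpv : p ^ 2 ≤ v := by
    have e1 : 1 ≤ 180 * b ^ 2 * L := Nat.one_le_iff_ne_zero.mpr (by positivity)
    have e2 := Nat.mul_le_mul_left (p ^ 2) e1
    omega
  have hpL : p < 2 ^ L := by
    have e1 : p ^ 1 ≤ p ^ 2 := Nat.pow_le_pow_right hp.pos (by norm_num)
    rw [pow_one] at e1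
    omega
  obtain ⟨K, hK1, hq, hq'⟩ := choose_K p b hb1 (by
    have e1 : 9 * b * 2 ≤ 9 * b * L := Nat.mul_le_mul_left _ hL2
    omega)
  have hKL : K ≤ 2 * L := by
    have e1 : 2 ^ K < 2 ^ (2 * L) := by
      have f1 : 2 ^ K ≤ 16 * b * 2 ^ K := Nat.le_mul_of_pos_left _ (by omega)
      have f2 : p ^ 4 = (p ^ 2) ^ 2 := by ring
      have f3 : (p ^ 2) ^ 2 < (2 ^ L) ^ 2 := Nat.pow_lt_pow_left (by omega) (by norm_num)
      have f4 : (2 ^ L) ^ 2 = 2 ^ (2 * L) := by rw [← pow_mul, mul_comm]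
      omega
    exact ((Nat.pow_lt_pow_iff_right (by norm_num)).mp e1).le
  obtain ⟨N, hN⟩ : ∃ N, N = 9 * b * L := ⟨_, rfl⟩
  rw [← hN] at hNp
  have hNbL : N = 9 * (b * L) := by rw [hN]; ring
  have hpart : N * (8 * b + 2) ≤ 90 * b ^ 2 * L := by
    have e1 : N * (8 * b + 2) ≤ N * (10 * b) := Nat.mul_le_mul_left _ (by omega)
    have e2 : N * (10 * b) = 90 * b ^ 2 * L := by rw [hN]; ring
    omega
  obtain ⟨d, hd⟩ : ∃ d, N * (8 * b + 2) + d = k := ⟨k - N * (8 * b + 2), by omega⟩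
  have hvert : N * (8 * b + 2) * p ^ 2 + d ≤ v := by
    have e1 := Nat.mul_le_mul_right (p ^ 2) hpart
    have e2 : p ^ 2 * (180 * b ^ 2 * L) = 2 * (90 * b ^ 2 * L * p ^ 2) := by ring
    omega
  have hU : 2 * p ^ (8 * b) ≤ 2 ^ N := by
    have e1 : p ^ (8 * b) ≤ (2 ^ L) ^ (8 * b) := Nat.pow_le_pow_left hpL.le _
    have e2 : 2 * (2 ^ L) ^ (8 * b) = 2 ^ (8 * (b * L) + 1) := by
      rw [← pow_mul, pow_succ]; ring_nf
    have e3 : 2 ^ (8 * (b * L) + 1) ≤ 2 ^ N := Nat.pow_le_pow_right (by norm_num) (by omega)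
    omega
  have hS : size c ≤ 2 ^ b :=
    hcon.le.trans (Nat.pow_le_pow_right (by norm_num) (by omega))
  have hSR := size_bound b L v p K (size c) w N hb (by omega) hvL hp.two_le hNp hpv hKL hcon
  have key := clique_bound hb1 (by omega) hNp hK1 hq hd hvert hU c o hS hSR hc
  rw [← ht] at key
  have e1 : 2 ^ K ≤ t * (1584 * b * L ^ 2) := by
    refine key.trans ?_
    have f2 : 88 * K * (9 * b * L) ≤ 88 * (2 * L) * (9 * b * L) :=
      Nat.mul_le_mul_right _ (Nat.mul_le_mul_left _ hKL)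
    have f3 : 88 * (2 * L) * (9 * b * L) = 1584 * b * L ^ 2 := by ring
    rw [← f3]
    exact Nat.mul_le_mul_left _ f2
  have e2 := final_compare b L v p K t hb1 hL2 hvp hq' e1
  omega

end Pool.Agent.LayCirc.ArbitraryGates
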