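import Pool.Agent.Work.MP_71c844_lc.LayConv

/-!
The lower bound for circuits with arbitrary gates, for abstract planted functions.
-/

namespace Pool.Agent.LayCirc

open Finset
open Pool.Agent.NegLim (Dich Tn lowSets gval pull mapVar)

set_option linter.unusedSectionVars false

variable {ι : Type} {s : ℕ} {E : Type*} [Fintype E] [DecidableEq E]

/-- the input given by a set and a projection -/
def inp (π : ι → Bool ⊕ E) (X : Finset E) : ι → Bool := pull π (fun e => decide (e ∈ X))

/-- the values of the arbitrary gates, computed from the values of their inputs -/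
def sig (c : Circuit ι s) (h : Fin s → Bool) (i : Fin s) : Bool :=
  match c i with
  | .arb _ a f => f fun l => h ⟨(a l).1, (a l).2.trans i.2⟩
  | _ => false

lemma sig_arb (c : Circuit ι s) (h : Fin s → Bool) (i : Fin s) {m : ℕ} {a : Fin m → Fin i.1}
    {f : (Fin m → Bool) → Bool} (hi : c i = .arb m a f) :
    sig c h i = f fun l => h ⟨(a l).1, (a l).2.trans i.2⟩ := by
  rw [sig, hi]

open Classical in
/-- the information after `ℓ` rounds: the values of the relevant gates of level below `ℓ` -/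
noncomputable def info (π : ι → Bool ⊕ E) (c : Circuit ι s) (o : Fin s) (ℓ : ℕ) (X : Finset E) :
    Fin s → Bool :=
  fun j => if (Fed c j ∨ j = o) ∧ level c j < ℓ then val c (inp π X) j else false

/-- the query belonging to gate `j` -/
def query (π : ι → Bool ⊕ E) (c : Circuit ι s) (h : Fin s → Bool) (j : Fin s) (X : Finset E) :
    Bool :=
  gval (mapVar π (toList c (sig c h) s le_rfl)) (s - 1 - j.1) X

lemma query_eq (π : ι → Bool ⊕ E) (c : Circuit ι s) (o : Fin s) (ℓ : ℕ) (X : Finset E)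
    (h : Fin s → Bool) (hh : info π c o ℓ X = h) (j : Fin s) (hj : level c j ≤ ℓ) :
    query π c h j X = val c (inp π X) j := by
  unfold query gval
  rw [NegLim.run_mapVar]
  refine run_toList c (sig c h) (inp π X) ℓ ?_ s le_rfl j.1 j.2 hj
  rintro i ⟨m, a, f, hi⟩ hl
  rw [sig_arb c h i hi, val_arb c _ i hi]
  congr 1
  funext l
  rw [← hh]
  unfold info
  rw [if_pos]
  refine ⟨Or.inl ⟨i, m, a, f, l, hi, rfl⟩, ?_⟩
  exact lt_of_lt_of_le (level_arb_lt c i hi l) hl

open Classical in
/-- the relevant gates of level `ℓ` -/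
noncomputable def rel (c : Circuit ι s) (o : Fin s) (ℓ : ℕ) : Finset (Fin s) :=
  univ.filter (fun j => (Fed c j ∨ j = o) ∧ level c j = ℓ)

lemma card_rel_le (c : Circuit ι s) (o : Fin s) (ℓ : ℕ) :
    (rel c o ℓ).card + 1 ≤ (width c ℓ + 1) * (if level c o = ℓ then 2 else 1) := by
  classical
  have hw : width c ℓ = (univ.filter (fun j : Fin s => level c j = ℓ ∧ Fed c j)).card := by
    rw [width, Nat.card_eq_fintype_card, Fintype.card_subtype]
  by_cases ho : level c o = ℓ
  · rw [if_pos ho]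
    have : rel c o ℓ ⊆ insert o (univ.filter (fun j : Fin s => level c j = ℓ ∧ Fed c j)) := by
      intro j hj
      rw [rel, mem_filter] at hj
      rw [mem_insert, mem_filter]
      rcases hj.2.1 with h | h
      · right; exact ⟨mem_univ _, hj.2.2, h⟩
      · left; exact h
    have h2 := (Finset.card_le_card this).trans (Finset.card_insert_le _ _)
    rw [← hw] at h2
    omega
  · rw [if_neg ho, mul_one]
    have : rel c o ℓ ⊆ univ.filter (fun j : Fin s => level c j = ℓ ∧ Fed c j) := by
      intro j hj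
      rw [rel, mem_filter] at hj
      rw [mem_filter]
      rcases hj.2.1 with h | h
      · exact ⟨mem_univ _, hj.2.2, h⟩
      · exfalso; apply ho; rw [← h]; exact hj.2.2
    have h2 := Finset.card_le_card this
    rw [← hw] at h2
    omega

lemma width_top (c : Circuit ι s) : width c s = 0 := by
  classical
  rw [width, Nat.card_eq_fintype_card, Fintype.card_subtype, Finset.card_eq_zero]
  apply Finset.filter_false_of_mem
  rintro j - ⟨h1, i, m, a, f, l, hi, hj⟩
  have h2 := level_arb_lt c i hi l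
  have h3 : (⟨(a l).1, (a l).2.trans i.2⟩ : Fin s) = j := Fin.ext hj
  rw [h3, h1] at h2
  have h4 := level_le c i.1 i.2
  have h5 := i.2
  have h6 : level c ⟨i.1, i.2⟩ = level c i := rfl
  have h7 : (a l).1 < i.1 := (a l).2
  have h8 := level_le c j.1 j.2
  have h9 : level c ⟨j.1, j.2⟩ = level c j := rfl
  omega

lemma prod_rel_le (c : Circuit ι s) (o : Fin s) :
    ∏ ℓ ∈ range (s + 1), ((rel c o ℓ).card + 1) ≤ 2 * ∏ ℓ ∈ range s, (width c ℓ + 1) := by
  have h1 : ∏ ℓ ∈ range (s + 1), ((rel c o ℓ).card + 1) ≤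
      ∏ ℓ ∈ range (s + 1), ((width c ℓ + 1) * (if level c o = ℓ then 2 else 1)) :=
    Finset.prod_le_prod' fun ℓ _ => card_rel_le c o ℓ
  rw [Finset.prod_mul_distrib, Finset.prod_ite_eq] at h1
  refine h1.trans ?_
  rw [Finset.prod_range_succ, width_top, zero_add, mul_one, mul_comm]
  apply Nat.mul_le_mul_right
  split_ifs <;> norm_num

variable {U : Type*} [Fintype U] [Nonempty U]

open Classical in
/-- The abstract lower bound for circuits with arbitrary gates. -/
theorem circuit_bound {b K R N : ℕ} {q : ℝ} {Y : U → Finset E} (hb : 1 ≤ b)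
    (hK : 1 ≤ K) (hq : 16 * b * 2 ^ K ≤ q)
    (hY : ∀ A : Finset E, A.card ≤ 2 * b →
      ((univ.filter (fun u => A ⊆ Y u)).card : ℝ) ≤ Fintype.card U * (1 / q) ^ A.card)
    (hN : ∀ u, N ≤ (Y u).card) (hU : 2 * Fintype.card U ≤ 2 ^ N)
    (π : ι → Bool ⊕ E) (c : Circuit ι s) (o : Fin s)
    (hc : ∀ X : Finset E, val c (inp π X) o = true ↔ ∃ u, Y u ⊆ X)
    (hS : size c ≤ 2 ^ b)
    (hSR : 2 ^ K * (size c + 1) * (lowSets E b).card ≤ 2 ^ R) :
    2 ^ K ≤ (∏ ℓ ∈ range s, (width c ℓ + 1)) * (88 * K * R) := by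
  have hR : 1 ≤ R := by
    by_contra hcon
    have hR0 : R = 0 := by omega
    rw [hR0, pow_zero] at hSR
    have e1 : 1 ≤ (lowSets E b).card := by
      rw [Nat.one_le_iff_ne_zero, Finset.card_ne_zero]
      exact ⟨∅, by simp [lowSets]⟩
    have e2 : 2 ≤ 2 ^ K := by
      calc 2 = 2 ^ 1 := (pow_one 2).symm
        _ ≤ 2 ^ K := Nat.pow_le_pow_right (by norm_num) hK
    have e3 : 1 ≤ size c + 1 := by omega
    have : 2 * 1 * 1 ≤ 2 ^ K * (size c + 1) * (lowSets E b).card :=
      Nat.mul_le_mul (Nat.mul_le_mul e2 e3) e1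
    omega
  set W : ℝ := ((lowSets E b).card : ℝ) with hW
  set ε : ℝ := (size c + 1) * (W * (1 / 2) ^ R) with hε
  have hε0 : 0 ≤ ε := by positivity
  have hmε : (2 : ℝ) ^ K * ε ≤ 1 := by
    have e1 : ((2 : ℝ) ^ K * (size c + 1) * W) ≤ 2 ^ R := by
      rw [hW]; exact_mod_cast hSR
    rw [hε]
    have e4 : (1 / 2 : ℝ) ^ R = 1 / 2 ^ R := by rw [div_pow, one_pow]
    rw [e4]
    have : (2 : ℝ) ^ K * ((size c + 1) * (W * (1 / 2 ^ R))) =
        ((2 : ℝ) ^ K * (size c + 1) * W) / 2 ^ R := by
      ring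
    rw [this, div_le_one (by positivity)]
    exact e1
  have key := NegLim.main_rounds (E := E) (U := U) (H := Fin s → Bool) (J := Fin s) (b := b)
    (K := K) (N := N) (q := q) (ε := ε) (Y := Y) hb hK hq hε0 hmε hN hU (fun _ => R)
    (fun _ => hR) (info π c o) (fun _ h j => query π c h j) (rel c o) (s + 1) ?_ ?_ ?_ ?_
  · have e1 : ∑ ℓ ∈ range (s + 1), (rel c o ℓ).card *
        (R * ∏ i ∈ range ℓ, ((rel c o i).card + 1)) ≤
        R * ∏ ℓ ∈ range (s + 1), ((rel c o ℓ).card + 1) := by
      have e2 := NegLim.sum_widths (fun ℓ => (rel c o ℓ).card) (s + 1)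
      rw [← e2, mul_add, Finset.mul_sum, mul_one]
      refine le_trans (le_of_eq ?_) (Nat.le_add_right _ _)
      refine Finset.sum_congr rfl fun ℓ _ => ?_
      ring
    have e3 := prod_rel_le c o
    calc 2 ^ K ≤ _ := key
      _ ≤ 44 * K * (R * ∏ ℓ ∈ range (s + 1), ((rel c o ℓ).card + 1)) := Nat.mul_le_mul_left _ e1
      _ ≤ 44 * K * (R * (2 * ∏ ℓ ∈ range s, (width c ℓ + 1))) :=
          Nat.mul_le_mul_left _ (Nat.mul_le_mul_left _ e3)
      _ = (∏ ℓ ∈ range s, (width c ℓ + 1)) * (88 * K * R) := by ring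
  · intro X X'
    funext j
    simp [info]
  · intro ℓ _ h j
    have := NegLim.dich_circuit (E := E) (U := U) (b := b) (K := K) (R := R) (q := q) (Y := Y)
      hb hq hY (mapVar π (toList c (sig c h) s le_rfl))
      (by rw [NegLim.numNot_mapVar]; exact numNot_toList c _ s le_rfl) (s - 1 - j.1) (size c)
      (by rw [NegLim.size_mapVar]; exact size_toList_le c _ s le_rfl) hS
    exact this
  · intro ℓ _ X X' he hq'
    funext j
    by_cases hj : (Fed c j ∨ j = o) ∧ level c j < ℓ + 1
    · rcases Nat.lt_succ_iff_lt_or_eq.mp hj.2 with hl | hl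
      · have h1 := congrFun he j
        unfold info at h1 ⊢
        rw [if_pos ⟨hj.1, hl⟩, if_pos ⟨hj.1, hl⟩] at h1
        rw [if_pos hj, if_pos hj]
        exact h1
      · have h1 := hq' j (by rw [rel, mem_filter]; exact ⟨mem_univ _, hj.1, hl⟩)
        rw [query_eq π c o ℓ X _ rfl j hl.le, query_eq π c o ℓ X' _ he.symm j hl.le] at h1
        unfold info
        rw [if_pos hj, if_pos hj]
        exact h1
    · unfold info
      rw [if_neg hj, if_neg hj]
  · intro X X' he
    rw [← hc X, ← hc X']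
    have h1 := congrFun he o
    unfold info at h1
    have h2 : level c o < s + 1 := by
      have := level_le c o.1 o.2
      have h3 : level c ⟨o.1, o.2⟩ = level c o := rfl
      have h4 := o.2
      omega
    rw [if_pos ⟨Or.inr rfl, h2⟩, if_pos ⟨Or.inr rfl, h2⟩] at h1
    rw [h1]

end Pool.Agent.LayCirc
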