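import Pool.Agent.Work.MP_71c844_lc.NegCode

namespace Pool.Agent.NegLim

set_option linter.unusedSectionVars false

open Finset

section clique

variable {p : ℕ} [Fact p.Prime] {b N : ℕ}

/-- names of the parts -/
abbrev Part (b N : ℕ) : Type := (Fin N × Fin (2 * b) × Fin 2 × Fin 2) ⊕ (Fin N × Fin 2)

/-- the vertex of each part that is selected by the seed `u` -/
def view (u : Seed p b) : Part b N → ZMod p × ZMod p
  | .inl (i, l, s, r) => (ps (u s r) ((i.1 : ℕ) : ZMod p) l.1, u s r l)
  | .inr (i, s) => (ps (u s 0) ((i.1 : ℕ) : ZMod p) (2 * b), ps (u s 1) ((i.1 : ℕ) : ZMod p) (2 * b))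

/-- vertices of the multipartite graph, with universal vertices -/
abbrev Vtx (p b N d : ℕ) : Type := (Part b N × (ZMod p × ZMod p)) ⊕ Fin d

/-- the fixed adjacency -/
def fixAdj {d : ℕ} : Vtx p b N d → Vtx p b N d → Prop
  | .inl a, .inl c => a.1 ≠ c.1 ∧ ∃ u : Seed p b, view u a.1 = a.2 ∧ view u c.1 = c.2
  | .inl _, .inr _ => True
  | .inr _, .inl _ => True
  | .inr a, .inr c => a ≠ c

lemma fixAdj_symm {d : ℕ} (a c : Vtx p b N d) (h : fixAdj a c) : fixAdj c a := by
  rcases a with a | a <;> rcases c with c | c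
  · obtain ⟨h1, u, h2, h3⟩ := h
    exact ⟨h1.symm, u, h3, h2⟩
  · trivial
  · trivial
  · exact fun e => h e.symm

/-- endpoints of the edge that carries the variable `t` -/
def endL {d : ℕ} (t : Gr p N) : Vtx p b N d := .inl (.inr (t.1, 0), t.2.1)
def endR {d : ℕ} (t : Gr p N) : Vtx p b N d := .inl (.inr (t.1, 1), t.2.2)

variable {d v : ℕ} (ι : Vtx p b N d ↪ Fin v)

open Classical in
/-- the projection -/
noncomputable def proj (e : Sym2 (Fin v)) : Bool ⊕ Gr p N :=
  if h : ∃ t : Gr p N, e = s(ι (endL t), ι (endR t)) then .inr h.choose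
  else .inl (decide (∃ a c : Vtx p b N d, e = s(ι a, ι c) ∧ fixAdj a c))

omit [Fact p.Prime] in
lemma end_unique {t t' : Gr p N} (h : s(ι (endL t), ι (endR t)) = s(ι (endL t'), ι (endR t'))) :
    t = t' := by
  rw [Sym2.eq_iff] at h
  rcases h with ⟨h1, h2⟩ | ⟨h1, h2⟩
  · have e1 := ι.injective h1
    have e2 := ι.injective h2
    simp only [endL, endR, Sum.inl.injEq, Prod.mk.injEq, Sum.inr.injEq] at e1 e2
    exact Prod.ext e1.1.1 (Prod.ext e1.2 e2.2)
  · have e1 := ι.injective h1
    simp only [endL, endR, Sum.inl.injEq, Prod.mk.injEq, Sum.inr.injEq] at e1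
    exact absurd e1.1.2 (by decide)

open Classical in
lemma pull_var (x : Gr p N → Bool) (t : Gr p N) :
    pull (proj ι) x s(ι (endL t), ι (endR t)) = x t := by
  have h : ∃ t' : Gr p N, s(ι (endL t), ι (endR t)) = s(ι (endL t'), ι (endR t')) := ⟨t, rfl⟩
  unfold pull proj
  rw [dif_pos h]
  have := end_unique ι h.choose_spec
  simp only
  rw [← this]

open Classical in
lemma pull_fix (x : Gr p N → Bool) (e : Sym2 (Fin v))
    (h : ¬ ∃ t : Gr p N, e = s(ι (endL t), ι (endR t))) :
    pull (proj ι) x e = true ↔ ∃ a c : Vtx p b N d, e = s(ι a, ι c) ∧ fixAdj a c := by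
  unfold pull proj
  rw [dif_neg h]
  simp

lemma pull_fix' (x : Gr p N → Bool) (a c : Vtx p b N d)
    (h : ¬ ∃ t : Gr p N, s(ι a, ι c) = s(ι (endL t), ι (endR t))) :
    pull (proj ι) x s(ι a, ι c) = true ↔ fixAdj a c := by
  rw [pull_fix ι x _ h]
  constructor
  · rintro ⟨a', c', he, hf⟩
    rw [Sym2.eq_iff] at he
    rcases he with ⟨h1, h2⟩ | ⟨h1, h2⟩
    · rw [ι.injective h1, ι.injective h2]; exact hf
    · rw [ι.injective h1, ι.injective h2]; exact fixAdj_symm _ _ hf
  · intro hf; exact ⟨a, c, rfl, hf⟩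

/-- graph on `Fin v` -/
def gph (x : Sym2 (Fin v) → Bool) : SimpleGraph (Fin v) := SimpleGraph.fromEdgeSet {e | x e = true}

/-- part of a vertex -/
def partOf : Vtx p b N d → Part b N ⊕ Fin d
  | .inl a => .inl a.1
  | .inr a => .inr a

/-- canonical vertices of a seed -/
def canon (u : Seed p b) : Part b N ⊕ Fin d → Vtx p b N d
  | .inl j => .inl (j, view u j)
  | .inr a => .inr a

omit [Fact p.Prime] in
lemma partOf_endL (t : Gr p N) : partOf (endL t : Vtx p b N d) = .inl (.inr (t.1, 0)) := rfl
omit [Fact p.Prime] in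
lemma partOf_endR (t : Gr p N) : partOf (endR t : Vtx p b N d) = .inl (.inr (t.1, 1)) := rfl

lemma adj_part_ne (x : Gr p N → Bool) (a c : Vtx p b N d)
    (h : (gph (pull (proj ι) x)).Adj (ι a) (ι c)) : partOf a ≠ partOf c := by
  rw [gph, SimpleGraph.fromEdgeSet_adj] at h
  obtain ⟨h1, h2⟩ := h
  have h1' : pull (proj ι) x s(ι a, ι c) = true := h1
  by_cases ht : ∃ t : Gr p N, s(ι a, ι c) = s(ι (endL t), ι (endR t))
  · obtain ⟨t, ht⟩ := ht
    rw [Sym2.eq_iff] at ht
    rcases ht with ⟨e1, e2⟩ | ⟨e1, e2⟩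
    · rw [ι.injective e1, ι.injective e2, partOf_endL, partOf_endR]
      simp
    · rw [ι.injective e1, ι.injective e2, partOf_endL, partOf_endR]
      simp
  · rw [pull_fix' ι x a c ht] at h1'
    rcases a with a | a <;> rcases c with c | c
    · intro hh; exact h1'.1 (Sum.inl.inj hh)
    · intro hh; cases hh
    · intro hh; cases hh
    · intro hh; exact h1' (Sum.inr.inj hh)

lemma code_eq_view (u : Seed p b) (i : Fin N) :
    code u i.1 = (view u (.inr (i, 0) : Part b N), view u (.inr (i, 1) : Part b N)) := rfl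

/-- a planted set gives a clique -/
lemma clique_of_planted (x : Gr p N → Bool) (u : Seed p b)
    (hu : ∀ i : Fin N, x (i, code u i.1) = true) :
    ¬ (gph (pull (proj ι) x)).CliqueFree (Fintype.card (Part b N ⊕ Fin d)) := by
  classical
  intro hfree
  have hinj : Function.Injective (fun z : Part b N ⊕ Fin d => ι (canon u z)) := by
    intro z z' h
    have := ι.injective h
    rcases z with z | z <;> rcases z' with z' | z' <;> simp_all [canon]
  apply hfree (univ.image (fun z : Part b N ⊕ Fin d => ι (canon u z)))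
  constructor
  · intro a ha c hc hac
    rw [Finset.mem_coe, Finset.mem_image] at ha hc
    obtain ⟨z, _, rfl⟩ := ha
    obtain ⟨z', _, rfl⟩ := hc
    rw [gph, SimpleGraph.fromEdgeSet_adj]
    refine ⟨?_, hac⟩
    show pull (proj ι) x s(ι (canon u z), ι (canon u z')) = true
    have hzz : z ≠ z' := fun h => hac (by rw [h])
    by_cases ht : ∃ t : Gr p N, s(ι (canon u z), ι (canon u z')) = s(ι (endL t), ι (endR t))
    · obtain ⟨t, ht⟩ := ht
      rw [ht, pull_var]
      have key : ∀ z1 z2 : Part b N ⊕ Fin d, ι (canon u z1) = ι (endL t) →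
          ι (canon u z2) = ι (endR t) → x t = true := by
        intro z1 z2 e1 e2
        have e1' := ι.injective e1
        have e2' := ι.injective e2
        rcases z1 with z1 | z1
        · rcases z2 with z2 | z2
          · simp only [canon, endL, endR, Sum.inl.injEq, Prod.mk.injEq] at e1' e2'
            obtain ⟨f1, f2⟩ := e1'
            obtain ⟨g1, g2⟩ := e2'
            subst f1; subst g1
            have : t = (t.1, code u t.1.1) := by
              rw [code_eq_view, f2, g2]
            rw [this]; exact hu t.1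
          · simp [canon, endR] at e2'
        · simp [canon, endL] at e1'
      rw [Sym2.eq_iff] at ht
      rcases ht with ⟨e1, e2⟩ | ⟨e1, e2⟩
      · exact key z z' e1 e2
      · exact key z' z e2 e1
    · rw [pull_fix' ι x _ _ ht]
      rcases z with z | z <;> rcases z' with z' | z'
      · exact ⟨fun h => hzz (by rw [show z = z' from h]), u, rfl, rfl⟩
      · trivial
      · trivial
      · exact fun h => hzz (by rw [h])
  · rw [Finset.card_image_of_injective _ hinj, Finset.card_univ]

/-- a clique gives a planted set -/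
lemma planted_of_clique (hb : 1 ≤ b) (hN1 : 1 ≤ N) (x : Gr p N → Bool)
    (h : ¬ (gph (pull (proj ι) x)).CliqueFree (Fintype.card (Part b N ⊕ Fin d))) :
    ∃ u : Seed p b, ∀ i : Fin N, x (i, code u i.1) = true := by
  classical
  rw [SimpleGraph.CliqueFree] at h
  push Not at h
  obtain ⟨S, hclq⟩ := h
  have hS := hclq.isClique
  have hScard := hclq.card_eq
  -- there are at least two parts
  have h2 : 2 ≤ S.card := by
    rw [hScard, Fintype.card_sum, Fintype.card_sum, Fintype.card_prod, Fintype.card_prod,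
      Fintype.card_fin, Fintype.card_fin, Fintype.card_prod]
    simp only [Fintype.card_fin]
    nlinarith
  -- every vertex of the clique is in the range
  have hrange : ∀ a ∈ S, ∃ w : Vtx p b N d, ι w = a := by
    intro a ha
    obtain ⟨c, hc, hca⟩ := Finset.exists_mem_ne (by omega : 1 < S.card) a
    have hadj := hS (Finset.mem_coe.mpr ha) (Finset.mem_coe.mpr hc) hca.symm
    rw [gph, SimpleGraph.fromEdgeSet_adj] at hadj
    have h1 : pull (proj ι) x s(a, c) = true := hadj.1
    by_cases ht : ∃ t : Gr p N, s(a, c) = s(ι (endL t), ι (endR t))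
    · obtain ⟨t, ht⟩ := ht
      rw [Sym2.eq_iff] at ht
      rcases ht with ⟨e1, e2⟩ | ⟨e1, e2⟩
      · exact ⟨_, e1.symm⟩
      · exact ⟨_, e1.symm⟩
    · rw [pull_fix ι x _ ht] at h1
      obtain ⟨a', c', he, _⟩ := h1
      rw [Sym2.eq_iff] at he
      rcases he with ⟨e1, e2⟩ | ⟨e1, e2⟩
      · exact ⟨_, e1.symm⟩
      · exact ⟨_, e1.symm⟩
  -- the clique meets every part
  let T : Finset (Vtx p b N d) := univ.filter (fun w => ι w ∈ S)
  have hT : T.card = S.card := by
    apply Finset.card_bij (fun w _ => ι w)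
    · intro w hw
      simp only [T, mem_filter, mem_univ, true_and] at hw
      exact hw
    · intro w _ w' _ h; exact ι.injective h
    · intro a ha
      obtain ⟨w, hw⟩ := hrange a ha
      exact ⟨w, by simp only [T, mem_filter, mem_univ, true_and]; rw [hw]; exact ha, hw⟩
  have hpinj : Set.InjOn partOf (T : Set (Vtx p b N d)) := by
    intro w hw w' hw' hpp
    by_contra hne
    simp only [T, coe_filter, mem_univ, true_and, Set.mem_setOf_eq] at hw hw'
    have hadj := hS (Finset.mem_coe.mpr hw) (Finset.mem_coe.mpr hw')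
      (fun h => hne (ι.injective h))
    exact adj_part_ne ι x w w' hadj hpp
  have himg : T.image partOf = univ := by
    apply Finset.eq_univ_of_card
    rw [Finset.card_image_of_injOn hpinj, hT, hScard]
  have hex : ∀ j : Part b N, ∃ y : ZMod p × ZMod p, ι (.inl (j, y)) ∈ S := by
    intro j
    have : (Sum.inl j : Part b N ⊕ Fin d) ∈ T.image partOf := by rw [himg]; exact mem_univ _
    rw [Finset.mem_image] at this
    obtain ⟨w, hw, hwj⟩ := this
    simp only [T, mem_filter, mem_univ, true_and] at hw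
    rcases w with w | w
    · simp only [partOf, Sum.inl.injEq] at hwj
      subst hwj
      exact ⟨w.2, hw⟩
    · simp [partOf] at hwj
  choose σ hσ using hex
  -- pairwise adjacency
  have hadj : ∀ j j' : Part b N, j ≠ j' →
      pull (proj ι) x s(ι (.inl (j, σ j)), ι (.inl (j', σ j'))) = true := by
    intro j j' hjj
    have := hS (Finset.mem_coe.mpr (hσ j)) (Finset.mem_coe.mpr (hσ j')) (fun h => by
      have := ι.injective h
      simp only [Sum.inl.injEq, Prod.mk.injEq] at this
      exact hjj this.1)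
    rw [gph, SimpleGraph.fromEdgeSet_adj] at this
    exact this.1
  -- pairs with a part of the first kind are consistent
  have hcons : ∀ (q : Fin N × Fin (2 * b) × Fin 2 × Fin 2) (j' : Part b N), .inl q ≠ j' →
      ∃ u : Seed p b, view u (.inl q : Part b N) = σ (.inl q) ∧ view u j' = σ j' := by
    intro q j' hqj
    have h1 := hadj (.inl q) j' hqj
    rw [pull_fix' ι x _ _ (by
      rintro ⟨t, ht⟩
      rw [Sym2.eq_iff] at ht
      rcases ht with ⟨e1, _⟩ | ⟨e1, _⟩
      · have := ι.injective e1
        simp [endL] at this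
      · have := ι.injective e1
        simp [endR] at this)] at h1
    exact h1.2
  let i0 : Fin N := ⟨0, by omega⟩
  let u : Seed p b := fun s r l => (σ (.inl (i0, l, s, r))).2
  have claimA : ∀ i l s r, (σ (.inl (i, l, s, r))).2 = u s r l := by
    intro i l s r
    by_cases hi : i = i0
    · rw [hi]
    · obtain ⟨u', h1, h2⟩ := hcons (i, l, s, r) (.inl (i0, l, s, r)) (by
        intro h
        simp only [Sum.inl.injEq, Prod.mk.injEq] at h
        exact hi h.1)
      show (σ (.inl (i, l, s, r))).2 = (σ (.inl (i0, l, s, r))).2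
      rw [← h1, ← h2]
      rfl
  have claimB : ∀ (l : ℕ) (hl : l < 2 * b) (i : Fin N) (s r : Fin 2),
      (σ (.inl (i, ⟨l, hl⟩, s, r))).1 = ps (u s r) ((i.1 : ℕ) : ZMod p) l := by
    intro l
    induction l with
    | zero =>
      intro hl i s r
      obtain ⟨u', h1, _⟩ := hcons (i, ⟨0, hl⟩, s, r) (.inr (i, 0)) (by simp)
      rw [← h1]
      simp only [view, ps_zero]
    | succ l ih =>
      intro hl i s r
      obtain ⟨u', h1, h2⟩ := hcons (i, ⟨l, by omega⟩, s, r) (.inl (i, ⟨l + 1, hl⟩, s, r)) (by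
        intro h
        simp only [Sum.inl.injEq, Prod.mk.injEq, Fin.mk.injEq, and_true, true_and] at h
        omega)
      have e1 := ih (by omega) i s r
      have e2 := claimA i ⟨l, by omega⟩ s r
      rw [← h1] at e1 e2
      rw [← h2]
      simp only [view] at e1 e2 ⊢
      rw [ps_succ _ _ _ (by omega), e1, e2, ps_succ _ _ _ (by omega)]
  have claimC : ∀ (i : Fin N) (s : Fin 2), σ (.inr (i, s)) = view u (.inr (i, s) : Part b N) := by
    intro i s
    have hcomp : ∀ r : Fin 2, ∃ u' : Seed p b, view u' (.inr (i, s) : Part b N) = σ (.inr (i, s)) ∧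
        ps (u' s r) ((i.1 : ℕ) : ZMod p) (2 * b) = ps (u s r) ((i.1 : ℕ) : ZMod p) (2 * b) := by
      intro r
      obtain ⟨m, hm⟩ : ∃ m, 2 * b = m + 1 := ⟨2 * b - 1, by omega⟩
      obtain ⟨u', h1, h2⟩ := hcons (i, ⟨m, by omega⟩, s, r) (.inr (i, s)) (by simp)
      refine ⟨u', h2, ?_⟩
      have e1 := claimB m (by omega) i s r
      have e2 := claimA i ⟨m, by omega⟩ s r
      rw [← h1] at e1 e2
      simp only [view] at e1 e2
      rw [show (2 * b) = m + 1 from hm]
      rw [ps_succ _ _ _ (by omega), ps_succ _ _ _ (by omega), e1, e2]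
    obtain ⟨u0, g1, g2⟩ := hcomp 0
    obtain ⟨u1, f1, f2⟩ := hcomp 1
    apply Prod.ext
    · rw [← g1]; exact g2
    · rw [← f1]; exact f2
  refine ⟨u, fun i => ?_⟩
  have h1 := hadj (.inr (i, 0)) (.inr (i, 1)) (by simp)
  have h3 : pull (proj ι) x s(ι (.inl (.inr (i, 0), σ (.inr (i, 0)))),
      ι (.inl (.inr (i, 1), σ (.inr (i, 1))))) = x (i, σ (.inr (i, 0)), σ (.inr (i, 1))) :=
    pull_var ι x (i, σ (.inr (i, 0)), σ (.inr (i, 1)))
  rw [h3, claimC, claimC] at h1
  exact h1

end clique

end Pool.Agent.NegLim
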