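import Pool.Agent.Work.MP_71c844_lc.LayBound
import Pool.Agent.Work.MP_71c844_lc.NegClique

/-!
The bound for CLIQUE (choice of the parameters).
-/

namespace Pool.Agent.LayCirc

open Pool.Agent.NegLim (Part Vtx Gr Seed planted pull proj)

/-- The bound in terms of the parameters of the construction. -/
lemma clique_bound {p : ℕ} [Fact p.Prime] {b N K R d v k s : ℕ} (hb : 1 ≤ b) (hN1 : 1 ≤ N)
    (hNp : N ≤ p) (hK : 1 ≤ K) (hq : 16 * b * 2 ^ K ≤ p ^ 4)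
    (hk : N * (8 * b + 2) + d = k) (hv : N * (8 * b + 2) * p ^ 2 + d ≤ v)
    (hU : 2 * p ^ (8 * b) ≤ 2 ^ N)
    (c : Circuit (Sym2 (Fin v)) s) (o : Fin s) (hS : size c ≤ 2 ^ b)
    (hSR : 2 ^ K * (size c + 1) * (N * p ^ 4 + 1) ^ (2 * b) ≤ 2 ^ R)
    (hc : ∀ x : Sym2 (Fin v) → Bool, val c x o = true ↔
      ¬ (SimpleGraph.fromEdgeSet {e | x e = true}).CliqueFree k) :
    2 ^ K ≤ (∏ ℓ ∈ Finset.range s, (width c ℓ + 1)) * (88 * K * R) := by
  classical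
  have hcardPart : Fintype.card (Part b N) = N * (8 * b + 2) := by
    simp only [Fintype.card_sum, Fintype.card_prod, Fintype.card_fin]; ring
  have hcardV : Fintype.card (Vtx p b N d) = N * (8 * b + 2) * p ^ 2 + d := by
    rw [Fintype.card_sum, Fintype.card_prod, hcardPart, Fintype.card_prod, ZMod.card,
      Fintype.card_fin]
    ring
  have hcardGr : Fintype.card (Gr p N) = N * p ^ 4 := by
    simp only [Fintype.card_prod, Fintype.card_fin, ZMod.card]; ring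
  obtain ⟨ι⟩ : Nonempty (Vtx p b N d ↪ Fin v) :=
    Function.Embedding.nonempty_of_card_le (by rw [hcardV, Fintype.card_fin]; exact hv)
  have hkc : Fintype.card (Part b N ⊕ Fin d) = k := by
    rw [Fintype.card_sum, hcardPart, Fintype.card_fin]; exact hk
  refine circuit_bound (E := Gr p N) (U := Seed p b) (b := b) (K := K) (R := R) (N := N)
    (q := (p : ℝ) ^ 4) (Y := planted N) hb hK (by exact_mod_cast hq)
    (fun A hA => by convert NegLim.planted_spread hb hNp A hA)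
    (fun u => (NegLim.card_planted u).ge) (by rw [NegLim.card_seed]; exact hU)
    (proj ι) c o ?_ hS ?_
  · intro x
    rw [hc, ← hkc]
    constructor
    · intro h
      obtain ⟨u, hu⟩ := NegLim.planted_of_clique ι hb hN1 (fun e => decide (e ∈ x)) h
      refine ⟨u, fun a ha => ?_⟩
      rw [NegLim.mem_planted] at ha
      have := hu a.1
      rw [ha] at this
      simpa using this
    · rintro ⟨u, hu⟩
      apply NegLim.clique_of_planted ι (fun e => decide (e ∈ x)) u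
      intro i
      simp only [decide_eq_true_eq]
      apply hu
      rw [NegLim.mem_planted]
  · refine le_trans ?_ hSR
    apply Nat.mul_le_mul_left
    have := NegLim.card_lowSets_le (E := Gr p N) b
    rwa [hcardGr] at this

/-- choice of the prime -/
lemma choose_prime (b L v : ℕ) (hb1 : 1 ≤ b) (hL2 : 2 ≤ L) (hv2 : 58320 * b ^ 4 * L ^ 3 ≤ v) :
    ∃ p : ℕ, p.Prime ∧ 9 * b * L ≤ p ∧ p ^ 2 * (180 * b ^ 2 * L) ≤ v ∧
      v < 720 * b ^ 2 * L * p ^ 2 := by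
  have hbL : 1 ≤ b * L := Nat.one_le_iff_ne_zero.mpr (by positivity)
  obtain ⟨D, hD⟩ : ∃ D, D = 180 * b ^ 2 * L := ⟨_, rfl⟩
  have hDpos : 0 < D := by rw [hD]; positivity
  obtain ⟨X, hX⟩ : ∃ X, X = v / D := ⟨_, rfl⟩
  obtain ⟨P, hP⟩ : ∃ P, P = Nat.sqrt X := ⟨_, rfl⟩
  have hXge : (18 * b * L) * (18 * b * L) ≤ X := by
    rw [hX, Nat.le_div_iff_mul_le hDpos]
    calc (18 * b * L) * (18 * b * L) * D = 58320 * b ^ 4 * L ^ 3 := by rw [hD]; ring
      _ ≤ v := hv2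
  have hPge : 18 * b * L ≤ P := by rw [hP]; exact Nat.le_sqrt.mpr hXge
  have hP2 : 9 * b * L ≤ P / 2 := by
    rw [Nat.le_div_iff_mul_le (by norm_num)]
    calc 9 * b * L * 2 = 18 * b * L := by ring
      _ ≤ P := hPge
  have hPne : P / 2 ≠ 0 := by
    have : 1 ≤ 9 * b * L := by nlinarith
    omega
  obtain ⟨p, hp, hp1, hp2⟩ := Nat.exists_prime_lt_and_le_two_mul (P / 2) hPne
  have hpP : p ≤ P := by omega
  have hp2P : P + 1 ≤ 2 * p := by omega
  have hPX : P * P ≤ X := by rw [hP]; exact Nat.sqrt_le X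
  have hPX' : X < (P + 1) * (P + 1) := by rw [hP]; exact Nat.lt_succ_sqrt X
  have hXD : X * D ≤ v := by rw [hX]; exact Nat.div_mul_le_self v D
  have hXD' : v < D * (X + 1) := by rw [hX]; exact Nat.lt_mul_div_succ v hDpos
  refine ⟨p, hp, by omega, ?_, ?_⟩
  · rw [← hD]
    have e1 : p ^ 2 ≤ X := by
      rw [sq]; exact (Nat.mul_le_mul hpP hpP).trans hPX
    exact (Nat.mul_le_mul_right D e1).trans hXD
  · have e1 : X + 1 ≤ (2 * p) * (2 * p) := by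
      have := Nat.mul_le_mul hp2P hp2P
      omega
    have e2 : D * (X + 1) ≤ D * ((2 * p) * (2 * p)) := Nat.mul_le_mul_left _ e1
    have e3 : D * ((2 * p) * (2 * p)) = 720 * b ^ 2 * L * p ^ 2 := by rw [hD]; ring
    omega

/-- choice of the number of scales -/
lemma choose_K (p b : ℕ) (hb1 : 1 ≤ b) (hp : 18 * b ≤ p) :
    ∃ K : ℕ, 1 ≤ K ∧ 16 * b * 2 ^ K ≤ p ^ 4 ∧ p ^ 4 < 32 * b * 2 ^ K := by
  obtain ⟨Q, hQ⟩ : ∃ Q, Q = p ^ 4 / (16 * b) := ⟨_, rfl⟩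
  have h16b : 0 < 16 * b := by omega
  have hppos : 0 < p := by omega
  have hQ2 : 2 ≤ Q := by
    rw [hQ, Nat.le_div_iff_mul_le h16b]
    calc 2 * (16 * b) ≤ 18 * b * 2 := by omega
      _ ≤ p * p := Nat.mul_le_mul hp (by omega)
      _ = p ^ 2 := (sq p).symm
      _ ≤ p ^ 4 := Nat.pow_le_pow_right hppos (by norm_num)
  have hKQ : 2 ^ (Nat.log 2 Q) ≤ Q := Nat.pow_log_le_self 2 (by omega)
  have hKQ' : Q < 2 ^ (Nat.log 2 Q + 1) := Nat.lt_pow_succ_log_self (by norm_num) Q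
  refine ⟨Nat.log 2 Q, Nat.log_pos (by norm_num) hQ2, ?_, ?_⟩
  · refine (Nat.mul_le_mul_left _ hKQ).trans ?_
    rw [hQ]; exact Nat.mul_div_le _ _
  · rw [hQ] at hKQ'
    have h1 : p ^ 4 < 2 ^ (Nat.log 2 (p ^ 4 / (16 * b)) + 1) * (16 * b) :=
      (Nat.div_lt_iff_lt_mul h16b).mp hKQ'
    rw [← hQ] at h1
    rw [pow_succ] at h1
    calc p ^ 4 < 2 ^ Nat.log 2 Q * 2 * (16 * b) := h1
      _ = 32 * b * 2 ^ Nat.log 2 Q := by ring

/-- the bound for the number of gates of the reduction -/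
lemma size_bound (b L v p K S w N : ℕ) (hb : b = w + 1) (hL : 1 ≤ L) (hvL : v < 2 ^ L)
    (hp : 2 ≤ p) (hNp : N ≤ p) (hpv : p ^ 2 ≤ v) (hKL : K ≤ 2 * L) (hS : S < 2 ^ w) :
    2 ^ K * (S + 1) * (N * p ^ 4 + 1) ^ (2 * b) ≤ 2 ^ (9 * b * L) := by
  have hppos : 0 < p := by omega
  have e1 : N * p ^ 4 + 1 ≤ 2 ^ (3 * L) := by
    have f1 : N * p ^ 4 ≤ p * p ^ 4 := Nat.mul_le_mul_right _ hNp
    have f2 : p * p ^ 4 + 1 ≤ p ^ 6 := by
      have g2 : 1 ≤ p ^ 5 := Nat.one_le_pow _ _ hppos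
      have g3 : p ^ 5 * 2 ≤ p ^ 5 * p := Nat.mul_le_mul_left _ hp
      have g4 : p * p ^ 4 = p ^ 5 := by ring
      have g5 : p ^ 5 * p = p ^ 6 := by ring
      omega
    have f3 : p ^ 6 ≤ 2 ^ (3 * L) := by
      have g1 : p ^ 6 = (p ^ 2) ^ 3 := by ring
      have g2 : (2 ^ L) ^ 3 = 2 ^ (3 * L) := by rw [← pow_mul, mul_comm]
      rw [g1, ← g2]
      exact Nat.pow_le_pow_left (hpv.trans hvL.le) 3
    omega
  have e2 : 2 ^ K * (S + 1) * (N * p ^ 4 + 1) ^ (2 * b) ≤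
      2 ^ (2 * L) * 2 ^ w * (2 ^ (3 * L)) ^ (2 * b) := by
    apply Nat.mul_le_mul
    · apply Nat.mul_le_mul
      · exact Nat.pow_le_pow_right (by norm_num) hKL
      · omega
    · exact Nat.pow_le_pow_left e1 _
  refine e2.trans ?_
  have e3 : 2 ^ (2 * L) * 2 ^ w * (2 ^ (3 * L)) ^ (2 * b) = 2 ^ (2 * L + w + 6 * (b * L)) := by
    rw [← pow_mul, ← pow_add, ← pow_add]; congr 1; ring
  rw [e3]
  apply Nat.pow_le_pow_right (by norm_num)
  have f1 : 9 * b * L = 9 * (b * L) := by ring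
  have f2 : L ≤ b * L := Nat.le_mul_of_pos_left _ (by omega)
  have f3 : b ≤ b * L := Nat.le_mul_of_pos_right _ (by omega)
  omega

/-- the final comparison -/
lemma final_compare (b L v p K t : ℕ) (hb1 : 1 ≤ b) (hL2 : 2 ≤ L)
    (hvp : v < 720 * b ^ 2 * L * p ^ 2) (hq' : p ^ 4 < 32 * b * 2 ^ K)
    (e1 : 2 ^ K ≤ t * (1584 * b * L ^ 2)) : v ^ 2 < t * b ^ 8 * L ^ 40 := by
  have f1 : v ^ 2 < (720 * b ^ 2 * L * p ^ 2) ^ 2 := Nat.pow_lt_pow_left hvp (by norm_num)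
  have f2 : (720 * b ^ 2 * L * p ^ 2) ^ 2 = 518400 * b ^ 4 * L ^ 2 * p ^ 4 := by ring
  have f3 : 518400 * b ^ 4 * L ^ 2 * p ^ 4 ≤
      518400 * b ^ 4 * L ^ 2 * (32 * b * (t * (1584 * b * L ^ 2))) := by
    apply Nat.mul_le_mul_left
    exact hq'.le.trans (Nat.mul_le_mul_left _ e1)
  have f4 : 518400 * b ^ 4 * L ^ 2 * (32 * b * (t * (1584 * b * L ^ 2))) =
      26276659200 * (t * b ^ 6 * L ^ 4) := by ring
  have f5 : 26276659200 ≤ L ^ 36 := by
    calc 26276659200 ≤ 2 ^ 36 := by norm_num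
      _ ≤ L ^ 36 := Nat.pow_le_pow_left hL2 36
  have f6 : 26276659200 * (t * b ^ 6 * L ^ 4) ≤ L ^ 36 * (t * b ^ 6 * L ^ 4) :=
    Nat.mul_le_mul_right _ f5
  have f7 : L ^ 36 * (t * b ^ 6 * L ^ 4) = t * b ^ 6 * L ^ 40 := by ring
  have f8 : t * b ^ 6 * L ^ 40 ≤ t * b ^ 8 * L ^ 40 := by
    apply Nat.mul_le_mul_right
    apply Nat.mul_le_mul_left
    exact Nat.pow_le_pow_right hb1 (by norm_num)
  omega


end Pool.Agent.LayCirc
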