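import Pool.Agent.Work.MP_71c844_lc.LayPatClique

/-!
Conjunctions of exponentially many circuits without NOT gates.
-/

namespace Pool.Agent.NegLim

set_option linter.unusedSectionVars false

open Finset

variable {E : Type*} [Fintype E] [DecidableEq E] {U : Type*} [Fintype U] [Nonempty U]

/-- The dichotomy for a conjunction. -/
lemma Dich.all {K R b : ℕ} {q ε : ℝ} {Y : U → Finset E} {Γ : Type*} [Fintype Γ]
    (G : Γ → Finset E → Bool) (hG : ∀ g, Dich K R b q ε Y (G g)) :
    Dich K R b q (Fintype.card Γ * ε) Y (fun x => decide (∀ g, G g x = true)) := by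
  classical
  refine ⟨fun x y hxy h => ?_, fun k hk x => ?_⟩
  · simp only [decide_eq_true_eq] at h ⊢
    exact fun g => (hG g).mono x y hxy (h g)
  · set δ : ℝ := 1 / (2 : ℝ) ^ K with hδ
    have hM : (0 : ℝ) < 2 ^ K := by positivity
    have h0 : 0 ≤ δ := by positivity
    have h1 : δ ≤ 1 := by
      rw [hδ, div_le_one hM]; exact one_le_pow₀ (by norm_num)
    have hUpos : (0 : ℝ) < Fintype.card U := by exact_mod_cast Fintype.card_pos
    by_cases hall : ∀ g, Tn δ (2 ^ k * R) (fun y => if G g y = true then (0 : ℝ) else 1) x ≤ ε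
    · left
      have hpt : ∀ y, (if decide (∀ g, G g y = true) = true then (0 : ℝ) else 1) ≤
          ∑ g : Γ, (if G g y = true then (0 : ℝ) else 1) := by
        intro y
        by_cases hy : ∀ g, G g y = true
        · rw [if_pos (by simpa using hy)]
          apply Finset.sum_nonneg
          intro g _
          split_ifs <;> norm_num
        · rw [if_neg (by simpa using hy)]
          push Not at hy
          obtain ⟨g, hg⟩ := hy
          have := Finset.single_le_sum (f := fun g => if G g y = true then (0 : ℝ) else 1)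
            (fun g _ => by
              show (0 : ℝ) ≤ if G g y = true then (0 : ℝ) else 1
              split_ifs <;> norm_num) (Finset.mem_univ g)
          refine le_trans (le_of_eq ?_) this
          rw [if_neg hg]
      refine (Tn_mono h0 h1 hpt _ _).trans ?_
      rw [Tn_sum]
      refine (Finset.sum_le_sum fun g _ => hall g).trans (le_of_eq ?_)
      rw [Finset.sum_const, Finset.card_univ, nsmul_eq_mul]
    · right
      push Not at hall
      obtain ⟨g, hg⟩ := hall
      have h2 := ((hG g).dich k hk x).resolve_left (not_le.mpr hg)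
      refine le_trans ?_ h2
      apply div_le_div_of_nonneg_right _ hUpos.le
      have : univ.filter (fun u => decide (∀ g, G g (x ∪ Y u) = true) = true) ⊆
          univ.filter (fun u => G g (x ∪ Y u) = true) := by
        intro u hu
        rw [Finset.mem_filter] at hu ⊢
        refine ⟨mem_univ _, ?_⟩
        have h3 := hu.2
        simp only [decide_eq_true_eq] at h3
        exact h3 g
      exact_mod_cast Finset.card_le_card this

open Classical in
/-- The abstract lower bound for conjunctions. -/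
theorem conj_bound {b K R N S : ℕ} {q : ℝ} {Y : U → Finset E} (hb : 1 ≤ b)
    (hK : 1 ≤ K) (hq : 16 * b * 2 ^ K ≤ q)
    (hY : ∀ A : Finset E, A.card ≤ 2 * b →
      ((univ.filter (fun u => A ⊆ Y u)).card : ℝ) ≤ Fintype.card U * (1 / q) ^ A.card)
    (hN : ∀ u, N ≤ (Y u).card) (hU : 2 * Fintype.card U ≤ 2 ^ N)
    {Γ : Type*} [Fintype Γ] (c : Γ → List (Gate E)) (hmon : ∀ g, numNot (c g) = 0) (j : Γ → ℕ)
    (hc : ∀ x : Finset E, (∀ g, gval (c g) (j g) x = true) ↔ ∃ u, Y u ⊆ x)
    (hcS : ∀ g, size (c g) ≤ S) (hS : S ≤ 2 ^ b)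
    (hSR : 2 ^ K * (Fintype.card Γ * ((S + 1) * (lowSets E b).card)) ≤ 2 ^ R) (hR : 1 ≤ R) :
    2 ^ K ≤ 44 * K * R := by
  set W : ℝ := ((lowSets E b).card : ℝ) with hW
  set ε : ℝ := ((S : ℝ) + 1) * (W * (1 / 2) ^ R) with hε
  have hε0 : 0 ≤ ε := by positivity
  have hmε : (2 : ℝ) ^ K * (Fintype.card Γ * ε) ≤ 1 := by
    have e1 : ((2 : ℝ) ^ K * (Fintype.card Γ * (((S : ℝ) + 1) * W))) ≤ 2 ^ R := by
      rw [hW]; exact_mod_cast hSR
    rw [hε]
    have e4 : (1 / 2 : ℝ) ^ R = 1 / 2 ^ R := by rw [div_pow, one_pow]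
    rw [e4]
    have : (2 : ℝ) ^ K * (Fintype.card Γ * (((S : ℝ) + 1) * (W * (1 / 2 ^ R)))) =
        ((2 : ℝ) ^ K * (Fintype.card Γ * (((S : ℝ) + 1) * W))) / 2 ^ R := by
      ring
    rw [this, div_le_one (by positivity)]
    exact e1
  have key := main_single (E := E) (U := U) (H := Unit) (b := b) (K := K) (N := N) (R := R)
    (P := 1) (q := q) (ε := Fintype.card Γ * ε) (Y := Y) hb hK hq (by positivity) hmε hN hU hR
    le_rfl (fun _ => ()) (fun _ x => decide (∀ g, gval (c g) (j g) x = true)) ?_ ?_ ?_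
  · rw [mul_one] at key
    exact key
  · intro s _ m
    exact Finset.card_le_one_of_subsingleton _
  · intro _
    apply Dich.all
    intro g
    exact dich_circuit hb hq hY (c g) (hmon g) (j g) S (hcS g) hS
  · intro x hx
    refine ⟨?_, fun u => ?_⟩
    · rw [decide_eq_false_iff_not, hc x]
      exact hx
    · rw [decide_eq_true_eq, hc]
      exact ⟨u, Finset.subset_union_right⟩

end Pool.Agent.NegLim

namespace Pool.Agent.LayCirc

open Pool.Agent.NegLim (Part Vtx Gr Seed planted pull proj)

/-- The bound in terms of the parameters of the construction. -/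
lemma conj_clique_bound {p : ℕ} [Fact p.Prime] {b N K R d v k s : ℕ} (hb : 1 ≤ b) (hN1 : 1 ≤ N)
    (hNp : N ≤ p) (hK : 1 ≤ K) (hq : 16 * b * 2 ^ K ≤ p ^ 4)
    (hk : N * (8 * b + 2) + d = k) (hv : N * (8 * b + 2) * p ^ 2 + d ≤ v)
    (hU : 2 * p ^ (8 * b) ≤ 2 ^ N)
    {Γ : Type} [Fintype Γ] (c : Γ → Circuit (Sym2 (Fin v)) s) (o : Γ → Fin s)
    (hmon : ∀ g i m a f, c g i ≠ .arb m a f)
    (hS : s ≤ 2 ^ b)
    (hSR : 2 ^ K * (Fintype.card Γ * ((s + 1) * (N * p ^ 4 + 1) ^ (2 * b))) ≤ 2 ^ R) (hR : 1 ≤ R)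
    (hc : ∀ x : Sym2 (Fin v) → Bool, (∀ g, val (c g) x (o g) = true) ↔
      ¬ (SimpleGraph.fromEdgeSet {e | x e = true}).CliqueFree k) :
    2 ^ K ≤ 44 * K * R := by
  classical
  have hcardPart : Fintype.card (Part b N) = N * (8 * b + 2) := by
    simp only [Fintype.card_sum, Fintype.card_prod, Fintype.card_fin]; ring
  have hcardV : Fintype.card (Vtx p b N d) = N * (8 * b + 2) * p ^ 2 + d := by
    rw [Fintype.card_sum, Fintype.card_prod, hcardPart, Fintype.card_prod, ZMod.card,
      Fintype.card_fin]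
    ring
  have hcardGr : Fintype.card (Gr p N) = N * p ^ 4 := by
    simp only [Fintype.card_prod, Fintype.card_fin, ZMod.card]; ring
  obtain ⟨ι⟩ : Nonempty (Vtx p b N d ↪ Fin v) :=
    Function.Embedding.nonempty_of_card_le (by rw [hcardV, Fintype.card_fin]; exact hv)
  have hkc : Fintype.card (Part b N ⊕ Fin d) = k := by
    rw [Fintype.card_sum, hcardPart, Fintype.card_fin]; exact hk
  -- values of the circuits
  have hval : ∀ (g : Γ) (x : Finset (Gr p N)),
      NegLim.gval (NegLim.mapVar (proj ι) (toList (c g) (fun _ => false) s le_rfl))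
        (s - 1 - (o g).1) x = val (c g) (inp (proj ι) x) (o g) := by
    intro g x
    unfold NegLim.gval
    rw [NegLim.run_mapVar]
    refine run_toList (c g) (fun _ => false) (inp (proj ι) x) (s + 1) ?_ s le_rfl (o g).1
      (o g).2 ?_
    · rintro i ⟨m, a, f, hi⟩ _
      exact absurd hi (hmon g i m a f)
    · have h1 := level_le (c g) (o g).1 (o g).2
      have h2 := (o g).2
      omega
  refine NegLim.conj_bound (E := Gr p N) (U := Seed p b) (b := b) (K := K) (R := R) (N := N)
    (S := s) (q := (p : ℝ) ^ 4) (Y := planted N) hb hK (by exact_mod_cast hq)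
    (fun A hA => ?_)
    (fun u => (NegLim.card_planted u).ge) (by rw [NegLim.card_seed]; exact hU)
    (fun g => NegLim.mapVar (proj ι) (toList (c g) (fun _ => false) s le_rfl)) ?_
    (fun g => s - 1 - (o g).1) ?_ ?_ hS ?_ hR
  · exact NegLim.planted_spread hb hNp A hA
  · intro g
    rw [NegLim.numNot_mapVar, numNot_toList]
  · intro x
    have e1 : (∀ g, NegLim.gval (NegLim.mapVar (proj ι) (toList (c g) (fun _ => false) s le_rfl))
        (s - 1 - (o g).1) x = true) ↔ ∀ g, val (c g) (inp (proj ι) x) (o g) = true :=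
      forall_congr' fun g => by rw [hval g x]
    rw [e1, hc, ← hkc]
    constructor
    · intro h
      obtain ⟨u, hu⟩ := NegLim.planted_of_clique ι hb hN1 (fun e => decide (e ∈ x)) h
      refine ⟨u, fun a ha => ?_⟩
      rw [NegLim.mem_planted] at ha
      have := hu a.1
      rw [ha] at this
      simpa using this
    · rintro ⟨u, hu⟩
      apply NegLim.clique_of_planted ι (fun e => decide (e ∈ x)) u
      intro i
      simp only [decide_eq_true_eq]
      apply hu
      rw [NegLim.mem_planted]
  · intro g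
    rw [NegLim.size_mapVar]
    refine (size_toList_le (c g) _ s le_rfl).trans ?_
    rw [size, Nat.card_eq_fintype_card]
    exact (Fintype.card_subtype_le _).trans (le_of_eq (Fintype.card_fin s))
  · refine le_trans ?_ hSR
    apply Nat.mul_le_mul_left
    apply Nat.mul_le_mul_left
    apply Nat.mul_le_mul_left
    have := NegLim.card_lowSets_le (E := Gr p N) b
    rwa [hcardGr] at this

end Pool.Agent.LayCirc
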