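import Mathlib

namespace Pool.Agent.LayCirc

/-- The gates that may read the outputs of the gates number `0, …, n - 1`, over the input
variables `ι`: a variable, a constant, AND, OR, and an arbitrary gate with any number `m` of
inputs which computes any Boolean function `f` (for example NOT). -/
inductive Gate (ι : Type) (n : ℕ) where
  | var (i : ι)
  | const (b : Bool)
  | and (j k : Fin n)
  | or (j k : Fin n)
  | arb (m : ℕ) (a : Fin m → Fin n) (f : (Fin m → Bool) → Bool)

/-- A circuit with `s` gates, over the input variables `ι`. Gate number `i` reads only gates with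
smaller numbers. -/
abbrev Circuit (ι : Type) (s : ℕ) : Type := (i : Fin s) → Gate ι i.1

variable {ι : Type} {s : ℕ}

/-- The value of gate number `i` on the input `x`. -/
def val (c : Circuit ι s) (x : ι → Bool) (i : Fin s) : Bool :=
  match c i with
  | .var e => x e
  | .const b => b
  | .and j k => val c x ⟨j.1, j.2.trans i.2⟩ && val c x ⟨k.1, k.2.trans i.2⟩
  | .or j k => val c x ⟨j.1, j.2.trans i.2⟩ || val c x ⟨k.1, k.2.trans i.2⟩
  | .arb _ a f => f fun l => val c x ⟨(a l).1, (a l).2.trans i.2⟩
termination_by i.1
decreasing_by
  · exact j.2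
  · exact k.2
  · exact j.2
  · exact k.2
  · exact (a l).2

/-- The level of a gate: the largest number of arbitrary gates on a path of the circuit that ends
in this gate (the gate itself counts). -/
def level (c : Circuit ι s) (i : Fin s) : ℕ :=
  match c i with
  | .var _ => 0
  | .const _ => 0
  | .and j k => max (level c ⟨j.1, j.2.trans i.2⟩) (level c ⟨k.1, k.2.trans i.2⟩)
  | .or j k => max (level c ⟨j.1, j.2.trans i.2⟩) (level c ⟨k.1, k.2.trans i.2⟩)
  | .arb _ a _ => (Finset.univ.sup fun l => level c ⟨(a l).1, (a l).2.trans i.2⟩) + 1
termination_by i.1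
decreasing_by
  · exact j.2
  · exact k.2
  · exact j.2
  · exact k.2
  · exact (a l).2

/-- Gate number `j` is an input of some arbitrary gate. -/
def Fed (c : Circuit ι s) (j : Fin s) : Prop :=
  ∃ (i : Fin s) (m : ℕ) (a : Fin m → Fin i.1) (f : (Fin m → Bool) → Bool) (l : Fin m),
    c i = .arb m a f ∧ (a l).1 = j.1

/-- The vector of the values, on the input `x`, of all gates that are inputs of arbitrary gates. -/
def pattern (c : Circuit ι s) (x : ι → Bool) : {j : Fin s // Fed c j} → Bool := fun j => val c x j.1

/-- The input consisting of `x` and of the guess `y`; the two literals of the `l`-th bit of the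
guess are the input variables `(l, true)` (equal to `y l`) and `(l, false)` (its negation). -/
def withGuess {a : ℕ} (x : ι → Bool) (y : Fin a → Bool) : ι ⊕ (Fin a × Bool) → Bool :=
  Sum.elim x fun p => y p.1 == p.2

/-- The number of gates of level `ℓ` which are inputs of arbitrary gates. -/
noncomputable def width (c : Circuit ι s) (ℓ : ℕ) : ℕ :=
  Nat.card {j : Fin s // level c j = ℓ ∧ Fed c j}

/-- The number of AND and OR gates. -/
noncomputable def size (c : Circuit ι s) : ℕ :=
  Nat.card {i : Fin s // (∃ j k, c i = .and j k) ∨ ∃ j k, c i = .or j k}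

end Pool.Agent.LayCirc
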