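import Pool.Agent.Work.MP_71c844_lc.LayPattern
import Pool.Agent.Work.MP_71c844_lc.LayClique

/-!
The bound for CLIQUE in terms of patterns (choice of the parameters).
-/

namespace Pool.Agent.LayCirc

open Pool.Agent.NegLim (Part Vtx Gr Seed planted pull proj)

/-- The bound in terms of the parameters of the construction. -/
lemma pat_clique_bound {p : ℕ} [Fact p.Prime] {b N K R d v k s P : ℕ} (hb : 1 ≤ b) (hN1 : 1 ≤ N)
    (hNp : N ≤ p) (hK : 1 ≤ K) (hq : 16 * b * 2 ^ K ≤ p ^ 4)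
    (hk : N * (8 * b + 2) + d = k) (hv : N * (8 * b + 2) * p ^ 2 + d ≤ v)
    (hU : 2 * p ^ (8 * b) ≤ 2 ^ N)
    (c : Circuit (Sym2 (Fin v)) s) (o : Fin s) (hP1 : 1 ≤ P)
    (hP : ∀ x : ℕ → (Sym2 (Fin v) → Bool), Monotone x →
      (Set.range (fun i => pattern c (x i))).ncard ≤ P)
    (hS : 2 * s ≤ 2 ^ b)
    (hSR : 2 ^ K * (2 * s + 1) * (N * p ^ 4 + 1) ^ (2 * b) ≤ 2 ^ R)
    (hc : ∀ x : Sym2 (Fin v) → Bool, val c x o = true ↔
      ¬ (SimpleGraph.fromEdgeSet {e | x e = true}).CliqueFree k) :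
    2 ^ K ≤ P * (88 * K * R) := by
  classical
  have hcardPart : Fintype.card (Part b N) = N * (8 * b + 2) := by
    simp only [Fintype.card_sum, Fintype.card_prod, Fintype.card_fin]; ring
  have hcardV : Fintype.card (Vtx p b N d) = N * (8 * b + 2) * p ^ 2 + d := by
    rw [Fintype.card_sum, Fintype.card_prod, hcardPart, Fintype.card_prod, ZMod.card,
      Fintype.card_fin]
    ring
  have hcardGr : Fintype.card (Gr p N) = N * p ^ 4 := by
    simp only [Fintype.card_prod, Fintype.card_fin, ZMod.card]; ring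
  obtain ⟨ι⟩ : Nonempty (Vtx p b N d ↪ Fin v) :=
    Function.Embedding.nonempty_of_card_le (by rw [hcardV, Fintype.card_fin]; exact hv)
  have hkc : Fintype.card (Part b N ⊕ Fin d) = k := by
    rw [Fintype.card_sum, hcardPart, Fintype.card_fin]; exact hk
  refine pattern_bound (E := Gr p N) (U := Seed p b) (b := b) (K := K) (R := R) (N := N)
    (q := (p : ℝ) ^ 4) (Y := planted N) hb hK (by exact_mod_cast hq)
    (fun A hA => by convert NegLim.planted_spread hb hNp A hA)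
    (fun u => (NegLim.card_planted u).ge) (by rw [NegLim.card_seed]; exact hU)
    (proj ι) c o ?_ hP1 hP hS ?_
  · intro x
    rw [hc, ← hkc]
    constructor
    · intro h
      obtain ⟨u, hu⟩ := NegLim.planted_of_clique ι hb hN1 (fun e => decide (e ∈ x)) h
      refine ⟨u, fun a ha => ?_⟩
      rw [NegLim.mem_planted] at ha
      have := hu a.1
      rw [ha] at this
      simpa using this
    · rintro ⟨u, hu⟩
      apply NegLim.clique_of_planted ι (fun e => decide (e ∈ x)) u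
      intro i
      simp only [decide_eq_true_eq]
      apply hu
      rw [NegLim.mem_planted]
  · refine le_trans ?_ hSR
    apply Nat.mul_le_mul_left
    have := NegLim.card_lowSets_le (E := Gr p N) b
    rwa [hcardGr] at this

/-- the bound for the number of gates of the reduction -/
lemma size_bound' (b L v p K S N : ℕ) (hb : 1 ≤ b) (hL : 1 ≤ L) (hvL : v < 2 ^ L)
    (hp : 2 ≤ p) (hNp : N ≤ p) (hpv : p ^ 2 ≤ v) (hKL : K ≤ 2 * L) (hS : S < 2 ^ b) :
    2 ^ K * (S + 1) * (N * p ^ 4 + 1) ^ (2 * b) ≤ 2 ^ (9 * b * L) := by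
  have hppos : 0 < p := by omega
  have e1 : N * p ^ 4 + 1 ≤ 2 ^ (3 * L) := by
    have f1 : N * p ^ 4 ≤ p * p ^ 4 := Nat.mul_le_mul_right _ hNp
    have f2 : p * p ^ 4 + 1 ≤ p ^ 6 := by
      have g2 : 1 ≤ p ^ 5 := Nat.one_le_pow _ _ hppos
      have g3 : p ^ 5 * 2 ≤ p ^ 5 * p := Nat.mul_le_mul_left _ hp
      have g4 : p * p ^ 4 = p ^ 5 := by ring
      have g5 : p ^ 5 * p = p ^ 6 := by ring
      omega
    have f3 : p ^ 6 ≤ 2 ^ (3 * L) := by
      have g1 : p ^ 6 = (p ^ 2) ^ 3 := by ring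
      have g2 : (2 ^ L) ^ 3 = 2 ^ (3 * L) := by rw [← pow_mul, mul_comm]
      rw [g1, ← g2]
      exact Nat.pow_le_pow_left (hpv.trans hvL.le) 3
    omega
  have e2 : 2 ^ K * (S + 1) * (N * p ^ 4 + 1) ^ (2 * b) ≤
      2 ^ (2 * L) * 2 ^ b * (2 ^ (3 * L)) ^ (2 * b) := by
    apply Nat.mul_le_mul
    · apply Nat.mul_le_mul
      · exact Nat.pow_le_pow_right (by norm_num) hKL
      · omega
    · exact Nat.pow_le_pow_left e1 _
  refine e2.trans ?_
  have e3 : 2 ^ (2 * L) * 2 ^ b * (2 ^ (3 * L)) ^ (2 * b) = 2 ^ (2 * L + b + 6 * (b * L)) := by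
    rw [← pow_mul, ← pow_add, ← pow_add]; congr 1; ring
  rw [e3]
  apply Nat.pow_le_pow_right (by norm_num)
  have f1 : 9 * b * L = 9 * (b * L) := by ring
  have f2 : L ≤ b * L := Nat.le_mul_of_pos_left _ (by omega)
  have f3 : b ≤ b * L := Nat.le_mul_of_pos_right _ (by omega)
  omega


end Pool.Agent.LayCirc
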