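import Pool.Agent.Work.MP_71c844_lc.NegOp

/-!
Expectations of functionals of the whole random chain, and the time that the chain spends in
states from which a few more steps suffice, for functions that are chosen adaptively.
-/

namespace Pool.Agent.NegLim

open Finset

variable {E : Type*} [Fintype E] [DecidableEq E]

/-- Expectation of a functional of the trajectory (of `n` steps) of the chain started at `x`. -/
noncomputable def PE (δ : ℝ) : ℕ → ((ℕ → Finset E) → ℝ) → Finset E → ℝ
  | 0, Ψ, x => Ψ (fun _ => x)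
  | n + 1, Ψ, x => T δ (fun y => PE δ n (fun s => Ψ (fun i => Nat.casesOn i x s)) y) x

/-- The deterministic bound: a functional which is at most `C` on all increasing sequences has
expectation at most `C`. -/
lemma PE_le {δ : ℝ} (h0 : 0 ≤ δ) (h1 : δ ≤ 1) (n : ℕ) : ∀ (Ψ : (ℕ → Finset E) → ℝ) (C : ℝ)
    (x : Finset E), (∀ s : ℕ → Finset E, s 0 = x → Monotone s → Ψ s ≤ C) → PE δ n Ψ x ≤ C := by
  induction n with
  | zero =>
    intro Ψ C x h
    exact h _ rfl monotone_const
  | succ n ih =>
    intro Ψ C x h
    show T δ (fun y => PE δ n (fun s => Ψ (fun i => Nat.casesOn i x s)) y) x ≤ C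
    have hC : ∑ z : Finset E, wt δ z * C = C := by
      rw [← Finset.sum_mul, sum_wt, one_mul]
    rw [← hC]
    unfold T
    refine Finset.sum_le_sum fun z _ => mul_le_mul_of_nonneg_left ?_ (wt_nonneg h0 h1 z)
    refine ih _ C (x ∪ z) fun s hs0 hs => ?_
    refine h _ rfl ?_
    apply monotone_nat_of_le_succ
    intro i
    cases i with
    | zero =>
      show x ≤ s 0
      rw [hs0]
      exact Finset.subset_union_left
    | succ i => exact hs (Nat.le_succ i)

lemma PE_add (δ : ℝ) (n : ℕ) : ∀ (Ψ Ψ' : (ℕ → Finset E) → ℝ) (x : Finset E),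
    PE δ n (fun s => Ψ s + Ψ' s) x = PE δ n Ψ x + PE δ n Ψ' x := by
  induction n with
  | zero => intro Ψ Ψ' x; rfl
  | succ n ih =>
    intro Ψ Ψ' x
    show T δ _ x = T δ _ x + T δ _ x
    unfold T
    rw [← Finset.sum_add_distrib]
    refine Finset.sum_congr rfl fun z _ => ?_
    rw [← mul_add, ← ih]

lemma PE_zero (δ : ℝ) (n : ℕ) : ∀ (x : Finset E), PE δ n (fun _ => 0) x = 0 := by
  induction n with
  | zero => intro x; rfl
  | succ n ih =>
    intro x
    show T δ _ x = 0
    unfold T
    refine Finset.sum_eq_zero fun z _ => ?_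
    show wt δ z * PE δ n (fun _ => 0) (x ∪ z) = 0
    rw [ih, mul_zero]

lemma PE_sum {ι : Type*} (δ : ℝ) (n : ℕ) (t : Finset ι) (Ψ : ι → (ℕ → Finset E) → ℝ)
    (x : Finset E) : PE δ n (fun s => ∑ i ∈ t, Ψ i s) x = ∑ i ∈ t, PE δ n (Ψ i) x := by
  classical
  induction t using Finset.induction_on with
  | empty => simp [PE_zero]
  | insert a s ha ih =>
    simp only [Finset.sum_insert ha]
    rw [PE_add, ih]

/-- one-time marginals -/
lemma PE_one (δ : ℝ) (ψ : Finset E → ℝ) : ∀ (n i : ℕ), i ≤ n → ∀ x : Finset E,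
    PE δ n (fun s => ψ (s i)) x = Tn δ i ψ x := by
  intro n
  induction n with
  | zero =>
    intro i hi x
    obtain rfl : i = 0 := by omega
    rfl
  | succ n ih =>
    intro i hi x
    cases i with
    | zero =>
      show T δ (fun y => PE δ n (fun _ => ψ x) y) x = ψ x
      have : (fun y : Finset E => PE δ n (fun _ => ψ x) y) = fun _ => ψ x := by
        funext y
        have h := ih 0 (Nat.zero_le _) y
        clear h
        -- the expectation of a constant
        have hc : ∀ (m : ℕ) (c : ℝ) (y : Finset E), PE δ m (fun _ => c) y = c := by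
          intro m c
          induction m with
          | zero => intro y; rfl
          | succ m ihm =>
            intro y
            show T δ _ y = c
            unfold T
            have : ∀ z ∈ (univ : Finset (Finset E)),
                wt δ z * PE δ m (fun _ => c) (y ∪ z) = wt δ z * c := fun z _ => by rw [ihm]
            rw [Finset.sum_congr rfl this, ← Finset.sum_mul, sum_wt, one_mul]
        exact hc n _ y
      rw [this]
      unfold T
      rw [← Finset.sum_mul, sum_wt, one_mul]
    | succ i =>
      rw [Tn_succ]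
      show T δ (fun y => PE δ n (fun s => ψ (s i)) y) x = T δ (Tn δ i ψ) x
      congr 1
      funext y
      exact ih i (by omega) y

/-- two-time marginals -/
lemma PE_two (δ : ℝ) (χ : Finset E → Finset E → ℝ) (r : ℕ) : ∀ (n i : ℕ), i + r ≤ n →
    ∀ x : Finset E, PE δ n (fun s => χ (s i) (s (i + r))) x =
      Tn δ i (fun y => Tn δ r (χ y) y) x := by
  intro n
  induction n with
  | zero =>
    intro i hi x
    obtain rfl : i = 0 := by omega
    obtain rfl : r = 0 := by omega
    rfl
  | succ n ih =>
    intro i hi x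
    cases i with
    | zero =>
      rw [Tn_zero]
      have h := PE_one δ (χ x) (n + 1) r (by omega) x
      rw [← h]
      show T δ _ x = T δ _ x
      congr 1
      funext y
      congr 1
      funext s
      simp only [Nat.zero_add]
      rfl
    | succ i =>
      rw [Tn_succ]
      have e : i + 1 + r = i + r + 1 := by omega
      show T δ (fun y => PE δ n (fun s => χ (s i) (Nat.casesOn (i + 1 + r) x s)) y) x = _
      rw [e]
      show T δ (fun y => PE δ n (fun s => χ (s i) (s (i + r))) y) x = _
      congr 1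
      funext y
      exact ih i (by omega) y

omit [Fintype E] [DecidableEq E] in
/-- Deterministic part of the adaptive telescoping. `st` is the information available in a state,
and `φ h` is the decreasing 0/1 function used with the information `h`. -/
lemma det_shift {H : Type*} [DecidableEq H] (st : Finset E → H) (φ : H → Finset E → ℝ)
    (hφ : ∀ h, ∀ x y, x ⊆ y → φ h y ≤ φ h x) (hφ0 : ∀ h y, 0 ≤ φ h y) (hφ1 : ∀ h y, φ h y ≤ 1)
    (r m P : ℕ) (s : ℕ → Finset E) (hs : Monotone s)
    (hP : ((range m).image (fun i => st (s i))).card ≤ P) :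
    ∑ i ∈ range m, (φ (st (s i)) (s i) - φ (st (s i)) (s (i + r))) ≤ P * r := by
  have h1 : ∑ i ∈ range m, (φ (st (s i)) (s i) - φ (st (s i)) (s (i + r))) =
      ∑ h ∈ (range m).image (fun i => st (s i)), ∑ i ∈ (range m).filter (fun i => st (s i) = h),
        (φ (st (s i)) (s i) - φ (st (s i)) (s (i + r))) := by
    rw [Finset.sum_fiberwise_of_maps_to]
    intro i hi
    exact Finset.mem_image_of_mem _ hi
  rw [h1]
  have h2 : ∀ h ∈ (range m).image (fun i => st (s i)),
      ∑ i ∈ (range m).filter (fun i => st (s i) = h),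
        (φ (st (s i)) (s i) - φ (st (s i)) (s (i + r))) ≤ r := by
    intro h _
    have e1 : ∑ i ∈ (range m).filter (fun i => st (s i) = h),
        (φ (st (s i)) (s i) - φ (st (s i)) (s (i + r))) =
        ∑ i ∈ (range m).filter (fun i => st (s i) = h), (φ h (s i) - φ h (s (i + r))) := by
      refine Finset.sum_congr rfl fun i hi => ?_
      rw [Finset.mem_filter] at hi
      rw [hi.2]
    rw [e1]
    have e2 : ∑ i ∈ (range m).filter (fun i => st (s i) = h), (φ h (s i) - φ h (s (i + r))) ≤
        ∑ i ∈ range m, (φ h (s i) - φ h (s (i + r))) := by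
      apply Finset.sum_le_sum_of_subset_of_nonneg (Finset.filter_subset _ _)
      intro i _ _
      have := hφ h _ _ (hs (Nat.le_add_right i r))
      linarith
    refine e2.trans ?_
    -- telescoping
    have f1 : ∑ i ∈ range m, φ h (s i) ≤ ∑ i ∈ range (r + m), φ h (s i) := by
      apply Finset.sum_le_sum_of_subset_of_nonneg
      · exact Finset.range_mono (by omega)
      · intro i _ _; exact hφ0 h _
    rw [Finset.sum_range_add] at f1
    have f2 : ∑ i ∈ range r, φ h (s i) ≤ r := by
      calc ∑ i ∈ range r, φ h (s i) ≤ ∑ i ∈ range r, (1 : ℝ) :=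
            Finset.sum_le_sum fun i _ => hφ1 h _
        _ = r := by simp
    have f3 : ∑ i ∈ range m, φ h (s (r + i)) = ∑ i ∈ range m, φ h (s (i + r)) :=
      Finset.sum_congr rfl fun i _ => by rw [add_comm]
    rw [Finset.sum_sub_distrib]
    linarith
  refine (Finset.sum_le_sum h2).trans ?_
  rw [Finset.sum_const, nsmul_eq_mul]
  apply mul_le_mul_of_nonneg_right _ (Nat.cast_nonneg r)
  exact_mod_cast hP

open Classical in
/-- The time that the chain spends in states from which `r` more steps suffice, for adaptively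
chosen functions. -/
lemma chain_time_adaptive {H : Type*} {δ : ℝ} (h0 : 0 ≤ δ) (h1 : δ ≤ 1) (st : Finset E → H)
    (φ : H → Finset E → ℝ)
    (hφ : ∀ h, Anti (φ h)) (hφ0 : ∀ h y, 0 ≤ φ h y) (hφ1 : ∀ h y, φ h y ≤ 1)
    (r m P : ℕ) (ε : ℝ) (hε : 0 ≤ ε)
    (hP : ∀ s : ℕ → Finset E, Monotone s → ((range m).image (fun i => st (s i))).card ≤ P) :
    ∑ i ∈ range m, Tn δ i (fun x => if Tn δ r (φ (st x)) x ≤ ε then φ (st x) x else 0) ∅ ≤
      P * r + m * ε := by
  have hpt : ∀ x, (if Tn δ r (φ (st x)) x ≤ ε then φ (st x) x else 0) ≤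
      ε + (φ (st x) x - Tn δ r (φ (st x)) x) := by
    intro x
    have := Tn_le_self h0 h1 (hφ (st x)) r x
    split_ifs with h <;> linarith
  let χ : Finset E → Finset E → ℝ := fun a b => φ (st a) a - φ (st a) b
  have h2 : ∀ i, Tn δ i (fun x => if Tn δ r (φ (st x)) x ≤ ε then φ (st x) x else 0) ∅ ≤
      ε + Tn δ i (fun y => Tn δ r (χ y) y) ∅ := by
    intro i
    calc Tn δ i (fun x => if Tn δ r (φ (st x)) x ≤ ε then φ (st x) x else 0) ∅
        ≤ Tn δ i (fun x => ε + Tn δ r (χ x) x) ∅ := by
          apply Tn_mono h0 h1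
          intro x
          refine (hpt x).trans (le_of_eq ?_)
          congr 1
          show φ (st x) x - Tn δ r (φ (st x)) x = Tn δ r (fun b => φ (st x) x - φ (st x) b) x
          rw [Tn_fsub, Tn_const]
      _ = ε + Tn δ i (fun y => Tn δ r (χ y) y) ∅ := by
          rw [Tn_fadd, Tn_const]
  have h3 : ∑ i ∈ range m, Tn δ i (fun y => Tn δ r (χ y) y) ∅ ≤ P * r := by
    have e1 : ∑ i ∈ range m, Tn δ i (fun y => Tn δ r (χ y) y) ∅ =
        PE δ (m + r) (fun s => ∑ i ∈ range m, χ (s i) (s (i + r))) ∅ := by
      rw [PE_sum]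
      refine Finset.sum_congr rfl fun i hi => ?_
      rw [Finset.mem_range] at hi
      rw [PE_two δ χ r (m + r) i (by omega)]
    rw [e1]
    apply PE_le h0 h1
    intro s _ hs
    exact det_shift st φ hφ hφ0 hφ1 r m P s hs (hP s hs)
  calc _ ≤ ∑ i ∈ range m, (ε + Tn δ i (fun y => Tn δ r (χ y) y) ∅) :=
        Finset.sum_le_sum fun i _ => h2 i
    _ = m * ε + ∑ i ∈ range m, Tn δ i (fun y => Tn δ r (χ y) y) ∅ := by
        rw [Finset.sum_add_distrib, Finset.sum_const, card_range, nsmul_eq_mul]
    _ ≤ P * r + m * ε := by linarith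

end Pool.Agent.NegLim
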