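import Pool.Agent.Work.MP_71c844_lc.LayBound

/-!
The lower bound in terms of the number of patterns along chains of inputs.
-/

namespace Pool.Agent.NegLim

open Finset

variable {ι : Type*}

/-- The circuit `L` together with gates that compute the OR of the gates `is`. -/
def orTop (L : List (Gate ι)) : List ℕ → List (Gate ι)
  | [] => .const false :: L
  | i :: is => .or 0 (i + (is.length + 1)) :: orTop L is

lemma numNot_orTop (L : List (Gate ι)) (is : List ℕ) : numNot (orTop L is) = numNot L := by
  induction is with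
  | nil => rfl
  | cons i is ih => rw [orTop, numNot, ih]; intro j h; cases h

lemma size_orTop (L : List (Gate ι)) (is : List ℕ) : size (orTop L is) = size L + is.length := by
  induction is with
  | nil => rfl
  | cons i is ih => rw [orTop, size, ih, List.length_cons, add_assoc]

lemma run_orTop_tail (L : List (Gate ι)) (is : List ℕ) (x : ι → Bool) (i : ℕ) :
    (run x (orTop L is)).getD (i + (is.length + 1)) false = (run x L).getD i false := by
  induction is with
  | nil => rw [orTop, run]; simp
  | cons i' is ih =>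
    rw [orTop, run, List.length_cons]
    have : i + (is.length + 1 + 1) = (i + (is.length + 1)) + 1 := by omega
    rw [this, List.getD_cons_succ, ih]

lemma run_orTop_head (L : List (Gate ι)) (is : List ℕ) (x : ι → Bool) :
    (run x (orTop L is)).getD 0 false = true ↔ ∃ i ∈ is, (run x L).getD i false = true := by
  induction is with
  | nil => rw [orTop, run]; simp [Gate.value]
  | cons i is ih =>
    rw [orTop, run, List.getD_cons_zero, Gate.value, Bool.or_eq_true, ih, run_orTop_tail]
    simp only [List.mem_cons, exists_eq_or_imp]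
    exact or_comm

section main

variable {E : Type*} [Fintype E] [DecidableEq E] {U : Type*} [Fintype U] [Nonempty U]

open Classical in
/-- The abstract lower bound for one adaptively chosen query. -/
theorem main_single {H : Type*} {b K R N P : ℕ} {q ε : ℝ} {Y : U → Finset E} (hb : 1 ≤ b)
    (hK : 1 ≤ K) (hq : 16 * b * 2 ^ K ≤ q) (hε0 : 0 ≤ ε) (hmε : 2 ^ K * ε ≤ 1)
    (hN : ∀ u, N ≤ (Y u).card) (hU : 2 * Fintype.card U ≤ 2 ^ N)
    (hR : 1 ≤ R) (hP1 : 1 ≤ P)
    (st : Finset E → H) (G : H → Finset E → Bool)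
    (hP : ∀ s : ℕ → Finset E, Monotone s → ∀ m, ((range m).image (fun i => st (s i))).card ≤ P)
    (hG : ∀ h, Dich K R b q ε Y (G h))
    (hcov : ∀ x, (¬ ∃ u, Y u ⊆ x) → G (st x) x = false ∧ ∀ u, G (st x) (x ∪ Y u) = true) :
    2 ^ K ≤ 44 * K * (R * P) := by
  obtain ⟨K', rfl⟩ := Nat.exists_eq_add_of_le' hK
  set m : ℕ := 2 ^ K' with hmdef
  have hm : 2 ^ (K' + 1) = 2 * m := by rw [pow_succ, mul_comm]
  set δ : ℝ := 1 / (2 : ℝ) ^ (K' + 1) with hδ
  have hM : (0 : ℝ) < 2 ^ (K' + 1) := by positivity
  have h0' : 0 ≤ δ := by positivity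
  have h1 : δ ≤ 1 := by
    rw [hδ, div_le_one hM]; exact one_le_pow₀ (by norm_num)
  have hUpos : (0 : ℝ) < Fintype.card U := by exact_mod_cast Fintype.card_pos
  have hmε' : (m : ℝ) * ε ≤ 1 := by
    have e2 : (2 : ℝ) ^ (K' + 1) = 2 * m := by exact_mod_cast hm
    rw [e2] at hmε
    have e5 : 0 ≤ (m : ℝ) * ε := by positivity
    linarith
  let ψ : Finset E → ℝ := fun x =>
    (if G (st x) x = true then (0 : ℝ) else 1) *
        (((univ.filter (fun u => G (st x) (x ∪ Y u) = true)).card : ℝ) / Fintype.card U)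
  let F : Finset E → ℝ := fun x => if ∃ u, Y u ⊆ x then 1 else 0
  have hψ0 : ∀ x, 0 ≤ ψ x := by
    intro x
    simp only [ψ]
    apply mul_nonneg
    · split_ifs <;> norm_num
    · positivity
  have hcov' : ∀ x, 1 ≤ F x + ψ x := by
    intro x
    by_cases hx : ∃ u, Y u ⊆ x
    · have : F x = 1 := by simp only [F]; rw [if_pos hx]
      rw [this]
      linarith [hψ0 x]
    · have hFx : F x = 0 := by simp only [F]; rw [if_neg hx]
      obtain ⟨h2, h3⟩ := hcov x hx
      have h4 : univ.filter (fun u => G (st x) (x ∪ Y u) = true) = univ :=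
        Finset.filter_true_of_mem fun u _ => h3 u
      have hψx : ψ x = 1 := by
        simp only [ψ]
        rw [h4, h2, Finset.card_univ, div_self hUpos.ne']
        simp
      rw [hFx, hψx, zero_add]
  have hψ : ∑ s ∈ range m, Tn δ s ψ ∅ ≤ 11 * ((K' + 1 : ℕ) : ℝ) * R * P :=
    sep_adaptive hb hm hK hR hP1 hq hε0 hmε' st G hG (fun s hs => hP s hs m)
  have hF : ∀ s ∈ range m, Tn δ s F ∅ ≤ 1 / 2 := by
    intro s hs
    rw [Finset.mem_range] at hs
    have hdens : dens δ s ≤ 1 / 2 := by
      refine (dens_le h0' h1 s).trans ?_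
      rw [hδ, hmdef] at *
      have : (s : ℝ) ≤ 2 ^ K' := by exact_mod_cast hs.le
      rw [mul_one_div, div_le_div_iff₀ (by positivity) (by norm_num), pow_succ]
      linarith
    have hd0 := dens_nonneg h0' h1 s
    have e1 : Tn δ s F ∅ ≤ ∑ u : U, dens δ s ^ (Y u).card := by
      have hpt : ∀ x, F x ≤ ∑ u : U, (if Y u ⊆ x then (1 : ℝ) else 0) := by
        intro x
        simp only [F]
        split_ifs with h
        · obtain ⟨u, hu⟩ := h
          have := Finset.single_le_sum (f := fun u : U => if Y u ⊆ x then (1 : ℝ) else 0)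
            (fun u _ => by
              show (0 : ℝ) ≤ if Y u ⊆ x then (1 : ℝ) else 0
              split_ifs <;> norm_num) (Finset.mem_univ u)
          simpa [hu] using this
        · apply Finset.sum_nonneg; intro u _; split_ifs <;> norm_num
      refine (Tn_mono h0' h1 hpt s ∅).trans (le_of_eq ?_)
      rw [Tn_sum]
      refine Finset.sum_congr rfl fun u _ => ?_
      rw [Tn_ind, Finset.sdiff_empty]
    refine e1.trans ?_
    have e2 : ∀ u ∈ (univ : Finset U), dens δ s ^ (Y u).card ≤ (1 / 2) ^ N := by
      intro u _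
      calc dens δ s ^ (Y u).card ≤ (1 / 2) ^ (Y u).card := pow_le_pow_left₀ hd0 hdens _
        _ ≤ (1 / 2) ^ N := pow_le_pow_of_le_one (by norm_num) (by norm_num) (hN u)
    refine (Finset.sum_le_sum e2).trans ?_
    rw [Finset.sum_const, Finset.card_univ, nsmul_eq_mul]
    have e3 : (2 : ℝ) * Fintype.card U ≤ 2 ^ N := by exact_mod_cast hU
    have e4 : (1 / 2 : ℝ) ^ N = 1 / 2 ^ N := by rw [div_pow, one_pow]
    rw [e4, mul_one_div, div_le_div_iff₀ (by positivity) (by norm_num)]
    linarith
  have htot : (m : ℝ) ≤ ∑ s ∈ range m, Tn δ s F ∅ + ∑ s ∈ range m, Tn δ s ψ ∅ := by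
    rw [← Finset.sum_add_distrib]
    have e1 : ∀ s ∈ range m, (1 : ℝ) ≤ Tn δ s F ∅ + Tn δ s ψ ∅ := by
      intro s _
      have := Tn_mono h0' h1 hcov' s ∅
      rw [Tn_const, Tn_fadd] at this
      exact this
    have := Finset.sum_le_sum e1
    simpa using this
  have e5 := Finset.sum_le_sum hF
  rw [Finset.sum_const, card_range, nsmul_eq_mul] at e5
  have e8 : (m : ℝ) / 2 ≤ 11 * ((K' + 1 : ℕ) : ℝ) * R * P := by linarith
  have e9 : ((2 ^ (K' + 1) : ℕ) : ℝ) ≤ ((44 * (K' + 1) * (R * P) : ℕ) : ℝ) := by
    rw [hm]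
    push_cast at e8 ⊢
    linarith
  exact_mod_cast e9

end main

end Pool.Agent.NegLim

namespace Pool.Agent.LayCirc

open Finset
open Pool.Agent.NegLim (Dich Tn lowSets gval pull mapVar orTop)

set_option linter.unusedSectionVars false

variable {ι : Type} {s : ℕ}

variable {E : Type*} [Fintype E] [DecidableEq E]

open Classical in
/-- the pattern, extended by `false` -/
noncomputable def pat (π : ι → Bool ⊕ E) (c : Circuit ι s) (X : Finset E) : Fin s → Bool :=
  fun j => if Fed c j then val c (inp π X) j else false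

open Classical in
/-- the gates whose OR is the query belonging to the pattern `h` -/
noncomputable def idxs (c : Circuit ι s) (o : Fin s) (h : Fin s → Bool) : Finset (Fin s) :=
  univ.filter (fun j => (Fed c j ∧ h j = false) ∨ j = o)

/-- the query belonging to the pattern `h`, as a circuit -/
noncomputable def qry (π : ι → Bool ⊕ E) (c : Circuit ι s) (o : Fin s) (h : Fin s → Bool) :
    List (NegLim.Gate E) :=
  mapVar π (orTop (toList c (sig c h) s le_rfl) ((idxs c o h).toList.map (fun j => s - 1 - j.1)))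

lemma size_qry (π : ι → Bool ⊕ E) (c : Circuit ι s) (o : Fin s) (h : Fin s → Bool) :
    NegLim.size (qry π c o h) ≤ 2 * s := by
  classical
  unfold qry
  rw [NegLim.size_mapVar, NegLim.size_orTop, List.length_map, Finset.length_toList]
  have h1 := size_toList_le c (sig c h) s le_rfl
  have h2 : size c ≤ s := by
    rw [size, Nat.card_eq_fintype_card]
    exact (Fintype.card_subtype_le _).trans (le_of_eq (Fintype.card_fin s))
  have h3 : (idxs c o h).card ≤ s :=
    (Finset.card_le_univ _).trans (le_of_eq (Fintype.card_fin s))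
  omega

lemma numNot_qry (π : ι → Bool ⊕ E) (c : Circuit ι s) (o : Fin s) (h : Fin s → Bool) :
    NegLim.numNot (qry π c o h) = 0 := by
  unfold qry
  rw [NegLim.numNot_mapVar, NegLim.numNot_orTop, numNot_toList]

lemma gval_qry (π : ι → Bool ⊕ E) (c : Circuit ι s) (o : Fin s) (h : Fin s → Bool)
    (X : Finset E) :
    gval (qry π c o h) 0 X = true ↔ ∃ j ∈ idxs c o h,
      (NegLim.run (inp π X) (toList c (sig c h) s le_rfl)).getD (s - 1 - j.1) false = true := by
  unfold gval qry
  rw [NegLim.run_mapVar]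
  show (NegLim.run (inp π X) _).getD 0 false = true ↔ _
  rw [NegLim.run_orTop_head]
  simp only [List.mem_map, Finset.mem_toList]
  constructor
  · rintro ⟨i, ⟨j, hj, rfl⟩, h2⟩
    exact ⟨j, hj, h2⟩
  · rintro ⟨j, hj, h2⟩
    exact ⟨_, ⟨j, hj, rfl⟩, h2⟩

/-- With the right constants the frozen circuit computes the right values, as long as the
arguments of the arbitrary gates below are right. -/
lemma frozen_eq (c : Circuit ι s) (h : Fin s → Bool) (x : ι → Bool) (n : ℕ) (_hn : n ≤ s)
    (hh : ∀ j : Fin s, j.1 < n → Fed c j → h j = val c x j) :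
    ∀ (j : ℕ) (hj : j < s), j ≤ n →
      (NegLim.run x (toList c (sig c h) s le_rfl)).getD (s - 1 - j) false = val c x ⟨j, hj⟩ := by
  -- first for the circuit consisting of the first `m` gates
  have key : ∀ (m : ℕ) (hm : m ≤ s), ∀ (j : ℕ) (hj : j < m), j ≤ n →
      (NegLim.run x (toList c (sig c h) m hm)).getD (m - 1 - j) false =
        val c x ⟨j, hj.trans_le hm⟩ := by
    intro m
    induction m with
    | zero => intro hm j hj; omega
    | succ m ih =>
      intro hm j hj hjn
      have hms : m ≤ s := Nat.le_of_succ_le hm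
      rcases Nat.lt_succ_iff_lt_or_eq.mp hj with hjm | hjm
      · have e1 : m + 1 - 1 - j = (m - 1 - j) + 1 := by omega
        rw [e1, toList, NegLim.run, List.getD_cons_succ]
        exact ih hms j hjm hjn
      · subst hjm
        have e1 : j + 1 - 1 - j = 0 := by omega
        rw [e1, toList, NegLim.run, List.getD_cons_zero]
        rcases hc : c ⟨j, hm⟩ with e | b | ⟨k, k'⟩ | ⟨k, k'⟩ | ⟨m, a, f⟩
        · rw [val_var c x _ hc]; rfl
        · rw [val_const c x _ hc]; rfl
        · rw [val_and c x _ hc]
          simp only [conv, NegLim.Gate.value]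
          have h1 : k.1 < j := k.2
          have h2 : k'.1 < j := k'.2
          rw [ih hms k.1 k.2 (by omega), ih hms k'.1 k'.2 (by omega)]
        · rw [val_or c x _ hc]
          simp only [conv, NegLim.Gate.value]
          have h1 : k.1 < j := k.2
          have h2 : k'.1 < j := k'.2
          rw [ih hms k.1 k.2 (by omega), ih hms k'.1 k'.2 (by omega)]
        · simp only [conv, NegLim.Gate.value]
          rw [sig_arb c h _ hc, val_arb c x _ hc]
          congr 1
          funext l
          have h1 : (a l).1 < j := (a l).2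
          exact hh _ (by show (a l).1 < n; omega) ⟨_, m, a, f, l, hc, rfl⟩
  intro j hj hjn
  exact key s le_rfl j hj hjn

lemma pat_cover (π : ι → Bool ⊕ E) (c : Circuit ι s) (o : Fin s) (X Z : Finset E) (hXZ : X ⊆ Z)
    (hX : val c (inp π X) o = false) :
    gval (qry π c o (pat π c X)) 0 X = false ∧
      (val c (inp π Z) o = true → gval (qry π c o (pat π c X)) 0 Z = true) := by
  classical
  have hself : ∀ j : Fin s, (NegLim.run (inp π X) (toList c (sig c (pat π c X)) s le_rfl)).getD
      (s - 1 - j.1) false = val c (inp π X) j := by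
    intro j
    refine frozen_eq c (pat π c X) (inp π X) s le_rfl (fun i _ hi => ?_) j.1 j.2 j.2.le
    unfold pat
    rw [if_pos hi]
  constructor
  · rw [← Bool.not_eq_true, gval_qry]
    rintro ⟨j, hj, hj2⟩
    rw [hself j] at hj2
    rw [idxs, mem_filter] at hj
    rcases hj.2 with ⟨h1, h2⟩ | h1
    · unfold pat at h2
      rw [if_pos h1, hj2] at h2
      cases h2
    · rw [h1, hX] at hj2
      cases hj2
  · intro hZ
    rw [gval_qry]
    by_cases hsame : ∀ j : Fin s, Fed c j → val c (inp π Z) j = val c (inp π X) j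
    · -- the patterns agree, hence the output separates
      refine ⟨o, by rw [idxs, mem_filter]; exact ⟨mem_univ _, Or.inr rfl⟩, ?_⟩
      rw [frozen_eq c (pat π c X) (inp π Z) s le_rfl (fun i _ hi => ?_) o.1 o.2 o.2.le]
      · exact hZ
      · unfold pat
        rw [if_pos hi, hsame i hi]
    · push Not at hsame
      -- the first gate where the patterns differ
      have hex : ∃ n : ℕ, ∃ hn : n < s, Fed c ⟨n, hn⟩ ∧
          val c (inp π Z) ⟨n, hn⟩ ≠ val c (inp π X) ⟨n, hn⟩ := by
        obtain ⟨j, h1, h2⟩ := hsame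
        exact ⟨j.1, j.2, h1, h2⟩
      obtain ⟨hn, hfed, hne⟩ := Nat.find_spec hex
      have hmin := fun m (hm : m < Nat.find hex) => Nat.find_min hex hm
      have hfr := frozen_eq c (pat π c X) (inp π Z) (Nat.find hex) hn.le (fun i hi hfi => by
        unfold pat
        rw [if_pos hfi]
        by_contra hcon
        exact hmin i.1 hi ⟨i.2, hfi, fun h => hcon h.symm⟩) (Nat.find hex) hn le_rfl
      have hmono : val c (inp π X) ⟨Nat.find hex, hn⟩ = true →
          val c (inp π Z) ⟨Nat.find hex, hn⟩ = true := by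
        intro h1
        rw [← hfr]
        refine NegLim.run_mono (a := inp π X) (b := inp π Z) ?_ _
          (numNot_toList c _ s le_rfl) _ ?_
        · intro i hi
          unfold inp pull at hi ⊢
          split at hi
          · exact hi
          · simp only [decide_eq_true_eq] at hi ⊢
            exact hXZ hi
        · have := hself ⟨Nat.find hex, hn⟩
          rw [h1] at this
          exact this
      have hXf : val c (inp π X) ⟨Nat.find hex, hn⟩ = false := by
        rcases hv : val c (inp π X) ⟨Nat.find hex, hn⟩ with _ | _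
        · rfl
        · exfalso
          apply hne
          rw [hmono hv, hv]
      have hZt : val c (inp π Z) ⟨Nat.find hex, hn⟩ = true := by
        rcases hv : val c (inp π Z) ⟨Nat.find hex, hn⟩ with _ | _
        · exfalso
          apply hne
          rw [hv, hXf]
        · rfl
      refine ⟨⟨Nat.find hex, hn⟩, ?_, ?_⟩
      · rw [idxs, mem_filter]
        refine ⟨mem_univ _, Or.inl ⟨hfed, ?_⟩⟩
        unfold pat
        rw [if_pos hfed, hXf]
      · rw [hfr, hZt]

variable {U : Type*} [Fintype U] [Nonempty U]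

open Classical in
/-- The abstract lower bound in terms of patterns. -/
theorem pattern_bound {b K R N P : ℕ} {q : ℝ} {Y : U → Finset E} (hb : 1 ≤ b)
    (hK : 1 ≤ K) (hq : 16 * b * 2 ^ K ≤ q)
    (hY : ∀ A : Finset E, A.card ≤ 2 * b →
      ((univ.filter (fun u => A ⊆ Y u)).card : ℝ) ≤ Fintype.card U * (1 / q) ^ A.card)
    (hN : ∀ u, N ≤ (Y u).card) (hU : 2 * Fintype.card U ≤ 2 ^ N)
    (π : ι → Bool ⊕ E) (c : Circuit ι s) (o : Fin s)
    (hc : ∀ X : Finset E, val c (inp π X) o = true ↔ ∃ u, Y u ⊆ X)
    (hP1 : 1 ≤ P)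
    (hP : ∀ x : ℕ → (ι → Bool), Monotone x → (Set.range (fun i => pattern c (x i))).ncard ≤ P)
    (hS : 2 * s ≤ 2 ^ b)
    (hSR : 2 ^ K * (2 * s + 1) * (lowSets E b).card ≤ 2 ^ R) :
    2 ^ K ≤ P * (88 * K * R) := by
  have hR : 1 ≤ R := by
    by_contra hcon
    have hR0 : R = 0 := by omega
    rw [hR0, pow_zero] at hSR
    have e1 : 1 ≤ (lowSets E b).card := by
      rw [Nat.one_le_iff_ne_zero, Finset.card_ne_zero]
      exact ⟨∅, by simp [lowSets]⟩
    have e2 : 2 ≤ 2 ^ K := by
      calc 2 = 2 ^ 1 := (pow_one 2).symm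
        _ ≤ 2 ^ K := Nat.pow_le_pow_right (by norm_num) hK
    have e3 : 1 ≤ 2 * s + 1 := by omega
    have : 2 * 1 * 1 ≤ 2 ^ K * (2 * s + 1) * (lowSets E b).card :=
      Nat.mul_le_mul (Nat.mul_le_mul e2 e3) e1
    omega
  set W : ℝ := ((lowSets E b).card : ℝ) with hW
  set ε : ℝ := (((2 * s : ℕ) : ℝ) + 1) * (W * (1 / 2) ^ R) with hε
  have hε0 : 0 ≤ ε := by positivity
  have hmε : (2 : ℝ) ^ K * ε ≤ 1 := by
    have e1 : ((2 : ℝ) ^ K * (((2 * s : ℕ) : ℝ) + 1) * W) ≤ 2 ^ R := by
      rw [hW]; exact_mod_cast hSR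
    rw [hε]
    have e4 : (1 / 2 : ℝ) ^ R = 1 / 2 ^ R := by rw [div_pow, one_pow]
    rw [e4]
    have : (2 : ℝ) ^ K * ((((2 * s : ℕ) : ℝ) + 1) * (W * (1 / 2 ^ R))) =
        ((2 : ℝ) ^ K * (((2 * s : ℕ) : ℝ) + 1) * W) / 2 ^ R := by
      ring
    rw [this, div_le_one (by positivity)]
    exact e1
  have key := NegLim.main_single (E := E) (U := U) (H := Fin s → Bool) (b := b)
    (K := K) (N := N) (R := R) (P := P) (q := q) (ε := ε) (Y := Y) hb hK hq hε0 hmε hN hU hR hP1
    (pat π c) (fun h => gval (qry π c o h) 0) ?_ ?_ ?_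
  · calc 2 ^ K ≤ 44 * K * (R * P) := key
      _ ≤ 88 * K * (R * P) := by
          apply Nat.mul_le_mul_right
          apply Nat.mul_le_mul_right
          norm_num
      _ = P * (88 * K * R) := by ring
  · intro x hx m
    have h1 := hP (fun i => inp π (x i)) (by
      intro i j hij e
      show inp π (x i) e ≤ inp π (x j) e
      unfold inp pull
      rcases π e with b' | t
      · exact le_rfl
      · have := hx hij
        by_cases h : t ∈ x i
        · simp only [h, this h, le_refl]
        · simp only [h, decide_false]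
          exact Bool.false_le _)
    refine le_trans ?_ h1
    rw [← Set.ncard_coe_finset]
    -- an injection from the patterns
    let ext : ({j : Fin s // Fed c j} → Bool) → (Fin s → Bool) :=
      fun f j => if h : Fed c j then f ⟨j, h⟩ else false
    refine le_trans (Set.ncard_le_ncard
      (t := ext '' (Set.range (fun i => pattern c (inp π (x i))))) ?_ (Set.toFinite _))
      (Set.ncard_image_le (Set.toFinite _))
    intro f hf
    obtain ⟨i, _, rfl⟩ := (@Finset.mem_image _ _
      (fun a b => Classical.propDecidable (a = b)) _ _ _).mp (Finset.mem_coe.mp hf)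
    refine ⟨pattern c (inp π (x i)), ⟨i, rfl⟩, ?_⟩
    funext j
    simp only [ext, pattern, pat]
    by_cases h : Fed c j
    · rw [dif_pos h, if_pos h]
    · rw [dif_neg h, if_neg h]
  · intro h
    have := NegLim.dich_circuit (E := E) (U := U) (b := b) (K := K) (R := R) (q := q) (Y := Y)
      hb hq hY (qry π c o h) (numNot_qry π c o h) 0 (2 * s) (size_qry π c o h) hS
    exact this
  · intro x hx
    have hxo : val c (inp π x) o = false := by
      rw [← Bool.not_eq_true, hc x]; exact hx
    refine ⟨(pat_cover π c o x x (Finset.Subset.refl _) hxo).1, fun u => ?_⟩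
    apply (pat_cover π c o x (x ∪ Y u) Finset.subset_union_left hxo).2
    rw [hc]
    exact ⟨u, Finset.subset_union_right⟩

end Pool.Agent.LayCirc
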