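import Pool.Agent.Work.MP_71c844_lc.NegApprox
import Pool.Agent.Work.MP_71c844_lc.LayPath

/-!
Separation bound for adaptively chosen monotone functions.
-/

namespace Pool.Agent.NegLim

set_option linter.unusedSectionVars false

open Finset

variable {E : Type*} [Fintype E] [DecidableEq E]

section main

variable {U : Type*} [Fintype U] [Nonempty U]

open Classical in
/-- Monotone Boolean functions satisfying the dichotomy at all scales: at every state `x`, either
`2 ^ k * R` more sprinkling steps make `G` true with probability `1 - ε`, or planting makes `G`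
true with probability at most `32 b 2 ^ K / (2 ^ k q)`. -/
structure Dich (K R b : ℕ) (q ε : ℝ) (Y : U → Finset E) (G : Finset E → Bool) : Prop where
  mono : ∀ x y, x ⊆ y → G x = true → G y = true
  dich : ∀ k ≤ K, ∀ x, Tn (1 / (2 : ℝ) ^ K) (2 ^ k * R)
      (fun y => if G y = true then (0 : ℝ) else 1) x ≤ ε ∨
    ((univ.filter (fun u => G (x ∪ Y u) = true)).card : ℝ) / Fintype.card U ≤
      4 * (8 * b * 2 ^ K / 2 ^ k / q)

open Classical in
/-- Every gate of a small circuit without NOT gates satisfies the dichotomy. -/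
lemma dich_circuit {b K R : ℕ} {q : ℝ} {Y : U → Finset E} (hb : 1 ≤ b)
    (hq : 16 * b * 2 ^ K ≤ q)
    (hY : ∀ A : Finset E, A.card ≤ 2 * b →
      ((univ.filter (fun u => A ⊆ Y u)).card : ℝ) ≤ Fintype.card U * (1 / q) ^ A.card)
    (c : List (Gate E)) (hc : numNot c = 0) (j S : ℕ) (hcS : size c ≤ S) (hS : S ≤ 2 ^ b) :
    Dich K R b q ((S + 1) * ((lowSets E b).card * (1 / 2) ^ R)) Y (gval c j) := by
  refine ⟨fun x y hxy h => gval_mono c hc j hxy h, ?_⟩
  set δ : ℝ := 1 / (2 : ℝ) ^ K with hδ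
  have hM : (0 : ℝ) < 2 ^ K := by positivity
  have h0 : 0 ≤ δ := by positivity
  have h1 : δ ≤ 1 := by
    rw [hδ, div_le_one hM]; exact one_le_pow₀ (by norm_num)
  have hb' : (1 : ℝ) ≤ b := by exact_mod_cast hb
  have hqpos : 0 < q := lt_of_lt_of_le (by positivity) hq
  have hUpos : (0 : ℝ) < Fintype.card U := by exact_mod_cast Fintype.card_pos
  let B : ℕ → ℝ := fun k => 8 * b * 2 ^ K / 2 ^ k
  have hB0 : ∀ k, 0 < B k := fun k => by simp only [B]; positivity
  have hBq : ∀ k, B k / q ≤ 1 / 2 := by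
    intro k
    rw [div_le_iff₀ hqpos]
    have : B k ≤ 8 * b * 2 ^ K := by
      simp only [B]
      apply div_le_self (by positivity)
      exact one_le_pow₀ (by norm_num)
    linarith
  have hscale : ∀ k, k ≤ K → Scale E U δ (2 ^ k) b R (B k) q Y := by
    intro k hk
    refine ⟨h0, h1, hB0 k, hqpos, hBq k, hb, ?_, fun A hA => by convert hY A hA⟩
    have hge := dens_ge (M := 2 ^ K) (n := 2 ^ k) (by positivity)
      (Nat.pow_le_pow_right (by norm_num) hk)
    push_cast at hge
    rw [← hδ] at hge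
    have e1 : B k * ((2 : ℝ) ^ k / (2 * 2 ^ K)) = 4 * b := by
      simp only [B]; field_simp; ring
    calc (4 : ℝ) * b = B k * ((2 : ℝ) ^ k / (2 * 2 ^ K)) := e1.symm
      _ ≤ B k * dens δ (2 ^ k) := mul_le_mul_of_nonneg_left hge (hB0 k).le
  intro k hk x
  have hcS' : (size c : ℝ) ≤ S := by exact_mod_cast hcS
  rcases dichotomy (hscale k hk) x c hc j with h | h
  · left
    refine h.trans ?_
    apply mul_le_mul_of_nonneg_right _ (by positivity)
    linarith
  · right
    rw [div_le_iff₀ hUpos]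
    refine h.trans ?_
    rw [mul_comm]
    apply mul_le_mul_of_nonneg_right _ hUpos.le
    have hBk : 0 ≤ B k / q := div_nonneg (hB0 k).le hqpos.le
    have e1 : (B k / q) ^ (b + 1) ≤ (1 / 2) ^ b * (B k / q) := by
      rw [pow_succ]
      exact mul_le_mul_of_nonneg_right (pow_le_pow_left₀ hBk (hBq k) b) hBk
    have e2 : (size c : ℝ) * (1 / 2) ^ b ≤ 1 := by
      have e3 : (S : ℝ) ≤ 2 ^ b := by exact_mod_cast hS
      have e4 : (1 / 2 : ℝ) ^ b = 1 / 2 ^ b := by rw [div_pow, one_pow]
      rw [e4, mul_one_div, div_le_one (by positivity)]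
      linarith
    have e5 : (size c : ℝ) * (2 * (B k / q) ^ (b + 1)) ≤ 2 * (B k / q) := by
      calc (size c : ℝ) * (2 * (B k / q) ^ (b + 1))
          ≤ (size c : ℝ) * (2 * ((1 / 2) ^ b * (B k / q))) := by
            apply mul_le_mul_of_nonneg_left _ (by positivity)
            linarith
        _ = ((size c : ℝ) * (1 / 2) ^ b) * (2 * (B k / q)) := by ring
        _ ≤ 1 * (2 * (B k / q)) := mul_le_mul_of_nonneg_right e2 (by positivity)
        _ = 2 * (B k / q) := one_mul _
    show 2 * (B k / q) + size c * (2 * (B k / q) ^ (b + 1)) ≤ 4 * (B k / q)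
    linarith

open Classical in
/-- Separation bound for adaptively chosen functions. -/
lemma sep_adaptive {H : Type*} {b K R m P : ℕ} {q ε : ℝ} {Y : U → Finset E} (hb : 1 ≤ b)
    (hm : 2 ^ K = 2 * m) (hK : 1 ≤ K) (hR : 1 ≤ R) (hP1 : 1 ≤ P)
    (hq : 16 * b * 2 ^ K ≤ q) (hε0 : 0 ≤ ε) (hmε : m * ε ≤ 1)
    (st : Finset E → H) (G : H → Finset E → Bool) (hG : ∀ h, Dich K R b q ε Y (G h))
    (hP : ∀ s : ℕ → Finset E, Monotone s → ((range m).image (fun i => st (s i))).card ≤ P) :
    ∑ i ∈ range m, Tn (1 / (2 : ℝ) ^ K) i (fun x =>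
      (if G (st x) x = true then (0 : ℝ) else 1) *
        (((univ.filter (fun u => G (st x) (x ∪ Y u) = true)).card : ℝ) / Fintype.card U)) ∅ ≤
      11 * K * R * P := by
  set δ : ℝ := 1 / (2 : ℝ) ^ K with hδ
  have hM : (0 : ℝ) < 2 ^ K := by positivity
  have h0 : 0 ≤ δ := by positivity
  have h1 : δ ≤ 1 := by
    rw [hδ, div_le_one hM]; exact one_le_pow₀ (by norm_num)
  have hb' : (1 : ℝ) ≤ b := by exact_mod_cast hb
  have hqpos : 0 < q := lt_of_lt_of_le (by positivity) hq
  have hUpos : (0 : ℝ) < Fintype.card U := by exact_mod_cast Fintype.card_pos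
  let φ : H → Finset E → ℝ := fun h x => if G h x = true then 0 else 1
  have hφ0 : ∀ h x, 0 ≤ φ h x := fun h x => by simp only [φ]; split_ifs <;> norm_num
  have hφ1 : ∀ h x, φ h x ≤ 1 := fun h x => by simp only [φ]; split_ifs <;> norm_num
  have hφa : ∀ h, Anti (φ h) := by
    intro h x y hxy
    simp only [φ]
    split_ifs with e1 e2 e2
    · exact le_rfl
    · exact zero_le_one
    · exact absurd ((hG h).mono x y hxy e2) e1
    · exact le_rfl
  let p : H → Finset E → ℝ := fun h x =>
    ((univ.filter (fun u => G h (x ∪ Y u) = true)).card : ℝ) / Fintype.card U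
  have hp0 : ∀ h x, 0 ≤ p h x := fun h x => by simp only [p]; positivity
  have hp1 : ∀ h x, p h x ≤ 1 := fun h x => by
    simp only [p]; rw [div_le_one hUpos]
    exact_mod_cast Finset.card_filter_le _ _
  let B : ℕ → ℝ := fun k => 8 * b * 2 ^ K / 2 ^ k
  let η : ℕ → ℝ := fun k => 4 * (B k / q)
  have hB0 : ∀ k, 0 < B k := fun k => by simp only [B]; positivity
  have hη0 : ∀ k, 0 ≤ η k := fun k => by
    have := hB0 k
    simp only [η]; positivity
  -- dichotomy
  have hdich : ∀ k, k ≤ K → ∀ h x, Tn δ (2 ^ k * R) (φ h) x ≤ ε ∨ p h x ≤ η k :=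
    fun k hk h x => (hG h).dich k hk x
  -- the pointwise bound
  let D : ℕ → Finset E → ℝ := fun k x =>
    if Tn δ (2 ^ k * R) (φ (st x)) x ≤ ε then φ (st x) x else 0
  have hD0 : ∀ k x, 0 ≤ D k x := fun k x => by
    simp only [D]; split_ifs
    · exact hφ0 _ x
    · exact le_rfl
  have hpt : ∀ x, φ (st x) x * p (st x) x ≤ D 0 x + ∑ k ∈ range K, η k * D (k + 1) x + η K := by
    intro x
    have hφ01 : φ (st x) x = 0 ∨ φ (st x) x = 1 := by
      simp only [φ]; split_ifs <;> simp
    rcases hφ01 with hφx | hφx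
    · rw [hφx, zero_mul]
      have : 0 ≤ ∑ k ∈ range K, η k * D (k + 1) x :=
        Finset.sum_nonneg fun k _ => mul_nonneg (hη0 k) (hD0 _ _)
      linarith [hD0 0 x, hη0 K]
    · rw [hφx, one_mul]
      have key : ∀ K', K' ≤ K → (p (st x) x ≤ D 0 x + ∑ k ∈ range K', η k * D (k + 1) x) ∨
          ¬ Tn δ (2 ^ K' * R) (φ (st x)) x ≤ ε := by
        intro K'
        induction K' with
        | zero =>
          intro _
          by_cases hh : Tn δ (2 ^ 0 * R) (φ (st x)) x ≤ ε
          · left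
            have : D 0 x = 1 := by simp only [D]; rw [if_pos hh, hφx]
            rw [this]; simpa using hp1 (st x) x
          · right; exact hh
        | succ K' ih =>
          intro hK'
          rcases ih (by omega) with hh | hh
          · left
            rw [Finset.sum_range_succ]
            have := mul_nonneg (hη0 K') (hD0 (K' + 1) x)
            linarith
          · by_cases h2 : Tn δ (2 ^ (K' + 1) * R) (φ (st x)) x ≤ ε
            · left
              have e1 : p (st x) x ≤ η K' := (hdich K' (by omega) (st x) x).resolve_left hh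
              have e2 : D (K' + 1) x = 1 := by simp only [D]; rw [if_pos h2, hφx]
              rw [Finset.sum_range_succ, e2, mul_one]
              have e3 : 0 ≤ ∑ k ∈ range K', η k * D (k + 1) x :=
                Finset.sum_nonneg fun k _ => mul_nonneg (hη0 k) (hD0 _ _)
              linarith [hD0 0 x]
            · right; exact h2
      rcases key K le_rfl with hh | hh
      · linarith [hη0 K]
      · have e1 : p (st x) x ≤ η K := (hdich K le_rfl (st x) x).resolve_left hh
        have e3 : 0 ≤ ∑ k ∈ range K, η k * D (k + 1) x :=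
          Finset.sum_nonneg fun k _ => mul_nonneg (hη0 k) (hD0 _ _)
        linarith [hD0 0 x]
  have hsum : ∑ i ∈ range m, Tn δ i (fun x => φ (st x) x * p (st x) x) ∅ ≤
      ∑ i ∈ range m, Tn δ i (D 0) ∅ + ∑ k ∈ range K, η k * ∑ i ∈ range m, Tn δ i (D (k + 1)) ∅ +
        m * η K := by
    have e1 : ∀ i ∈ range m, Tn δ i (fun x => φ (st x) x * p (st x) x) ∅ ≤
        Tn δ i (D 0) ∅ + ∑ k ∈ range K, η k * Tn δ i (D (k + 1)) ∅ + η K := by
      intro i _
      refine (Tn_mono h0 h1 hpt i ∅).trans (le_of_eq ?_)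
      rw [Tn_fadd, Tn_const, Tn_fadd, Tn_sum]
      congr 2
      refine Finset.sum_congr rfl fun k _ => ?_
      rw [Tn_smul]
    refine (Finset.sum_le_sum e1).trans (le_of_eq ?_)
    rw [Finset.sum_add_distrib, Finset.sum_add_distrib, Finset.sum_const, card_range,
      nsmul_eq_mul, Finset.sum_comm]
    congr 2
    refine Finset.sum_congr rfl fun k _ => ?_
    rw [Finset.mul_sum]
  refine hsum.trans ?_
  have hR' : (1 : ℝ) ≤ R := by exact_mod_cast hR
  have hK' : (1 : ℝ) ≤ K := by exact_mod_cast hK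
  have hP' : (1 : ℝ) ≤ P := by exact_mod_cast hP1
  have hPR : (1 : ℝ) ≤ P * R := one_le_mul_of_one_le_of_one_le hP' hR'
  have hct : ∀ k, ∑ i ∈ range m, Tn δ i (D k) ∅ ≤ 2 * 2 ^ k * (P * R) := by
    intro k
    have := chain_time_adaptive h0 h1 st φ hφa hφ0 hφ1 (2 ^ k * R) m P ε hε0 hP
    have e1 : ∑ i ∈ range m, Tn δ i (D k) ∅ ≤ P * ((2 ^ k * R : ℕ) : ℝ) + m * ε := this
    push_cast at e1
    have e2 : (1 : ℝ) ≤ 2 ^ k := one_le_pow₀ (by norm_num)
    have e3 : (1 : ℝ) ≤ 2 ^ k * (P * R) := one_le_mul_of_one_le_of_one_le e2 hPR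
    have e4 : (P : ℝ) * (2 ^ k * R) = 2 ^ k * (P * R) := by ring
    rw [e4] at e1
    linarith
  have t0 : ∑ i ∈ range m, Tn δ i (D 0) ∅ ≤ 2 * (P * R) := by
    have := hct 0
    rw [pow_zero, mul_one] at this
    exact this
  have t1 : ∀ k ∈ range K, η k * ∑ i ∈ range m, Tn δ i (D (k + 1)) ∅ ≤ 8 * (P * R) := by
    intro k _
    calc η k * ∑ i ∈ range m, Tn δ i (D (k + 1)) ∅ ≤ η k * (2 * 2 ^ (k + 1) * (P * R)) :=
          mul_le_mul_of_nonneg_left (hct (k + 1)) (hη0 k)
      _ = (16 * b * 2 ^ K / q) * (8 * (P * R)) := by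
          simp only [η, B]; rw [pow_succ]; field_simp; ring
      _ ≤ 1 * (8 * (P * R)) := by
          apply mul_le_mul_of_nonneg_right _ (by positivity)
          rw [div_le_one hqpos]; exact hq
      _ = 8 * (P * R) := one_mul _
  have t2 : (m : ℝ) * η K ≤ 1 := by
    have e1 : (2 : ℝ) ^ K = 2 * m := by exact_mod_cast hm
    have e2 : (m : ℝ) = 2 ^ K / 2 := by rw [e1]; ring
    have e3 : (m : ℝ) * η K = 16 * b * 2 ^ K / q := by
      simp only [η, B]
      rw [e2]; field_simp; ring
    rw [e3, div_le_one hqpos]; exact hq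
  have t3 := Finset.sum_le_sum t1
  rw [Finset.sum_const, card_range, nsmul_eq_mul] at t3
  have t4 : (1 : ℝ) * (P * R) ≤ K * (P * R) := mul_le_mul_of_nonneg_right hK' (by linarith)
  have t5 : (11 : ℝ) * K * R * P = 8 * (K * (P * R)) + 3 * (K * (P * R)) := by ring
  have t6 : (K : ℝ) * (8 * (P * R)) = 8 * (K * (P * R)) := by ring
  rw [t6] at t3
  rw [t5]
  linarith

end main

end Pool.Agent.NegLim
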