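import Mathlib

namespace Pool.Agent.NegLim

/-- Gates of a Boolean circuit over input variables indexed by `ι`. The numbers `j`, `k` refer to
earlier gates (see `run`). -/
inductive Gate (ι : Type*) where
  | var (i : ι)
  | const (b : Bool)
  | and (j k : ℕ)
  | or (j k : ℕ)
  | not (j : ℕ)

/-- The value of a gate, given the input `x` and the list `vs` of values of the earlier gates;
the number `j` refers to the `j`-th entry of `vs` (a reference out of range reads `false`). -/
def Gate.value {ι : Type*} (x : ι → Bool) (vs : List Bool) : Gate ι → Bool
  | .var i => x i
  | .const b => b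
  | .and j k => vs.getD j false && vs.getD k false
  | .or j k => vs.getD j false || vs.getD k false
  | .not j => !(vs.getD j false)

/-- The list of the values of all gates. A circuit is a list of gates, its head is the output
gate, and the number `j` in a gate refers to the `j`-th gate of the list that follows it. -/
def run {ι : Type*} (x : ι → Bool) : List (Gate ι) → List Bool
  | [] => []
  | g :: gs => g.value x (run x gs) :: run x gs

/-- The output of a circuit on the input `x`. -/
def output {ι : Type*} (c : List (Gate ι)) (x : ι → Bool) : Bool := (run x c).getD 0 false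

/-- The number of NOT gates. -/
def numNot {ι : Type*} : List (Gate ι) → ℕ
  | [] => 0
  | .not _ :: gs => numNot gs + 1
  | _ :: gs => numNot gs

/-- The number of AND and OR gates. -/
def size {ι : Type*} : List (Gate ι) → ℕ
  | [] => 0
  | .and _ _ :: gs => size gs + 1
  | .or _ _ :: gs => size gs + 1
  | _ :: gs => size gs

section cover

variable {ι : Type*}

@[simp] lemma length_run (x : ι → Bool) (c : List (Gate ι)) : (run x c).length = c.length := by
  induction c with
  | nil => rfl
  | cons g gs ih => simp [run, ih]

lemma numNot_eq_zero_cons {g : Gate ι} {gs : List (Gate ι)} (h : numNot (g :: gs) = 0) :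
    numNot gs = 0 ∧ ∀ j, g ≠ .not j := by
  cases g <;> simp_all [numNot]

/-- A circuit without NOT gates is monotone, at every gate. -/
lemma run_mono {a b : ι → Bool} (hab : ∀ i, a i = true → b i = true) (c : List (Gate ι))
    (hc : numNot c = 0) : ∀ j, (run a c).getD j false = true → (run b c).getD j false = true := by
  induction c with
  | nil => intro j h; simp [run] at h
  | cons g gs ih =>
    obtain ⟨h1, h2⟩ := numNot_eq_zero_cons hc
    intro j h
    cases j with
    | succ j => simpa [run] using ih h1 j (by simpa [run] using h)
    | zero =>
      simp only [run, List.getD_cons_zero] at h ⊢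
      cases g with
      | var i => exact hab i h
      | const b => exact h
      | and j k =>
        simp only [Gate.value, Bool.and_eq_true] at h ⊢
        exact ⟨ih h1 j h.1, ih h1 k h.2⟩
      | or j k =>
        simp only [Gate.value, Bool.or_eq_true] at h ⊢
        exact h.imp (ih h1 j) (ih h1 k)
      | not j => exact absurd rfl (h2 j)

/-- All circuits obtained by replacing every NOT gate by a constant. -/
def subs : List (Gate ι) → List (List (Gate ι))
  | [] => [[]]
  | .not _ :: gs => (subs gs).map (fun s => .const true :: s) ++
      (subs gs).map (fun s => .const false :: s)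
  | .var i :: gs => (subs gs).map (fun s => .var i :: s)
  | .const b :: gs => (subs gs).map (fun s => .const b :: s)
  | .and j k :: gs => (subs gs).map (fun s => .and j k :: s)
  | .or j k :: gs => (subs gs).map (fun s => .or j k :: s)

/-- The candidate monotone functions (circuit without NOT gates, gate number). -/
def cands : List (Gate ι) → List (List (Gate ι) × ℕ)
  | [] => []
  | .not j :: gs => (subs gs).map (fun s => (s, j)) ++ cands gs
  | .var _ :: gs => cands gs
  | .const _ :: gs => cands gs
  | .and _ _ :: gs => cands gs
  | .or _ _ :: gs => cands gs

lemma length_subs (c : List (Gate ι)) : (subs c).length = 2 ^ numNot c := by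
  induction c with
  | nil => rfl
  | cons g gs ih =>
    cases g <;> simp [subs, numNot, ih, pow_succ]; ring

lemma length_cands (c : List (Gate ι)) : (cands c).length + 1 = 2 ^ numNot c := by
  induction c with
  | nil => rfl
  | cons g gs ih =>
    cases g <;> simp [cands, numNot, ih, pow_succ, length_subs]
    omega

lemma mem_subs {c s : List (Gate ι)} (h : s ∈ subs c) : numNot s = 0 ∧ size s = size c := by
  induction c generalizing s with
  | nil => simp [subs] at h; subst h; simp [numNot]
  | cons g gs ih =>
    cases g <;> simp only [subs, List.mem_append, List.mem_map] at h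
    case not j =>
      rcases h with ⟨s', hs', rfl⟩ | ⟨s', hs', rfl⟩ <;>
      · have := ih hs'
        simpa [numNot, size] using this
    all_goals
      obtain ⟨s', hs', rfl⟩ := h
      have := ih hs'
      simpa [numNot, size] using this

lemma size_cons_ge (g : Gate ι) (gs : List (Gate ι)) : size gs ≤ size (g :: gs) := by
  cases g <;> simp [size]

lemma mem_cands {c : List (Gate ι)} {p : List (Gate ι) × ℕ} (h : p ∈ cands c) :
    numNot p.1 = 0 ∧ size p.1 ≤ size c := by
  induction c with
  | nil => simp [cands] at h
  | cons g gs ih =>
    cases g <;> simp only [cands, List.mem_append, List.mem_map] at h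
    case not j =>
      rcases h with ⟨s, hs, rfl⟩ | h
      · have := mem_subs hs
        refine ⟨this.1, ?_⟩
        rw [this.2]; exact size_cons_ge _ _
      · exact ⟨(ih h).1, (ih h).2.trans (size_cons_ge _ _)⟩
    all_goals exact ⟨(ih h).1, (ih h).2.trans (size_cons_ge _ _)⟩

/-- Covering lemma: for `a ≤ b`, either some substitution of the NOT gates agrees with the circuit
on both inputs, or some candidate separates `a` from `b`. -/
lemma cover {a b : ι → Bool} (hab : ∀ i, a i = true → b i = true) (c : List (Gate ι)) :
    (∃ s ∈ subs c, run a c = run a s ∧ run b c = run b s) ∨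
    (∃ p ∈ cands c, (run a p.1).getD p.2 false = false ∧ (run b p.1).getD p.2 false = true) := by
  induction c with
  | nil => left; exact ⟨[], by simp [subs], rfl, rfl⟩
  | cons g gs ih =>
    rcases ih with ⟨s, hs, h1, h2⟩ | ⟨p, hp, h1, h2⟩
    · cases g with
      | var i =>
        left; exact ⟨.var i :: s, by simp [subs, hs], by simp [run, h1, Gate.value],
          by simp [run, h2, Gate.value]⟩
      | const d =>
        left; exact ⟨.const d :: s, by simp [subs, hs], by simp [run, h1, Gate.value],
          by simp [run, h2, Gate.value]⟩
      | and j k =>
        left; exact ⟨.and j k :: s, by simp [subs, hs], by simp [run, h1],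
          by simp [run, h2]⟩
      | or j k =>
        left; exact ⟨.or j k :: s, by simp [subs, hs], by simp [run, h1],
          by simp [run, h2]⟩
      | not j =>
        have hm := mem_subs hs
        rcases hva : (run a s).getD j false with _ | _ <;>
          rcases hvb : (run b s).getD j false with _ | _
        · left
          refine ⟨.const true :: s, by simp [subs, hs], ?_, ?_⟩
          · rw [run, run, h1]; simp only [Gate.value]; rw [hva]; rfl
          · rw [run, run, h2]; simp only [Gate.value]; rw [hvb]; rfl
        · right
          exact ⟨(s, j), by simp [cands, hs], hva, hvb⟩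
        · exfalso
          have := run_mono hab s hm.1 j hva
          rw [hvb] at this; cases this
        · left
          refine ⟨.const false :: s, by simp [subs, hs], ?_, ?_⟩
          · rw [run, run, h1]; simp only [Gate.value]; rw [hva]; rfl
          · rw [run, run, h2]; simp only [Gate.value]; rw [hvb]; rfl
    · right
      refine ⟨p, ?_, h1, h2⟩
      cases g <;> simp [cands, hp]

/-- The final list of monotone candidates: at most `2 ^ (t + 1) - 1` of them. -/
def allCands (c : List (Gate ι)) : List (List (Gate ι) × ℕ) :=
  (subs c).map (fun s => (s, 0)) ++ cands c

lemma length_allCands (c : List (Gate ι)) : (allCands c).length + 1 = 2 ^ (numNot c + 1) := by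
  have h1 := length_subs c
  have h2 := length_cands c
  simp only [allCands, List.length_append, List.length_map, pow_succ]
  omega

lemma mem_allCands {c : List (Gate ι)} {p : List (Gate ι) × ℕ} (h : p ∈ allCands c) :
    numNot p.1 = 0 ∧ size p.1 ≤ size c := by
  simp only [allCands, List.mem_append, List.mem_map] at h
  rcases h with ⟨s, hs, rfl⟩ | h
  · have := mem_subs hs
    exact ⟨this.1, this.2.le⟩
  · exact mem_cands h

lemma cover_output {a b : ι → Bool} (hab : ∀ i, a i = true → b i = true) (c : List (Gate ι))
    (ha : output c a = false) (hb : output c b = true) :
    ∃ p ∈ allCands c, (run a p.1).getD p.2 false = false ∧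
      (run b p.1).getD p.2 false = true := by
  rcases cover hab c with ⟨s, hs, h1, h2⟩ | ⟨p, hp, h1, h2⟩
  · refine ⟨(s, 0), by simp [allCands, hs], ?_, ?_⟩
    · rw [← h1]; exact ha
    · rw [← h2]; exact hb
  · exact ⟨p, by simp [allCands, hp], h1, h2⟩

end cover

end Pool.Agent.NegLim
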