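import Pool.Agent.Work.MP_71c844_lc.NegSun
import Pool.Agent.Work.MP_71c844_lc.NegCircuit

namespace Pool.Agent.NegLim

set_option linter.unusedSectionVars false

open Finset

variable {E : Type*} [Fintype E] [DecidableEq E]

/-- `𝒱` contains every set of size at most `2 b` which is an `ε`-approximate implicant. -/
def Closed (δ : ℝ) (N b : ℕ) (ε : ℝ) (𝒱 : Finset (Finset E)) : Prop :=
  ∀ K : Finset E, K.card ≤ 2 * b → Tn δ N (fun y => miss 𝒱 (y ∪ K)) ∅ ≤ ε → K ∈ 𝒱

/-- sets of size at most `2 b` -/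
def lowSets (E : Type*) [Fintype E] [DecidableEq E] (b : ℕ) : Finset (Finset E) :=
  univ.filter (fun A => A.card ≤ 2 * b)

lemma exists_closed {δ : ℝ} (h0 : 0 ≤ δ) (h1 : δ ≤ 1) (N b : ℕ) (ε : ℝ) (hε : 0 ≤ ε)
    (𝒰 : Finset (Finset E)) (h𝒰 : 𝒰 ⊆ lowSets E b) :
    ∃ 𝒱 : Finset (Finset E), 𝒰 ⊆ 𝒱 ∧ 𝒱 ⊆ lowSets E b ∧ Closed δ N b ε 𝒱 ∧
      Tn δ N (fun y => miss 𝒰 y - miss 𝒱 y) ∅ ≤ (lowSets E b).card * ε := by
  classical
  suffices H : ∀ (m : ℕ) (𝒰 : Finset (Finset E)), 𝒰 ⊆ lowSets E b →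
      (lowSets E b).card - 𝒰.card = m →
      ∃ 𝒱 : Finset (Finset E), 𝒰 ⊆ 𝒱 ∧ 𝒱 ⊆ lowSets E b ∧ Closed δ N b ε 𝒱 ∧
      Tn δ N (fun y => miss 𝒰 y - miss 𝒱 y) ∅ ≤ m * ε by
    obtain ⟨𝒱, h1', h2', h3', h4'⟩ := H _ 𝒰 h𝒰 rfl
    refine ⟨𝒱, h1', h2', h3', h4'.trans ?_⟩
    apply mul_le_mul_of_nonneg_right _ hε
    exact_mod_cast Nat.sub_le _ _
  intro m
  induction m with
  | zero =>
    intro 𝒰 h𝒰 hm
    have heq : 𝒰 = lowSets E b :=
      Finset.eq_of_subset_of_card_le h𝒰 (by omega)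
    refine ⟨𝒰, Finset.Subset.refl _, h𝒰, ?_, ?_⟩
    · intro K hK _
      rw [heq, lowSets, Finset.mem_filter]
      exact ⟨mem_univ _, hK⟩
    · simp [Tn_const]
  | succ m ih =>
    intro 𝒰 h𝒰 hm
    by_cases hc : Closed δ N b ε 𝒰
    · refine ⟨𝒰, Finset.Subset.refl _, h𝒰, hc, ?_⟩
      simp only [sub_self, Tn_const]
      positivity
    · unfold Closed at hc
      push Not at hc
      obtain ⟨K, hK1, hK2, hK3⟩ := hc
      have hins : insert K 𝒰 ⊆ lowSets E b := by
        apply Finset.insert_subset _ h𝒰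
        rw [lowSets, Finset.mem_filter]
        exact ⟨mem_univ _, hK1⟩
      obtain ⟨𝒱, g1, g2, g3, g4⟩ := ih (insert K 𝒰) hins (by
        rw [Finset.card_insert_of_notMem hK3]; omega)
      refine ⟨𝒱, (Finset.subset_insert _ _).trans g1, g2, g3, ?_⟩
      have hstep : ∀ y, miss 𝒰 y - miss 𝒱 y ≤
          miss 𝒰 (y ∪ K) + (miss (insert K 𝒰) y - miss 𝒱 y) := by
        intro y
        have : miss 𝒰 y ≤ miss 𝒰 (y ∪ K) + miss (insert K 𝒰) y := by
          by_cases hKy : K ⊆ y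
          · have : y ∪ K = y := Finset.union_eq_left.mpr hKy
            rw [this]
            rcases miss_zero_or_one (insert K 𝒰) y with h | h <;> rw [h] <;> linarith
          · have : miss (insert K 𝒰) y = miss 𝒰 y := by
              unfold miss
              congr 1
              simp [hKy]
            rw [this]
            rcases miss_zero_or_one 𝒰 (y ∪ K) with h | h <;> rw [h] <;> linarith
        linarith
      calc Tn δ N (fun y => miss 𝒰 y - miss 𝒱 y) ∅
          ≤ Tn δ N (fun y => miss 𝒰 (y ∪ K) + (miss (insert K 𝒰) y - miss 𝒱 y)) ∅ :=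
            Tn_mono h0 h1 hstep _ _
        _ = Tn δ N (fun y => miss 𝒰 (y ∪ K)) ∅ +
            Tn δ N (fun y => miss (insert K 𝒰) y - miss 𝒱 y) ∅ := Tn_fadd _ _ _ _
        _ ≤ ε + m * ε := add_le_add hK2 g4
        _ = (m + 1 : ℕ) * ε := by push_cast; ring

/-- minimal members of size `j` -/
noncomputable def minMembers (𝒱 : Finset (Finset E)) (j : ℕ) : Finset (Finset E) := by
  classical exact 𝒱.filter (fun A => A.card = j ∧ ∀ A' ∈ 𝒱, A' ⊆ A → A' = A)

lemma mem_minMembers {𝒱 : Finset (Finset E)} {j : ℕ} {A : Finset E} :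
    A ∈ minMembers 𝒱 j ↔ A ∈ 𝒱 ∧ A.card = j ∧ ∀ A' ∈ 𝒱, A' ⊆ A → A' = A := by
  classical
  unfold minMembers
  rw [Finset.mem_filter]

/-- every member contains a minimal member -/
lemma exists_minMember {𝒱 : Finset (Finset E)} {A : Finset E} (hA : A ∈ 𝒱) :
    ∃ A' ⊆ A, A' ∈ minMembers 𝒱 A'.card := by
  classical
  obtain ⟨A', hA', hmin⟩ := Finset.exists_min_image (𝒱.filter (fun A' => A' ⊆ A)) Finset.card
    ⟨A, by simp [hA]⟩
  rw [Finset.mem_filter] at hA'
  refine ⟨A', hA'.2, ?_⟩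
  rw [mem_minMembers]
  refine ⟨hA'.1, rfl, fun A'' hA'' hsub => ?_⟩
  exact Finset.eq_of_subset_of_card_le hsub
    (hmin A'' (by rw [Finset.mem_filter]; exact ⟨hA'', hsub.trans hA'.2⟩))

/-- A closed family has few minimal members of each size. -/
lemma card_minMembers_le {δ : ℝ} (h0 : 0 ≤ δ) (h1 : δ ≤ 1) (n b j R : ℕ) (B : ℝ) (hB : 0 < B)
    (hb : 1 ≤ b) (hj : j ≤ 2 * b) (hBa : 4 * b ≤ B * dens δ n) (𝒱 : Finset (Finset E))
    (hc : Closed δ (n * R) b ((1 / 2) ^ R) 𝒱) : ((minMembers 𝒱 j).card : ℝ) ≤ B ^ j := by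
  by_contra hcon
  push Not at hcon
  obtain ⟨K, ⟨A, hA, hKA⟩, hK⟩ := sunflower h0 h1 n b j R B hB hb hj hBa (minMembers 𝒱 j)
    (fun A hA => (mem_minMembers.mp hA).2.1) hcon
  rw [mem_minMembers] at hA
  have hKcard : K.card < A.card := Finset.card_lt_card hKA
  have hK𝒱 : K ∈ 𝒱 := by
    apply hc K (by omega)
    refine le_trans (Tn_mono h0 h1 (fun y => ?_) _ _) hK
    apply miss_mono
    intro A' hA'
    exact (mem_minMembers.mp hA').1
  have := hA.2.2 K hK𝒱 hKA.1
  rw [this] at hKcard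
  exact lt_irrefl _ hKcard

section planted

variable {U : Type*} [Fintype U]

open Classical in
/-- Number of planted sets containing a minimal member of size at least `j₀`. -/
lemma planted_count {δ : ℝ} (h0 : 0 ≤ δ) (h1 : δ ≤ 1) (n b R : ℕ) (B q : ℝ) (hB : 0 < B)
    (hq : 0 < q) (hBq : B / q ≤ 1 / 2)
    (hb : 1 ≤ b) (hBa : 4 * b ≤ B * dens δ n) (𝒱 : Finset (Finset E))
    (hlow : 𝒱 ⊆ lowSets E b)
    (hc : Closed δ (n * R) b ((1 / 2) ^ R) 𝒱) (Y : U → Finset E)
    (hY : ∀ A : Finset E, A.card ≤ 2 * b →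
      ((univ.filter (fun u => A ⊆ Y u)).card : ℝ) ≤ Fintype.card U * (1 / q) ^ A.card)
    (j₀ : ℕ) :
    ((univ.filter (fun u => ∃ A ∈ minMembers 𝒱 A.card, j₀ ≤ A.card ∧ A ⊆ Y u)).card : ℝ) ≤
      Fintype.card U * (2 * (B / q) ^ j₀) := by
  have hsub : (univ.filter (fun u => ∃ A ∈ minMembers 𝒱 A.card, j₀ ≤ A.card ∧ A ⊆ Y u)) ⊆
      (Finset.Ico j₀ (2 * b + 1)).biUnion (fun j => (minMembers 𝒱 j).biUnion
        (fun A => univ.filter (fun u => A ⊆ Y u))) := by
    intro u hu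
    rw [Finset.mem_filter] at hu
    obtain ⟨-, A, hA, hj, hAu⟩ := hu
    simp only [Finset.mem_biUnion, Finset.mem_Ico, Finset.mem_filter, Finset.mem_univ, true_and]
    have : A.card ≤ 2 * b := by
      have := hlow (mem_minMembers.mp hA).1
      rw [lowSets, Finset.mem_filter] at this
      exact this.2
    exact ⟨A.card, ⟨hj, by omega⟩, A, hA, hAu⟩
  have h2 : ((univ.filter (fun u => ∃ A ∈ minMembers 𝒱 A.card, j₀ ≤ A.card ∧ A ⊆ Y u)).card : ℝ)
      ≤ ∑ j ∈ Finset.Ico j₀ (2 * b + 1), ∑ A ∈ minMembers 𝒱 j,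
        ((univ.filter (fun u => A ⊆ Y u)).card : ℝ) := by
    have e1 := (Finset.card_le_card hsub).trans Finset.card_biUnion_le
    have e2 : ∀ j ∈ Finset.Ico j₀ (2 * b + 1), ((minMembers 𝒱 j).biUnion
        (fun A => univ.filter (fun u => A ⊆ Y u))).card ≤
        ∑ A ∈ minMembers 𝒱 j, (univ.filter (fun u => A ⊆ Y u)).card :=
      fun j _ => Finset.card_biUnion_le
    have e3 := e1.trans (Finset.sum_le_sum e2)
    exact_mod_cast e3
  refine h2.trans ?_
  have h3 : ∀ j ∈ Finset.Ico j₀ (2 * b + 1), ∑ A ∈ minMembers 𝒱 j,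
        ((univ.filter (fun u => A ⊆ Y u)).card : ℝ) ≤ Fintype.card U * (B / q) ^ j := by
    intro j hj
    rw [Finset.mem_Ico] at hj
    calc ∑ A ∈ minMembers 𝒱 j, ((univ.filter (fun u => A ⊆ Y u)).card : ℝ)
        ≤ ∑ A ∈ minMembers 𝒱 j, Fintype.card U * (1 / q) ^ j := by
          apply Finset.sum_le_sum
          intro A hA
          have hAj := (mem_minMembers.mp hA).2.1
          have := hY A (by omega)
          rwa [hAj] at this
      _ = (minMembers 𝒱 j).card * (Fintype.card U * (1 / q) ^ j) := by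
          rw [Finset.sum_const, nsmul_eq_mul]
      _ ≤ B ^ j * (Fintype.card U * (1 / q) ^ j) := by
          apply mul_le_mul_of_nonneg_right _ (by positivity)
          exact card_minMembers_le h0 h1 n b j R B hB hb (by omega) hBa 𝒱 hc
      _ = Fintype.card U * (B / q) ^ j := by
          have e : (B / q) ^ j = B ^ j * (1 / q) ^ j := by rw [← mul_pow]; congr 1; ring
          rw [e]; ring
  refine (Finset.sum_le_sum h3).trans ?_
  rw [← Finset.mul_sum]
  apply mul_le_mul_of_nonneg_left _ (by positivity)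
  have hρ0 : 0 ≤ B / q := by positivity
  -- geometric sum
  have hgeo : ∀ m : ℕ, ∑ j ∈ Finset.Ico j₀ (j₀ + m), (B / q) ^ j ≤
      2 * (B / q) ^ j₀ - 2 * (B / q) ^ (j₀ + m) := by
    intro m
    induction m with
    | zero => simp
    | succ m ih =>
      rw [← add_assoc, Finset.sum_Ico_succ_top (by omega)]
      have : (B / q) ^ (j₀ + m + 1) ≤ (1 / 2) * (B / q) ^ (j₀ + m) := by
        rw [pow_succ, mul_comm]
        exact mul_le_mul_of_nonneg_right hBq (by positivity)
      linarith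
  rcases le_total j₀ (2 * b + 1) with hle | hle
  · obtain ⟨m, hm⟩ := Nat.exists_eq_add_of_le hle
    rw [hm]
    have := hgeo m
    have h4 : 0 ≤ (B / q) ^ (j₀ + m) := by positivity
    linarith
  · rw [Finset.Ico_eq_empty_of_le hle]
    simp only [Finset.sum_empty]
    positivity

end planted

/-- value of gate `j` of `c` on the set `Y` -/
def gval (c : List (Gate E)) (j : ℕ) (Y : Finset E) : Bool :=
  (run (fun e => decide (e ∈ Y)) c).getD j false

lemma gval_mono (c : List (Gate E)) (hc : numNot c = 0) (j : ℕ) {Y Z : Finset E} (h : Y ⊆ Z)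
    (hY : gval c j Y = true) : gval c j Z = true := by
  apply run_mono _ c hc j hY
  intro e he
  simp only [decide_eq_true_eq] at he ⊢
  exact h he

lemma gval_succ (g : Gate E) (c : List (Gate E)) (j : ℕ) (Y : Finset E) :
    gval (g :: c) (j + 1) Y = gval c j Y := by
  simp [gval, run]

lemma gval_zero (g : Gate E) (c : List (Gate E)) (Y : Finset E) :
    gval (g :: c) 0 Y = g.value (fun e => decide (e ∈ Y)) (run (fun e => decide (e ∈ Y)) c) := by
  simp [gval, run]

section approx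

variable {U : Type*} [Fintype U]

/-- The hypotheses on the parameters at one scale. -/
structure Scale (E : Type*) [Fintype E] [DecidableEq E] (U : Type*) [Fintype U]
    (δ : ℝ) (n b R : ℕ) (B q : ℝ) (Y : U → Finset E) : Prop where
  h0 : 0 ≤ δ
  h1 : δ ≤ 1
  hB : 0 < B
  hq : 0 < q
  hBq : B / q ≤ 1 / 2
  hb : 1 ≤ b
  hBa : 4 * b ≤ B * dens δ n
  hY : ∀ A : Finset E, A.card ≤ 2 * b → (by
    classical exact
      ((univ.filter (fun u => A ⊆ Y u)).card : ℝ) ≤ Fintype.card U * (1 / q) ^ A.card)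

/-- trimming -/
def trim (b : ℕ) (𝒱 : Finset (Finset E)) : Finset (Finset E) := 𝒱.filter (fun A => A.card ≤ b)

open Classical in
lemma trim_count {δ : ℝ} {n b R : ℕ} {B q : ℝ} {Y : U → Finset E}
    (S : Scale E U δ n b R B q Y) (𝒱 : Finset (Finset E)) (hlow : 𝒱 ⊆ lowSets E b)
    (hc : Closed δ (n * R) b ((1 / 2) ^ R) 𝒱) :
    ((univ.filter (fun u => (∃ A ∈ 𝒱, A ⊆ Y u) ∧ ¬ ∃ A ∈ trim b 𝒱, A ⊆ Y u)).card : ℝ) ≤
      Fintype.card U * (2 * (B / q) ^ (b + 1)) := by
  refine le_trans ?_ (planted_count S.h0 S.h1 n b R B q S.hB S.hq S.hBq S.hb S.hBa 𝒱 hlow hc Y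
    (fun A hA => by convert S.hY A hA) (b + 1))
  have : (univ.filter (fun u => (∃ A ∈ 𝒱, A ⊆ Y u) ∧ ¬ ∃ A ∈ trim b 𝒱, A ⊆ Y u)) ⊆
      (univ.filter (fun u => ∃ A ∈ minMembers 𝒱 A.card, b + 1 ≤ A.card ∧ A ⊆ Y u)) := by
    intro u hu
    rw [Finset.mem_filter] at hu ⊢
    obtain ⟨-, ⟨A, hA, hAu⟩, hno⟩ := hu
    obtain ⟨A', hA', hmin⟩ := exists_minMember hA
    refine ⟨mem_univ _, A', hmin, ?_, hA'.trans hAu⟩
    by_contra hcon
    apply hno
    refine ⟨A', ?_, hA'.trans hAu⟩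
    rw [trim, Finset.mem_filter]
    exact ⟨(mem_minMembers.mp hmin).1, by omega⟩
  exact_mod_cast Finset.card_le_card this

open Classical in
/-- One approximation step (the new family replacing `𝒰`). -/
lemma approx_step {δ : ℝ} {n b R : ℕ} {B q : ℝ} {Y : U → Finset E}
    (S : Scale E U δ n b R B q Y) (𝒰 : Finset (Finset E)) (hlow : 𝒰 ⊆ lowSets E b) :
    ∃ (𝒢 : Finset (Finset E)) (P : Finset U) (Z : Finset E → ℝ),
      (∀ A ∈ 𝒢, A.card ≤ b) ∧
      (P.card : ℝ) ≤ Fintype.card U * (2 * (B / q) ^ (b + 1)) ∧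
      (∀ z, 0 ≤ Z z) ∧ Tn δ (n * R) Z ∅ ≤ (lowSets E b).card * (1 / 2) ^ R ∧
      (∀ u ∉ P, (∃ A ∈ 𝒰, A ⊆ Y u) → ∃ A ∈ 𝒢, A ⊆ Y u) ∧
      (∀ z, (∃ A ∈ 𝒢, A ⊆ z) → (¬ ∃ A ∈ 𝒰, A ⊆ z) → 1 ≤ Z z) := by
  obtain ⟨𝒱, h1, h2, h3, h4⟩ := exists_closed S.h0 S.h1 (n * R) b ((1 / 2) ^ R) (by positivity)
    𝒰 hlow
  refine ⟨trim b 𝒱, univ.filter (fun u => (∃ A ∈ 𝒱, A ⊆ Y u) ∧ ¬ ∃ A ∈ trim b 𝒱, A ⊆ Y u),
    fun z => miss 𝒰 z - miss 𝒱 z, ?_, trim_count S 𝒱 h2 h3, ?_, h4, ?_, ?_⟩
  · intro A hA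
    rw [trim, Finset.mem_filter] at hA
    exact hA.2
  · intro z
    have := miss_mono h1 z
    linarith
  · intro u hu hex
    rw [Finset.mem_filter] at hu
    push Not at hu
    obtain ⟨A, hA, hAu⟩ := hex
    exact hu (mem_univ _) ⟨A, h1 hA, hAu⟩
  · intro z ⟨A, hA, hAz⟩ hno
    have e1 : miss 𝒰 z = 1 := by unfold miss; rw [if_neg hno]
    have e2 : miss 𝒱 z = 0 := by
      unfold miss; rw [if_pos]
      rw [trim, Finset.mem_filter] at hA
      exact ⟨A, hA.1, hAz⟩
    show 1 ≤ miss 𝒰 z - miss 𝒱 z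
    rw [e1, e2]; norm_num

/-- Approximators for all gates of a circuit without NOT gates. -/
lemma approx {δ : ℝ} {n b R : ℕ} {B q : ℝ} {Y : U → Finset E}
    (S : Scale E U δ n b R B q Y) (x : Finset E) (c : List (Gate E)) (hc : numNot c = 0) :
    ∃ (G : ℕ → Finset (Finset E)) (P : Finset U) (Z : Finset E → ℝ),
      (∀ j, ∀ A ∈ G j, A.card ≤ b) ∧
      (P.card : ℝ) ≤ size c * (Fintype.card U * (2 * (B / q) ^ (b + 1))) ∧
      (∀ z, 0 ≤ Z z) ∧ Tn δ (n * R) Z ∅ ≤ size c * ((lowSets E b).card * (1 / 2) ^ R) ∧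
      (∀ u ∉ P, ∀ j, gval c j (x ∪ Y u) = true → ∃ A ∈ G j, A ⊆ Y u) ∧
      (∀ z j, (∃ A ∈ G j, A ⊆ z) → gval c j (x ∪ z) = false → 1 ≤ Z z) := by
  classical
  induction c with
  | nil =>
    refine ⟨fun _ => ∅, ∅, fun _ => 0, by simp, by simp [size], by simp, ?_, ?_, by simp⟩
    · simp [size, Tn_const]
    · intro u _ j h
      simp [gval, run] at h
  | cons g gs ih =>
    obtain ⟨hgs, hg⟩ := numNot_eq_zero_cons hc
    obtain ⟨G, P, Z, h1, h2, h3, h4, h5, h6⟩ := ih hgs
    -- simple gates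
    have simple : ∀ 𝒢 : Finset (Finset E), (∀ A ∈ 𝒢, A.card ≤ b) → size (g :: gs) = size gs →
        (∀ u, gval (g :: gs) 0 (x ∪ Y u) = true → ∃ A ∈ 𝒢, A ⊆ Y u) →
        (∀ z, (∃ A ∈ 𝒢, A ⊆ z) → gval (g :: gs) 0 (x ∪ z) = true) →
        ∃ (G : ℕ → Finset (Finset E)) (P : Finset U) (Z : Finset E → ℝ),
          (∀ j, ∀ A ∈ G j, A.card ≤ b) ∧
          (P.card : ℝ) ≤ size (g :: gs) * (Fintype.card U * (2 * (B / q) ^ (b + 1))) ∧
          (∀ z, 0 ≤ Z z) ∧
          Tn δ (n * R) Z ∅ ≤ size (g :: gs) * ((lowSets E b).card * (1 / 2) ^ R) ∧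
          (∀ u ∉ P, ∀ j, gval (g :: gs) j (x ∪ Y u) = true → ∃ A ∈ G j, A ⊆ Y u) ∧
          (∀ z j, (∃ A ∈ G j, A ⊆ z) → gval (g :: gs) j (x ∪ z) = false → 1 ≤ Z z) := by
      intro 𝒢 e1 e2 e3 e4
      refine ⟨fun j => Nat.casesOn j 𝒢 G, P, Z, ?_, by rw [e2]; exact h2, h3,
        by rw [e2]; exact h4, ?_, ?_⟩
      · intro j
        cases j with
        | zero => exact e1
        | succ j => exact h1 j
      · intro u hu j
        cases j with
        | zero => exact e3 u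
        | succ j => rw [gval_succ]; exact h5 u hu j
      · intro z j
        cases j with
        | zero => intro hz hv; rw [e4 z hz] at hv; cases hv
        | succ j => rw [gval_succ]; exact h6 z j
    -- compound gates
    have compound : ∀ 𝒰 : Finset (Finset E), (𝒰 ⊆ lowSets E b) → size (g :: gs) = size gs + 1 →
        (∀ u ∉ P, gval (g :: gs) 0 (x ∪ Y u) = true → ∃ A ∈ 𝒰, A ⊆ Y u) →
        (∀ z, (∃ A ∈ 𝒰, A ⊆ z) → gval (g :: gs) 0 (x ∪ z) = false → 1 ≤ Z z) →
        ∃ (G : ℕ → Finset (Finset E)) (P : Finset U) (Z : Finset E → ℝ),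
          (∀ j, ∀ A ∈ G j, A.card ≤ b) ∧
          (P.card : ℝ) ≤ size (g :: gs) * (Fintype.card U * (2 * (B / q) ^ (b + 1))) ∧
          (∀ z, 0 ≤ Z z) ∧
          Tn δ (n * R) Z ∅ ≤ size (g :: gs) * ((lowSets E b).card * (1 / 2) ^ R) ∧
          (∀ u ∉ P, ∀ j, gval (g :: gs) j (x ∪ Y u) = true → ∃ A ∈ G j, A ⊆ Y u) ∧
          (∀ z j, (∃ A ∈ G j, A ⊆ z) → gval (g :: gs) j (x ∪ z) = false → 1 ≤ Z z) := by
      intro 𝒰 e1 e2 e3 e4
      obtain ⟨𝒢, P', Z', f1, f2, f3, f4, f5, f6⟩ := approx_step S 𝒰 e1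
      refine ⟨fun j => Nat.casesOn j 𝒢 G, P ∪ P', fun z => Z z + Z' z, ?_, ?_, ?_, ?_, ?_, ?_⟩
      · intro j
        cases j with
        | zero => exact f1
        | succ j => exact h1 j
      · have := Finset.card_union_le P P'
        have hcast : ((P ∪ P').card : ℝ) ≤ P.card + P'.card := by exact_mod_cast this
        rw [e2]; push_cast
        linarith
      · intro z; exact add_nonneg (h3 z) (f3 z)
      · rw [Tn_fadd, e2]; push_cast
        linarith
      · intro u hu j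
        rw [Finset.mem_union, not_or] at hu
        cases j with
        | zero => intro hv; exact f5 u hu.2 (e3 u hu.1 hv)
        | succ j => rw [gval_succ]; exact h5 u hu.1 j
      · intro z j
        have hz1 := h3 z
        have hz2 := f3 z
        cases j with
        | zero =>
          intro hz hv
          by_cases hU : ∃ A ∈ 𝒰, A ⊆ z
          · have := e4 z hU hv; linarith
          · have := f6 z hz hU; linarith
        | succ j =>
          rw [gval_succ]; intro hz hv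
          have := h6 z j hz hv; linarith
    have hb := S.hb
    cases g with
    | var e =>
      by_cases hex : e ∈ x
      · refine simple {∅} (by simp) rfl (fun u _ => ⟨∅, by simp, by simp⟩) (fun z _ => ?_)
        simp [gval_zero, Gate.value, hex]
      · refine simple {{e}} (by simp; exact hb) rfl (fun u hu => ?_) (fun z hz => ?_)
        · simp [gval_zero, Gate.value, hex] at hu
          exact ⟨{e}, by simp, by simpa using hu⟩
        · simp at hz
          simp [gval_zero, Gate.value, hz]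
    | const d =>
      cases d with
      | true =>
        refine simple {∅} (by simp) rfl (fun u _ => ⟨∅, by simp, by simp⟩) (fun z _ => ?_)
        simp [gval_zero, Gate.value]
      | false =>
        refine simple ∅ (by simp) rfl (fun u hu => ?_) (fun z hz => ?_)
        · simp [gval_zero, Gate.value] at hu
        · simp at hz
    | and j k =>
      refine compound (Finset.image₂ (· ∪ ·) (G j) (G k)) ?_ rfl ?_ ?_
      · intro A hA
        rw [Finset.mem_image₂] at hA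
        obtain ⟨A1, hA1, A2, hA2, rfl⟩ := hA
        rw [lowSets, Finset.mem_filter]
        refine ⟨mem_univ _, (Finset.card_union_le _ _).trans ?_⟩
        have := h1 j A1 hA1
        have := h1 k A2 hA2
        omega
      · intro u hu hv
        rw [gval_zero, Gate.value, Bool.and_eq_true] at hv
        obtain ⟨A1, hA1, hs1⟩ := h5 u hu j hv.1
        obtain ⟨A2, hA2, hs2⟩ := h5 u hu k hv.2
        exact ⟨A1 ∪ A2, Finset.mem_image₂.mpr ⟨A1, hA1, A2, hA2, rfl⟩,
          Finset.union_subset hs1 hs2⟩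
      · intro z ⟨A, hA, hAz⟩ hv
        rw [Finset.mem_image₂] at hA
        obtain ⟨A1, hA1, A2, hA2, rfl⟩ := hA
        rw [gval_zero, Gate.value, Bool.and_eq_false_iff] at hv
        rcases hv with hv | hv
        · exact h6 z j ⟨A1, hA1, Finset.subset_union_left.trans hAz⟩ hv
        · exact h6 z k ⟨A2, hA2, Finset.subset_union_right.trans hAz⟩ hv
    | or j k =>
      refine compound (G j ∪ G k) ?_ rfl ?_ ?_
      · intro A hA
        rw [lowSets, Finset.mem_filter]
        refine ⟨mem_univ _, ?_⟩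
        rw [Finset.mem_union] at hA
        rcases hA with hA | hA
        · have := h1 j A hA; omega
        · have := h1 k A hA; omega
      · intro u hu hv
        rw [gval_zero, Gate.value, Bool.or_eq_true] at hv
        rcases hv with hv | hv
        · obtain ⟨A, hA, hs⟩ := h5 u hu j hv
          exact ⟨A, Finset.mem_union_left _ hA, hs⟩
        · obtain ⟨A, hA, hs⟩ := h5 u hu k hv
          exact ⟨A, Finset.mem_union_right _ hA, hs⟩
      · intro z ⟨A, hA, hAz⟩ hv
        rw [gval_zero, Gate.value, Bool.or_eq_false_iff] at hv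
        rw [Finset.mem_union] at hA
        rcases hA with hA | hA
        · exact h6 z j ⟨A, hA, hAz⟩ hv.1
        · exact h6 z k ⟨A, hA, hAz⟩ hv.2
    | not j => exact absurd rfl (hg j)

open Classical in
/-- The dichotomy at one scale. -/
lemma dichotomy {δ : ℝ} {n b R : ℕ} {B q : ℝ} {Y : U → Finset E}
    (S : Scale E U δ n b R B q Y) (x : Finset E) (c : List (Gate E)) (hc : numNot c = 0) (j : ℕ) :
    Tn δ (n * R) (fun y => if gval c j y = true then (0 : ℝ) else 1) x ≤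
        (size c + 1) * ((lowSets E b).card * (1 / 2) ^ R) ∨
    ((univ.filter (fun u => gval c j (x ∪ Y u) = true)).card : ℝ) ≤
        Fintype.card U * (2 * (B / q) + size c * (2 * (B / q) ^ (b + 1))) := by
  obtain ⟨G, P, Z, h1, h2, h3, h4, h5, h6⟩ := approx S x c hc
  have hlow : G j ⊆ lowSets E b := by
    intro A hA
    rw [lowSets, Finset.mem_filter]
    exact ⟨mem_univ _, (h1 j A hA).trans (by omega)⟩
  obtain ⟨𝒱, g1, g2, g3, g4⟩ := exists_closed S.h0 S.h1 (n * R) b ((1 / 2) ^ R) (by positivity)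
    (G j) hlow
  by_cases he : ∅ ∈ 𝒱
  · left
    rw [Tn_translate']
    have hpt : ∀ z, (if gval c j (x ∪ z) = true then (0 : ℝ) else 1) ≤
        (miss (G j) z - miss 𝒱 z) + Z z := by
      intro z
      have hm𝒱 : miss 𝒱 z = 0 := by
        unfold miss; rw [if_pos ⟨∅, he, Finset.empty_subset _⟩]
      rw [hm𝒱]
      have hz := h3 z
      split_ifs with hv
      · rcases miss_zero_or_one (G j) z with h | h <;> rw [h] <;> linarith
      · by_cases hG : ∃ A ∈ G j, A ⊆ z
        · have := h6 z j hG (by simpa using hv)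
          rcases miss_zero_or_one (G j) z with h | h <;> rw [h] <;> linarith
        · have : miss (G j) z = 1 := by unfold miss; rw [if_neg hG]
          rw [this]; linarith
    calc Tn δ (n * R) (fun z => if gval c j (x ∪ z) = true then (0 : ℝ) else 1) ∅
        ≤ Tn δ (n * R) (fun z => (miss (G j) z - miss 𝒱 z) + Z z) ∅ :=
          Tn_mono S.h0 S.h1 hpt _ _
      _ = Tn δ (n * R) (fun z => miss (G j) z - miss 𝒱 z) ∅ + Tn δ (n * R) Z ∅ :=
          Tn_fadd _ _ _ _
      _ ≤ (lowSets E b).card * (1 / 2) ^ R + size c * ((lowSets E b).card * (1 / 2) ^ R) :=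
          add_le_add g4 h4
      _ = _ := by ring
  · right
    have hsub : univ.filter (fun u => gval c j (x ∪ Y u) = true) ⊆
        P ∪ univ.filter (fun u => ∃ A ∈ minMembers 𝒱 A.card, 1 ≤ A.card ∧ A ⊆ Y u) := by
      intro u hu
      rw [Finset.mem_filter] at hu
      rw [Finset.mem_union]
      by_cases hP : u ∈ P
      · left; exact hP
      · right
        obtain ⟨A, hA, hAu⟩ := h5 u hP j hu.2
        obtain ⟨A', hA', hmin⟩ := exists_minMember (g1 hA)
        rw [Finset.mem_filter]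
        refine ⟨mem_univ _, A', hmin, ?_, hA'.trans hAu⟩
        by_contra hcon
        have : A' = ∅ := by
          rw [← Finset.card_eq_zero]; omega
        apply he
        rw [← this]
        exact (mem_minMembers.mp hmin).1
    have hcount := planted_count S.h0 S.h1 n b R B q S.hB S.hq S.hBq S.hb S.hBa 𝒱 g2 g3 Y
      (fun A hA => by convert S.hY A hA) 1
    have e1 : ((univ.filter (fun u => gval c j (x ∪ Y u) = true)).card : ℝ) ≤
        P.card + (univ.filter (fun u => ∃ A ∈ minMembers 𝒱 A.card, 1 ≤ A.card ∧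
          A ⊆ Y u)).card := by
      exact_mod_cast (Finset.card_le_card hsub).trans (Finset.card_union_le _ _)
    rw [pow_one] at hcount
    calc _ ≤ _ := e1
      _ ≤ size c * (Fintype.card U * (2 * (B / q) ^ (b + 1))) +
          Fintype.card U * (2 * (B / q)) := add_le_add h2 hcount
      _ = _ := by ring

end approx

end Pool.Agent.NegLim
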