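import Mathlib

namespace Pool.Agent.NegLim

open Finset

variable {E : Type*} [Fintype E] [DecidableEq E]

/-- The weight of `z` in the product measure with density `δ`. -/
noncomputable def wt (δ : ℝ) (z : Finset E) : ℝ := δ ^ z.card * (1 - δ) ^ (univ \ z).card

/-- One sprinkling step with density `δ`. -/
noncomputable def T (δ : ℝ) (φ : Finset E → ℝ) (x : Finset E) : ℝ :=
  ∑ z : Finset E, wt δ z * φ (x ∪ z)

lemma wt_nonneg {δ : ℝ} (h0 : 0 ≤ δ) (h1 : δ ≤ 1) (z : Finset E) : 0 ≤ wt δ z := by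
  unfold wt
  have : 0 ≤ 1 - δ := by linarith
  positivity

/-- Expansion of a power, the basic computation. -/
lemma T_pow (δ a : ℝ) (A x : Finset E) :
    T δ (fun y => a ^ (A \ y).card) x = (δ + (1 - δ) * a) ^ (A \ x).card := by
  have h1 : (∏ e : E, (δ + (1 - δ) * (if e ∈ A \ x then a else 1))) =
      (δ + (1 - δ) * a) ^ (A \ x).card := by
    have : ∀ e : E, (δ + (1 - δ) * (if e ∈ A \ x then a else 1)) =
        if e ∈ A \ x then (δ + (1 - δ) * a) else 1 := by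
      intro e; split_ifs <;> ring
    simp_rw [this]
    rw [Finset.prod_ite_mem, Finset.univ_inter, Finset.prod_const]
  rw [← h1, Finset.prod_add, Finset.powerset_univ]
  unfold T wt
  refine Finset.sum_congr rfl fun z _ => ?_
  rw [Finset.prod_const, Finset.prod_mul_distrib, Finset.prod_const, mul_assoc]
  congr 2
  rw [Finset.prod_ite_mem, Finset.prod_const]
  have : A \ (x ∪ z) = (univ \ z) ∩ (A \ x) := by
    ext e
    simp only [mem_sdiff, mem_union, mem_inter, mem_univ, true_and]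
    tauto
  show a ^ (A \ (x ∪ z)).card = _
  rw [this]

lemma sum_wt (δ : ℝ) : ∑ z : Finset E, wt δ z = 1 := by
  have := T_pow δ 1 (∅ : Finset E) ∅
  simpa [T] using this

lemma T_mono {δ : ℝ} (h0 : 0 ≤ δ) (h1 : δ ≤ 1) {φ ψ : Finset E → ℝ} (h : ∀ y, φ y ≤ ψ y)
    (x : Finset E) : T δ φ x ≤ T δ ψ x :=
  Finset.sum_le_sum fun z _ => mul_le_mul_of_nonneg_left (h _) (wt_nonneg h0 h1 z)

/-- `n` sprinkling steps. -/
noncomputable def Tn (δ : ℝ) (n : ℕ) (φ : Finset E → ℝ) : Finset E → ℝ := (T δ)^[n] φ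

lemma Tn_zero (δ : ℝ) (φ : Finset E → ℝ) : Tn δ 0 φ = φ := rfl

lemma Tn_succ (δ : ℝ) (n : ℕ) (φ : Finset E → ℝ) : Tn δ (n + 1) φ = T δ (Tn δ n φ) :=
  Function.iterate_succ_apply' _ _ _

lemma Tn_add (δ : ℝ) (m n : ℕ) (φ : Finset E → ℝ) : Tn δ (m + n) φ = Tn δ m (Tn δ n φ) :=
  Function.iterate_add_apply _ _ _ _

section basic

variable {δ : ℝ} (h0 : 0 ≤ δ) (h1 : δ ≤ 1)
include h0 h1

lemma Tn_mono {φ ψ : Finset E → ℝ} (h : ∀ y, φ y ≤ ψ y) (n : ℕ) (x : Finset E) :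
    Tn δ n φ x ≤ Tn δ n ψ x := by
  induction n generalizing x with
  | zero => exact h x
  | succ n ih => rw [Tn_succ, Tn_succ]; exact T_mono h0 h1 ih x

omit h0 h1 in
lemma Tn_const (c : ℝ) (n : ℕ) (x : Finset E) : Tn δ n (fun _ => c) x = c := by
  induction n generalizing x with
  | zero => rfl
  | succ n ih =>
    rw [Tn_succ]
    have : Tn δ n (fun _ : Finset E => c) = fun _ => c := funext ih
    rw [this, T, ← Finset.sum_mul, sum_wt, one_mul]

omit h0 h1 in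
lemma Tn_fadd (φ ψ : Finset E → ℝ) (n : ℕ) (x : Finset E) :
    Tn δ n (fun y => φ y + ψ y) x = Tn δ n φ x + Tn δ n ψ x := by
  induction n generalizing x with
  | zero => rfl
  | succ n ih =>
    rw [Tn_succ, Tn_succ, Tn_succ]
    have : Tn δ n (fun y => φ y + ψ y) = fun y => Tn δ n φ y + Tn δ n ψ y := funext ih
    rw [this]
    simp only [T, mul_add, Finset.sum_add_distrib]

omit h0 h1 in
lemma Tn_smul (c : ℝ) (φ : Finset E → ℝ) (n : ℕ) (x : Finset E) :
    Tn δ n (fun y => c * φ y) x = c * Tn δ n φ x := by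
  induction n generalizing x with
  | zero => rfl
  | succ n ih =>
    rw [Tn_succ, Tn_succ]
    have : Tn δ n (fun y => c * φ y) = fun y => c * Tn δ n φ y := funext ih
    rw [this]
    simp only [T, Finset.mul_sum]
    refine Finset.sum_congr rfl fun z _ => by ring

omit h0 h1 in
lemma Tn_sum {ι : Type*} (s : Finset ι) (φ : ι → Finset E → ℝ) (n : ℕ) (x : Finset E) :
    Tn δ n (fun y => ∑ i ∈ s, φ i y) x = ∑ i ∈ s, Tn δ n (φ i) x := by
  classical
  induction s using Finset.induction_on with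
  | empty => simp [Tn_const]
  | insert a s ha ih =>
    simp only [Finset.sum_insert ha]
    rw [Tn_fadd, ih]

omit h0 h1 in
lemma Tn_fsub (φ ψ : Finset E → ℝ) (n : ℕ) (x : Finset E) :
    Tn δ n (fun y => φ y - ψ y) x = Tn δ n φ x - Tn δ n ψ x := by
  have h := Tn_fadd (δ := δ) (fun y => φ y - ψ y) ψ n x
  simp only [sub_add_cancel] at h
  linarith

omit h0 h1 in
/-- translation -/
lemma Tn_translate' (φ : Finset E → ℝ) (n : ℕ) (x : Finset E) :
    Tn δ n φ x = Tn δ n (fun z => φ (x ∪ z)) ∅ := by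
  have : ∀ u, Tn δ n φ (x ∪ u) = Tn δ n (fun z => φ (x ∪ z)) u := by
    intro u
    induction n generalizing u with
    | zero => rfl
    | succ n ih =>
      rw [Tn_succ, Tn_succ]
      simp only [T]
      refine Finset.sum_congr rfl fun z _ => ?_
      rw [Finset.union_assoc, ih]
  simpa using this ∅

/-- decreasing functions -/
def Anti (φ : Finset E → ℝ) : Prop := ∀ x y, x ⊆ y → φ y ≤ φ x

lemma Tn_anti {φ : Finset E → ℝ} (hφ : Anti φ) (n : ℕ) : Anti (Tn δ n φ) := by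
  intro x y hxy
  rw [Tn_translate' φ n x, Tn_translate' φ n y]
  exact Tn_mono h0 h1 (fun z => hφ _ _ (Finset.union_subset_union hxy (Finset.Subset.refl z))) n ∅

lemma Tn_le_self {φ : Finset E → ℝ} (hφ : Anti φ) (n : ℕ) (x : Finset E) :
    Tn δ n φ x ≤ φ x := by
  rw [Tn_translate' φ n x]
  calc Tn δ n (fun z => φ (x ∪ z)) ∅ ≤ Tn δ n (fun _ => φ x) ∅ :=
        Tn_mono h0 h1 (fun z => hφ _ _ Finset.subset_union_left) n ∅
    _ = φ x := Tn_const _ _ _

end basic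

/-- density after `n` steps -/
noncomputable def dens (δ : ℝ) (n : ℕ) : ℝ := 1 - (1 - δ) ^ n

lemma Tn_ind (δ : ℝ) (A : Finset E) (n : ℕ) (x : Finset E) :
    Tn δ n (fun y => if A ⊆ y then (1 : ℝ) else 0) x = dens δ n ^ (A \ x).card := by
  induction n generalizing x with
  | zero =>
    rw [Tn_zero, dens]
    by_cases h : A ⊆ x
    · simp [h, Finset.sdiff_eq_empty_iff_subset.mpr h]
    · have : (A \ x).card ≠ 0 := by
        rw [Finset.card_ne_zero, Finset.sdiff_nonempty]; exact h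
      simp [h, this]
  | succ n ih =>
    rw [Tn_succ]
    have : Tn δ n (fun y => if A ⊆ y then (1 : ℝ) else 0) = fun y => dens δ n ^ (A \ y).card :=
      funext ih
    rw [this, T_pow]
    congr 1
    simp only [dens]; ring

lemma dens_nonneg {δ : ℝ} (h0 : 0 ≤ δ) (h1 : δ ≤ 1) (n : ℕ) : 0 ≤ dens δ n := by
  unfold dens
  have : (1 - δ) ^ n ≤ 1 := pow_le_one₀ (by linarith) (by linarith)
  linarith

lemma dens_le_one {δ : ℝ} (_h0 : 0 ≤ δ) (h1 : δ ≤ 1) (n : ℕ) : dens δ n ≤ 1 := by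
  unfold dens
  have : 0 ≤ (1 - δ) ^ n := pow_nonneg (by linarith) _
  linarith

lemma dens_le {δ : ℝ} (_h0 : 0 ≤ δ) (h1 : δ ≤ 1) (n : ℕ) : dens δ n ≤ n * δ := by
  unfold dens
  have := one_add_mul_le_pow (a := -δ) (by linarith) n
  have h2 : (1 - δ) ^ n = (1 + -δ) ^ n := by ring_nf
  rw [h2]
  nlinarith

lemma dens_ge {M n : ℕ} (hM : 0 < M) (hn : n ≤ M) :
    (n : ℝ) / (2 * M) ≤ dens (1 / (M : ℝ)) n := by
  have hM' : (0 : ℝ) < M := by exact_mod_cast hM
  unfold dens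
  -- (1 - 1/M)^n * (1 + n/M) ≤ 1
  have h1 : 1 + (n : ℝ) * (1 / M) ≤ (1 + 1 / (M : ℝ)) ^ n :=
    one_add_mul_le_pow (by have : (0 : ℝ) ≤ 1 / M := by positivity
                           linarith) n
  have h2 : (1 - 1 / (M : ℝ)) ^ n * (1 + 1 / (M : ℝ)) ^ n ≤ 1 := by
    rw [← mul_pow]
    apply pow_le_one₀
    · have : 1 / (M : ℝ) ≤ 1 := by
        rw [div_le_one hM']; exact_mod_cast hM
      have h3 : (0 : ℝ) ≤ 1 / M := by positivity
      nlinarith
    · nlinarith [sq_nonneg (1 / (M : ℝ))]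
  have h3 : (0 : ℝ) ≤ (1 - 1 / (M : ℝ)) ^ n := by
    apply pow_nonneg
    have : 1 / (M : ℝ) ≤ 1 := by
      rw [div_le_one hM']; exact_mod_cast hM
    linarith
  set y : ℝ := (n : ℝ) / M with hy
  have hy0 : 0 ≤ y := by positivity
  have hy1 : y ≤ 1 := by
    rw [hy, div_le_one hM']; exact_mod_cast hn
  have h4 : (1 - 1 / (M : ℝ)) ^ n * (1 + y) ≤ 1 := by
    calc (1 - 1 / (M : ℝ)) ^ n * (1 + y) ≤ (1 - 1 / (M : ℝ)) ^ n * (1 + 1 / (M : ℝ)) ^ n := by
          apply mul_le_mul_of_nonneg_left _ h3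
          calc 1 + y = 1 + (n : ℝ) * (1 / M) := by rw [hy]; ring
            _ ≤ _ := h1
      _ ≤ 1 := h2
  have h5 : (n : ℝ) / (2 * M) = y / 2 := by rw [hy]; field_simp
  rw [h5]
  have h6 : (1 - 1 / (M : ℝ)) ^ n ≤ 1 - y / 2 := by
    have : (1 - 1 / (M : ℝ)) ^ n * (1 + y) ≤ (1 - y / 2) * (1 + y) := by nlinarith
    exact le_of_mul_le_mul_right this (by linarith)
  linarith

/-- A one-sided second moment bound. -/
lemma second_moment {δ : ℝ} (h0 : 0 ≤ δ) (h1 : δ ≤ 1) (n : ℕ) (x : Finset E)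
    (X : Finset E → ℝ) (μ : ℝ) (hμ : 0 < μ) (hX : Tn δ n X x = μ)
    (hX2 : Tn δ n (fun y => X y ^ 2) x ≤ 2 * μ ^ 2) :
    Tn δ n (fun y => if X y = 0 then (1 : ℝ) else 0) x ≤ 1 / 2 := by
  -- pointwise: 4 μ X - X² ≤ 4 μ² (1 - [X = 0])
  have key : ∀ y, 4 * μ * X y - X y ^ 2 + 4 * μ ^ 2 * (if X y = 0 then (1 : ℝ) else 0) ≤
      4 * μ ^ 2 := by
    intro y
    split_ifs with h
    · rw [h]; nlinarith
    · nlinarith [sq_nonneg (X y - 2 * μ)]
  have h2 := Tn_mono h0 h1 key n x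
  rw [Tn_const, Tn_fadd, Tn_fsub, Tn_smul, Tn_smul, hX] at h2
  have h3 : 4 * μ ^ 2 * Tn δ n (fun y => if X y = 0 then (1 : ℝ) else 0) x ≤
      4 * μ ^ 2 * (1 / 2) := by nlinarith
  exact le_of_mul_le_mul_left h3 (by positivity)

end Pool.Agent.NegLim
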