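import Pool.Agent.Work.MP_71c844_lc.NegClique

namespace Pool.Agent.NegLim

set_option linter.unusedSectionVars false

open Finset

variable {E : Type*} [Fintype E] [DecidableEq E]

section main

variable {U : Type*} [Fintype U] [Nonempty U]

open Classical in
/-- Number of monotone functions needed to separate all pairs `(x, x ∪ Y u)`. -/
theorem main_sep {b K R N S : ℕ} {q : ℝ} {Y : U → Finset E} (hb : 1 ≤ b)
    (hK : 1 ≤ K) (hq : 16 * b * 2 ^ K ≤ q)
    (hY : ∀ A : Finset E, A.card ≤ 2 * b →
      ((univ.filter (fun u => A ⊆ Y u)).card : ℝ) ≤ Fintype.card U * (1 / q) ^ A.card)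
    (hN : ∀ u, N ≤ (Y u).card) (hU : 2 * Fintype.card U ≤ 2 ^ N)
    (L : List (List (Gate E) × ℕ))
    (hL : ∀ p ∈ L, numNot p.1 = 0 ∧ size p.1 ≤ S)
    (hsep : ∀ (x : Finset E) (u : U), (¬ ∃ u', Y u' ⊆ x) →
      ∃ p ∈ L, gval p.1 p.2 x = false ∧ gval p.1 p.2 (x ∪ Y u) = true)
    (hS : S ≤ 2 ^ b)
    (hSR : 2 ^ K * (S + 1) * (lowSets E b).card ≤ 2 ^ R) :
    2 ^ K ≤ L.length * (44 * K * R) := by
  obtain ⟨K', rfl⟩ := Nat.exists_eq_add_of_le' hK
  set m : ℕ := 2 ^ K' with hmdef
  have hm : 2 ^ (K' + 1) = 2 * m := by rw [pow_succ, mul_comm]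
  have hR : 1 ≤ R := by
    by_contra hcon
    have hR0 : R = 0 := by omega
    rw [hR0, pow_zero] at hSR
    have e1 : 1 ≤ (lowSets E b).card := by
      rw [Nat.one_le_iff_ne_zero, Finset.card_ne_zero]
      exact ⟨∅, by simp [lowSets]⟩
    have e2 : 1 ≤ m := Nat.one_le_two_pow
    rw [hm] at hSR
    have e3 : 1 ≤ S + 1 := by omega
    have : 2 * 1 * 1 * 1 ≤ 2 * m * (S + 1) * (lowSets E b).card :=
      Nat.mul_le_mul (Nat.mul_le_mul (Nat.mul_le_mul le_rfl e2) e3) e1
    omega
  set δ : ℝ := 1 / (2 : ℝ) ^ (K' + 1) with hδ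
  have hM : (0 : ℝ) < 2 ^ (K' + 1) := by positivity
  have h0 : 0 ≤ δ := by positivity
  have h1 : δ ≤ 1 := by
    rw [hδ, div_le_one hM]; exact one_le_pow₀ (by norm_num)
  have hUpos : (0 : ℝ) < Fintype.card U := by exact_mod_cast Fintype.card_pos
  let ψ : Fin L.length → Finset E → ℝ := fun i x =>
    (if gval (L.get i).1 (L.get i).2 x = true then (0 : ℝ) else 1) *
        (((univ.filter (fun u => gval (L.get i).1 (L.get i).2 (x ∪ Y u) = true)).card : ℝ)
          / Fintype.card U)
  let F : Finset E → ℝ := fun x => if ∃ u, Y u ⊆ x then 1 else 0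
  -- covering
  have hcov : ∀ x, 1 ≤ F x + ∑ i, ψ i x := by
    intro x
    have hψ0 : ∀ i, 0 ≤ ψ i x := by
      intro i
      simp only [ψ]
      apply mul_nonneg
      · split_ifs <;> norm_num
      · positivity
    by_cases hx : ∃ u, Y u ⊆ x
    · have : F x = 1 := by simp only [F]; rw [if_pos hx]
      rw [this]
      have := Finset.sum_nonneg (fun i (_ : i ∈ (univ : Finset (Fin L.length))) => hψ0 i)
      linarith
    · have hFx : F x = 0 := by simp only [F]; rw [if_neg hx]
      rw [hFx, zero_add]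
      have hu : ∀ u : U, ∃ i : Fin L.length, gval (L.get i).1 (L.get i).2 x = false ∧
          gval (L.get i).1 (L.get i).2 (x ∪ Y u) = true := by
        intro u
        obtain ⟨p, hp, hp1, hp2⟩ := hsep x u hx
        obtain ⟨i, hi⟩ := List.mem_iff_get.mp hp
        refine ⟨i, ?_, ?_⟩
        · rw [← hi] at hp1; exact hp1
        · rw [← hi] at hp2; exact hp2
      have hcount : (Fintype.card U : ℝ) ≤ ∑ i : Fin L.length,
          (if gval (L.get i).1 (L.get i).2 x = true then (0 : ℝ) else 1) *
          ((univ.filter (fun u => gval (L.get i).1 (L.get i).2 (x ∪ Y u) = true)).card : ℝ) := by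
        have e1 : ∀ u : U, (1 : ℝ) ≤ ∑ i : Fin L.length,
            (if gval (L.get i).1 (L.get i).2 x = true then (0 : ℝ) else 1) *
            (if gval (L.get i).1 (L.get i).2 (x ∪ Y u) = true then (1 : ℝ) else 0) := by
          intro u
          obtain ⟨i, hi1, hi2⟩ := hu u
          have := Finset.single_le_sum (f := fun i : Fin L.length =>
            (if gval (L.get i).1 (L.get i).2 x = true then (0 : ℝ) else 1) *
            (if gval (L.get i).1 (L.get i).2 (x ∪ Y u) = true then (1 : ℝ) else 0))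
            (fun i _ => by
              show (0 : ℝ) ≤ (if gval (L.get i).1 (L.get i).2 x = true then (0 : ℝ) else 1) *
                (if gval (L.get i).1 (L.get i).2 (x ∪ Y u) = true then (1 : ℝ) else 0)
              split_ifs <;> norm_num) (Finset.mem_univ i)
          refine le_trans (le_of_eq ?_) this
          simp only [hi1, hi2]
          norm_num
        have e2 := Finset.sum_le_sum (fun u (_ : u ∈ (univ : Finset U)) => e1 u)
        rw [Finset.sum_const, Finset.card_univ, nsmul_eq_mul, mul_one, Finset.sum_comm] at e2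
        refine e2.trans (le_of_eq ?_)
        refine Finset.sum_congr rfl fun i _ => ?_
        rw [← Finset.mul_sum]
        congr 1
        rw [Finset.sum_boole]
      have e3 : ∑ i, ψ i x = (∑ i : Fin L.length,
          (if gval (L.get i).1 (L.get i).2 x = true then (0 : ℝ) else 1) *
          ((univ.filter (fun u => gval (L.get i).1 (L.get i).2 (x ∪ Y u) = true)).card : ℝ))
            / Fintype.card U := by
        rw [Finset.sum_div]
        refine Finset.sum_congr rfl fun i _ => ?_
        simp only [ψ]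
        ring
      rw [e3, le_div_iff₀ hUpos, one_mul]
      exact hcount
  -- each candidate
  have hψ : ∀ i, ∑ s ∈ range m, Tn δ s (ψ i) ∅ ≤ 11 * ((K' + 1 : ℕ) : ℝ) * R := by
    intro i
    have hmem := hL (L.get i) (List.get_mem L i)
    exact separation hb hm hK hR hq hY (L.get i).1 hmem.1 (L.get i).2 S hmem.2 hS hSR
  -- the function itself is rarely 1
  have hF : ∀ s ∈ range m, Tn δ s F ∅ ≤ 1 / 2 := by
    intro s hs
    rw [Finset.mem_range] at hs
    have hdens : dens δ s ≤ 1 / 2 := by
      refine (dens_le h0 h1 s).trans ?_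
      rw [hδ, hmdef] at *
      have : (s : ℝ) ≤ 2 ^ K' := by exact_mod_cast hs.le
      rw [mul_one_div, div_le_div_iff₀ (by positivity) (by norm_num), pow_succ]
      linarith
    have hd0 := dens_nonneg h0 h1 s
    have e1 : Tn δ s F ∅ ≤ ∑ u : U, dens δ s ^ (Y u).card := by
      have hpt : ∀ x, F x ≤ ∑ u : U, (if Y u ⊆ x then (1 : ℝ) else 0) := by
        intro x
        simp only [F]
        split_ifs with h
        · obtain ⟨u, hu⟩ := h
          have := Finset.single_le_sum (f := fun u : U => if Y u ⊆ x then (1 : ℝ) else 0)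
            (fun u _ => by
              show (0 : ℝ) ≤ if Y u ⊆ x then (1 : ℝ) else 0
              split_ifs <;> norm_num) (Finset.mem_univ u)
          simpa [hu] using this
        · apply Finset.sum_nonneg; intro u _; split_ifs <;> norm_num
      refine (Tn_mono h0 h1 hpt s ∅).trans (le_of_eq ?_)
      rw [Tn_sum]
      refine Finset.sum_congr rfl fun u _ => ?_
      rw [Tn_ind, Finset.sdiff_empty]
    refine e1.trans ?_
    have e2 : ∀ u ∈ (univ : Finset U), dens δ s ^ (Y u).card ≤ (1 / 2) ^ N := by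
      intro u _
      calc dens δ s ^ (Y u).card ≤ (1 / 2) ^ (Y u).card := pow_le_pow_left₀ hd0 hdens _
        _ ≤ (1 / 2) ^ N := pow_le_pow_of_le_one (by norm_num) (by norm_num) (hN u)
    refine (Finset.sum_le_sum e2).trans ?_
    rw [Finset.sum_const, Finset.card_univ, nsmul_eq_mul]
    have e3 : (2 : ℝ) * Fintype.card U ≤ 2 ^ N := by exact_mod_cast hU
    have e4 : (1 / 2 : ℝ) ^ N = 1 / 2 ^ N := by rw [div_pow, one_pow]
    rw [e4, mul_one_div, div_le_div_iff₀ (by positivity) (by norm_num)]
    linarith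
  -- conclusion
  have htot : (m : ℝ) ≤ ∑ s ∈ range m, Tn δ s F ∅ + ∑ i, ∑ s ∈ range m, Tn δ s (ψ i) ∅ := by
    rw [Finset.sum_comm (s := univ), ← Finset.sum_add_distrib]
    have e1 : ∀ s ∈ range m, (1 : ℝ) ≤ Tn δ s F ∅ + ∑ i, Tn δ s (ψ i) ∅ := by
      intro s _
      have := Tn_mono h0 h1 hcov s ∅
      rw [Tn_const, Tn_fadd, Tn_sum] at this
      exact this
    have := Finset.sum_le_sum e1
    simpa using this
  have e5 := Finset.sum_le_sum hF
  rw [Finset.sum_const, card_range, nsmul_eq_mul] at e5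
  have e6 := Finset.sum_le_sum (fun i (_ : i ∈ (univ : Finset (Fin L.length))) => hψ i)
  rw [Finset.sum_const, Finset.card_univ, Fintype.card_fin, nsmul_eq_mul] at e6
  have e9 : ((2 ^ (K' + 1) : ℕ) : ℝ) ≤ ((L.length * (44 * (K' + 1) * R) : ℕ) : ℝ) := by
    rw [hm]
    push_cast at e6 ⊢
    linarith
  exact_mod_cast e9

end main

end Pool.Agent.NegLim
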