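import Pool.Agent.Work.MP_71c844_lc.NegOp

namespace Pool.Agent.NegLim

set_option linter.unusedSectionVars false

open Finset

variable {E : Type*} [Fintype E] [DecidableEq E]

open Classical in
/-- indicator that no member of `𝒜` is contained in `y` -/
noncomputable def miss (𝒜 : Finset (Finset E)) (y : Finset E) : ℝ :=
  if ∃ A ∈ 𝒜, A ⊆ y then 0 else 1

lemma miss_anti (𝒜 : Finset (Finset E)) (K : Finset E) : Anti (fun y => miss 𝒜 (y ∪ K)) := by
  intro x y hxy
  simp only [miss]
  split_ifs with h1 h2 h2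
  · exact le_rfl
  · exact zero_le_one
  · obtain ⟨A, hA, hAx⟩ := h2
    exact absurd ⟨A, hA, hAx.trans (Finset.union_subset_union_left hxy)⟩ h1
  · exact le_rfl

lemma miss_zero_or_one (𝒜 : Finset (Finset E)) (y : Finset E) : miss 𝒜 y = 0 ∨ miss 𝒜 y = 1 := by
  unfold miss; split_ifs <;> simp

lemma miss_mono {𝒜 ℬ : Finset (Finset E)} (h : 𝒜 ⊆ ℬ) (y : Finset E) : miss ℬ y ≤ miss 𝒜 y := by
  unfold miss
  split_ifs with h1 h2 h2
  · exact le_rfl
  · exact zero_le_one
  · obtain ⟨A, hA, hAx⟩ := h2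
    exact absurd ⟨A, h hA, hAx⟩ h1
  · exact le_rfl

lemma two_bound {b d : ℕ} (hb : 1 ≤ b) (hd : d ≤ 2 * b) {ρ : ℝ} (hρ0 : 0 ≤ ρ)
    (hρ : ρ ≤ 1 / (4 * b)) : (1 + ρ) ^ d ≤ 2 := by
  have hb' : (1 : ℝ) ≤ b := by exact_mod_cast hb
  have hd' : (d : ℝ) ≤ 2 * b := by exact_mod_cast hd
  have h1 : (1 + ρ) ^ d ≤ Real.exp (ρ) ^ d := by
    apply pow_le_pow_left₀ (by linarith)
    have := Real.add_one_le_exp ρ
    linarith
  have h2 : Real.exp ρ ^ d = Real.exp (d * ρ) := by
    rw [← Real.exp_nat_mul]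
  have h3 : (d : ℝ) * ρ ≤ 1 / 2 := by
    calc (d : ℝ) * ρ ≤ (2 * b) * (1 / (4 * b)) := by
          apply mul_le_mul hd' hρ hρ0 (by positivity)
      _ = 1 / 2 := by field_simp; norm_num
  have h4 : Real.exp (1 / 2) ≤ 2 := by
    have h5 : Real.exp (1 / 2) ^ 2 = Real.exp 1 := by
      rw [← Real.exp_nat_mul]; norm_num
    have h6 := Real.exp_one_lt_d9
    have h7 : Real.exp (1 / 2) ^ 2 < 2 ^ 2 := by rw [h5]; linarith
    by_contra hcon
    push Not at hcon
    nlinarith
  calc (1 + ρ) ^ d ≤ Real.exp (d * ρ) := by rw [← h2]; exact h1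
    _ ≤ Real.exp (1 / 2) := Real.exp_le_exp.mpr h3
    _ ≤ 2 := h4

/-- Robust sunflower lemma, one round: a family of more than `B ^ j` sets of size `j` has a kernel
`K` (properly contained in a member) such that after `n` steps a member is contained in `y ∪ K`
with probability at least `1/2`. -/
lemma sunflower_half {δ : ℝ} (h0 : 0 ≤ δ) (h1 : δ ≤ 1) (n b j : ℕ) (B : ℝ) (hB : 0 < B)
    (hb : 1 ≤ b) (hj : j ≤ 2 * b) (hBa : 4 * b ≤ B * dens δ n) (F : Finset (Finset E))
    (hF : ∀ A ∈ F, A.card = j) (hFc : B ^ j < F.card) :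
    ∃ K : Finset E, (∃ A ∈ F, K ⊂ A) ∧
      ∀ x, Tn δ n (fun y => miss F (y ∪ K)) x ≤ 1 / 2 := by
  classical
  set a := dens δ n with ha
  have ha1 : a ≤ 1 := dens_le_one h0 h1 n
  have hb' : (1 : ℝ) ≤ b := by exact_mod_cast hb
  have hapos : 0 < a := by
    by_contra hcon
    push Not at hcon
    have : B * a ≤ 0 := mul_nonpos_of_nonneg_of_nonpos hB.le hcon
    linarith
  let P : Finset E → Prop := fun K => B ^ (j - K.card) < ((F.filter (fun A => K ⊆ A)).card : ℝ)
  have hP0 : P ∅ := by
    simp only [P, Finset.card_empty, Nat.sub_zero]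
    have : F.filter (fun A => ∅ ⊆ A) = F := by
      apply Finset.filter_true_of_mem; intro A _; exact Finset.empty_subset A
    rw [this]; exact hFc
  obtain ⟨K, hK, hKmax⟩ := Finset.exists_max_image (univ.filter P) Finset.card
    ⟨∅, by simp [hP0]⟩
  simp only [Finset.mem_filter, Finset.mem_univ, true_and] at hK hKmax
  set F' := F.filter (fun A => K ⊆ A) with hF'
  have hKj : K.card < j := by
    by_contra hcon
    push Not at hcon
    have h2 : F'.card ≤ 1 := by
      rw [Finset.card_le_one]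
      intro A hA A' hA'
      rw [hF', Finset.mem_filter] at hA hA'
      have e1 : K = A := Finset.eq_of_subset_of_card_le hA.2 (by rw [hF A hA.1]; exact hcon)
      have e2 : K = A' := Finset.eq_of_subset_of_card_le hA'.2 (by rw [hF A' hA'.1]; exact hcon)
      rw [← e1, ← e2]
    have h3 : P K := hK
    simp only [P, Nat.sub_eq_zero_of_le hcon, pow_zero] at h3
    rw [← hF'] at h3
    have : (F'.card : ℝ) ≤ 1 := by exact_mod_cast h2
    linarith
  set d := j - K.card with hd
  have hF'B : B ^ d < (F'.card : ℝ) := hK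
  have hF'pos : (0 : ℝ) < F'.card := lt_trans (by positivity) hF'B
  have hmem : ∀ A ∈ F', A ∈ F ∧ K ⊆ A := fun A hA => by
    rw [hF', Finset.mem_filter] at hA; exact hA
  have hcardAK : ∀ A ∈ F', (A \ K).card = d := fun A hA => by
    rw [Finset.card_sdiff_of_subset (hmem A hA).2, hF A (hmem A hA).1]
  refine ⟨K, ?_, ?_⟩
  · have : F'.Nonempty := by
      rw [← Finset.card_pos]; exact_mod_cast hF'pos
    obtain ⟨A, hA⟩ := this
    refine ⟨A, (hmem A hA).1, (hmem A hA).2, fun hAK => ?_⟩
    have := Finset.card_le_card hAK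
    rw [hF A (hmem A hA).1] at this
    omega
  -- link degrees
  have hlink : ∀ D : Finset E, D.Nonempty → Disjoint D K → D.card ≤ d →
      ((F'.filter (fun A => D ⊆ A)).card : ℝ) ≤ F'.card * (1 / B) ^ D.card := by
    intro D hDne hDK hDd
    have hcard : (K ∪ D).card = K.card + D.card := Finset.card_union_of_disjoint hDK.symm
    have hDpos : 0 < D.card := Finset.card_pos.mpr hDne
    have hnot : ¬ P (K ∪ D) := by
      intro hcon
      have := hKmax (K ∪ D) hcon
      omega
    have heq : F'.filter (fun A => D ⊆ A) = F.filter (fun A => K ∪ D ⊆ A) := by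
      ext A
      simp only [hF', Finset.mem_filter, Finset.union_subset_iff]
      tauto
    simp only [P, not_lt] at hnot
    rw [heq]
    refine hnot.trans ?_
    have e : j - (K ∪ D).card = d - D.card := by omega
    rw [e]
    have e2 : B ^ (d - D.card) = B ^ d * (1 / B) ^ D.card := by
      rw [one_div, inv_pow, pow_sub₀ _ hB.ne' hDd]
    rw [e2]
    exact mul_le_mul_of_nonneg_right hF'B.le (by positivity)
  -- the counting variable
  let X : Finset E → ℝ := fun y => ∑ A ∈ F', if A \ K ⊆ y then (1 : ℝ) else 0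
  set μ : ℝ := F'.card * a ^ d with hμ
  have hμpos : 0 < μ := by positivity
  have hXμ : Tn δ n X ∅ = μ := by
    rw [show X = fun y => ∑ A ∈ F', if A \ K ⊆ y then (1 : ℝ) else 0 from rfl, Tn_sum]
    rw [Finset.sum_congr rfl (fun A hA => by
      rw [Tn_ind, Finset.sdiff_empty, hcardAK A hA])]
    rw [Finset.sum_const, nsmul_eq_mul]
  have hX2 : Tn δ n (fun y => X y ^ 2) ∅ ≤ 2 * μ ^ 2 := by
    have e1 : (fun y => X y ^ 2) = fun y => ∑ A ∈ F', ∑ A' ∈ F',
        if (A ∪ A') \ K ⊆ y then (1 : ℝ) else 0 := by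
      funext y
      rw [sq, Finset.sum_mul_sum]
      refine Finset.sum_congr rfl fun A _ => Finset.sum_congr rfl fun A' _ => ?_
      have hiff : (A ∪ A') \ K ⊆ y ↔ A \ K ⊆ y ∧ A' \ K ⊆ y := by
        rw [Finset.union_sdiff_distrib, Finset.union_subset_iff]
      by_cases hh1 : A \ K ⊆ y <;> by_cases hh2 : A' \ K ⊆ y <;> simp [hiff, hh1, hh2]
    rw [e1, Tn_sum]
    have e2 : ∀ A ∈ F', Tn δ n (fun y => ∑ A' ∈ F',
        if (A ∪ A') \ K ⊆ y then (1 : ℝ) else 0) ∅ ≤ 2 * (F'.card * a ^ (2 * d)) := by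
      intro A hA
      rw [Tn_sum]
      simp_rw [Tn_ind, Finset.sdiff_empty]
      have e3 : ∀ A' ∈ F', a ^ ((A ∪ A') \ K).card ≤
          a ^ (2 * d) * ∑ D ∈ (A \ K).powerset,
            (if D ⊆ A' then (1 / a) ^ D.card else 0) := by
        intro A' hA'
        set I := (A \ K) ∩ A' with hI
        have hImem : I ∈ (A \ K).powerset := Finset.mem_powerset.mpr Finset.inter_subset_left
        have hle : (1 / a) ^ I.card ≤ ∑ D ∈ (A \ K).powerset,
            (if D ⊆ A' then (1 / a) ^ D.card else 0) := by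
          have := Finset.single_le_sum (f := fun D => if D ⊆ A' then (1 / a) ^ D.card else 0)
            (fun D _ => by
              show (0 : ℝ) ≤ if D ⊆ A' then (1 / a) ^ D.card else 0
              split_ifs <;> positivity) hImem
          simpa [hI, Finset.inter_subset_right] using this
        have hcard : ((A ∪ A') \ K).card + I.card = 2 * d := by
          have hu : (A ∪ A') \ K = (A \ K) ∪ (A' \ K) := Finset.union_sdiff_distrib _ _ _
          have hi : I = (A \ K) ∩ (A' \ K) := by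
            ext e; simp only [hI, mem_inter, mem_sdiff]; tauto
          rw [hu, hi, Finset.card_union_add_card_inter, hcardAK A hA, hcardAK A' hA']
          ring
        have : a ^ ((A ∪ A') \ K).card = a ^ (2 * d) * (1 / a) ^ I.card := by
          rw [← hcard, pow_add, mul_assoc, ← mul_pow, mul_one_div_cancel hapos.ne', one_pow,
            mul_one]
        rw [this]
        exact mul_le_mul_of_nonneg_left hle (by positivity)
      refine (Finset.sum_le_sum e3).trans ?_
      rw [← Finset.mul_sum, Finset.sum_comm]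
      have e4 : ∀ D ∈ (A \ K).powerset, (∑ A' ∈ F', if D ⊆ A' then (1 / a) ^ D.card else 0) ≤
          F'.card * (1 / (a * B)) ^ D.card := by
        intro D hD
        rw [Finset.mem_powerset] at hD
        rw [← Finset.sum_filter, Finset.sum_const, nsmul_eq_mul]
        have e5 : (F'.card : ℝ) * (1 / (a * B)) ^ D.card =
            (F'.card * (1 / B) ^ D.card) * (1 / a) ^ D.card := by
          rw [mul_assoc, ← mul_pow]; congr 2; field_simp
        rw [e5]
        apply mul_le_mul_of_nonneg_right _ (by positivity)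
        rcases D.eq_empty_or_nonempty with rfl | hne
        · simp
        · apply hlink D hne
          · exact Finset.disjoint_of_subset_left hD Finset.sdiff_disjoint
          · exact (Finset.card_le_card hD).trans_eq (hcardAK A hA)
      have e6 : ∑ D ∈ (A \ K).powerset, (∑ A' ∈ F', if D ⊆ A' then (1 / a) ^ D.card else 0) ≤
          2 * F'.card := by
        refine (Finset.sum_le_sum e4).trans ?_
        rw [← Finset.mul_sum]
        have e7 : ∑ D ∈ (A \ K).powerset, (1 / (a * B)) ^ D.card = (1 + 1 / (a * B)) ^ d := by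
          have := Finset.sum_pow_mul_eq_add_pow (1 / (a * B)) 1 (A \ K)
          simp only [one_pow, mul_one] at this
          rw [this, hcardAK A hA, add_comm]
        rw [e7]
        have e8 : (1 + 1 / (a * B)) ^ d ≤ 2 := by
          apply two_bound hb (by omega) (by positivity)
          apply one_div_le_one_div_of_le (by positivity)
          linarith
        nlinarith
      calc a ^ (2 * d) * ∑ D ∈ (A \ K).powerset,
            (∑ A' ∈ F', if D ⊆ A' then (1 / a) ^ D.card else 0) ≤ a ^ (2 * d) * (2 * F'.card) :=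
            mul_le_mul_of_nonneg_left e6 (by positivity)
        _ = 2 * (F'.card * a ^ (2 * d)) := by ring
    refine (Finset.sum_le_sum e2).trans ?_
    rw [Finset.sum_const, nsmul_eq_mul, hμ]
    apply le_of_eq
    ring
  have hhalf := second_moment h0 h1 n ∅ X μ hμpos hXμ hX2
  intro x
  have hanti := Tn_anti h0 h1 (miss_anti F K) n
  refine (hanti ∅ x (Finset.empty_subset x)).trans (le_trans ?_ hhalf)
  apply Tn_mono h0 h1
  intro y
  unfold miss
  split_ifs with hh1 hh2 hh2
  · exact zero_le_one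
  · exact le_rfl
  · exact le_rfl
  · exfalso
    apply hh2
    apply Finset.sum_eq_zero
    intro A hA
    rw [if_neg]
    intro hAy
    apply hh1
    refine ⟨A, (hmem A hA).1, ?_⟩
    intro e he
    by_cases heK : e ∈ K
    · exact Finset.mem_union_right _ heK
    · exact Finset.mem_union_left _ (hAy (Finset.mem_sdiff.mpr ⟨he, heK⟩))

/-- Amplification over `R` rounds. -/
lemma amplify {δ : ℝ} (h0 : 0 ≤ δ) (h1 : δ ≤ 1) (n R : ℕ) (φ : Finset E → ℝ) (hanti : Anti φ)
    (h01 : ∀ y, φ y = 0 ∨ φ y = 1) (hhalf : ∀ x, Tn δ n φ x ≤ 1 / 2) (x : Finset E) :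
    Tn δ (n * R) φ x ≤ (1 / 2) ^ R * φ x := by
  have hpt : ∀ x, Tn δ n φ x ≤ (1 / 2) * φ x := by
    intro x
    rcases h01 x with h | h
    · rw [h, mul_zero, ← h]; exact Tn_le_self h0 h1 hanti n x
    · rw [h, mul_one]; exact hhalf x
  induction R generalizing x with
  | zero => simp [Tn_zero]
  | succ R ih =>
    rw [Nat.mul_succ, Tn_add]
    calc Tn δ (n * R) (Tn δ n φ) x ≤ Tn δ (n * R) (fun y => (1 / 2) * φ y) x :=
          Tn_mono h0 h1 hpt _ _
      _ = (1 / 2) * Tn δ (n * R) φ x := Tn_smul _ _ _ _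
      _ ≤ (1 / 2) * ((1 / 2) ^ R * φ x) := mul_le_mul_of_nonneg_left (ih x) (by norm_num)
      _ = (1 / 2) ^ (R + 1) * φ x := by ring

/-- Robust sunflower lemma. -/
lemma sunflower {δ : ℝ} (h0 : 0 ≤ δ) (h1 : δ ≤ 1) (n b j R : ℕ) (B : ℝ) (hB : 0 < B)
    (hb : 1 ≤ b) (hj : j ≤ 2 * b) (hBa : 4 * b ≤ B * dens δ n) (F : Finset (Finset E))
    (hF : ∀ A ∈ F, A.card = j) (hFc : B ^ j < F.card) :
    ∃ K : Finset E, (∃ A ∈ F, K ⊂ A) ∧
      Tn δ (n * R) (fun y => miss F (y ∪ K)) ∅ ≤ (1 / 2) ^ R := by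
  obtain ⟨K, hK, hhalf⟩ := sunflower_half h0 h1 n b j B hB hb hj hBa F hF hFc
  refine ⟨K, hK, ?_⟩
  have := amplify h0 h1 n R _ (miss_anti F K) (fun y => miss_zero_or_one F _) hhalf ∅
  refine this.trans ?_
  have h2 : miss F (∅ ∪ K) ≤ 1 := by
    rcases miss_zero_or_one F (∅ ∪ K) with h | h <;> rw [h]; exact zero_le_one
  have h3 : (0 : ℝ) ≤ (1 / 2) ^ R := by positivity
  nlinarith

end Pool.Agent.NegLim
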