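import Pool.Agent.Work.MP_71c844_lc.RecCode
import Pool.Agent.Work.MP_71c844_lc.NegClique

/-!
The hard function as a projection of CLIQUE on few vertices.
-/

namespace Pool.Agent.Rec82

set_option linter.unusedSectionVars false

open Finset
open Pool.Agent.NegLim (pull gph)

/-- names of the parts of the first kind -/
abbrev P1 (κ N m : ℕ) : Type := Fin N × Fin m × Fin 2 × Fin κ

/-- names of the parts of the second kind -/
abbrev P2 (N : ℕ) : Type := Fin N × Fin 2

/-- names of the parts -/
abbrev Part (κ N m d : ℕ) : Type := P1 κ N m ⊕ (P2 N ⊕ Fin d)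

/-- vertices of the multipartite graph, with universal vertices -/
abbrev Vtx (κ N m d : ℕ) : Type :=
  (P1 κ N m × (ZMod 2 × ZMod 2)) ⊕ ((P2 N × Hs κ) ⊕ Fin d)

variable {κ r N m D d : ℕ}

/-- part of a vertex -/
def partOf : Vtx κ N m d → Part κ N m d
  | .inl a => .inl a.1
  | .inr (.inl a) => .inr (.inl a.1)
  | .inr (.inr a) => .inr (.inr a)

/-- the vertex of each part that is selected by the seed `u` -/
def canon (g : Fin N → Fin m → Fin r) (u : Seed κ r) : Part κ N m d → Vtx κ N m d
  | .inl q => .inl (q, (ps g u q.1 q.2.2.1 q.2.1.1 q.2.2.2, u (g q.1 q.2.1) q.2.2.1 q.2.2.2))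
  | .inr (.inl q) => .inr (.inl (q, ps g u q.1 q.2 m))
  | .inr (.inr a) => .inr (.inr a)

lemma partOf_canon (g : Fin N → Fin m → Fin r) (u : Seed κ r) (z : Part κ N m d) :
    partOf (canon g u z) = z := by
  rcases z with z | z | z <;> rfl

/-- the fixed adjacency -/
def fixAdj (g : Fin N → Fin m → Fin r) (a c : Vtx κ N m d) : Prop :=
  partOf a ≠ partOf c ∧ ∃ u : Seed κ r, canon g u (partOf a) = a ∧ canon g u (partOf c) = c

lemma fixAdj_symm (g : Fin N → Fin m → Fin r) (a c : Vtx κ N m d) (h : fixAdj g a c) :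
    fixAdj g c a := by
  obtain ⟨h1, u, h2, h3⟩ := h
  exact ⟨h1.symm, u, h3, h2⟩

/-- endpoints of the edge that carries the variable `t` -/
def endL (t : Gr κ N) : Vtx κ N m d := .inr (.inl ((t.1, 0), t.2.1))
def endR (t : Gr κ N) : Vtx κ N m d := .inr (.inl ((t.1, 1), t.2.2))

variable {v : ℕ} (ι : Vtx κ N m d ↪ Fin v) (g : Fin N → Fin m → Fin r)

open Classical in
/-- the projection -/
noncomputable def proj (e : Sym2 (Fin v)) : Bool ⊕ Gr κ N :=
  if h : ∃ t : Gr κ N, e = s(ι (endL t), ι (endR t)) then .inr h.choose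
  else .inl (decide (∃ a c : Vtx κ N m d, e = s(ι a, ι c) ∧ fixAdj g a c))

lemma end_unique {t t' : Gr κ N} (h : s(ι (endL t), ι (endR t)) = s(ι (endL t'), ι (endR t'))) :
    t = t' := by
  rw [Sym2.eq_iff] at h
  rcases h with ⟨h1, h2⟩ | ⟨h1, h2⟩
  · have e1 := ι.injective h1
    have e2 := ι.injective h2
    simp only [endL, endR, Sum.inl.injEq, Prod.mk.injEq, Sum.inr.injEq] at e1 e2
    exact Prod.ext e1.1.1 (Prod.ext e1.2 e2.2)
  · have e1 := ι.injective h1
    simp only [endL, endR, Sum.inl.injEq, Prod.mk.injEq, Sum.inr.injEq] at e1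
    exact absurd e1.1.2 (by decide)

open Classical in
lemma pull_var (x : Gr κ N → Bool) (t : Gr κ N) :
    pull (proj ι g) x s(ι (endL t), ι (endR t)) = x t := by
  have h : ∃ t' : Gr κ N, s(ι (endL t), ι (endR t)) = s(ι (endL t'), ι (endR t')) := ⟨t, rfl⟩
  unfold pull proj
  rw [dif_pos h]
  have := end_unique ι h.choose_spec
  simp only
  rw [← this]

open Classical in
lemma pull_fix (x : Gr κ N → Bool) (e : Sym2 (Fin v))
    (h : ¬ ∃ t : Gr κ N, e = s(ι (endL t), ι (endR t))) :
    pull (proj ι g) x e = true ↔ ∃ a c : Vtx κ N m d, e = s(ι a, ι c) ∧ fixAdj g a c := by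
  unfold pull proj
  rw [dif_neg h]
  simp

lemma pull_fix' (x : Gr κ N → Bool) (a c : Vtx κ N m d)
    (h : ¬ ∃ t : Gr κ N, s(ι a, ι c) = s(ι (endL t), ι (endR t))) :
    pull (proj ι g) x s(ι a, ι c) = true ↔ fixAdj g a c := by
  rw [pull_fix ι g x _ h]
  constructor
  · rintro ⟨a', c', he, hf⟩
    rw [Sym2.eq_iff] at he
    rcases he with ⟨h1, h2⟩ | ⟨h1, h2⟩
    · rw [ι.injective h1, ι.injective h2]; exact hf
    · rw [ι.injective h1, ι.injective h2]; exact fixAdj_symm g _ _ hf
  · intro hf; exact ⟨a, c, rfl, hf⟩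

lemma partOf_endL (t : Gr κ N) : partOf (endL t : Vtx κ N m d) = .inr (.inl (t.1, 0)) := rfl

lemma partOf_endR (t : Gr κ N) : partOf (endR t : Vtx κ N m d) = .inr (.inl (t.1, 1)) := rfl

lemma adj_part_ne (x : Gr κ N → Bool) (a c : Vtx κ N m d)
    (h : (gph (pull (proj ι g) x)).Adj (ι a) (ι c)) : partOf a ≠ partOf c := by
  rw [gph, SimpleGraph.fromEdgeSet_adj] at h
  obtain ⟨h1, h2⟩ := h
  have h1' : pull (proj ι g) x s(ι a, ι c) = true := h1
  by_cases ht : ∃ t : Gr κ N, s(ι a, ι c) = s(ι (endL t), ι (endR t))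
  · obtain ⟨t, ht⟩ := ht
    rw [Sym2.eq_iff] at ht
    rcases ht with ⟨e1, e2⟩ | ⟨e1, e2⟩
    · rw [ι.injective e1, ι.injective e2, partOf_endL, partOf_endR]
      simp
    · rw [ι.injective e1, ι.injective e2, partOf_endL, partOf_endR]
      simp
  · rw [pull_fix' ι g x a c ht] at h1'
    exact h1'.1

/-- a planted set gives a clique -/
lemma clique_of_planted (x : Gr κ N → Bool) (u : Seed κ r)
    (hu : ∀ i : Fin N, x (i, code g u i) = true) :
    ¬ (gph (pull (proj ι g) x)).CliqueFree (Fintype.card (Part κ N m d)) := by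
  classical
  intro hfree
  have hinj : Function.Injective (fun z : Part κ N m d => ι (canon g u z)) := by
    intro z z' h
    have := ι.injective h
    have h2 := congrArg partOf this
    rwa [partOf_canon, partOf_canon] at h2
  apply hfree (univ.image (fun z : Part κ N m d => ι (canon g u z)))
  constructor
  · intro a ha c hc hac
    rw [Finset.mem_coe, Finset.mem_image] at ha hc
    obtain ⟨z, _, rfl⟩ := ha
    obtain ⟨z', _, rfl⟩ := hc
    rw [gph, SimpleGraph.fromEdgeSet_adj]
    refine ⟨?_, hac⟩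
    show pull (proj ι g) x s(ι (canon g u z), ι (canon g u z')) = true
    have hzz : z ≠ z' := fun h => hac (by rw [h])
    by_cases ht : ∃ t : Gr κ N, s(ι (canon g u z), ι (canon g u z')) = s(ι (endL t), ι (endR t))
    · obtain ⟨t, ht⟩ := ht
      rw [ht, pull_var]
      have key : ∀ z1 z2 : Part κ N m d, ι (canon g u z1) = ι (endL t) →
          ι (canon g u z2) = ι (endR t) → x t = true := by
        intro z1 z2 e1 e2
        have e1' := ι.injective e1
        have e2' := ι.injective e2
        have f1 := congrArg partOf e1'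
        have f2 := congrArg partOf e2'
        rw [partOf_canon, partOf_endL] at f1
        rw [partOf_canon, partOf_endR] at f2
        subst f1; subst f2
        simp only [canon, endL, endR, Sum.inr.injEq, Sum.inl.injEq, Prod.mk.injEq, true_and]
          at e1' e2'
        have : t = (t.1, code g u t.1) := by
          unfold code
          rw [e1', e2']
        rw [this]; exact hu t.1
      rw [Sym2.eq_iff] at ht
      rcases ht with ⟨e1, e2⟩ | ⟨e1, e2⟩
      · exact key z z' e1 e2
      · exact key z' z e2 e1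
    · rw [pull_fix' ι g x _ _ ht]
      refine ⟨by rw [partOf_canon, partOf_canon]; exact hzz, u, ?_, ?_⟩
      · rw [partOf_canon]
      · rw [partOf_canon]
  · rw [Finset.card_image_of_injective _ hinj, Finset.card_univ]

/-- a clique gives a planted set -/
lemma planted_of_clique (hm : 1 ≤ m) (hN1 : 1 ≤ N) (x : Gr κ N → Bool)
    (h : ¬ (gph (pull (proj ι g) x)).CliqueFree (Fintype.card (Part κ N m d))) :
    ∃ u : Seed κ r, ∀ i : Fin N, x (i, code g u i) = true := by
  classical
  rw [SimpleGraph.CliqueFree] at h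
  push Not at h
  obtain ⟨S, hclq⟩ := h
  have hS := hclq.isClique
  have hScard := hclq.card_eq
  -- there are at least two parts
  have h2 : 2 ≤ S.card := by
    rw [hScard, Fintype.card_sum, Fintype.card_sum, Fintype.card_prod (Fin N) (Fin 2),
      Fintype.card_fin, Fintype.card_fin]
    omega
  -- every vertex of the clique is in the range
  have hrange : ∀ a ∈ S, ∃ w : Vtx κ N m d, ι w = a := by
    intro a ha
    obtain ⟨c, hc, hca⟩ := Finset.exists_mem_ne (by omega : 1 < S.card) a
    have hadj := hS (Finset.mem_coe.mpr ha) (Finset.mem_coe.mpr hc) hca.symm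
    rw [gph, SimpleGraph.fromEdgeSet_adj] at hadj
    have h1 : pull (proj ι g) x s(a, c) = true := hadj.1
    by_cases ht : ∃ t : Gr κ N, s(a, c) = s(ι (endL t), ι (endR t))
    · obtain ⟨t, ht⟩ := ht
      rw [Sym2.eq_iff] at ht
      rcases ht with ⟨e1, e2⟩ | ⟨e1, e2⟩
      · exact ⟨_, e1.symm⟩
      · exact ⟨_, e1.symm⟩
    · rw [pull_fix ι g x _ ht] at h1
      obtain ⟨a', c', he, _⟩ := h1
      rw [Sym2.eq_iff] at he
      rcases he with ⟨e1, e2⟩ | ⟨e1, e2⟩
      · exact ⟨_, e1.symm⟩
      · exact ⟨_, e1.symm⟩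
  -- the clique meets every part
  let T : Finset (Vtx κ N m d) := univ.filter (fun w => ι w ∈ S)
  have hT : T.card = S.card := by
    apply Finset.card_bij (fun w _ => ι w)
    · intro w hw
      simp only [T, mem_filter, mem_univ, true_and] at hw
      exact hw
    · intro w _ w' _ h; exact ι.injective h
    · intro a ha
      obtain ⟨w, hw⟩ := hrange a ha
      exact ⟨w, by simp only [T, mem_filter, mem_univ, true_and]; rw [hw]; exact ha, hw⟩
  have hpinj : Set.InjOn partOf (T : Set (Vtx κ N m d)) := by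
    intro w hw w' hw' hpp
    by_contra hne
    simp only [T, coe_filter, mem_univ, true_and, Set.mem_ofPred_eq] at hw hw'
    have hadj := hS (Finset.mem_coe.mpr hw) (Finset.mem_coe.mpr hw')
      (fun h => hne (ι.injective h))
    exact adj_part_ne ι g x w w' hadj hpp
  have himg : T.image partOf = univ := by
    apply Finset.eq_univ_of_card
    rw [Finset.card_image_of_injOn hpinj, hT, hScard]
  have hex : ∀ z : Part κ N m d, ∃ w : Vtx κ N m d, partOf w = z ∧ ι w ∈ S := by
    intro z
    have : z ∈ T.image partOf := by rw [himg]; exact mem_univ _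
    rw [Finset.mem_image] at this
    obtain ⟨w, hw, hwj⟩ := this
    simp only [T, mem_filter, mem_univ, true_and] at hw
    exact ⟨w, hwj, hw⟩
  choose σ hσp hσ using hex
  -- pairwise adjacency
  have hadj : ∀ z z' : Part κ N m d, z ≠ z' → pull (proj ι g) x s(ι (σ z), ι (σ z')) = true := by
    intro z z' hzz
    have := hS (Finset.mem_coe.mpr (hσ z)) (Finset.mem_coe.mpr (hσ z')) (fun h => by
      have := congrArg partOf (ι.injective h)
      rw [hσp, hσp] at this
      exact hzz this)
    rw [gph, SimpleGraph.fromEdgeSet_adj] at this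
    exact this.1
  -- pairs with a part of the first kind are consistent
  have hcons : ∀ (q : P1 κ N m) (z' : Part κ N m d), .inl q ≠ z' →
      ∃ u : Seed κ r, canon g u (.inl q) = σ (.inl q) ∧ canon g u z' = σ z' := by
    intro q z' hqz
    have h1 := hadj (.inl q) z' hqz
    rw [pull_fix' ι g x _ _ (by
      rintro ⟨t, ht⟩
      rw [Sym2.eq_iff] at ht
      rcases ht with ⟨e1, _⟩ | ⟨e1, _⟩
      · have := congrArg partOf (ι.injective e1)
        rw [hσp, partOf_endL] at this
        cases this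
      · have := congrArg partOf (ι.injective e1)
        rw [hσp, partOf_endR] at this
        cases this)] at h1
    obtain ⟨_, u, h3, h4⟩ := h1
    rw [hσp] at h3 h4
    exact ⟨u, h3, h4⟩
  -- labels of the vertices of the parts of the first kind
  have hlab : ∀ q : P1 κ N m, ∃ y : ZMod 2 × ZMod 2, σ (.inl q) = .inl (q, y) := by
    intro q
    have h1 := hσp (.inl q)
    rcases hw : σ (.inl q) with w | w | w
    · rw [hw] at h1
      simp only [partOf, Sum.inl.injEq] at h1
      exact ⟨w.2, by rw [← h1]⟩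
    · rw [hw] at h1; cases h1
    · rw [hw] at h1; cases h1
  choose lab hlab using hlab
  have hlab2 : ∀ q : P2 N, ∃ y : Hs κ, σ (.inr (.inl q)) = .inr (.inl (q, y)) := by
    intro q
    have h1 := hσp (.inr (.inl q))
    rcases hw : σ (.inr (.inl q)) with w | w | w
    · rw [hw] at h1; cases h1
    · rw [hw] at h1
      simp only [partOf, Sum.inr.injEq, Sum.inl.injEq] at h1
      exact ⟨w.2, by rw [← h1]⟩
    · rw [hw] at h1; cases h1
  choose lab2 hlab2 using hlab2
  -- the pairs with a part of the first kind, in terms of labels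
  have hc1 : ∀ q q' : P1 κ N m, q ≠ q' → ∃ u : Seed κ r,
      lab q = (ps g u q.1 q.2.2.1 q.2.1.1 q.2.2.2, u (g q.1 q.2.1) q.2.2.1 q.2.2.2) ∧
      lab q' = (ps g u q'.1 q'.2.2.1 q'.2.1.1 q'.2.2.2, u (g q'.1 q'.2.1) q'.2.2.1 q'.2.2.2) := by
    intro q q' hqq
    obtain ⟨u, h1, h2⟩ := hcons q (.inl q') (fun h => hqq (Sum.inl.inj h))
    rw [hlab] at h1 h2
    simp only [canon, Sum.inl.injEq, Prod.mk.injEq, true_and] at h1 h2
    exact ⟨u, by rw [h1], by rw [h2]⟩
  have hc2 : ∀ (q : P1 κ N m) (q' : P2 N), ∃ u : Seed κ r,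
      lab q = (ps g u q.1 q.2.2.1 q.2.1.1 q.2.2.2, u (g q.1 q.2.1) q.2.2.1 q.2.2.2) ∧
      lab2 q' = ps g u q'.1 q'.2 m := by
    intro q q'
    obtain ⟨u, h1, h2⟩ := hcons q (.inr (.inl q')) (by simp)
    rw [hlab] at h1
    rw [hlab2] at h2
    simp only [canon, Sum.inl.injEq, Sum.inr.injEq, Prod.mk.injEq, true_and] at h1 h2
    exact ⟨u, by rw [h1], by rw [h2]⟩
  -- the seed
  let u : Seed κ r := fun ρ s i =>
    if h : ∃ z : Fin N × Fin m, g z.1 z.2 = ρ then (lab (h.choose.1, h.choose.2, s, i)).2 else 0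
  have claimA : ∀ (j : Fin N) (l : Fin m) (s : Fin 2) (i : Fin κ),
      (lab (j, l, s, i)).2 = u (g j l) s i := by
    intro j l s i
    have h : ∃ z : Fin N × Fin m, g z.1 z.2 = g j l := ⟨(j, l), rfl⟩
    have hu : u (g j l) s i = (lab (h.choose.1, h.choose.2, s, i)).2 := by
      simp only [u]; rw [dif_pos h]
    have hspec := h.choose_spec
    rw [hu]
    by_cases hq : (j, l, s, i) = (h.choose.1, h.choose.2, s, i)
    · rw [← hq]
    · obtain ⟨u', h1, h2⟩ := hc1 _ _ hq
      rw [h1, h2]
      simp only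
      rw [hspec]
  have claimB : ∀ (l : ℕ) (hl : l < m) (j : Fin N) (s : Fin 2) (i : Fin κ),
      (lab (j, ⟨l, hl⟩, s, i)).1 = ps g u j s l i := by
    intro l
    induction l with
    | zero =>
      intro hl j s i
      obtain ⟨u', h1, _⟩ := hc2 (j, ⟨0, hl⟩, s, i) (j, 0)
      rw [h1]
      simp only [ps_zero]
    | succ l ih =>
      intro hl j s i
      obtain ⟨u', h1, h2⟩ := hc1 (j, ⟨l, by omega⟩, s, i) (j, ⟨l + 1, hl⟩, s, i) (by
        intro h
        simp only [Prod.mk.injEq, Fin.mk.injEq, and_true, true_and] at h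
        omega)
      have e1 := ih (by omega) j s i
      have e2 := claimA j ⟨l, by omega⟩ s i
      rw [h1] at e1 e2
      rw [h2]
      simp only at e1 e2 ⊢
      rw [ps_succ _ _ _ _ _ (by omega), ps_succ _ _ _ _ _ (by omega), Pi.add_apply, Pi.add_apply,
        e1, e2]
  have claimC : ∀ (j : Fin N) (s : Fin 2), lab2 (j, s) = ps g u j s m := by
    intro j s
    funext i
    obtain ⟨n, hn⟩ : ∃ n, m = n + 1 := ⟨m - 1, by omega⟩
    obtain ⟨u', h1, h2⟩ := hc2 (j, ⟨n, by omega⟩, s, i) (j, s)
    have e1 := claimB n (by omega) j s i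
    have e2 := claimA j ⟨n, by omega⟩ s i
    rw [h1] at e1 e2
    rw [h2]
    simp only at e1 e2 ⊢
    have e3 : ∀ w : Seed κ r, ps g w j s m i = ps g w j s n i + w (g j ⟨n, by omega⟩) s i := by
      intro w
      have := ps_succ g w j s n (by omega)
      rw [← hn] at this
      rw [this, Pi.add_apply]
    rw [e3, e3, e1, e2]
  refine ⟨u, fun j => ?_⟩
  have h1 := hadj (.inr (.inl (j, 0))) (.inr (.inl (j, 1))) (by simp)
  rw [hlab2, hlab2] at h1
  have h3 : pull (proj ι g) x s(ι (.inr (.inl ((j, 0), lab2 (j, 0)))),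
      ι (.inr (.inl ((j, 1), lab2 (j, 1))))) = x (j, lab2 (j, 0), lab2 (j, 1)) :=
    pull_var ι g x (j, lab2 (j, 0), lab2 (j, 1))
  rw [h3, claimC, claimC] at h1
  exact h1

end Pool.Agent.Rec82
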