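import Pool.Agent.Work.MP_71c844_lc.NegCode

/-!
The code of the hard function: every position is the sum of a few seed symbols, chosen by a sparse
map with unique neighbours.
-/

namespace Pool.Agent.Rec82

set_option linter.unusedSectionVars false

open Finset

/-- half of a symbol -/
abbrev Hs (κ : ℕ) : Type := Fin κ → ZMod 2

/-- ground set of the hard function -/
abbrev Gr (κ N : ℕ) : Type := Fin N × (Hs κ × Hs κ)

/-- seeds -/
abbrev Seed (κ r : ℕ) : Type := Fin r → Fin 2 → Hs κ

/-- Every small set of positions has a unique neighbour. -/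
def Uniq {N m r : ℕ} (g : Fin N → Fin m → Fin r) (D : ℕ) : Prop :=
  ∀ A : Finset (Fin N), A.Nonempty → A.card ≤ D →
    ∃ i ∈ A, ∃ l : Fin m, ∀ i1 ∈ A, ∀ l1 : Fin m, g i1 l1 = g i l → i1 = i ∧ l1 = l

variable {κ r N m D : ℕ}

/-- partial sums of the seed symbols of a position -/
def ps (g : Fin N → Fin m → Fin r) (u : Seed κ r) (j : Fin N) (s : Fin 2) (l : ℕ) : Hs κ :=
  ∑ i ∈ range l, (if h : i < m then u (g j ⟨i, h⟩) s else 0)

lemma ps_zero (g : Fin N → Fin m → Fin r) (u : Seed κ r) (j : Fin N) (s : Fin 2) :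
    ps g u j s 0 = 0 := by simp [ps]

lemma ps_succ (g : Fin N → Fin m → Fin r) (u : Seed κ r) (j : Fin N) (s : Fin 2) (l : ℕ)
    (h : l < m) : ps g u j s (l + 1) = ps g u j s l + u (g j ⟨l, h⟩) s := by
  unfold ps; rw [Finset.sum_range_succ, dif_pos h]

lemma ps_add (g : Fin N → Fin m → Fin r) (u v : Seed κ r) (j : Fin N) (s : Fin 2) (l : ℕ) :
    ps g (u + v) j s l = ps g u j s l + ps g v j s l := by
  unfold ps
  rw [← Finset.sum_add_distrib]
  refine Finset.sum_congr rfl fun i _ => ?_
  split_ifs
  · rfl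
  · rw [add_zero]

lemma ps_full (g : Fin N → Fin m → Fin r) (u : Seed κ r) (j : Fin N) (s : Fin 2) :
    ps g u j s m = ∑ l : Fin m, u (g j l) s := by
  unfold ps
  rw [Finset.sum_range]
  refine Finset.sum_congr rfl fun i _ => ?_
  rw [dif_pos i.2]

/-- the symbol at the position `j` -/
def code (g : Fin N → Fin m → Fin r) (u : Seed κ r) (j : Fin N) : Hs κ × Hs κ :=
  (ps g u j 0 m, ps g u j 1 m)

lemma code_add (g : Fin N → Fin m → Fin r) (u v : Seed κ r) (j : Fin N) :
    code g (u + v) j = code g u j + code g v j := by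
  simp only [code, ps_add, Prod.mk_add_mk]

lemma exists_ps (g : Fin N → Fin m → Fin r) (hg : Uniq g D) (v : Fin N → Fin 2 → Hs κ) (n : ℕ) :
    ∀ I : Finset (Fin N), I.card = n → n ≤ D →
      ∃ u : Seed κ r, ∀ i ∈ I, ∀ s, ps g u i s m = v i s := by
  classical
  induction n with
  | zero =>
    intro I hI _
    rw [Finset.card_eq_zero] at hI
    subst hI
    exact ⟨0, fun i hi => absurd hi (Finset.notMem_empty i)⟩
  | succ n ih =>
    intro I hI hn
    have hne : I.Nonempty := by rw [← Finset.card_pos]; omega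
    obtain ⟨i, hi, l, hl⟩ := hg I hne (by omega)
    obtain ⟨u, hu⟩ := ih (I.erase i) (by rw [Finset.card_erase_of_mem hi]; omega) (by omega)
    let w : Fin 2 → Hs κ := fun s => v i s - ps g u i s m
    refine ⟨u + Pi.single (g i l) w, fun i1 hi1 s => ?_⟩
    rw [ps_add, ps_full g (Pi.single (g i l) w)]
    by_cases h : i1 = i
    · subst h
      have e : ∑ l1 : Fin m, (Pi.single (g i1 l) w : Seed κ r) (g i1 l1) s = w s := by
        rw [Finset.sum_eq_single l]
        · rw [Pi.single_eq_same]
        · intro l1 _ hne1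
          rw [Pi.single_eq_of_ne (fun h => hne1 (hl i1 hi1 l1 h).2)]
          rfl
        · intro h; exact absurd (mem_univ l) h
      rw [e]
      simp only [w, add_sub_cancel]
    · have e : ∑ l1 : Fin m, (Pi.single (g i l) w : Seed κ r) (g i1 l1) s = 0 := by
        apply Finset.sum_eq_zero
        intro l1 _
        rw [Pi.single_eq_of_ne (fun h' => h (hl i1 hi1 l1 h').1)]
        rfl
      rw [e, add_zero]
      exact hu i1 (Finset.mem_erase.mpr ⟨h, hi1⟩) s

lemma exists_code (g : Fin N → Fin m → Fin r) (hg : Uniq g D) (I : Finset (Fin N))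
    (hI : I.card ≤ D) (v : Fin N → Hs κ × Hs κ) :
    ∃ u : Seed κ r, ∀ i ∈ I, code g u i = v i := by
  obtain ⟨u, hu⟩ := exists_ps g hg (fun i s => if s = 0 then (v i).1 else (v i).2) I.card I rfl hI
  refine ⟨u, fun i hi => ?_⟩
  have h0 := hu i hi 0
  have h1 := hu i hi 1
  simp only [if_true, one_ne_zero, if_false] at h0 h1
  unfold code
  rw [h0, h1]

/-- the planted sets -/
def planted (g : Fin N → Fin m → Fin r) (u : Seed κ r) : Finset (Gr κ N) :=
  univ.image (fun i : Fin N => (i, code g u i))

lemma mem_planted (g : Fin N → Fin m → Fin r) (u : Seed κ r) (a : Gr κ N) :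
    a ∈ planted g u ↔ code g u a.1 = a.2 := by
  unfold planted
  rw [Finset.mem_image]
  constructor
  · rintro ⟨i, _, rfl⟩; rfl
  · intro h; exact ⟨a.1, mem_univ _, by rw [h]⟩

lemma card_planted (g : Fin N → Fin m → Fin r) (u : Seed κ r) : (planted g u).card = N := by
  unfold planted
  rw [Finset.card_image_of_injective, Finset.card_univ, Fintype.card_fin]
  intro i j hij
  exact (Prod.mk.inj hij).1

lemma card_seed : Fintype.card (Seed κ r) = 2 ^ (2 * κ * r) := by
  simp only [Seed, Fintype.card_pi, Finset.prod_const, Finset.card_univ, Fintype.card_fin,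
    ZMod.card]
  rw [← pow_mul, ← pow_mul]
  congr 1; ring

lemma card_Gr : Fintype.card (Gr κ N) = N * 2 ^ (2 * κ) := by
  simp only [Fintype.card_prod, Fintype.card_fin, Fintype.card_pi, Finset.prod_const,
    Finset.card_univ, ZMod.card]
  ring

open Classical in
lemma planted_spread (g : Fin N → Fin m → Fin r) (hg : Uniq g D) (A : Finset (Gr κ N))
    (hA : A.card ≤ D) :
    ((univ.filter (fun u : Seed κ r => A ⊆ planted g u)).card : ℝ) ≤
      Fintype.card (Seed κ r) * (1 / (2 : ℝ) ^ (2 * κ)) ^ A.card := by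
  by_cases hex : ∃ u0 : Seed κ r, A ⊆ planted g u0
  · obtain ⟨u0, hu0⟩ := hex
    set I := A.image Prod.fst with hI
    have hIcard : I.card = A.card := by
      rw [hI]
      apply Finset.card_image_of_injOn
      intro a ha c hc hac
      have h1 := (mem_planted g u0 a).mp (hu0 ha)
      have h2 := (mem_planted g u0 c).mp (hu0 hc)
      have hac' : a.1 = c.1 := hac
      rw [hac'] at h1
      exact Prod.ext hac' (h1.symm.trans h2)
    set S := univ.filter (fun u : Seed κ r => A ⊆ planted g u) with hS
    have hSval : ∀ u ∈ S, ∀ i ∈ I, code g u i = code g u0 i := by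
      intro u hu i hi
      rw [hS, Finset.mem_filter] at hu
      rw [hI, Finset.mem_image] at hi
      obtain ⟨a, ha, rfl⟩ := hi
      rw [(mem_planted g u a).mp (hu.2 ha), (mem_planted g u0 a).mp (hu0 ha)]
    have hlag : ∀ v : (↥I → Hs κ × Hs κ), ∃ u : Seed κ r, ∀ i : ↥I, code g u i.1 = v i := by
      intro v
      obtain ⟨u, hu⟩ := exists_code g hg I (by omega)
        (fun i => if h : i ∈ I then v ⟨i, h⟩ else 0)
      refine ⟨u, fun i => ?_⟩
      have := hu i.1 i.2
      rw [dif_pos i.2] at this
      exact this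
    choose lag hlag using hlag
    let Φ : ↥S × (↥I → Hs κ × Hs κ) → Seed κ r := fun z => z.1.1 + lag z.2
    have hΦ : Function.Injective Φ := by
      rintro ⟨u, v⟩ ⟨u', v'⟩ h
      have hv : v = v' := by
        funext i
        have h1 : code g (u.1 + lag v) i.1 = code g (u'.1 + lag v') i.1 := by
          have : u.1 + lag v = u'.1 + lag v' := h
          rw [this]
        rw [code_add, code_add, hlag, hlag, hSval u.1 u.2 i.1 i.2, hSval u'.1 u'.2 i.1 i.2] at h1
        exact add_left_cancel h1
      subst hv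
      have : u.1 + lag v = u'.1 + lag v := h
      have := add_right_cancel this
      exact Prod.ext (Subtype.ext this) rfl
    have hcard := Fintype.card_le_of_injective Φ hΦ
    have hcV : Fintype.card (Hs κ × Hs κ) = 2 ^ (2 * κ) := by
      simp only [Fintype.card_prod, Fintype.card_fin, Fintype.card_pi, Finset.prod_const,
        Finset.card_univ, ZMod.card]
      ring
    rw [Fintype.card_prod, Fintype.card_coe, Fintype.card_fun, Fintype.card_coe, hcV,
      hIcard] at hcard
    have e1 : (S.card : ℝ) * ((2 : ℝ) ^ (2 * κ)) ^ A.card ≤ Fintype.card (Seed κ r) := by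
      exact_mod_cast hcard
    rw [one_div, inv_pow, ← div_eq_mul_inv, le_div_iff₀ (by positivity)]
    exact e1
  · have : univ.filter (fun u : Seed κ r => A ⊆ planted g u) = ∅ := by
      apply Finset.filter_false_of_mem
      intro u _ hu
      exact hex ⟨u, hu⟩
    rw [this, Finset.card_empty, Nat.cast_zero]
    positivity

end Pool.Agent.Rec82
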