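import Mathlib

/-!
# MP_71c844: a random sparse map has unique neighbours on all small sets
-/

namespace Pool.Agent.Rec82

open Finset

/-- `s ^ s ≤ 3 ^ s * s!`. -/
theorem self_pow_le (s : ℕ) : s ^ s ≤ 3 ^ s * s.factorial := by
  have h1 : (s : ℝ) ^ s / (s.factorial : ℝ) ≤ Real.exp s :=
    Real.pow_div_factorial_le_exp (s : ℝ) (by positivity) s
  have h2 : Real.exp (s : ℝ) ≤ 3 ^ s := by
    have h3 : Real.exp (s : ℝ) = (Real.exp 1) ^ s := by
      rw [← Real.exp_nat_mul]; simp
    rw [h3]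
    exact pow_le_pow_left₀ (Real.exp_pos _).le (by
      have := Real.exp_one_lt_d9; linarith) s
  have h4 : (0 : ℝ) < (s.factorial : ℝ) := by exact_mod_cast s.factorial_pos
  have h5 : (s : ℝ) ^ s ≤ 3 ^ s * (s.factorial : ℝ) := by
    rw [div_le_iff₀ h4] at h1
    exact h1.trans (mul_le_mul_of_nonneg_right h2 h4.le)
  exact_mod_cast h5

/-- `choose r s * s ^ (2 s) * 2 ^ s ≤ r ^ (2 s)` when `6 s ≤ r`. -/
theorem count_bound (r s : ℕ) (h : 6 * s ≤ r) :
    2 ^ s * (r.choose s * s ^ (2 * s)) ≤ r ^ (2 * s) := by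
  have h1 : s.factorial * r.choose s ≤ r ^ s := by
    rw [← Nat.descFactorial_eq_factorial_mul_choose]
    exact Nat.descFactorial_le_pow r s
  calc 2 ^ s * (r.choose s * s ^ (2 * s))
      = 2 ^ s * s ^ s * r.choose s * s ^ s := by rw [two_mul, pow_add]; ring
    _ ≤ 2 ^ s * s ^ s * r.choose s * (3 ^ s * s.factorial) :=
        Nat.mul_le_mul_left _ (self_pow_le s)
    _ = (6 * s) ^ s * (s.factorial * r.choose s) := by
        rw [mul_pow, show (6 : ℕ) = 2 * 3 from rfl, mul_pow]; ring
    _ ≤ r ^ s * r ^ s := Nat.mul_le_mul (Nat.pow_le_pow_left h s) h1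
    _ = r ^ (2 * s) := by rw [two_mul, pow_add]

open Classical in
/-- The maps without a unique neighbour on `A`. -/
noncomputable def bad (N c r : ℕ) (A : Finset (Fin N)) :
    Finset (Fin N → Fin (2 * c) → Fin r) :=
  univ.filter fun g => ¬ ∃ i ∈ A, ∃ l : Fin (2 * c), ∀ i1 ∈ A, ∀ l1 : Fin (2 * c),
    g i1 l1 = g i l → i1 = i ∧ l1 = l

open Classical in
theorem bad_subset (N c r : ℕ) (A : Finset (Fin N)) (hs : c * A.card ≤ r) :
    bad N c r A ⊆ (powersetCard (c * A.card) (univ : Finset (Fin r))).biUnion fun T =>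
      Fintype.piFinset fun i : Fin N => Fintype.piFinset fun _ : Fin (2 * c) =>
        if i ∈ A then T else (univ : Finset (Fin r)) := by
  intro g hg
  rw [bad, mem_filter] at hg
  obtain ⟨-, hg⟩ := hg
  push Not at hg
  set I : Finset (Fin r) := (A ×ˢ (univ : Finset (Fin (2 * c)))).image
    (fun p => g p.1 p.2) with hI
  have hcard : 2 * I.card ≤ (A ×ˢ (univ : Finset (Fin (2 * c)))).card := by
    refine Finset.mul_card_image_le_card _ 2 ?_
    intro b hb
    rw [mem_image] at hb
    obtain ⟨⟨i, l⟩, hil, rfl⟩ := hb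
    rw [mem_product] at hil
    obtain ⟨i1, hi1, l1, h1, h2⟩ := hg i hil.1 l
    have hne : (i, l) ≠ (i1, l1) := by
      intro h
      rw [Prod.mk.injEq] at h
      exact h2 h.1.symm h.2.symm
    refine (Finset.card_pair hne).symm.le.trans ?_
    apply card_le_card
    intro p hp
    rw [mem_insert, mem_singleton] at hp
    rw [mem_filter, mem_product]
    rcases hp with rfl | rfl
    · exact ⟨⟨hil.1, mem_univ _⟩, rfl⟩
    · exact ⟨⟨hi1, mem_univ _⟩, h1⟩
  rw [card_product, card_univ, Fintype.card_fin] at hcard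
  have hcard' : I.card ≤ c * A.card := by nlinarith
  obtain ⟨T, hIT, -, hT⟩ := Finset.exists_subsuperset_card_eq (subset_univ I) hcard'
    (by rw [card_univ, Fintype.card_fin]; exact hs)
  rw [mem_biUnion]
  refine ⟨T, mem_powersetCard.2 ⟨subset_univ _, hT⟩, ?_⟩
  rw [Fintype.mem_piFinset]
  intro i
  rw [Fintype.mem_piFinset]
  intro l
  split_ifs with hi
  · exact hIT (mem_image.2 ⟨(i, l), mem_product.2 ⟨hi, mem_univ _⟩, rfl⟩)
  · exact mem_univ _

open Classical in
theorem card_pi (N c r s : ℕ) (A : Finset (Fin N)) (T : Finset (Fin r)) (hT : T.card = s) :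
    (Fintype.piFinset fun i : Fin N => Fintype.piFinset fun _ : Fin (2 * c) =>
        if i ∈ A then T else (univ : Finset (Fin r))).card =
      (s ^ (2 * c)) ^ A.card * (r ^ (2 * c)) ^ (N - A.card) := by
  rw [Fintype.card_piFinset]
  have h1 : ∀ i : Fin N, (Fintype.piFinset fun _ : Fin (2 * c) =>
      if i ∈ A then T else (univ : Finset (Fin r))).card =
      if i ∈ A then s ^ (2 * c) else r ^ (2 * c) := by
    intro i
    rw [Fintype.card_piFinset]
    split_ifs with hi
    · rw [prod_const, card_univ, Fintype.card_fin, hT]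
    · rw [prod_const, card_univ, Fintype.card_fin, card_univ, Fintype.card_fin]
  rw [prod_congr rfl fun i _ => h1 i, prod_ite, prod_const, prod_const]
  congr 2
  · congr 1
    ext i; simp
  · have : (univ.filter fun i => i ∉ A) = Aᶜ := by ext i; simp
    rw [this, card_compl, Fintype.card_fin]

theorem card_bad (N c D r : ℕ) (hr : 6 * c * D ≤ r) (A : Finset (Fin N)) (hA : A.card ≤ D) :
    2 ^ (c * A.card) * (bad N c r A).card ≤ r ^ (2 * c * N) := by
  classical
  have h6 : 6 * (c * A.card) ≤ r := by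
    calc 6 * (c * A.card) = 6 * c * A.card := by ring
      _ ≤ 6 * c * D := Nat.mul_le_mul_left _ hA
      _ ≤ r := hr
  have hAN : A.card ≤ N := by
    have := card_le_univ A
    rwa [Fintype.card_fin] at this
  have h1 : (bad N c r A).card ≤ r.choose (c * A.card) *
      (((c * A.card) ^ (2 * c)) ^ A.card * (r ^ (2 * c)) ^ (N - A.card)) := by
    refine (card_le_card (bad_subset N c r A (by omega))).trans ?_
    refine (card_biUnion_le_card_mul _ _
      (((c * A.card) ^ (2 * c)) ^ A.card * (r ^ (2 * c)) ^ (N - A.card))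
      fun T hT => ?_).trans ?_
    · rw [card_pi N c r (c * A.card) A T (mem_powersetCard.1 hT).2]
    · rw [card_powersetCard, card_univ, Fintype.card_fin]
  calc 2 ^ (c * A.card) * (bad N c r A).card
      ≤ 2 ^ (c * A.card) * (r.choose (c * A.card) *
      (((c * A.card) ^ (2 * c)) ^ A.card * (r ^ (2 * c)) ^ (N - A.card))) :=
        Nat.mul_le_mul_left _ h1
    _ = 2 ^ (c * A.card) * (r.choose (c * A.card) * (c * A.card) ^ (2 * (c * A.card))) *
        (r ^ (2 * c)) ^ (N - A.card) := by
        rw [← pow_mul (c * A.card), mul_assoc 2 c]; ring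
    _ ≤ r ^ (2 * (c * A.card)) * (r ^ (2 * c)) ^ (N - A.card) :=
        Nat.mul_le_mul_right _ (count_bound r _ h6)
    _ = r ^ (2 * c * N) := by
        rw [← pow_mul, ← pow_add]
        congr 1
        have hk : N = A.card + (N - A.card) := by omega
        calc 2 * (c * A.card) + 2 * c * (N - A.card)
            = 2 * c * (A.card + (N - A.card)) := by ring
          _ = 2 * c * N := by rw [← hk]

theorem exists_expander (N c D r : ℕ) (hc1 : 1 ≤ c) (hc : 4 * N ≤ 2 ^ c) (hr : 6 * c * D ≤ r) (hr1 : 1 ≤ r) :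
    ∃ g : Fin N → Fin (2 * c) → Fin r, ∀ A : Finset (Fin N), A.Nonempty → A.card ≤ D →
      ∃ i ∈ A, ∃ l : Fin (2 * c), ∀ i1 ∈ A, ∀ l1 : Fin (2 * c), g i1 l1 = g i l → i1 = i ∧ l1 = l := by
  classical
  by_contra hcon
  push Not at hcon
  -- every g is bad for some A
  have hcover : (univ : Finset (Fin N → Fin (2 * c) → Fin r)) ⊆
      ((univ : Finset (Fin N)).powerset.filter fun A => A.Nonempty ∧ A.card ≤ D).biUnion
        fun A => bad N c r A := by
    intro g _
    obtain ⟨A, hA, hAD, h⟩ := hcon g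
    rw [mem_biUnion]
    refine ⟨A, mem_filter.2 ⟨mem_powerset.2 (subset_univ _), hA, hAD⟩, ?_⟩
    rw [bad, mem_filter]
    refine ⟨mem_univ _, ?_⟩
    push Not
    exact h
  have hcardG : (univ : Finset (Fin N → Fin (2 * c) → Fin r)).card = r ^ (2 * c * N) := by
    rw [card_univ]
    simp [pow_mul]
  have h1 := (card_le_card hcover).trans card_biUnion_le
  rw [hcardG] at h1
  have h2 : ((r : ℝ) ^ (2 * c * N)) ≤
      ∑ A ∈ ((univ : Finset (Fin N)).powerset.filter fun A => A.Nonempty ∧ A.card ≤ D),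
        ((bad N c r A).card : ℝ) := by exact_mod_cast h1
  set x : ℝ := (1 / 2 : ℝ) ^ c with hx
  have hx0 : 0 < x := by positivity
  have h3 : ∀ A ∈ ((univ : Finset (Fin N)).powerset.filter fun A => A.Nonempty ∧ A.card ≤ D),
      ((bad N c r A).card : ℝ) ≤ (r : ℝ) ^ (2 * c * N) * x ^ A.card := by
    intro A hA
    rw [mem_filter] at hA
    have h4 := card_bad N c D r hr A hA.2.2
    have h5 : (2 : ℝ) ^ (c * A.card) * ((bad N c r A).card : ℝ) ≤ (r : ℝ) ^ (2 * c * N) := by
      exact_mod_cast h4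
    have h6 : x ^ A.card * (2 : ℝ) ^ (c * A.card) = 1 := by
      rw [hx, ← pow_mul, ← mul_pow]; norm_num
    calc ((bad N c r A).card : ℝ) = x ^ A.card * ((2 : ℝ) ^ (c * A.card) * ((bad N c r A).card : ℝ)) := by
          rw [← mul_assoc, h6, one_mul]
      _ ≤ x ^ A.card * (r : ℝ) ^ (2 * c * N) := mul_le_mul_of_nonneg_left h5 (by positivity)
      _ = _ := by ring
  have h7 := h2.trans (sum_le_sum h3)
  rw [← mul_sum] at h7
  have hR : (0 : ℝ) < (r : ℝ) ^ (2 * c * N) := by
    have : (0 : ℝ) < r := by exact_mod_cast hr1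
    positivity
  have h8 : (1 : ℝ) ≤ ∑ A ∈ ((univ : Finset (Fin N)).powerset.filter
      fun A => A.Nonempty ∧ A.card ≤ D), x ^ A.card := by
    by_contra hlt
    push Not at hlt
    have := mul_lt_mul_of_pos_left hlt hR
    rw [mul_one] at this
    linarith
  have h9 : ∑ A ∈ ((univ : Finset (Fin N)).powerset.filter
      fun A => A.Nonempty ∧ A.card ≤ D), x ^ A.card ≤ (x + 1) ^ N - 1 := by
    have h10 : ∑ A ∈ (univ : Finset (Fin N)).powerset, x ^ A.card = (x + 1) ^ N := by
      have := Finset.sum_pow_mul_eq_add_pow x 1 (univ : Finset (Fin N))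
      simpa using this
    have h11 : ∑ A ∈ ((univ : Finset (Fin N)).powerset.erase ∅), x ^ A.card = (x + 1) ^ N - 1 := by
      have := Finset.sum_erase_add (univ : Finset (Fin N)).powerset (fun A => x ^ A.card)
        (empty_mem_powerset _)
      rw [h10] at this
      simp only [card_empty, pow_zero] at this
      linarith
    rw [← h11]
    refine sum_le_sum_of_subset_of_nonneg ?_ fun _ _ _ => by positivity
    intro A hA
    rw [mem_filter] at hA
    exact mem_erase.2 ⟨hA.2.1.ne_empty, hA.1⟩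
  have h12 : (x + 1) ^ N ≤ Real.exp (1 / 4) := by
    calc (x + 1) ^ N ≤ (Real.exp x) ^ N :=
          pow_le_pow_left₀ (by positivity) (Real.add_one_le_exp x) N
      _ = Real.exp (N * x) := by rw [Real.exp_nat_mul]
      _ ≤ Real.exp (1 / 4) := by
          apply Real.exp_le_exp.2
          have h13 : (4 : ℝ) * N ≤ 2 ^ c := by exact_mod_cast hc
          have h14 : x * 2 ^ c = 1 := by rw [hx, ← mul_pow]; norm_num
          nlinarith [mul_le_mul_of_nonneg_left h13 hx0.le]
  have h15 : Real.exp (1 / 4) < 2 := by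
    have h16 : Real.exp (1 / 4) ^ 4 < 2 ^ 4 := by
      rw [← Real.exp_nat_mul]
      have : ((4 : ℕ) : ℝ) * (1 / 4) = 1 := by norm_num
      rw [this]
      have := Real.exp_one_lt_d9
      linarith
    exact lt_of_pow_lt_pow_left₀ 4 (by norm_num) h16
  linarith

end Pool.Agent.Rec82
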