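import Pool.Agent.Work.MP_71c844_lc.RecParams

/-!
Families of small monotone circuits that separate the pairs of a chain, with the better parameters
(adapted from the version of helper53 and helper67).
-/

namespace Pool.Agent.NegLim

set_option linter.unusedSectionVars false

open Finset

variable {E : Type*} [Fintype E] [DecidableEq E] {U : Type*} [Fintype U] [Nonempty U]

open Classical in
/-- A family of small monotone circuits which separates each set without planted set from each of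
its supersets with a planted set is large. -/
theorem rec_family {b ℓ K R N M S : ℕ} {q : ℝ} {Y : U → Finset E} (hb : 1 ≤ b)
    (hℓ : 2 * b < 2 ^ ℓ) (hℓ1 : 1 ≤ ℓ) (hK : 1 ≤ K) (hq : 64 * 2 ^ K ≤ q)
    (hY : ∀ A : Finset E, A.card ≤ 2 * b →
      ((univ.filter (fun u => A ⊆ Y u)).card : ℝ) ≤ Fintype.card U * (1 / q) ^ A.card)
    (hN : ∀ u, N ≤ (Y u).card) (hU : 2 * Fintype.card U ≤ 2 ^ N)
    (c : Fin M → List (Gate E)) (hc0 : ∀ i, numNot (c i) = 0) (hcS : ∀ i, size (c i) ≤ S)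
    (hsep : ∀ x y : Finset E, x ⊆ y → (¬ ∃ u, Y u ⊆ x) → (∃ u, Y u ⊆ y) →
      ∃ i, gval (c i) 0 x = false ∧ gval (c i) 0 y = true)
    (hS : S ≤ 2 ^ b) (hSR : 2 ^ K * (S + 1) * (lowSets E b).card ≤ 2 ^ R) :
    2 ^ K ≤ M * (44 * K * (ℓ * R)) := by
  obtain ⟨K', rfl⟩ := Nat.exists_eq_add_of_le' hK
  set m : ℕ := 2 ^ K' with hmdef
  have hm : 2 ^ (K' + 1) = 2 * m := by rw [pow_succ, mul_comm]
  have hR : 1 ≤ R := by
    by_contra hcon
    have hR0 : R = 0 := by omega
    rw [hR0, pow_zero] at hSR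
    have e1 : 1 ≤ (lowSets E b).card := by
      rw [Nat.one_le_iff_ne_zero, Finset.card_ne_zero]
      exact ⟨∅, by simp [lowSets]⟩
    have e2 : 1 ≤ m := Nat.one_le_two_pow
    rw [hm] at hSR
    have e3 : 1 ≤ S + 1 := by omega
    have : 2 * 1 * 1 * 1 ≤ 2 * m * (S + 1) * (lowSets E b).card :=
      Nat.mul_le_mul (Nat.mul_le_mul (Nat.mul_le_mul le_rfl e2) e3) e1
    omega
  set δ : ℝ := 1 / (2 : ℝ) ^ (K' + 1) with hδ
  have hM : (0 : ℝ) < 2 ^ (K' + 1) := by positivity
  have h0 : 0 ≤ δ := by positivity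
  have h1 : δ ≤ 1 := by
    rw [hδ, div_le_one hM]; exact one_le_pow₀ (by norm_num)
  have hUpos : (0 : ℝ) < Fintype.card U := by exact_mod_cast Fintype.card_pos
  let ψ : Fin M → Finset E → ℝ := fun i x =>
    (if gval (c i) 0 x = true then (0 : ℝ) else 1) *
        (((univ.filter (fun u => gval (c i) 0 (x ∪ Y u) = true)).card : ℝ)
          / Fintype.card U)
  let F : Finset E → ℝ := fun x => if ∃ u, Y u ⊆ x then 1 else 0
  -- covering
  have hcov : ∀ x, 1 ≤ F x + ∑ i, ψ i x := by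
    intro x
    have hψ0 : ∀ i, 0 ≤ ψ i x := by
      intro i
      simp only [ψ]
      apply mul_nonneg
      · split_ifs <;> norm_num
      · positivity
    by_cases hx : ∃ u, Y u ⊆ x
    · have : F x = 1 := by simp only [F]; rw [if_pos hx]
      rw [this]
      have := Finset.sum_nonneg (fun i (_ : i ∈ (univ : Finset (Fin M))) => hψ0 i)
      linarith
    · have hFx : F x = 0 := by simp only [F]; rw [if_neg hx]
      rw [hFx, zero_add]
      have hu : ∀ u : U, ∃ i : Fin M, gval (c i) 0 x = false ∧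
          gval (c i) 0 (x ∪ Y u) = true := fun u =>
        hsep x (x ∪ Y u) Finset.subset_union_left hx ⟨u, Finset.subset_union_right⟩
      have hcount : (Fintype.card U : ℝ) ≤ ∑ i : Fin M,
          (if gval (c i) 0 x = true then (0 : ℝ) else 1) *
          ((univ.filter (fun u => gval (c i) 0 (x ∪ Y u) = true)).card : ℝ) := by
        have e1 : ∀ u : U, (1 : ℝ) ≤ ∑ i : Fin M,
            (if gval (c i) 0 x = true then (0 : ℝ) else 1) *
            (if gval (c i) 0 (x ∪ Y u) = true then (1 : ℝ) else 0) := by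
          intro u
          obtain ⟨i, hi1, hi2⟩ := hu u
          have := Finset.single_le_sum (f := fun i : Fin M =>
            (if gval (c i) 0 x = true then (0 : ℝ) else 1) *
            (if gval (c i) 0 (x ∪ Y u) = true then (1 : ℝ) else 0))
            (fun i _ => by
              show (0 : ℝ) ≤ (if gval (c i) 0 x = true then (0 : ℝ) else 1) *
                (if gval (c i) 0 (x ∪ Y u) = true then (1 : ℝ) else 0)
              split_ifs <;> norm_num) (Finset.mem_univ i)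
          refine le_trans (le_of_eq ?_) this
          simp only [hi1, hi2]
          norm_num
        have e2 := Finset.sum_le_sum (fun u (_ : u ∈ (univ : Finset U)) => e1 u)
        rw [Finset.sum_const, Finset.card_univ, nsmul_eq_mul, mul_one, Finset.sum_comm] at e2
        refine e2.trans (le_of_eq ?_)
        refine Finset.sum_congr rfl fun i _ => ?_
        rw [← Finset.mul_sum]
        congr 1
        rw [Finset.sum_boole]
      have e3 : ∑ i, ψ i x = (∑ i : Fin M,
          (if gval (c i) 0 x = true then (0 : ℝ) else 1) *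
          ((univ.filter (fun u => gval (c i) 0 (x ∪ Y u) = true)).card : ℝ))
            / Fintype.card U := by
        rw [Finset.sum_div]
        refine Finset.sum_congr rfl fun i _ => ?_
        simp only [ψ]
        ring
      rw [e3, le_div_iff₀ hUpos, one_mul]
      exact hcount
  -- each candidate
  have hψ : ∀ i, ∑ s ∈ range m, Tn δ s (ψ i) ∅ ≤ 11 * ((K' + 1 : ℕ) : ℝ) * ((ℓ * R : ℕ) : ℝ) := by
    intro i
    have hε : (m : ℝ) * (((S : ℝ) + 1) * ((lowSets E b).card * (1 / 2) ^ R)) ≤ 1 := by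
      have f1 : ((2 : ℝ) ^ (K' + 1)) * ((S : ℝ) + 1) * (lowSets E b).card ≤ 2 ^ R := by
        exact_mod_cast hSR
      have f2 : (m : ℝ) ≤ 2 ^ (K' + 1) := by
        have : m ≤ 2 ^ (K' + 1) := by omega
        exact_mod_cast this
      have f3 : (1 / 2 : ℝ) ^ R = 1 / 2 ^ R := by rw [div_pow, one_pow]
      rw [f3]
      have f4 : (m : ℝ) * (((S : ℝ) + 1) * ((lowSets E b).card * (1 / 2 ^ R))) =
          (m * ((S : ℝ) + 1) * (lowSets E b).card) / 2 ^ R := by ring
      rw [f4, div_le_one (by positivity)]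
      refine le_trans ?_ f1
      gcongr
    have hs := sep_adaptive (E := E) (U := U) (H := Unit) (b := 4) (K := K' + 1) (R := ℓ * R)
      (m := m) (P := 1) (q := q) (ε := ((S : ℝ) + 1) * ((lowSets E b).card * (1 / 2) ^ R))
      (Y := Y) (by norm_num) hm hK (Nat.one_le_iff_ne_zero.mpr (by positivity)) le_rfl
      (by push_cast; linarith) (by positivity) hε (fun _ => ()) (fun _ => gval (c i) 0)
      (fun _ => Rec82.dich_circuit (E := E) (U := U) (b := b) (ℓ := ℓ) (K := K' + 1) (R := R)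
        (q := q) (Y := Y) hb hℓ hq hY (c i) (hc0 i) 0 S (hcS i) hS)
      (fun s _ => (Finset.card_le_card (Finset.subset_univ _)).trans (by simp))
    rw [Nat.cast_one, mul_one] at hs
    exact hs
  -- the function itself is rarely 1
  have hF : ∀ s ∈ range m, Tn δ s F ∅ ≤ 1 / 2 := by
    intro s hs
    rw [Finset.mem_range] at hs
    have hdens : dens δ s ≤ 1 / 2 := by
      refine (dens_le h0 h1 s).trans ?_
      rw [hδ, hmdef] at *
      have : (s : ℝ) ≤ 2 ^ K' := by exact_mod_cast hs.le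
      rw [mul_one_div, div_le_div_iff₀ (by positivity) (by norm_num), pow_succ]
      linarith
    have hd0 := dens_nonneg h0 h1 s
    have e1 : Tn δ s F ∅ ≤ ∑ u : U, dens δ s ^ (Y u).card := by
      have hpt : ∀ x, F x ≤ ∑ u : U, (if Y u ⊆ x then (1 : ℝ) else 0) := by
        intro x
        simp only [F]
        split_ifs with h
        · obtain ⟨u, hu⟩ := h
          have := Finset.single_le_sum (f := fun u : U => if Y u ⊆ x then (1 : ℝ) else 0)
            (fun u _ => by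
              show (0 : ℝ) ≤ if Y u ⊆ x then (1 : ℝ) else 0
              split_ifs <;> norm_num) (Finset.mem_univ u)
          simpa [hu] using this
        · apply Finset.sum_nonneg; intro u _; split_ifs <;> norm_num
      refine (Tn_mono h0 h1 hpt s ∅).trans (le_of_eq ?_)
      rw [Tn_sum]
      refine Finset.sum_congr rfl fun u _ => ?_
      rw [Tn_ind, Finset.sdiff_empty]
    refine e1.trans ?_
    have e2 : ∀ u ∈ (univ : Finset U), dens δ s ^ (Y u).card ≤ (1 / 2) ^ N := by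
      intro u _
      calc dens δ s ^ (Y u).card ≤ (1 / 2) ^ (Y u).card := pow_le_pow_left₀ hd0 hdens _
        _ ≤ (1 / 2) ^ N := pow_le_pow_of_le_one (by norm_num) (by norm_num) (hN u)
    refine (Finset.sum_le_sum e2).trans ?_
    rw [Finset.sum_const, Finset.card_univ, nsmul_eq_mul]
    have e3 : (2 : ℝ) * Fintype.card U ≤ 2 ^ N := by exact_mod_cast hU
    have e4 : (1 / 2 : ℝ) ^ N = 1 / 2 ^ N := by rw [div_pow, one_pow]
    rw [e4, mul_one_div, div_le_div_iff₀ (by positivity) (by norm_num)]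
    linarith
  -- conclusion
  have htot : (m : ℝ) ≤ ∑ s ∈ range m, Tn δ s F ∅ + ∑ i, ∑ s ∈ range m, Tn δ s (ψ i) ∅ := by
    rw [Finset.sum_comm (s := univ), ← Finset.sum_add_distrib]
    have e1 : ∀ s ∈ range m, (1 : ℝ) ≤ Tn δ s F ∅ + ∑ i, Tn δ s (ψ i) ∅ := by
      intro s _
      have := Tn_mono h0 h1 hcov s ∅
      rw [Tn_const, Tn_fadd, Tn_sum] at this
      exact this
    have := Finset.sum_le_sum e1
    simpa using this
  have e5 := Finset.sum_le_sum hF
  rw [Finset.sum_const, card_range, nsmul_eq_mul] at e5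
  have e6 := Finset.sum_le_sum (fun i (_ : i ∈ (univ : Finset (Fin M))) => hψ i)
  rw [Finset.sum_const, Finset.card_univ, Fintype.card_fin, nsmul_eq_mul] at e6
  have e8 : (m : ℝ) / 2 ≤ M * (11 * ((K' + 1 : ℕ) : ℝ) * ((ℓ * R : ℕ) : ℝ)) := by linarith
  have e9 : ((2 ^ (K' + 1) : ℕ) : ℝ) ≤ ((M * (44 * (K' + 1) * (ℓ * R)) : ℕ) : ℝ) := by
    rw [hm]
    push_cast at e8 ⊢
    linarith
  exact_mod_cast e9


/-- The bound for CLIQUE in terms of the parameters of the construction. -/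
theorem rec_clique_family {b c N K R ℓ κ r d v k M S : ℕ} (g : Fin N → Fin (2 * c) → Fin r)
    (hg : Rec82.Uniq g (2 * b)) (hb : 1 ≤ b) (hc1 : 1 ≤ c) (hN1 : 1 ≤ N) (hℓ : 2 * b < 2 ^ ℓ)
    (hℓ1 : 1 ≤ ℓ) (hK : 1 ≤ K) (hq : 64 * 2 ^ K ≤ 2 ^ (2 * κ))
    (hk : N * (4 * c * κ + 2) + d = k) (hv : N * (16 * c * κ + 2 * 2 ^ κ) + d ≤ v)
    (hU : 2 * κ * r + 1 ≤ N)
    (C : Fin M → List (Gate (Sym2 (Fin v)))) (hc0 : ∀ i, numNot (C i) = 0)
    (hcS : ∀ i, size (C i) ≤ S) (hS : S ≤ 2 ^ b)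
    (hSR : 2 ^ K * (S + 1) * (N * 2 ^ (2 * κ) + 1) ^ (2 * b) ≤ 2 ^ R)
    (hsep : ∀ x y : Sym2 (Fin v) → Bool, (∀ e, x e = true → y e = true) →
      (gph x).CliqueFree k → ¬ (gph y).CliqueFree k → ∃ i, output (C i) x ≠ output (C i) y) :
    2 ^ K ≤ M * (44 * K * (ℓ * R)) := by
  classical
  have hcardPart : Fintype.card (Rec82.Part κ N (2 * c) d) = N * (4 * c * κ + 2) + d := by
    simp only [Fintype.card_sum, Fintype.card_prod, Fintype.card_fin]; ring
  have hcardV : Fintype.card (Rec82.Vtx κ N (2 * c) d) = N * (16 * c * κ + 2 * 2 ^ κ) + d := by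
    simp only [Fintype.card_sum, Fintype.card_prod, Fintype.card_fin, Fintype.card_pi,
      Finset.prod_const, Finset.card_univ, ZMod.card]
    ring
  obtain ⟨ι⟩ : Nonempty (Rec82.Vtx κ N (2 * c) d ↪ Fin v) :=
    Function.Embedding.nonempty_of_card_le (by rw [hcardV, Fintype.card_fin]; exact hv)
  have hkc : Fintype.card (Rec82.Part κ N (2 * c) d) = k := by rw [hcardPart]; exact hk
  have hiff : ∀ x : Finset (Rec82.Gr κ N),
      ¬ (gph (pull (Rec82.proj ι g) (fun e => decide (e ∈ x)))).CliqueFree k ↔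
        ∃ u : Rec82.Seed κ r, Rec82.planted g u ⊆ x := by
    intro x
    rw [← hkc]
    constructor
    · intro h
      obtain ⟨u, hu⟩ := Rec82.planted_of_clique ι g (by omega) hN1 (fun e => decide (e ∈ x)) h
      refine ⟨u, fun a ha => ?_⟩
      rw [Rec82.mem_planted] at ha
      have := hu a.1
      rw [ha] at this
      simpa using this
    · rintro ⟨u, hu⟩
      apply Rec82.clique_of_planted ι g (fun e => decide (e ∈ x)) u
      intro i
      simp only [decide_eq_true_eq]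
      apply hu
      rw [Rec82.mem_planted]
  refine rec_family (E := Rec82.Gr κ N) (U := Rec82.Seed κ r) (b := b) (ℓ := ℓ) (K := K) (R := R)
    (N := N) (S := S) (q := (2 : ℝ) ^ (2 * κ)) (Y := Rec82.planted g) hb hℓ hℓ1 hK
    (by exact_mod_cast hq)
    (fun A hA => by convert Rec82.planted_spread g hg A hA)
    (fun u => (Rec82.card_planted g u).ge) ?_
    (fun i => mapVar (Rec82.proj ι g) (C i)) (fun i => by rw [numNot_mapVar]; exact hc0 i)
    (fun i => by rw [size_mapVar]; exact hcS i) ?_ hS ?_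
  · rw [Rec82.card_seed, ← pow_succ']
    exact Nat.pow_le_pow_right (by norm_num) hU
  · intro x y hxy hx hy
    have hle : ∀ e, pull (Rec82.proj ι g) (fun e => decide (e ∈ x)) e = true →
        pull (Rec82.proj ι g) (fun e => decide (e ∈ y)) e = true := by
      intro e he
      unfold pull at he ⊢
      generalize Rec82.proj ι g e = a at he ⊢
      cases a with
      | inl a => exact he
      | inr a =>
        simp only [decide_eq_true_eq] at he ⊢
        exact hxy he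
    obtain ⟨i, hi⟩ := hsep _ _ hle (by
      by_contra hcon
      exact hx ((hiff x).1 hcon)) ((hiff y).2 hy)
    refine ⟨i, ?_⟩
    have hmono := gval_mono (mapVar (Rec82.proj ι g) (C i))
      (by rw [numNot_mapVar]; exact hc0 i) 0 hxy
    have hx1 : gval (mapVar (Rec82.proj ι g) (C i)) 0 x =
        output (C i) (pull (Rec82.proj ι g) (fun e => decide (e ∈ x))) :=
      output_mapVar (Rec82.proj ι g) (fun e => decide (e ∈ x)) (C i)
    have hy1 : gval (mapVar (Rec82.proj ι g) (C i)) 0 y =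
        output (C i) (pull (Rec82.proj ι g) (fun e => decide (e ∈ y))) :=
      output_mapVar (Rec82.proj ι g) (fun e => decide (e ∈ y)) (C i)
    rw [← hx1, ← hy1] at hi
    rcases h1 : gval (mapVar (Rec82.proj ι g) (C i)) 0 x with _ | _ <;>
      rcases h2 : gval (mapVar (Rec82.proj ι g) (C i)) 0 y with _ | _
    · rw [h1, h2] at hi; exact absurd rfl hi
    · exact ⟨rfl, rfl⟩
    · rw [hmono h1] at h2; cases h2
    · rw [h1, h2] at hi; exact absurd rfl hi
  · refine le_trans ?_ hSR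
    apply Nat.mul_le_mul_left
    have := card_lowSets_le (E := Rec82.Gr κ N) b
    rwa [Rec82.card_Gr] at this

/-- The bound for a family of NOT-free circuits that separates each graph without `k`-clique from
each of its supergraphs with a `k`-clique. -/
theorem rec_clique_separating (v k M w : ℕ) (hv : 2 ≤ v)
    (hk : 600 * (w + 1) * (Nat.log 2 v + 1) ^ 4 ≤ k) (hkv : 2 * k ≤ v)
    (h : 2 ^ 33 * M * (w + 1) ^ 3 * (Nat.log 2 v + 1) ^ 7 ≤ v ^ 2)
    (C : Fin M → List (Gate (Sym2 (Fin v)))) (hmon : ∀ i, numNot (C i) = 0)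
    (hsep : ∀ x y : Sym2 (Fin v) → Bool, (∀ e, x e = true → y e = true) →
      (gph x).CliqueFree k → ¬ (gph y).CliqueFree k → ∃ i, output (C i) x ≠ output (C i) y) :
    ∃ i, 2 ^ w ≤ size (C i) := by
  by_contra hcon
  push Not at hcon
  obtain ⟨L, hL⟩ : ∃ L, L = Nat.log 2 v + 1 := ⟨_, rfl⟩
  obtain ⟨b, hb⟩ : ∃ b, b = w + 1 := ⟨_, rfl⟩
  rw [← hL, ← hb] at hk h
  have hb1 : 1 ≤ b := by omega
  have hL2 : 2 ≤ L := by
    have : 1 ≤ Nat.log 2 v := Nat.log_pos (by norm_num) hv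
    omega
  have hvL : v < 2 ^ L := by rw [hL]; exact Nat.lt_pow_succ_log_self (by norm_num) v
  have hL1 : 1 ≤ L := by omega
  have hbL : 1 ≤ b * L := Nat.one_le_iff_ne_zero.mpr (by positivity)
  have hv1 : 3072 * b * L ^ 2 ≤ v := by
    have e1 : 600 * b * L ^ 4 = 600 * (L ^ 2 * (b * L ^ 2)) := by ring
    have e2 : 4 * (b * L ^ 2) ≤ L ^ 2 * (b * L ^ 2) := Nat.mul_le_mul_right _ (by nlinarith)
    have e3 : 3072 * b * L ^ 2 = 3072 * (b * L ^ 2) := by ring
    omega
  obtain ⟨κ, hκ4, hκL, hκ1, hκ2⟩ := LayCirc.choose_kappa b L v hb1 hL2 hvL hv1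
  obtain ⟨N, hN⟩ : ∃ N, N = 24 * b * L ^ 2 := ⟨_, rfl⟩
  rw [← hN] at hκ1 hκ2
  have hN1 : 1 ≤ N := by rw [hN]; exact Nat.one_le_iff_ne_zero.mpr (by positivity)
  have hNv : N ≤ v := by
    have e1 : 24 * b * L ^ 2 ≤ 3072 * b * L ^ 2 := by
      apply Nat.mul_le_mul_right
      apply Nat.mul_le_mul_right
      norm_num
    omega
  obtain ⟨c, hc⟩ : ∃ c, c = L + 2 := ⟨_, rfl⟩
  obtain ⟨r, hr⟩ : ∃ r, r = 6 * c * (2 * b) := ⟨_, rfl⟩
  have hr1 : 1 ≤ r := by
    rw [hr]
    have : 0 < c := by omega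
    exact Nat.one_le_iff_ne_zero.mpr (by positivity)
  have h4N : 4 * N ≤ 2 ^ c := by
    rw [hc, pow_add]; omega
  obtain ⟨g, hg⟩ := Rec82.exists_expander N c (2 * b) r (by omega) h4N hr.ge hr1
  obtain ⟨e, he⟩ : ∃ e, L = κ + 2 + e := ⟨L - (κ + 2), by omega⟩
  have hcκ : c * κ + 4 ≤ L ^ 2 := by rw [hc, he]; nlinarith
  obtain ⟨K, hK⟩ : ∃ K, 2 * κ = 6 + K := ⟨2 * κ - 6, by omega⟩
  have hq : 64 * 2 ^ K = 2 ^ (2 * κ) := by rw [hK, pow_add]; norm_num
  have hparts : N * (4 * c * κ + 2) ≤ 96 * b * L ^ 4 := by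
    have e1 : 4 * c * κ + 2 ≤ 4 * L ^ 2 := by
      have : 4 * c * κ = 4 * (c * κ) := by ring
      omega
    calc N * (4 * c * κ + 2) ≤ N * (4 * L ^ 2) := Nat.mul_le_mul_left _ e1
      _ = 96 * b * L ^ 4 := by rw [hN]; ring
  have hbL4 : 96 * b * L ^ 4 ≤ 600 * b * L ^ 4 := by
    apply Nat.mul_le_mul_right
    apply Nat.mul_le_mul_right
    norm_num
  obtain ⟨d, hd⟩ : ∃ d, N * (4 * c * κ + 2) + d = k := ⟨k - N * (4 * c * κ + 2), by omega⟩
  have hvert : N * (16 * c * κ + 2 * 2 ^ κ) + d ≤ v := by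
    have e1 : N * (16 * c * κ + 2 * 2 ^ κ) = N * (4 * c * κ + 2) + N * (12 * (c * κ)) +
        2 * (N * 2 ^ κ) - 2 * N := by
      have : N * (16 * c * κ + 2 * 2 ^ κ) + 2 * N = N * (4 * c * κ + 2) + N * (12 * (c * κ)) +
        2 * (N * 2 ^ κ) := by ring
      omega
    have e2 : N * (12 * (c * κ)) ≤ 288 * b * L ^ 4 := by
      calc N * (12 * (c * κ)) ≤ N * (12 * L ^ 2) := by
            apply Nat.mul_le_mul_left
            apply Nat.mul_le_mul_left
            omega
        _ = 288 * b * L ^ 4 := by rw [hN]; ring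
    have e3 : 8 * (N * 2 ^ κ) ≤ v := by rw [← mul_assoc]; exact hκ1
    have e4 : 288 * b * L ^ 4 = 288 * (b * L ^ 4) := by ring
    have e5 : 600 * b * L ^ 4 = 600 * (b * L ^ 4) := by ring
    omega
  have hU : 2 * κ * r + 1 ≤ N := by
    have e1 : 2 * κ * r = 24 * (c * κ) * b := by rw [hr]; ring
    have e2 : 24 * (c * κ + 4) * b ≤ 24 * L ^ 2 * b :=
      Nat.mul_le_mul_right _ (Nat.mul_le_mul_left _ hcκ)
    have e3 : 24 * (c * κ + 4) * b = 24 * (c * κ) * b + 96 * b := by ring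
    have e4 : N = 24 * L ^ 2 * b := by rw [hN]; ring
    omega
  have hℓ : 2 * b < 2 ^ L := by
    have e1 : 3072 * b * 1 ≤ 3072 * b * L ^ 2 := Nat.mul_le_mul_left _ (Nat.one_le_pow _ _ hL1)
    omega
  have hKL : K ≤ 2 * L := by omega
  obtain ⟨S, hS⟩ : ∃ S, S = 2 ^ w - 1 := ⟨_, rfl⟩
  have hS1 : S + 1 = 2 ^ w := by
    have : 0 < 2 ^ w := by positivity
    omega
  have hcS : ∀ i, size (C i) ≤ S := fun i => by
    have := hcon i
    omega
  have hSb : S + 1 ≤ 2 ^ b := hS1.le.trans (Nat.pow_le_pow_right (by norm_num) (by omega))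
  have hSR : 2 ^ K * (S + 1) * (N * 2 ^ (2 * κ) + 1) ^ (2 * b) ≤ 2 ^ (9 * b * L) := by
    have f1 : N * 2 ^ (2 * κ) + 1 ≤ 2 ^ (2 * L) := by
      have g1 : 8 * (N * 2 ^ κ) ≤ v := by rw [← mul_assoc]; exact hκ1
      have g2 : 2 ^ κ ≤ N * 2 ^ κ := Nat.le_mul_of_pos_left _ hN1
      have g3 : N * 2 ^ (2 * κ) = (N * 2 ^ κ) * 2 ^ κ := by rw [two_mul, pow_add]; ring
      have g4 : (N * 2 ^ κ) * 2 ^ κ ≤ v * v := Nat.mul_le_mul (by omega) (by omega)
      have g5 : v * v < 2 ^ L * 2 ^ L := Nat.mul_lt_mul'' hvL hvL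
      have g6 : 2 ^ (2 * L) = 2 ^ L * 2 ^ L := by rw [two_mul, pow_add]
      omega
    have f2 : 2 ^ K * (S + 1) * (N * 2 ^ (2 * κ) + 1) ^ (2 * b) ≤
        2 ^ (2 * L) * 2 ^ b * (2 ^ (2 * L)) ^ (2 * b) := by
      apply Nat.mul_le_mul
      · exact Nat.mul_le_mul (Nat.pow_le_pow_right (by norm_num) hKL) hSb
      · exact Nat.pow_le_pow_left f1 _
    refine f2.trans ?_
    rw [← pow_mul, ← pow_add, ← pow_add]
    apply Nat.pow_le_pow_right (by norm_num)
    have g1 : 2 * L * (2 * b) = 4 * (b * L) := by ring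
    have g2 : 9 * b * L = 9 * (b * L) := by ring
    have g3 : L ≤ b * L := Nat.le_mul_of_pos_left _ (by omega)
    have g4 : b ≤ b * L := Nat.le_mul_of_pos_right _ (by omega)
    omega
  have key := rec_clique_family g hg hb1 (by omega) hN1 hℓ hL1 (by omega) hq.le hd hvert hU C
    hmon hcS (by omega) hSR hsep
  -- the final comparison
  have e1 : 2 ^ K ≤ 792 * L ^ 3 * (b * M) := by
    refine key.trans ?_
    calc M * (44 * K * (L * (9 * b * L))) ≤ M * (44 * (2 * L) * (L * (9 * b * L))) :=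
          Nat.mul_le_mul_left _ (Nat.mul_le_mul_right _ (Nat.mul_le_mul_left _ hKL))
      _ = 792 * L ^ 3 * (b * M) := by ring
  have e2 : v ^ 2 < (16 * N * 2 ^ κ) ^ 2 := Nat.pow_lt_pow_left hκ2 (by norm_num)
  have e3 : (16 * N * 2 ^ κ) ^ 2 = 147456 * b ^ 2 * L ^ 4 * (64 * 2 ^ K) := by
    rw [hq, hN, two_mul, pow_add]; ring
  have e4 : 147456 * b ^ 2 * L ^ 4 * (64 * 2 ^ K) ≤
      147456 * b ^ 2 * L ^ 4 * (64 * (792 * L ^ 3 * (b * M))) :=
    Nat.mul_le_mul_left _ (Nat.mul_le_mul_left _ e1)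
  have e5 : 147456 * b ^ 2 * L ^ 4 * (64 * (792 * L ^ 3 * (b * M))) =
      7474249728 * (M * b ^ 3 * L ^ 7) := by ring
  have e6 : 7474249728 * (M * b ^ 3 * L ^ 7) ≤ 2 ^ 33 * (M * b ^ 3 * L ^ 7) :=
    Nat.mul_le_mul_right _ (by norm_num)
  have e7 : 2 ^ 33 * (M * b ^ 3 * L ^ 7) = 2 ^ 33 * M * b ^ 3 * L ^ 7 := by ring
  omega

end Pool.Agent.NegLim
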