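import Pool.Agent.Work.MP_71c844_lc.RecExp
import Pool.Agent.Work.MP_71c844_lc.RecClique
import Pool.Agent.Work.MP_71c844_lc.RecDich
import Pool.Agent.Work.MP_71c844_lc.LayPatClique

/-!
The bound for CLIQUE with the better exponents (choice of the parameters).
-/

namespace Pool.Agent.LayCirc

open Pool.Agent.Rec82 (Part Vtx Gr Seed planted proj Uniq)

/-- The bound in terms of the parameters of the construction. -/
lemma rec_clique_bound {b c N K R ℓ κ r d v k s a P : ℕ} (g : Fin N → Fin (2 * c) → Fin r)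
    (hg : Uniq g (2 * b)) (hb : 1 ≤ b) (hc1 : 1 ≤ c) (hN1 : 1 ≤ N) (hℓ : 2 * b < 2 ^ ℓ)
    (hℓ1 : 1 ≤ ℓ) (hK : 1 ≤ K) (hq : 64 * 2 ^ K ≤ 2 ^ (2 * κ))
    (hk : N * (4 * c * κ + 2) + d = k) (hv : N * (16 * c * κ + 2 * 2 ^ κ) + d ≤ v)
    (hU : 2 * κ * r + 1 ≤ N)
    (C : Circuit (Sym2 (Fin v) ⊕ (Fin a × Bool)) s) (o : Fin s)
    (hfree : ∀ j, Fed C j → ∀ (x : Sym2 (Fin v) → Bool) (y y' : Fin a → Bool),
      val C (withGuess x y) j = val C (withGuess x y') j)
    (hP1 : 1 ≤ P)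
    (hP : ∀ x : ℕ → (Sym2 (Fin v) → Bool), Monotone x →
      (Set.range (fun i => pattern C (withGuess (x i) fun _ => false))).ncard ≤ P)
    (hS : 2 * s ≤ 2 ^ b)
    (hSR : 2 ^ K * (2 ^ a * ((2 * s + 1) * (N * 2 ^ (2 * κ) + 1) ^ (2 * b))) ≤ 2 ^ R) (hR : 1 ≤ R)
    (hC : ∀ x : Sym2 (Fin v) → Bool, (∀ y, val C (withGuess x y) o = true) ↔
      ¬ (SimpleGraph.fromEdgeSet {e | x e = true}).CliqueFree k) :
    2 ^ K ≤ 44 * K * (ℓ * R * P) := by
  classical
  have hcardPart : Fintype.card (Part κ N (2 * c) d) = N * (4 * c * κ + 2) + d := by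
    simp only [Fintype.card_sum, Fintype.card_prod, Fintype.card_fin]; ring
  have hcardV : Fintype.card (Vtx κ N (2 * c) d) = N * (16 * c * κ + 2 * 2 ^ κ) + d := by
    simp only [Fintype.card_sum, Fintype.card_prod, Fintype.card_fin, Fintype.card_pi,
      Finset.prod_const, Finset.card_univ, ZMod.card]
    ring
  obtain ⟨ι⟩ : Nonempty (Vtx κ N (2 * c) d ↪ Fin v) :=
    Function.Embedding.nonempty_of_card_le (by rw [hcardV, Fintype.card_fin]; exact hv)
  have hkc : Fintype.card (Part κ N (2 * c) d) = k := by rw [hcardPart]; exact hk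
  refine guess_bound' (E := Gr κ N) (U := Seed κ r) (b := b) (ℓ := ℓ) (K := K) (R := R) (N := N)
    (q := (2 : ℝ) ^ (2 * κ)) (Y := planted g) hb hℓ hK (by exact_mod_cast hq)
    (fun A hA => Rec82.planted_spread g hg A hA)
    (fun u => (Rec82.card_planted g u).ge) ?_
    (proj ι g) C o hfree ?_ hP1 hP hS ?_ hR hℓ1
  · rw [Rec82.card_seed, ← pow_succ']
    exact Nat.pow_le_pow_right (by norm_num) hU
  · intro x
    rw [hC, ← hkc]
    constructor
    · intro h
      obtain ⟨u, hu⟩ := Rec82.planted_of_clique ι g (by omega) hN1 (fun e => decide (e ∈ x)) h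
      refine ⟨u, fun a ha => ?_⟩
      rw [Rec82.mem_planted] at ha
      have := hu a.1
      rw [ha] at this
      simpa using this
    · rintro ⟨u, hu⟩
      apply Rec82.clique_of_planted ι g (fun e => decide (e ∈ x)) u
      intro i
      simp only [decide_eq_true_eq]
      apply hu
      rw [Rec82.mem_planted]
  · refine le_trans ?_ hSR
    apply Nat.mul_le_mul_left
    apply Nat.mul_le_mul_left
    apply Nat.mul_le_mul_left
    have := NegLim.card_lowSets_le (E := Gr κ N) b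
    rwa [Rec82.card_Gr] at this

/-- The same with the algebraic code of the earlier files. -/
lemma rec_clique_bound_old {p : ℕ} [Fact p.Prime] {b N K R ℓ d v k s a P : ℕ} (hb : 1 ≤ b)
    (hN1 : 1 ≤ N) (hNp : N ≤ p) (hℓ : 2 * b < 2 ^ ℓ) (hℓ1 : 1 ≤ ℓ) (hK : 1 ≤ K)
    (hq : 64 * 2 ^ K ≤ p ^ 4)
    (hk : N * (8 * b + 2) + d = k) (hv : N * (8 * b + 2) * p ^ 2 + d ≤ v)
    (hU : 2 * p ^ (8 * b) ≤ 2 ^ N)
    (c : Circuit (Sym2 (Fin v) ⊕ (Fin a × Bool)) s) (o : Fin s)
    (hfree : ∀ j, Fed c j → ∀ (x : Sym2 (Fin v) → Bool) (y y' : Fin a → Bool),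
      val c (withGuess x y) j = val c (withGuess x y') j)
    (hP1 : 1 ≤ P)
    (hP : ∀ x : ℕ → (Sym2 (Fin v) → Bool), Monotone x →
      (Set.range (fun i => pattern c (withGuess (x i) fun _ => false))).ncard ≤ P)
    (hS : 2 * s ≤ 2 ^ b)
    (hSR : 2 ^ K * (2 ^ a * ((2 * s + 1) * (N * p ^ 4 + 1) ^ (2 * b))) ≤ 2 ^ R) (hR : 1 ≤ R)
    (hc : ∀ x : Sym2 (Fin v) → Bool, (∀ y, val c (withGuess x y) o = true) ↔
      ¬ (SimpleGraph.fromEdgeSet {e | x e = true}).CliqueFree k) :
    2 ^ K ≤ 44 * K * (ℓ * R * P) := by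
  classical
  have hcardPart : Fintype.card (NegLim.Part b N) = N * (8 * b + 2) := by
    simp only [Fintype.card_sum, Fintype.card_prod, Fintype.card_fin]; ring
  have hcardV : Fintype.card (NegLim.Vtx p b N d) = N * (8 * b + 2) * p ^ 2 + d := by
    rw [Fintype.card_sum, Fintype.card_prod, hcardPart, Fintype.card_prod, ZMod.card,
      Fintype.card_fin]
    ring
  have hcardGr : Fintype.card (NegLim.Gr p N) = N * p ^ 4 := by
    simp only [Fintype.card_prod, Fintype.card_fin, ZMod.card]; ring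
  obtain ⟨ι⟩ : Nonempty (NegLim.Vtx p b N d ↪ Fin v) :=
    Function.Embedding.nonempty_of_card_le (by rw [hcardV, Fintype.card_fin]; exact hv)
  have hkc : Fintype.card (NegLim.Part b N ⊕ Fin d) = k := by
    rw [Fintype.card_sum, hcardPart, Fintype.card_fin]; exact hk
  refine guess_bound' (E := NegLim.Gr p N) (U := NegLim.Seed p b) (b := b) (ℓ := ℓ) (K := K)
    (R := R) (N := N) (q := (p : ℝ) ^ 4) (Y := NegLim.planted N) hb hℓ hK (by exact_mod_cast hq)
    (fun A hA => NegLim.planted_spread hb hNp A hA)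
    (fun u => (NegLim.card_planted u).ge) (by rw [NegLim.card_seed]; exact hU)
    (NegLim.proj ι) c o hfree ?_ hP1 hP hS ?_ hR hℓ1
  · intro x
    rw [hc, ← hkc]
    constructor
    · intro h
      obtain ⟨u, hu⟩ := NegLim.planted_of_clique ι hb hN1 (fun e => decide (e ∈ x)) h
      refine ⟨u, fun a ha => ?_⟩
      rw [NegLim.mem_planted] at ha
      have := hu a.1
      rw [ha] at this
      simpa using this
    · rintro ⟨u, hu⟩
      apply NegLim.clique_of_planted ι (fun e => decide (e ∈ x)) u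
      intro i
      simp only [decide_eq_true_eq]
      apply hu
      rw [NegLim.mem_planted]
  · refine le_trans ?_ hSR
    apply Nat.mul_le_mul_left
    apply Nat.mul_le_mul_left
    apply Nat.mul_le_mul_left
    have := NegLim.card_lowSets_le (E := NegLim.Gr p N) b
    rwa [hcardGr] at this

end Pool.Agent.LayCirc
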