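import Pool.Agent.Work.MP_71c844_lc.NegSun

/-!
A spread lemma: minimal fragments, and a robust sunflower lemma with a logarithmic loss.
-/

namespace Pool.Agent.Rec82

set_option linter.unusedSectionVars false

open Finset Pool.Agent.NegLim

variable {E : Type*} [Fintype E] [DecidableEq E]

/-- Moebius inversion for the indicator of a point. -/
lemma ind_point (S y : Finset E) :
    (if y = S then (1 : ℝ) else 0) =
      ∑ A : Finset E, (if S ⊆ A then (-1 : ℝ) ^ (A \ S).card else 0) *
        (if A ⊆ y then (1 : ℝ) else 0) := by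
  have h1 : ∑ A : Finset E, (if S ⊆ A then (-1 : ℝ) ^ (A \ S).card else 0) *
        (if A ⊆ y then (1 : ℝ) else 0) = ∑ A ∈ Finset.Icc S y, (-1 : ℝ) ^ (A \ S).card := by
    rw [← Finset.sum_filter_add_sum_filter_not univ (fun A => A ∈ Finset.Icc S y)]
    have e2 : ∑ A ∈ univ.filter (fun A => ¬ A ∈ Finset.Icc S y),
        (if S ⊆ A then (-1 : ℝ) ^ (A \ S).card else 0) * (if A ⊆ y then (1 : ℝ) else 0) = 0 := by
      apply Finset.sum_eq_zero
      intro A hA
      rw [Finset.mem_filter, Finset.mem_Icc] at hA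
      by_cases h3 : S ⊆ A
      · have : ¬ A ⊆ y := fun h4 => hA.2 ⟨h3, h4⟩
        rw [if_neg this, mul_zero]
      · rw [if_neg h3, zero_mul]
    rw [e2, add_zero, Finset.filter_mem_eq_inter, Finset.univ_inter]
    apply Finset.sum_congr rfl
    intro A hA
    rw [Finset.mem_Icc] at hA
    have h3 : S ⊆ A := hA.1
    have h4 : A ⊆ y := hA.2
    rw [if_pos h3, if_pos h4, mul_one]
  rw [h1]
  by_cases hS : S ⊆ y
  · rw [Finset.Icc_eq_image_powerset hS, Finset.sum_image]
    · have e3 : ∀ B ∈ (y \ S).powerset, (-1 : ℝ) ^ ((S ∪ B) \ S).card = (-1 : ℝ) ^ B.card := by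
        intro B hB
        rw [Finset.mem_powerset] at hB
        have : (S ∪ B) \ S = B := by
          ext e
          simp only [mem_sdiff, mem_union]
          constructor
          · tauto
          · intro he
            have := hB he
            rw [Finset.mem_sdiff] at this
            tauto
        rw [this]
      rw [Finset.sum_congr rfl e3]
      have e4 := Finset.sum_powerset_neg_one_pow_card (x := y \ S)
      have e5 : ∑ B ∈ (y \ S).powerset, (-1 : ℝ) ^ B.card = if y \ S = ∅ then 1 else 0 := by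
        exact_mod_cast congrArg (fun z : ℤ => (z : ℝ)) e4
      rw [e5]
      congr 1
      rw [Finset.sdiff_eq_empty_iff_subset]
      exact propext ⟨fun h => h.subset, fun h => Finset.Subset.antisymm h hS⟩
    · intro B hB C hC hBC
      have hB' : B ∈ (y \ S).powerset := hB
      have hC' : C ∈ (y \ S).powerset := hC
      rw [Finset.mem_powerset] at hB' hC'
      have hBS : Disjoint B S := Finset.disjoint_of_subset_left hB' Finset.sdiff_disjoint
      have hCS : Disjoint C S := Finset.disjoint_of_subset_left hC' Finset.sdiff_disjoint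
      have h5 : S ∪ B = S ∪ C := hBC
      have : (S ∪ B) \ S = (S ∪ C) \ S := by rw [h5]
      rw [Finset.union_sdiff_cancel_left hBS.symm, Finset.union_sdiff_cancel_left hCS.symm] at this
      exact this
  · have : y ≠ S := fun h => hS (by rw [h])
    rw [if_neg this, Finset.Icc_eq_empty (fun h => hS h), Finset.sum_empty]

/-- `n` steps are one step with the accumulated density. -/
lemma Tn_eq_T (δ : ℝ) (n : ℕ) (φ : Finset E → ℝ) (x : Finset E) :
    Tn δ n φ x = T (NegLim.dens δ n) φ x := by
  have hT1 : ∀ (γ : ℝ) (ψ : Finset E → ℝ), T γ ψ = Tn γ 1 ψ := by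
    intro γ ψ
    rw [show (1 : ℕ) = 0 + 1 from rfl, Tn_succ, Tn_zero]
  have hd : ∀ γ : ℝ, NegLim.dens γ 1 = γ := by intro γ; unfold NegLim.dens; ring
  have hφ : φ = fun y => ∑ S : Finset E, φ S * ∑ A : Finset E,
      (if S ⊆ A then (-1 : ℝ) ^ (A \ S).card else 0) * (if A ⊆ y then (1 : ℝ) else 0) := by
    funext y
    have : ∀ S : Finset E, φ S * ∑ A : Finset E,
      (if S ⊆ A then (-1 : ℝ) ^ (A \ S).card else 0) * (if A ⊆ y then (1 : ℝ) else 0) =
        if y = S then φ S else 0 := by
      intro S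
      rw [← ind_point S y, mul_ite, mul_one, mul_zero]
    simp_rw [this]
    simp
  have key : ∀ (γ : ℝ) (k : ℕ), Tn γ k φ x = ∑ S : Finset E, φ S * ∑ A : Finset E,
      (if S ⊆ A then (-1 : ℝ) ^ (A \ S).card else 0) * (NegLim.dens γ k) ^ (A \ x).card := by
    intro γ k
    conv_lhs => rw [hφ]
    rw [Tn_sum]
    refine Finset.sum_congr rfl fun S _ => ?_
    rw [Tn_smul, Tn_sum]
    congr 1
    refine Finset.sum_congr rfl fun A _ => ?_
    rw [Tn_smul, Tn_ind]
  rw [hT1, key, key, hd]

lemma wt_le {a : ℝ} (h0 : 0 < a) (h1 : a ≤ 1) (W T0 : Finset E) (hd : Disjoint W T0) :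
    wt a W ≤ (1 / a) ^ T0.card * wt a (W ∪ T0) := by
  unfold wt
  rw [Finset.card_union_of_disjoint hd]
  have hc : (univ \ W).card = (univ \ (W ∪ T0)).card + T0.card := by
    have e1 : (univ \ W) = (univ \ (W ∪ T0)) ∪ T0 := by
      ext e
      have h9 : e ∈ T0 → e ∉ W := fun h => Finset.disjoint_right.mp hd h
      simp only [mem_sdiff, mem_univ, true_and, mem_union]
      tauto
    rw [e1, Finset.card_union_of_disjoint]
    rw [Finset.disjoint_left]
    intro e he he'
    simp only [mem_sdiff, mem_univ, true_and, mem_union] at he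
    tauto
  rw [hc]
  have h2 : 0 ≤ 1 - a := by linarith
  have h3 : (1 - a) ^ ((univ \ (W ∪ T0)).card + T0.card) ≤ (1 - a) ^ (univ \ (W ∪ T0)).card :=
    pow_le_pow_of_le_one h2 (by linarith) (Nat.le_add_right _ _)
  have h4 : (1 / a) ^ T0.card * a ^ (W.card + T0.card) = a ^ W.card := by
    rw [pow_add, mul_comm (a ^ W.card), ← mul_assoc, ← mul_pow, one_div, inv_mul_cancel₀ h0.ne',
      one_pow, one_mul]
  calc a ^ W.card * (1 - a) ^ ((univ \ (W ∪ T0)).card + T0.card)
      ≤ a ^ W.card * (1 - a) ^ (univ \ (W ∪ T0)).card :=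
        mul_le_mul_of_nonneg_left h3 (by positivity)
    _ = (1 / a) ^ T0.card * (a ^ (W.card + T0.card) * (1 - a) ^ (univ \ (W ∪ T0)).card) := by
        rw [← mul_assoc, h4]

section frag

variable {ι : Type*} [DecidableEq ι]

open Classical in
/-- the member of the family that gives the minimal fragment of `i` over `W` -/
lemma exists_frag (I : Finset ι) (S : ι → Finset E) (W : Finset E) (i : ι) (hi : i ∈ I) :
    ∃ j ∈ I, S j ⊆ W ∪ S i ∧ ∀ j' ∈ I, S j' ⊆ W ∪ S i → (S j \ W).card ≤ (S j' \ W).card := by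
  obtain ⟨j, hj, hmin⟩ := Finset.exists_min_image (I.filter (fun j => S j ⊆ W ∪ S i))
    (fun j => (S j \ W).card) ⟨i, by rw [Finset.mem_filter]; exact ⟨hi, Finset.subset_union_right⟩⟩
  rw [Finset.mem_filter] at hj
  exact ⟨j, hj.1, hj.2, fun j' hj' hs => hmin j' (by rw [Finset.mem_filter]; exact ⟨hj', hs⟩)⟩

open Classical in
/-- minimal fragment -/
noncomputable def frag (I : Finset ι) (S : ι → Finset E) (W : Finset E) (i : ι) : Finset E :=
  if h : i ∈ I then S (exists_frag I S W i h).choose \ W else ∅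

lemma frag_spec (I : Finset ι) (S : ι → Finset E) (W : Finset E) (i : ι) (hi : i ∈ I) :
    ∃ j ∈ I, frag I S W i = S j \ W ∧ S j ⊆ W ∪ S i ∧
      ∀ j' ∈ I, S j' ⊆ W ∪ S i → (S j \ W).card ≤ (S j' \ W).card := by
  classical
  have h := (exists_frag I S W i hi).choose_spec
  refine ⟨(exists_frag I S W i hi).choose, h.1, ?_, h.2.1, h.2.2⟩
  unfold frag
  rw [dif_pos hi]

lemma frag_subset (I : Finset ι) (S : ι → Finset E) (W : Finset E) (i : ι) (hi : i ∈ I) :
    frag I S W i ⊆ S i := by
  obtain ⟨j, _, h1, h2, _⟩ := frag_spec I S W i hi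
  rw [h1]
  intro e he
  rw [Finset.mem_sdiff] at he
  have := h2 he.1
  rw [Finset.mem_union] at this
  tauto

lemma frag_disjoint (I : Finset ι) (S : ι → Finset E) (W : Finset E) (i : ι) (hi : i ∈ I) :
    Disjoint W (frag I S W i) := by
  obtain ⟨j, _, h1, _, _⟩ := frag_spec I S W i hi
  rw [h1]
  exact Finset.disjoint_sdiff

/-- Every member inside `W ∪ T` contains the fragment `T`. -/
lemma frag_key (I : Finset ι) (S : ι → Finset E) (W : Finset E) (i : ι) (hi : i ∈ I)
    (j' : ι) (hj' : j' ∈ I) (hs : S j' ⊆ W ∪ frag I S W i) : frag I S W i ⊆ S j' := by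
  obtain ⟨j, _, h1, h2, h3⟩ := frag_spec I S W i hi
  have hfs := frag_subset I S W i hi
  have hsub : S j' \ W ⊆ frag I S W i := by
    intro e he
    rw [Finset.mem_sdiff] at he
    have := hs he.1
    rw [Finset.mem_union] at this
    tauto
  have hcard : (frag I S W i).card ≤ (S j' \ W).card := by
    rw [h1]
    apply h3 j' hj'
    exact hs.trans (Finset.union_subset_union_right hfs)
  have heq := Finset.eq_of_subset_of_card_le hsub hcard
  rw [← heq]
  exact Finset.sdiff_subset

lemma frag_exists_member (I : Finset ι) (S : ι → Finset E) (W : Finset E) (i : ι) (hi : i ∈ I) :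
    ∃ j ∈ I, S j ⊆ W ∪ frag I S W i := by
  obtain ⟨j, hj, h1, _, _⟩ := frag_spec I S W i hi
  refine ⟨j, hj, ?_⟩
  rw [h1]
  intro e he
  by_cases h : e ∈ W
  · exact Finset.mem_union_left _ h
  · exact Finset.mem_union_right _ (Finset.mem_sdiff.mpr ⟨he, h⟩)

open Classical in
/-- Expected number of indices with a fragment of size exactly `t`. -/
lemma frag_count {a B : ℝ} (ha0 : 0 < a) (ha1 : a ≤ 1) (hB : 0 < B) (k t : ℕ) (N0 : ℝ) (hN0pos : 0 ≤ N0)
    (I : Finset ι) (S : ι → Finset E) (hS : ∀ i ∈ I, (S i).card ≤ k) (ht : 1 ≤ t)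
    (hspread : ∀ D : Finset E, D.Nonempty →
      ((I.filter (fun i => D ⊆ S i)).card : ℝ) ≤ N0 * (1 / B) ^ D.card) :
    ∑ W : Finset E, wt a W * ((I.filter (fun i => (frag I S W i).card = t)).card : ℝ) ≤
      N0 * (k.choose t * (1 / (a * B)) ^ t) := by
  -- the set of fragments of size `t` over `W`
  set 𝒯 : Finset E → Finset (Finset E) := fun W =>
    (I.image (fun i => frag I S W i)).filter (fun T0 => T0.card = t) with h𝒯
  have hmem𝒯 : ∀ W T0, T0 ∈ 𝒯 W ↔ (∃ i ∈ I, frag I S W i = T0) ∧ T0.card = t := by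
    intro W T0
    simp only [h𝒯, Finset.mem_filter, Finset.mem_image]
  -- step 1
  have h1 : ∀ W : Finset E, ((I.filter (fun i => (frag I S W i).card = t)).card : ℝ) ≤
      ∑ _T0 ∈ 𝒯 W, N0 * (1 / B) ^ t := by
    intro W
    have hsub : I.filter (fun i => (frag I S W i).card = t) ⊆
        (𝒯 W).biUnion (fun T0 => I.filter (fun i => T0 ⊆ S i)) := by
      intro i hi
      rw [Finset.mem_filter] at hi
      rw [Finset.mem_biUnion]
      refine ⟨frag I S W i, ?_, ?_⟩
      · rw [hmem𝒯]; exact ⟨⟨i, hi.1, rfl⟩, hi.2⟩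
      · rw [Finset.mem_filter]; exact ⟨hi.1, frag_subset I S W i hi.1⟩
    have e1 : ((I.filter (fun i => (frag I S W i).card = t)).card : ℝ) ≤
        ∑ T0 ∈ 𝒯 W, ((I.filter (fun i => T0 ⊆ S i)).card : ℝ) := by
      exact_mod_cast (Finset.card_le_card hsub).trans Finset.card_biUnion_le
    refine e1.trans (Finset.sum_le_sum fun T0 hT0 => ?_)
    rw [hmem𝒯] at hT0
    have hne : T0.Nonempty := by rw [← Finset.card_pos]; omega
    have := hspread T0 hne
    rwa [hT0.2] at this
  have hc0 : 0 ≤ N0 * (1 / B) ^ t := by positivity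
  -- step 2
  have h2 : ∑ W : Finset E, wt a W * (((𝒯 W).card : ℕ) : ℝ) ≤ (1 / a) ^ t * k.choose t := by
    have e1 : ∀ W : Finset E, wt a W * (((𝒯 W).card : ℕ) : ℝ) ≤
        ∑ T0 ∈ 𝒯 W, (1 / a) ^ t * wt a (W ∪ T0) := by
      intro W
      rw [mul_comm, ← nsmul_eq_mul, ← Finset.sum_const]
      apply Finset.sum_le_sum
      intro T0 hT0
      rw [hmem𝒯] at hT0
      obtain ⟨⟨i, hi, rfl⟩, hc⟩ := hT0
      have := wt_le ha0 ha1 W _ (frag_disjoint I S W i hi)
      rwa [hc] at this
    refine (Finset.sum_le_sum fun W _ => e1 W).trans ?_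
    simp_rw [← Finset.mul_sum]
    apply mul_le_mul_of_nonneg_left _ (by positivity)
    -- choose a member below each Z
    let J : Finset E → Finset E := fun Z =>
      if h : ∃ j ∈ I, S j ⊆ Z then S h.choose else ∅
    have hJ : ∀ Z, (∃ j ∈ I, S j ⊆ Z) → ∃ j ∈ I, J Z = S j ∧ S j ⊆ Z := by
      intro Z h
      refine ⟨h.choose, h.choose_spec.1, ?_, h.choose_spec.2⟩
      simp only [J]
      rw [dif_pos h]
    have hJcard : ∀ Z, (J Z).card ≤ k := by
      intro Z
      by_cases h : ∃ j ∈ I, S j ⊆ Z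
      · obtain ⟨j, hj, e, _⟩ := hJ Z h
        rw [e]; exact hS j hj
      · simp only [J]; rw [dif_neg h]; simp
    let P : Finset (Finset E × Finset E) := (univ : Finset (Finset E)).biUnion
      (fun W => (𝒯 W).image (fun T0 => (W, T0)))
    have hP : ∀ p : Finset E × Finset E, p ∈ P ↔ p.2 ∈ 𝒯 p.1 := by
      intro p
      simp only [P, Finset.mem_biUnion, Finset.mem_univ, true_and, Finset.mem_image]
      constructor
      · rintro ⟨W, T0, hT0, rfl⟩; exact hT0
      · intro h; exact ⟨p.1, p.2, h, rfl⟩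
    let Q : Finset (Finset E × Finset E) := (univ : Finset (Finset E)).biUnion
      (fun Z => ((J Z).powersetCard t).image (fun T0 => (Z, T0)))
    have hQ : ∀ p : Finset E × Finset E, p ∈ Q ↔ p.2 ∈ (J p.1).powersetCard t := by
      intro p
      simp only [Q, Finset.mem_biUnion, Finset.mem_univ, true_and, Finset.mem_image]
      constructor
      · rintro ⟨W, T0, hT0, rfl⟩; exact hT0
      · intro h; exact ⟨p.1, p.2, h, rfl⟩
    have hsumP : ∑ W : Finset E, ∑ T0 ∈ 𝒯 W, wt a (W ∪ T0) = ∑ p ∈ P, wt a (p.1 ∪ p.2) := by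
      rw [Finset.sum_biUnion]
      · refine Finset.sum_congr rfl fun W _ => ?_
        rw [Finset.sum_image]
        intro x _ y _ h
        exact (Prod.mk.inj h).2
      · intro W _ W' _ hWW
        rw [Function.onFun, Finset.disjoint_left]
        rintro p hp hp'
        rw [Finset.mem_image] at hp hp'
        obtain ⟨_, _, rfl⟩ := hp
        obtain ⟨_, _, h⟩ := hp'
        exact hWW (Prod.mk.inj h).1.symm
    rw [hsumP]
    have himg : P.image (fun p => (p.1 ∪ p.2, p.2)) ⊆ Q := by
      intro z hz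
      rw [Finset.mem_image] at hz
      obtain ⟨p, hp, rfl⟩ := hz
      rw [hP, hmem𝒯] at hp
      obtain ⟨⟨i, hi, hfi⟩, hc⟩ := hp
      rw [hQ, Finset.mem_powersetCard]
      refine ⟨?_, hc⟩
      have hex : ∃ j ∈ I, S j ⊆ p.1 ∪ p.2 := by
        have := frag_exists_member I S p.1 i hi
        rwa [hfi] at this
      obtain ⟨j, hj, e, hsub⟩ := hJ _ hex
      show p.2 ⊆ J (p.1 ∪ p.2)
      rw [e]
      have := frag_key I S p.1 i hi j hj (by rw [hfi]; exact hsub)
      rwa [hfi] at this
    have hinj : Set.InjOn (fun p : Finset E × Finset E => (p.1 ∪ p.2, p.2)) P := by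
      intro p hp p' hp' h
      have hp1 : p ∈ P := hp
      have hp1' : p' ∈ P := hp'
      rw [hP, hmem𝒯] at hp1 hp1'
      obtain ⟨⟨i, hi, hfi⟩, _⟩ := hp1
      obtain ⟨⟨i', hi', hfi'⟩, _⟩ := hp1'
      have hd := frag_disjoint I S p.1 i hi
      have hd' := frag_disjoint I S p'.1 i' hi'
      rw [hfi] at hd
      rw [hfi'] at hd'
      have h2 : p.2 = p'.2 := (Prod.mk.inj h).2
      have h1' : p.1 ∪ p.2 = p'.1 ∪ p'.2 := (Prod.mk.inj h).1
      have e3 : (p.1 ∪ p.2) \ p.2 = p.1 := Finset.union_sdiff_cancel_right hd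
      have e4 : (p'.1 ∪ p'.2) \ p'.2 = p'.1 := Finset.union_sdiff_cancel_right hd'
      refine Prod.ext ?_ h2
      rw [← e3, ← e4, h1', h2]
    calc ∑ p ∈ P, wt a (p.1 ∪ p.2)
        = ∑ z ∈ P.image (fun p => (p.1 ∪ p.2, p.2)), wt a z.1 := by
          rw [Finset.sum_image hinj]
      _ ≤ ∑ z ∈ Q, wt a z.1 := by
          apply Finset.sum_le_sum_of_subset_of_nonneg himg
          intro z _ _
          exact wt_nonneg ha0.le ha1 _
      _ = ∑ Z : Finset E, ∑ T0 ∈ (J Z).powersetCard t, wt a Z := by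
          rw [Finset.sum_biUnion]
          · refine Finset.sum_congr rfl fun W _ => ?_
            rw [Finset.sum_image]
            intro x _ y _ h
            exact (Prod.mk.inj h).2
          · intro W _ W' _ hWW
            rw [Function.onFun, Finset.disjoint_left]
            rintro p hp hp'
            rw [Finset.mem_image] at hp hp'
            obtain ⟨_, _, rfl⟩ := hp
            obtain ⟨_, _, h⟩ := hp'
            exact hWW (Prod.mk.inj h).1.symm
      _ ≤ ∑ Z : Finset E, wt a Z * k.choose t := by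
          apply Finset.sum_le_sum
          intro Z _
          rw [Finset.sum_const, Finset.card_powersetCard, nsmul_eq_mul, mul_comm]
          apply mul_le_mul_of_nonneg_left _ (wt_nonneg ha0.le ha1 Z)
          exact_mod_cast Nat.choose_le_choose t (hJcard Z)
      _ = k.choose t := by rw [← Finset.sum_mul, sum_wt, one_mul]
  calc ∑ W : Finset E, wt a W * ((I.filter (fun i => (frag I S W i).card = t)).card : ℝ)
      ≤ ∑ W : Finset E, wt a W * (((𝒯 W).card : ℝ) * (N0 * (1 / B) ^ t)) := by
        apply Finset.sum_le_sum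
        intro W _
        apply mul_le_mul_of_nonneg_left _ (wt_nonneg ha0.le ha1 W)
        have := h1 W
        rwa [Finset.sum_const, nsmul_eq_mul] at this
    _ = (∑ W : Finset E, wt a W * (((𝒯 W).card : ℕ) : ℝ)) * (N0 * (1 / B) ^ t) := by
        rw [Finset.sum_mul]
        refine Finset.sum_congr rfl fun W _ => by ring
    _ ≤ ((1 / a) ^ t * k.choose t) * (N0 * (1 / B) ^ t) := mul_le_mul_of_nonneg_right h2 hc0
    _ = N0 * (k.choose t * (1 / (a * B)) ^ t) := by
        have : (1 / (a * B)) ^ t = (1 / a) ^ t * (1 / B) ^ t := by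
          rw [← mul_pow]; congr 1; field_simp
        rw [this]; ring

open Classical in
/-- no member of the family inside `y` -/
noncomputable def none (I : Finset ι) (S : ι → Finset E) (y : Finset E) : ℝ :=
  if ∃ i ∈ I, S i ⊆ y then 0 else 1

lemma none_anti (I : Finset ι) (S : ι → Finset E) : Anti (none I S) := by
  intro x y hxy
  simp only [none]
  split_ifs with h1 h2 h2
  · exact le_rfl
  · exact zero_le_one
  · obtain ⟨i, hi, hs⟩ := h2
    exact absurd ⟨i, hi, hs.trans hxy⟩ h1
  · exact le_rfl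

/-- error of one round with density `a` such that `a B ≥ 16` -/
lemma round_error {c : ℝ} (hc : 16 ≤ c) (k : ℕ) :
    ∑ t ∈ Finset.Ico (k / 2 + 1) (k + 1), (k.choose t : ℝ) * (1 / c) ^ t ≤ (1 / 2) * (1 / 2) ^ k := by
  have hc0 : 0 < c := by linarith
  have h1 : ∀ t ∈ Finset.Ico (k / 2 + 1) (k + 1), (k.choose t : ℝ) * (1 / c) ^ t ≤
      k.choose t * (1 / 4) ^ (k + 1) := by
    intro t ht
    rw [Finset.mem_Ico] at ht
    apply mul_le_mul_of_nonneg_left _ (Nat.cast_nonneg _)
    calc (1 / c) ^ t ≤ (1 / 16 : ℝ) ^ t := by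
          apply pow_le_pow_left₀ (by positivity)
          exact one_div_le_one_div_of_le (by norm_num) hc
      _ = (1 / 4 : ℝ) ^ (2 * t) := by rw [pow_mul]; norm_num
      _ ≤ (1 / 4) ^ (k + 1) := pow_le_pow_of_le_one (by norm_num) (by norm_num) (by omega)
  refine (Finset.sum_le_sum h1).trans ?_
  rw [← Finset.sum_mul]
  have h2 : ∑ t ∈ Finset.Ico (k / 2 + 1) (k + 1), (k.choose t : ℝ) ≤ 2 ^ k := by
    have e1 : ∑ t ∈ Finset.Ico (k / 2 + 1) (k + 1), (k.choose t : ℝ) ≤
        ∑ t ∈ Finset.range (k + 1), (k.choose t : ℝ) := by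
      apply Finset.sum_le_sum_of_subset_of_nonneg
      · intro t ht
        rw [Finset.mem_Ico] at ht
        rw [Finset.mem_range]; exact ht.2
      · intro t _ _; positivity
    have e2 := Nat.sum_range_choose k
    have e3 : ∑ t ∈ Finset.range (k + 1), (k.choose t : ℝ) = 2 ^ k := by exact_mod_cast e2
    rw [e3] at e1
    exact e1
  calc (∑ t ∈ Finset.Ico (k / 2 + 1) (k + 1), (k.choose t : ℝ)) * (1 / 4) ^ (k + 1)
      ≤ 2 ^ k * (1 / 4) ^ (k + 1) := mul_le_mul_of_nonneg_right h2 (by positivity)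
    _ = (1 / 4) * (1 / 2) ^ k := by
        rw [pow_succ, ← mul_assoc, ← mul_pow]; norm_num; ring
    _ ≤ (1 / 2) * (1 / 2) ^ k := mul_le_mul_of_nonneg_right (by norm_num) (by positivity)

open Classical in
/-- The spread lemma, `ℓ` rounds of `n` steps. -/
lemma spread_rounds {δ B : ℝ} (h0 : 0 ≤ δ) (h1 : δ ≤ 1) (hB : 0 < B) (n : ℕ)
    (hBa : 16 ≤ B * NegLim.dens δ n) (N0 : ℝ) (hN0 : 0 < N0) :
    ∀ (ℓ k : ℕ), k < 2 ^ ℓ → ∀ (I : Finset ι) (S : ι → Finset E), (∀ i ∈ I, (S i).card ≤ k) →
      (∀ D : Finset E, D.Nonempty →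
        ((I.filter (fun i => D ⊆ S i)).card : ℝ) ≤ N0 * (1 / B) ^ D.card) →
      (I.card : ℝ) ≤ N0 →
      Tn δ (n * ℓ) (none I S) ∅ ≤ 1 - I.card / N0 + (1 / 2) * (1 - (1 / 2) ^ k) := by
  set a := NegLim.dens δ n with ha
  have ha1 : a ≤ 1 := dens_le_one h0 h1 n
  have ha0 : 0 < a := by
    by_contra hcon
    push Not at hcon
    have : B * a ≤ 0 := mul_nonpos_of_nonneg_of_nonpos hB.le hcon
    linarith
  -- size bound zero
  have hzero : ∀ (m : ℕ) (I : Finset ι) (S : ι → Finset E), (∀ i ∈ I, (S i).card ≤ 0) →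
      (I.card : ℝ) ≤ N0 → Tn δ m (none I S) ∅ ≤ 1 - I.card / N0 := by
    intro m I S hS hI
    rcases I.eq_empty_or_nonempty with rfl | ⟨i, hi⟩
    · have : Tn δ m (none (∅ : Finset ι) S) ∅ ≤ Tn δ m (fun _ : Finset E => (1 : ℝ)) ∅ := by
        apply Tn_mono h0 h1
        intro y
        unfold none
        split_ifs <;> norm_num
      rw [Tn_const] at this
      simpa using this
    · have h2 : none I S = fun _ => (0 : ℝ) := by
        funext y
        unfold none
        rw [if_pos]
        refine ⟨i, hi, ?_⟩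
        have := hS i hi
        rw [Nat.le_zero, Finset.card_eq_zero] at this
        rw [this]; exact Finset.empty_subset _
      rw [h2, Tn_const]
      have : (I.card : ℝ) / N0 ≤ 1 := by rw [div_le_one hN0]; exact hI
      linarith
  intro ℓ
  induction ℓ with
  | zero =>
    intro k hk I S hS _ hI
    have hk0 : k = 0 := by simpa using hk
    subst hk0
    have := hzero (n * 0) I S hS hI
    simpa using this
  | succ ℓ ih =>
    intro k hk I S hS hspread hI
    rcases Nat.eq_zero_or_pos k with hk0 | hkpos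
    · subst hk0
      have := hzero (n * (ℓ + 1)) I S hS hI
      simpa using this
    -- one round
    have hk2 : k / 2 < 2 ^ ℓ := by
      rw [pow_succ] at hk; omega
    let bad : Finset E → Finset ι := fun W => I.filter (fun i => k / 2 < (frag I S W i).card)
    let good : Finset E → Finset ι := fun W => I.filter (fun i => ¬ k / 2 < (frag I S W i).card)
    have hsplit : ∀ W, ((bad W).card : ℝ) + (good W).card = I.card := by
      intro W
      exact_mod_cast Finset.card_filter_add_card_filter_not (s := I)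
        (fun i => k / 2 < (frag I S W i).card)
    have hstep : ∀ W : Finset E, Tn δ (n * ℓ) (none I S) W ≤
        1 - (good W).card / N0 + (1 / 2) * (1 - (1 / 2) ^ (k / 2)) := by
      intro W
      rw [Tn_translate' (none I S) (n * ℓ) W]
      have hle : Tn δ (n * ℓ) (fun z => none I S (W ∪ z)) ∅ ≤
          Tn δ (n * ℓ) (none (good W) (frag I S W)) ∅ := by
        apply Tn_mono h0 h1
        intro z
        unfold none
        split_ifs with e1 e2 e2
        · exact le_rfl
        · exact zero_le_one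
        · exfalso
          obtain ⟨i, hi, hs⟩ := e2
          simp only [good, Finset.mem_filter] at hi
          obtain ⟨j, hj, hsj⟩ := frag_exists_member I S W i hi.1
          exact e1 ⟨j, hj, hsj.trans (Finset.union_subset_union_right hs)⟩
        · exact le_rfl
      refine hle.trans ?_
      apply ih (k / 2) hk2 (good W) (frag I S W)
      · intro i hi
        simp only [good, Finset.mem_filter] at hi
        omega
      · intro D hD
        refine le_trans ?_ (hspread D hD)
        have : (good W).filter (fun i => D ⊆ frag I S W i) ⊆ I.filter (fun i => D ⊆ S i) := by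
          intro i hi
          simp only [good, Finset.mem_filter] at hi ⊢
          exact ⟨hi.1.1, hi.2.trans (frag_subset I S W i hi.1.1)⟩
        exact_mod_cast Finset.card_le_card this
      · refine le_trans ?_ hI
        exact_mod_cast Finset.card_filter_le _ _
    -- expected number of bad indices
    have hbad : ∑ W : Finset E, wt a W * ((bad W).card : ℝ) ≤ N0 * ((1 / 2) * (1 / 2) ^ k) := by
      have e1 : ∀ W : Finset E, ((bad W).card : ℝ) ≤ ∑ t ∈ Finset.Ico (k / 2 + 1) (k + 1),
          ((I.filter (fun i => (frag I S W i).card = t)).card : ℝ) := by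
        intro W
        have hsub : bad W ⊆ (Finset.Ico (k / 2 + 1) (k + 1)).biUnion
            (fun t => I.filter (fun i => (frag I S W i).card = t)) := by
          intro i hi
          simp only [bad, Finset.mem_filter] at hi
          simp only [Finset.mem_biUnion, Finset.mem_Ico, Finset.mem_filter]
          refine ⟨_, ⟨hi.2, ?_⟩, hi.1, rfl⟩
          have := (Finset.card_le_card (frag_subset I S W i hi.1)).trans (hS i hi.1)
          omega
        exact_mod_cast (Finset.card_le_card hsub).trans Finset.card_biUnion_le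
      calc ∑ W : Finset E, wt a W * ((bad W).card : ℝ)
          ≤ ∑ W : Finset E, wt a W * ∑ t ∈ Finset.Ico (k / 2 + 1) (k + 1),
            ((I.filter (fun i => (frag I S W i).card = t)).card : ℝ) := by
            apply Finset.sum_le_sum
            intro W _
            exact mul_le_mul_of_nonneg_left (e1 W) (wt_nonneg ha0.le ha1 W)
        _ = ∑ t ∈ Finset.Ico (k / 2 + 1) (k + 1), ∑ W : Finset E,
            wt a W * ((I.filter (fun i => (frag I S W i).card = t)).card : ℝ) := by
            simp_rw [Finset.mul_sum]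
            rw [Finset.sum_comm]
        _ ≤ ∑ t ∈ Finset.Ico (k / 2 + 1) (k + 1), N0 * (k.choose t * (1 / (a * B)) ^ t) := by
            apply Finset.sum_le_sum
            intro t ht
            rw [Finset.mem_Ico] at ht
            exact frag_count ha0 ha1 hB k t N0 hN0.le I S hS (by omega) hspread
        _ = N0 * ∑ t ∈ Finset.Ico (k / 2 + 1) (k + 1), (k.choose t * (1 / (a * B)) ^ t) := by
            rw [Finset.mul_sum]
        _ ≤ N0 * ((1 / 2) * (1 / 2) ^ k) := by
            apply mul_le_mul_of_nonneg_left _ hN0.le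
            apply round_error _ k
            rw [mul_comm]; exact hBa
    have e0 : n * (ℓ + 1) = n + n * ℓ := by ring
    rw [e0, Tn_add, Tn_eq_T, ← ha]
    unfold T
    have hsum : ∑ W : Finset E, wt a W * Tn δ (n * ℓ) (none I S) (∅ ∪ W) ≤
        ∑ W : Finset E, (wt a W * (1 - I.card / N0 + (1 / 2) * (1 - (1 / 2) ^ (k / 2))) +
          (wt a W * ((bad W).card : ℝ)) / N0) := by
      apply Finset.sum_le_sum
      intro W _
      rw [Finset.empty_union]
      have e2 := hstep W
      have e3 : (1 : ℝ) - (good W).card / N0 = 1 - I.card / N0 + (bad W).card / N0 := by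
        rw [← hsplit W]; ring
      rw [e3] at e2
      have := mul_le_mul_of_nonneg_left e2 (wt_nonneg ha0.le ha1 W)
      refine this.trans (le_of_eq ?_)
      ring
    refine hsum.trans ?_
    rw [Finset.sum_add_distrib, ← Finset.sum_mul, sum_wt (E := E) a, one_mul, ← Finset.sum_div]
    have e4 : (∑ W : Finset E, wt a W * ((bad W).card : ℝ)) / N0 ≤ (1 / 2) * (1 / 2) ^ k := by
      rw [div_le_iff₀ hN0]
      linarith
    have e5 : (2 : ℝ) * (1 / 2) ^ k ≤ (1 / 2) ^ (k / 2) := by
      obtain ⟨k', rfl⟩ := Nat.exists_eq_add_of_le' hkpos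
      have : (2 : ℝ) * (1 / 2) ^ (k' + 1) = (1 / 2) ^ k' := by rw [pow_succ]; ring
      rw [this]
      exact pow_le_pow_of_le_one (by norm_num) (by norm_num) (by omega)
    linarith

end frag

/-- Robust sunflower lemma, one half-success round (`n * ℓ` steps). -/
lemma sunflower_half {δ : ℝ} (h0 : 0 ≤ δ) (h1 : δ ≤ 1) (n ℓ b j : ℕ) (B : ℝ) (hB : 0 < B)
    (hj : j ≤ 2 * b) (hℓ : 2 * b < 2 ^ ℓ) (hBa : 16 ≤ B * NegLim.dens δ n)
    (F : Finset (Finset E))
    (hF : ∀ A ∈ F, A.card = j) (hFc : B ^ j < F.card) :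
    ∃ K : Finset E, (∃ A ∈ F, K ⊂ A) ∧
      ∀ x, Tn δ (n * ℓ) (fun y => miss F (y ∪ K)) x ≤ 1 / 2 := by
  classical
  let P : Finset E → Prop := fun K => B ^ (j - K.card) < ((F.filter (fun A => K ⊆ A)).card : ℝ)
  have hP0 : P ∅ := by
    simp only [P, Finset.card_empty, Nat.sub_zero]
    have : F.filter (fun A => ∅ ⊆ A) = F := by
      apply Finset.filter_true_of_mem; intro A _; exact Finset.empty_subset A
    rw [this]; exact hFc
  obtain ⟨K, hK, hKmax⟩ := Finset.exists_max_image (univ.filter P) Finset.card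
    ⟨∅, by simp [hP0]⟩
  simp only [Finset.mem_filter, Finset.mem_univ, true_and] at hK hKmax
  set F' := F.filter (fun A => K ⊆ A) with hF'
  have hKj : K.card < j := by
    by_contra hcon
    push Not at hcon
    have h2 : F'.card ≤ 1 := by
      rw [Finset.card_le_one]
      intro A hA A' hA'
      rw [hF', Finset.mem_filter] at hA hA'
      have e1 : K = A := Finset.eq_of_subset_of_card_le hA.2 (by rw [hF A hA.1]; exact hcon)
      have e2 : K = A' := Finset.eq_of_subset_of_card_le hA'.2 (by rw [hF A' hA'.1]; exact hcon)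
      rw [← e1, ← e2]
    have h3 : P K := hK
    simp only [P, Nat.sub_eq_zero_of_le hcon, pow_zero] at h3
    rw [← hF'] at h3
    have : (F'.card : ℝ) ≤ 1 := by exact_mod_cast h2
    linarith
  set d := j - K.card with hd
  have hF'B : B ^ d < (F'.card : ℝ) := hK
  have hF'pos : (0 : ℝ) < F'.card := lt_trans (by positivity) hF'B
  have hmem : ∀ A ∈ F', A ∈ F ∧ K ⊆ A := fun A hA => by
    rw [hF', Finset.mem_filter] at hA; exact hA
  have hcardAK : ∀ A ∈ F', (A \ K).card = d := fun A hA => by
    rw [Finset.card_sdiff_of_subset (hmem A hA).2, hF A (hmem A hA).1]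
  refine ⟨K, ?_, ?_⟩
  · have : F'.Nonempty := by
      rw [← Finset.card_pos]; exact_mod_cast hF'pos
    obtain ⟨A, hA⟩ := this
    refine ⟨A, (hmem A hA).1, (hmem A hA).2, fun hAK => ?_⟩
    have := Finset.card_le_card hAK
    rw [hF A (hmem A hA).1] at this
    omega
  -- link degrees
  have hlink : ∀ D : Finset E, D.Nonempty →
      ((F'.filter (fun A => D ⊆ A \ K)).card : ℝ) ≤ F'.card * (1 / B) ^ D.card := by
    intro D hDne
    by_cases hDK : Disjoint D K
    swap
    · have : F'.filter (fun A => D ⊆ A \ K) = ∅ := by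
        apply Finset.filter_false_of_mem
        intro A _ hDA
        exact hDK (Finset.disjoint_of_subset_left hDA Finset.sdiff_disjoint)
      rw [this, Finset.card_empty, Nat.cast_zero]
      positivity
    by_cases hDd : D.card ≤ d
    swap
    · have : F'.filter (fun A => D ⊆ A \ K) = ∅ := by
        apply Finset.filter_false_of_mem
        intro A hA hDA
        have := Finset.card_le_card hDA
        rw [hcardAK A hA] at this
        exact hDd this
      rw [this, Finset.card_empty, Nat.cast_zero]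
      positivity
    have hcard : (K ∪ D).card = K.card + D.card := Finset.card_union_of_disjoint hDK.symm
    have hDpos : 0 < D.card := Finset.card_pos.mpr hDne
    have hnot : ¬ P (K ∪ D) := by
      intro hcon
      have := hKmax (K ∪ D) hcon
      omega
    have hsub : F'.filter (fun A => D ⊆ A \ K) ⊆ F.filter (fun A => K ∪ D ⊆ A) := by
      intro A hA
      simp only [hF', Finset.mem_filter, Finset.union_subset_iff] at hA ⊢
      exact ⟨hA.1.1, hA.1.2, hA.2.trans Finset.sdiff_subset⟩
    simp only [P, not_lt] at hnot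
    have hc : ((F'.filter (fun A => D ⊆ A \ K)).card : ℝ) ≤
        (F.filter (fun A => K ∪ D ⊆ A)).card := by exact_mod_cast Finset.card_le_card hsub
    refine hc.trans (hnot.trans ?_)
    have e : j - (K ∪ D).card = d - D.card := by omega
    rw [e]
    have e2 : B ^ (d - D.card) = B ^ d * (1 / B) ^ D.card := by
      rw [one_div, inv_pow, pow_sub₀ _ hB.ne' hDd]
    rw [e2]
    exact mul_le_mul_of_nonneg_right hF'B.le (by positivity)
  have hmain := spread_rounds (ι := Finset E) h0 h1 hB n hBa (F'.card : ℝ) hF'pos ℓ (2 * b) hℓ F'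
    (fun A => A \ K) (fun A hA => by rw [hcardAK A hA]; omega) hlink le_rfl
  rw [div_self hF'pos.ne', sub_self, zero_add] at hmain
  intro x
  have hanti := Tn_anti h0 h1 (miss_anti F K) (n * ℓ)
  refine (hanti ∅ x (Finset.empty_subset x)).trans ?_
  have hle : Tn δ (n * ℓ) (fun y => miss F (y ∪ K)) ∅ ≤
      Tn δ (n * ℓ) (none F' (fun A => A \ K)) ∅ := by
    apply Tn_mono h0 h1
    intro y
    unfold miss none
    split_ifs with hh1 hh2 hh2
    · exact le_rfl
    · exact zero_le_one
    · exfalso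
      obtain ⟨A, hA, hAy⟩ := hh2
      apply hh1
      refine ⟨A, (hmem A hA).1, ?_⟩
      intro e he
      by_cases heK : e ∈ K
      · exact Finset.mem_union_right _ heK
      · exact Finset.mem_union_left _ (hAy (Finset.mem_sdiff.mpr ⟨he, heK⟩))
    · exact le_rfl
  refine hle.trans (hmain.trans ?_)
  have : (0 : ℝ) ≤ (1 / 2) ^ (2 * b) := by positivity
  linarith

/-- Robust sunflower lemma with logarithmic loss. -/
lemma sunflower {δ : ℝ} (h0 : 0 ≤ δ) (h1 : δ ≤ 1) (n ℓ b j R : ℕ) (B : ℝ) (hB : 0 < B)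
    (hj : j ≤ 2 * b) (hℓ : 2 * b < 2 ^ ℓ) (hBa : 16 ≤ B * NegLim.dens δ n)
    (F : Finset (Finset E))
    (hF : ∀ A ∈ F, A.card = j) (hFc : B ^ j < F.card) :
    ∃ K : Finset E, (∃ A ∈ F, K ⊂ A) ∧
      Tn δ (n * ℓ * R) (fun y => miss F (y ∪ K)) ∅ ≤ (1 / 2) ^ R := by
  obtain ⟨K, hK, hhalf⟩ := sunflower_half h0 h1 n ℓ b j B hB hj hℓ hBa F hF hFc
  refine ⟨K, hK, ?_⟩
  have := amplify h0 h1 (n * ℓ) R _ (miss_anti F K) (fun y => miss_zero_or_one F _) hhalf ∅
  refine this.trans ?_
  have h2 : miss F (∅ ∪ K) ≤ 1 := by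
    rcases miss_zero_or_one F (∅ ∪ K) with h | h <;> rw [h]; exact zero_le_one
  have h3 : (0 : ℝ) ≤ (1 / 2) ^ R := by positivity
  nlinarith

end Pool.Agent.Rec82
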